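import Mathlib

/-!
Linear differential operators with polynomial coefficients acting on functions of a real variable, and
the transfer of all equations from one solution of a minimal operator to another.
-/

namespace Pool.Agent.H65.ST

open Polynomial Filter Topology

noncomputable section

/-- the operator `∑ A_k(ξ) (d/dξ)^k` applied to `f` -/
def act (A : ℂ[X][X]) (f : ℝ → ℂ) (ξ : ℝ) : ℂ :=
  A.sum fun k a => a.eval (ξ : ℂ) * iteratedDeriv k f ξ

lemma act_eq_sum_range (A : ℂ[X][X]) (f : ℝ → ℂ) (ξ : ℝ) {n : ℕ} (hn : A.natDegree < n) :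
    act A f ξ = ∑ k ∈ Finset.range n, (A.coeff k).eval (ξ : ℂ) * iteratedDeriv k f ξ := by
  unfold act
  exact Polynomial.sum_over_range' A (fun k => by simp) n hn

lemma act_zero (f : ℝ → ℂ) (ξ : ℝ) : act 0 f ξ = 0 := by unfold act; simp

lemma act_add (A B : ℂ[X][X]) (f : ℝ → ℂ) (ξ : ℝ) : act (A + B) f ξ = act A f ξ + act B f ξ := by
  unfold act
  rw [Polynomial.sum_add_index]
  · intro i; simp
  · intro i a b; simp [add_mul]

lemma act_monomial (k : ℕ) (a : ℂ[X]) (f : ℝ → ℂ) (ξ : ℝ) :
    act (monomial k a) f ξ = a.eval (ξ : ℂ) * iteratedDeriv k f ξ := by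
  unfold act
  rw [Polynomial.sum_monomial_index]
  simp

lemma act_C_mul (d : ℂ[X]) (A : ℂ[X][X]) (f : ℝ → ℂ) (ξ : ℝ) :
    act (C d * A) f ξ = d.eval (ξ : ℂ) * act A f ξ := by
  induction A using Polynomial.induction_on' with
  | add p q hp hq => rw [mul_add, act_add, act_add, hp, hq, mul_add]
  | monomial n a => rw [C_mul_monomial, act_monomial, act_monomial, eval_mul, mul_assoc]

lemma act_neg (A : ℂ[X][X]) (f : ℝ → ℂ) (ξ : ℝ) : act (-A) f ξ = - act A f ξ := by
  have h := act_C_mul (-1) A f ξ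
  have h2 : C (-1 : ℂ[X]) * A = -A := by rw [C_neg, C_1]; ring
  rw [h2] at h
  rw [h]; simp

lemma act_sub (A B : ℂ[X][X]) (f : ℝ → ℂ) (ξ : ℝ) : act (A - B) f ξ = act A f ξ - act B f ξ := by
  rw [sub_eq_add_neg, act_add, act_neg, ← sub_eq_add_neg]

lemma act_sub_fun (A : ℂ[X][X]) {f g : ℝ → ℂ} (hf : ContDiff ℝ (⊤ : ℕ∞) f)
    (hg : ContDiff ℝ (⊤ : ℕ∞) g) (ξ : ℝ) :
    act A (f - g) ξ = act A f ξ - act A g ξ := by
  induction A using Polynomial.induction_on' with
  | add p q hp hq => rw [act_add, act_add, act_add, hp, hq]; ring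
  | monomial n a =>
    rw [act_monomial, act_monomial, act_monomial, iteratedDeriv_sub]
    · ring
    · exact (hf.of_le (by exact_mod_cast le_top)).contDiffAt
    · exact (hg.of_le (by exact_mod_cast le_top)).contDiffAt

/-- coefficientwise derivative -/
def dcoef (A : ℂ[X][X]) : ℂ[X][X] := A.sum fun k a => monomial k (derivative a)

lemma dcoef_add (A B : ℂ[X][X]) : dcoef (A + B) = dcoef A + dcoef B := by
  unfold dcoef
  rw [Polynomial.sum_add_index]
  · intro i; simp
  · intro i a b; simp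

lemma dcoef_monomial (k : ℕ) (a : ℂ[X]) : dcoef (monomial k a) = monomial k (derivative a) := by
  unfold dcoef
  rw [Polynomial.sum_monomial_index]
  simp

lemma coeff_dcoef (A : ℂ[X][X]) (k : ℕ) : (dcoef A).coeff k = derivative (A.coeff k) := by
  induction A using Polynomial.induction_on' with
  | add p q hp hq => rw [dcoef_add, coeff_add, hp, hq, coeff_add, derivative_add]
  | monomial n a =>
    rw [dcoef_monomial, coeff_monomial, coeff_monomial]
    split_ifs <;> simp

/-- the operator `d/dξ ∘ A` -/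
def dop (A : ℂ[X][X]) : ℂ[X][X] := X * A + dcoef A

lemma dop_add (A B : ℂ[X][X]) : dop (A + B) = dop A + dop B := by
  unfold dop; rw [dcoef_add]; ring

lemma hasDerivAt_iteratedDeriv {f : ℝ → ℂ} (hf : ContDiff ℝ (⊤ : ℕ∞) f) (k : ℕ) (ξ : ℝ) :
    HasDerivAt (iteratedDeriv k f) (iteratedDeriv (k + 1) f ξ) ξ := by
  have h1 : Differentiable ℝ (iteratedDeriv k f) :=
    hf.differentiable_iteratedDeriv k (by exact_mod_cast WithTop.coe_lt_top k)
  have h2 := (h1 ξ).hasDerivAt
  rwa [← iteratedDeriv_succ] at h2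

lemma hasDerivAt_evalC (a : ℂ[X]) (ξ : ℝ) :
    HasDerivAt (fun t : ℝ => a.eval (t : ℂ)) ((derivative a).eval (ξ : ℂ)) ξ :=
  (a.hasDerivAt (ξ : ℂ)).comp_ofReal

lemma hasDerivAt_act (A : ℂ[X][X]) {f : ℝ → ℂ} (hf : ContDiff ℝ (⊤ : ℕ∞) f) (ξ : ℝ) :
    HasDerivAt (act A f) (act (dop A) f ξ) ξ := by
  induction A using Polynomial.induction_on' with
  | add p q hp hq =>
    have h1 : act (p + q) f = act p f + act q f := by ext t; exact act_add p q f t
    rw [h1, dop_add, act_add]
    exact hp.add hq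
  | monomial n a =>
    have h1 : act (monomial n a) f = fun t : ℝ => a.eval (t : ℂ) * iteratedDeriv n f t := by
      ext t; exact act_monomial n a f t
    rw [h1]
    have h2 := (hasDerivAt_evalC a ξ).mul (hasDerivAt_iteratedDeriv hf n ξ)
    refine h2.congr_deriv ?_
    unfold dop
    rw [act_add, dcoef_monomial, act_monomial, X_mul_monomial, act_monomial]
    ring

lemma act_dop (A : ℂ[X][X]) {f : ℝ → ℂ} (hf : ContDiff ℝ (⊤ : ℕ∞) f) (h : ∀ ξ, act A f ξ = 0) :
    ∀ ξ, act (dop A) f ξ = 0 := by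
  intro ξ
  have h1 := (hasDerivAt_act A hf ξ).deriv
  have h2 : act A f = fun _ => 0 := by ext t; exact h t
  rw [h2, deriv_const] at h1
  exact h1.symm

lemma continuous_act (A : ℂ[X][X]) {f : ℝ → ℂ} (hf : ContDiff ℝ (⊤ : ℕ∞) f) :
    Continuous (act A f) :=
  continuous_iff_continuousAt.mpr fun ξ => (hasDerivAt_act A hf ξ).continuousAt

lemma contDiff_act (A : ℂ[X][X]) {f : ℝ → ℂ} (hf : ContDiff ℝ (⊤ : ℕ∞) f) :
    ContDiff ℝ (⊤ : ℕ∞) (act A f) := by
  have key : ∀ (k : ℕ) (B : ℂ[X][X]), iteratedDeriv k (act B f) = act (dop^[k] B) f := by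
    intro k
    induction k with
    | zero => intro B; simp
    | succ k ih =>
      intro B
      rw [iteratedDeriv_succ', Function.iterate_succ_apply]
      have h1 : deriv (act B f) = act (dop B) f := by
        ext ξ; exact (hasDerivAt_act B hf ξ).deriv
      rw [h1, ih]
  refine contDiff_of_differentiable_iteratedDeriv ?_
  intro m _
  rw [key]
  exact fun ξ => (hasDerivAt_act _ hf ξ).differentiableAt

lemma coeff_dop_iter (R : ℂ[X][X]) (j : ℕ) :
    (dop^[j] R).natDegree ≤ R.natDegree + j ∧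
      (dop^[j] R).coeff (R.natDegree + j) = R.coeff R.natDegree := by
  induction j with
  | zero => simp
  | succ j ih =>
    rw [Function.iterate_succ_apply']
    obtain ⟨h1, h2⟩ := ih
    generalize dop^[j] R = B at h1 h2 ⊢
    constructor
    · unfold dop
      refine (natDegree_add_le _ _).trans (max_le ?_ ?_)
      · refine natDegree_mul_le.trans ?_
        have := natDegree_X_le (R := ℂ[X])
        omega
      · rw [natDegree_le_iff_coeff_eq_zero]
        intro N hN
        rw [coeff_dcoef, coeff_eq_zero_of_natDegree_lt (by omega)]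
        simp
    · unfold dop
      rw [coeff_add, coeff_dcoef, show R.natDegree + (j + 1) = (R.natDegree + j) + 1 by ring,
        coeff_X_mul, h2, coeff_eq_zero_of_natDegree_lt (n := R.natDegree + j + 1) (by omega)]
      simp

lemma finite_zeros {d : ℂ[X]} (hd : d ≠ 0) : {ξ : ℝ | d.eval (ξ : ℂ) = 0}.Finite := by
  have h1 : {z : ℂ | d.eval z = 0}.Finite := by
    have := d.roots.toFinset.finite_toSet
    refine this.subset fun z hz => ?_
    simp only [Finset.mem_coe, Multiset.mem_toFinset]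
    exact (mem_roots hd).mpr hz
  exact h1.preimage (Complex.ofReal_injective.injOn)

lemma zero_of_mul_zero {d : ℂ[X]} (hd : d ≠ 0) {F : ℝ → ℂ} (hF : Continuous F)
    (h : ∀ ξ : ℝ, d.eval (ξ : ℂ) * F ξ = 0) : ∀ ξ, F ξ = 0 := by
  have h1 : Dense {ξ : ℝ | d.eval (ξ : ℂ) = 0}ᶜ :=
    (finite_zeros hd).countable.dense_compl ℝ
  have h2 : F = fun _ => 0 := by
    refine Continuous.ext_on h1 hF continuous_const ?_
    intro ξ hξ
    have := h ξ
    rcases mul_eq_zero.mp this with h3 | h3
    · exact absurd h3 hξ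
    · exact h3
  intro ξ
  rw [h2]

/-- **Transfer**: if `R` is an operator of least order killing `φ` and `R` kills `ψ`, then every operator
killing `φ` kills `ψ`. -/
theorem transfer {φ ψ : ℝ → ℂ} (hφ : ContDiff ℝ (⊤ : ℕ∞) φ) (hψ : ContDiff ℝ (⊤ : ℕ∞) ψ)
    {R : ℂ[X][X]} (hR : R ≠ 0) (hRφ : ∀ ξ, act R φ ξ = 0) (hRψ : ∀ ξ, act R ψ ξ = 0)
    (hmin : ∀ A : ℂ[X][X], A.natDegree < R.natDegree → (∀ ξ, act A φ ξ = 0) → A = 0)
    (A : ℂ[X][X]) (hA : ∀ ξ, act A φ ξ = 0) : ∀ ξ, act A ψ ξ = 0 := by
  have hdop : ∀ (f : ℝ → ℂ), ContDiff ℝ (⊤ : ℕ∞) f → (∀ ξ, act R f ξ = 0) →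
      ∀ j ξ, act (dop^[j] R) f ξ = 0 := by
    intro f hf h0 j
    induction j with
    | zero => simpa using h0
    | succ j ih =>
      rw [Function.iterate_succ_apply']
      exact act_dop _ hf ih
  have main : ∀ n : ℕ, ∀ A : ℂ[X][X], A.degree < n → (∀ ξ, act A φ ξ = 0) →
      ∀ ξ, act A ψ ξ = 0 := by
    intro n
    induction n with
    | zero =>
      intro A hA _ ξ
      have : A = 0 := by
        rw [← degree_eq_bot]
        by_contra hne
        have := zero_le_degree_iff.mpr (degree_ne_bot.mp hne)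
        exact absurd hA (not_lt.mpr (by simpa using this))
      rw [this, act_zero]
    | succ n ih =>
      intro A hdeg hAφ
      rcases lt_or_ge A.natDegree R.natDegree with hlt | hge
      · have := hmin A hlt hAφ
        intro ξ; rw [this, act_zero]
      by_cases hA0 : A = 0
      · intro ξ; rw [hA0, act_zero]
      obtain ⟨j, hj⟩ := Nat.exists_eq_add_of_le hge
      have hβ : R.coeff R.natDegree ≠ 0 := by
        rw [coeff_natDegree]; exact leadingCoeff_ne_zero.mpr hR
      set β := R.coeff R.natDegree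
      set α := A.coeff A.natDegree
      obtain ⟨hd1, hd2⟩ := coeff_dop_iter R j
      set B : ℂ[X][X] := C β * A - C α * dop^[j] R with hB
      have hBdeg : B.degree < n := by
        have h1 : A.natDegree ≤ n := by
          have := (natDegree_lt_iff_degree_lt hA0).mpr hdeg
          omega
        rw [degree_lt_iff_coeff_zero]
        intro m hm
        rw [hB, coeff_sub, coeff_C_mul, coeff_C_mul]
        rcases eq_or_lt_of_le (h1.trans hm) with h2 | h2
        · rw [← h2]
          have h3 : (dop^[j] R).coeff A.natDegree = β := by rw [hj]; exact hd2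
          rw [h3]
          ring
        · rw [coeff_eq_zero_of_natDegree_lt h2, coeff_eq_zero_of_natDegree_lt (by omega)]
          ring
      have hBφ : ∀ ξ, act B φ ξ = 0 := by
        intro ξ
        rw [hB, act_sub, act_C_mul, act_C_mul, hAφ, hdop φ hφ hRφ]
        ring
      have hBψ := ih B hBdeg hBφ
      refine zero_of_mul_zero hβ (continuous_act A hψ) ?_
      intro ξ
      have h1 := hBψ ξ
      rw [hB, act_sub, act_C_mul, act_C_mul, hdop ψ hψ hRψ] at h1
      simpa using h1
  refine main (A.natDegree + 1) A ?_ hA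
  exact lt_of_le_of_lt degree_le_natDegree (by exact_mod_cast Nat.lt_succ_self _)

end

end Pool.Agent.H65.ST
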