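import Mathlib

/-!
Characteristic-type functionals `Phi μ h g ξ = ∫ g(x) exp(i ξ h(x)) dμ` of a measure with all moments.
-/

namespace Pool.Agent.H65.ST

open MeasureTheory Polynomial Complex Filter Topology

noncomputable section

/-- `μ` has all moments -/
def AllMom (μ : Measure ℝ) : Prop := ∀ n : ℕ, Integrable (fun x : ℝ => x ^ n) μ

lemma AllMom.poly {μ : Measure ℝ} (h : AllMom μ) (g : ℂ[X]) :
    Integrable (fun x : ℝ => g.eval (x : ℂ)) μ := by
  induction g using Polynomial.induction_on' with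
  | add p q hp hq => exact (hp.add hq).congr (Eventually.of_forall fun x => by simp)
  | monomial n a =>
    have := ((h n).ofReal (𝕜 := ℂ)).const_mul a
    simpa using this

lemma AllMom.realPoly {μ : Measure ℝ} (h : AllMom μ) (g : ℝ[X]) :
    Integrable (fun x : ℝ => g.eval x) μ := by
  induction g using Polynomial.induction_on' with
  | add p q hp hq => exact (hp.add hq).congr (Eventually.of_forall fun x => by simp)
  | monomial n a =>
    have := (h n).const_mul a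
    simpa using this

/-- the real polynomial `h` as a complex polynomial -/
abbrev toC (h : ℝ[X]) : ℂ[X] := h.map (algebraMap ℝ ℂ)

lemma eval_toC (h : ℝ[X]) (x : ℝ) : (toC h).eval (x : ℂ) = ((h.eval x : ℝ) : ℂ) := by
  unfold toC
  rw [Polynomial.eval_map]
  exact Polynomial.eval₂_at_apply (algebraMap ℝ ℂ) x

/-- `∫ g(x) exp(i ξ h(x)) dμ(x)` -/
def Phi (μ : Measure ℝ) (h : ℝ[X]) (g : ℂ[X]) (ξ : ℝ) : ℂ :=
  ∫ x, g.eval (x : ℂ) * cexp (I * ξ * ((h.eval x : ℝ) : ℂ)) ∂μ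

lemma norm_expI (ξ y : ℝ) : ‖cexp (I * ξ * (y : ℂ))‖ = 1 := by
  rw [show I * (ξ : ℂ) * (y : ℂ) = ((ξ * y : ℝ) : ℂ) * I by push_cast; ring]
  exact norm_exp_ofReal_mul_I _

lemma cont_integrand (h : ℝ[X]) (g : ℂ[X]) (ξ : ℝ) :
    Continuous (fun x : ℝ => g.eval (x : ℂ) * cexp (I * ξ * ((h.eval x : ℝ) : ℂ))) := by
  have h1 : Continuous (fun x : ℝ => g.eval (x : ℂ)) := g.continuous.comp continuous_ofReal
  have h2 : Continuous (fun x : ℝ => ((h.eval x : ℝ) : ℂ)) := continuous_ofReal.comp h.continuous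
  exact h1.mul (continuous_exp.comp (continuous_const.mul h2))

lemma integrable_integrand {μ : Measure ℝ} (hμ : AllMom μ) (h : ℝ[X]) (g : ℂ[X]) (ξ : ℝ) :
    Integrable (fun x : ℝ => g.eval (x : ℂ) * cexp (I * ξ * ((h.eval x : ℝ) : ℂ))) μ := by
  refine (hμ.poly g).mono (cont_integrand h g ξ).aestronglyMeasurable ?_
  refine Eventually.of_forall fun x => ?_
  rw [norm_mul, norm_expI, mul_one]

lemma Phi_add {μ : Measure ℝ} (hμ : AllMom μ) (h : ℝ[X]) (g₁ g₂ : ℂ[X]) (ξ : ℝ) :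
    Phi μ h (g₁ + g₂) ξ = Phi μ h g₁ ξ + Phi μ h g₂ ξ := by
  unfold Phi
  rw [← integral_add (integrable_integrand hμ h g₁ ξ) (integrable_integrand hμ h g₂ ξ)]
  congr 1
  ext x
  simp only [eval_add]
  ring

lemma Phi_C_mul (μ : Measure ℝ) (h : ℝ[X]) (c : ℂ) (g : ℂ[X]) (ξ : ℝ) :
    Phi μ h (C c * g) ξ = c * Phi μ h g ξ := by
  unfold Phi
  rw [← integral_const_mul]
  congr 1
  ext x
  simp only [eval_mul, eval_C]
  ring

lemma Phi_zero (μ : Measure ℝ) (h : ℝ[X]) (ξ : ℝ) : Phi μ h 0 ξ = 0 := by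
  unfold Phi; simp

lemma Phi_neg (μ : Measure ℝ) (h : ℝ[X]) (g : ℂ[X]) (ξ : ℝ) : Phi μ h (-g) ξ = - Phi μ h g ξ := by
  have := Phi_C_mul μ h (-1) g ξ
  simpa using this

lemma Phi_sub {μ : Measure ℝ} (hμ : AllMom μ) (h : ℝ[X]) (g₁ g₂ : ℂ[X]) (ξ : ℝ) :
    Phi μ h (g₁ - g₂) ξ = Phi μ h g₁ ξ - Phi μ h g₂ ξ := by
  rw [sub_eq_add_neg, Phi_add hμ, Phi_neg, ← sub_eq_add_neg]

lemma Phi_sum {μ : Measure ℝ} (hμ : AllMom μ) (h : ℝ[X]) {ι : Type*} (s : Finset ι) (g : ι → ℂ[X])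
    (ξ : ℝ) : Phi μ h (∑ i ∈ s, g i) ξ = ∑ i ∈ s, Phi μ h (g i) ξ := by
  classical
  induction s using Finset.induction_on with
  | empty => simp [Phi_zero]
  | insert a s ha ih => rw [Finset.sum_insert ha, Finset.sum_insert ha, Phi_add hμ, ih]

lemma hasDerivAt_Phi {μ : Measure ℝ} (hμ : AllMom μ) (h : ℝ[X]) (g : ℂ[X]) (ξ : ℝ) :
    HasDerivAt (Phi μ h g) (I * Phi μ h (toC h * g) ξ) ξ := by
  have key := hasDerivAt_integral_of_dominated_loc_of_deriv_le (μ := μ) (𝕜 := ℝ)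
    (F := fun (t : ℝ) (x : ℝ) => g.eval (x : ℂ) * cexp (I * t * ((h.eval x : ℝ) : ℂ)))
    (F' := fun (t : ℝ) (x : ℝ) => I * ((toC h * g).eval (x : ℂ) *
      cexp (I * t * ((h.eval x : ℝ) : ℂ))))
    (x₀ := ξ) (s := Set.univ) (bound := fun x => ‖(toC h * g).eval (x : ℂ)‖)
    Filter.univ_mem
    (Eventually.of_forall fun t => (cont_integrand h g t).aestronglyMeasurable)
    (integrable_integrand hμ h g ξ)
    ((cont_integrand h (toC h * g) ξ).const_mul I).aestronglyMeasurable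
    (Eventually.of_forall fun x t _ => by
      rw [norm_mul, norm_I, one_mul, norm_mul, norm_expI, mul_one])
    (hμ.poly (toC h * g)).norm
    (Eventually.of_forall fun x t _ => by
      have h1 : HasDerivAt (fun t : ℝ => I * (t : ℂ) * ((h.eval x : ℝ) : ℂ))
          (I * ((h.eval x : ℝ) : ℂ)) t := by
        have h0 : HasDerivAt (fun t : ℝ => (t : ℂ)) 1 t := ofRealCLM.hasDerivAt
        have := (h0.const_mul I).mul_const ((h.eval x : ℝ) : ℂ)
        simpa using this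
      have h2 := (h1.cexp).const_mul (g.eval (x : ℂ))
      refine h2.congr_deriv ?_
      rw [eval_mul, eval_toC]
      ring)
  have h3 := key.2
  have h4 : ∫ x, I * ((toC h * g).eval (x : ℂ) * cexp (I * ξ * ((h.eval x : ℝ) : ℂ))) ∂μ
      = I * Phi μ h (toC h * g) ξ := by
    rw [integral_const_mul]; rfl
  rw [h4] at h3
  exact h3

lemma iteratedDeriv_Phi {μ : Measure ℝ} (hμ : AllMom μ) (h : ℝ[X]) (g : ℂ[X]) (k : ℕ) :
    iteratedDeriv k (Phi μ h g) = fun ξ => I ^ k * Phi μ h (toC h ^ k * g) ξ := by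
  induction k generalizing g with
  | zero => ext ξ; simp
  | succ k ih =>
    rw [iteratedDeriv_succ']
    have h1 : deriv (Phi μ h g) = fun ξ => Phi μ h (C I * (toC h * g)) ξ := by
      ext ξ
      rw [(hasDerivAt_Phi hμ h g ξ).deriv, Phi_C_mul]
    have h2 : deriv (Phi μ h g) = Phi μ h (C I * (toC h * g)) := h1
    rw [h2, ih]
    ext ξ
    have h3 : toC h ^ k * (C I * (toC h * g)) = C I * (toC h ^ (k + 1) * g) := by ring
    rw [h3, Phi_C_mul]
    ring

lemma contDiff_Phi {μ : Measure ℝ} (hμ : AllMom μ) (h : ℝ[X]) (g : ℂ[X]) :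
    ContDiff ℝ (⊤ : ℕ∞) (Phi μ h g) := by
  refine contDiff_of_differentiable_iteratedDeriv ?_
  intro m _
  rw [iteratedDeriv_Phi hμ]
  intro ξ
  exact ((hasDerivAt_Phi hμ h (toC h ^ m * g) ξ).const_mul (I ^ m)).differentiableAt

/-- characteristic function -/
def cf (μ : Measure ℝ) : ℝ → ℂ := Phi μ X 1

lemma cf_eq_charFun (μ : Measure ℝ) (ξ : ℝ) : cf μ ξ = charFun μ ξ := by
  unfold cf Phi
  rw [charFun_apply_real]
  congr 1
  ext x
  simp only [eval_one, one_mul, eval_X]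
  congr 1
  ring

/-- push-forward by a polynomial: characteristic function -/
lemma cf_map (μ : Measure ℝ) (h : ℝ[X]) :
    cf (μ.map (fun x => h.eval x)) = Phi μ h 1 := by
  ext ξ
  unfold cf Phi
  rw [integral_map]
  · simp
  · exact h.continuous.measurable.aemeasurable
  · exact (cont_integrand X 1 ξ).aestronglyMeasurable

lemma AllMom.map {μ : Measure ℝ} (hμ : AllMom μ) (h : ℝ[X]) :
    AllMom (μ.map (fun x => h.eval x)) := by
  intro n
  rw [integrable_map_measure]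
  · have := hμ.realPoly (h ^ n)
    simpa [Function.comp_def] using this
  · exact (continuous_pow n).aestronglyMeasurable
  · exact h.continuous.measurable.aemeasurable

end

end Pool.Agent.H65.ST
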