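import Pool.Agent.H65.STDef
import Mathlib.Analysis.Calculus.Deriv.Basic

/-!
# The first-order system satisfied by the functions `F_j(ξ) = ∫ x^j e^{iξh(x)} dγ`
-/

namespace Pool.Agent.H65.ST

open Polynomial

/-- `Sys h z U`: on `U` the family `z` satisfies the Gaussian integration-by-parts relation and the
derivative relation of the functions `F_j(ξ) = ∫ x^j e^{iξh(x)} dγ(x)`. -/
structure Sys (h : ℝ[X]) (z : ℕ → ℝ → ℂ) (U : Set ℝ) : Prop where
  ibp : ∀ ξ ∈ U, ∀ j : ℕ, z (j + 1) ξ = (j : ℂ) * z (j - 1) ξ +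
    Complex.I * (ξ : ℂ) * ∑ l ∈ Finset.range h.natDegree,
      (((l : ℝ) + 1) * h.coeff (l + 1) : ℝ) * z (j + l) ξ
  der : ∀ ξ ∈ U, ∀ j : ℕ, HasDerivAt (z j)
    (Complex.I * ∑ l ∈ Finset.range (h.natDegree + 1), (h.coeff l : ℂ) * z (j + l) ξ) ξ

end Pool.Agent.H65.ST
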