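import Mathlib
import Pool.Agent.H65.ST1
import Pool.Agent.H65.STSys

/-!
The functions `F_j(ξ) = E[X^j e^{iξh(X)}]`, `X` standard normal: integration by parts, derivative, parity;
the support of the law of `h(X)`.
-/

namespace Pool.Agent.H65.ST

open MeasureTheory ProbabilityTheory Polynomial Complex Filter Topology

noncomputable section

/-- the standard Gaussian measure -/
abbrev gam : Measure ℝ := gaussianReal 0 1

lemma allMom_gauss : AllMom gam := by
  intro n
  rcases Nat.eq_zero_or_pos n with rfl | hn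
  · simp
  have h := memLp_id_gaussianReal (μ := 0) (v := 1) (n : NNReal)
  have h' : MemLp (id : ℝ → ℝ) (n : ENNReal) (gaussianReal 0 1) := by
    simpa using h
  have h2 := h'.integrable_norm_pow hn.ne'
  refine (integrable_norm_iff ?_).mp ?_
  · exact (continuous_pow n).aestronglyMeasurable
  · refine h2.congr (Eventually.of_forall fun x => ?_)
    simp

lemma integrable_gauss_iff {g : ℝ → ℂ} :
    Integrable g gam ↔ Integrable (fun x => gaussianPDFReal 0 1 x • g x) := by
  unfold gam
  rw [gaussianReal_of_var_ne_zero 0 one_ne_zero]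
  rw [integrable_withDensity_iff_integrable_smul' (measurable_gaussianPDF 0 1)
    (ae_of_all _ fun x => gaussianPDF_lt_top)]
  simp [toReal_gaussianPDF]

lemma hasDerivAt_pdf (x : ℝ) :
    HasDerivAt (gaussianPDFReal 0 1) (-x * gaussianPDFReal 0 1 x) x := by
  rw [gaussianPDFReal_def]
  simp only [NNReal.coe_one, mul_one, sub_zero]
  have h1 : HasDerivAt (fun y : ℝ => -y ^ 2 / 2) (-x) x := by
    have := ((hasDerivAt_pow 2 x).neg).div_const 2
    refine this.congr_deriv ?_
    simp only [Nat.cast_ofNat]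
    ring
  have h2 := (h1.exp).const_mul (√(2 * Real.pi))⁻¹
  refine h2.congr_deriv ?_
  ring

lemma gauss_ibp {G G' : ℝ → ℂ} (hG : ∀ x, HasDerivAt G (G' x) x) (h1 : Integrable G' gam)
    (h2 : Integrable (fun x : ℝ => (x : ℂ) * G x) gam) (h3 : Integrable G gam) :
    ∫ x, G' x ∂gam = ∫ x : ℝ, (x : ℂ) * G x ∂gam := by
  have hd : ∀ x, HasDerivAt (fun x => gaussianPDFReal 0 1 x • G x)
      (gaussianPDFReal 0 1 x • G' x - gaussianPDFReal 0 1 x • ((x : ℂ) * G x)) x := by
    intro x
    have := (hasDerivAt_pdf x).smul (hG x)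
    refine this.congr_deriv ?_
    simp only [Complex.real_smul]
    push_cast
    ring
  have hi1 := integrable_gauss_iff.mp h1
  have hi2 := integrable_gauss_iff.mp h2
  have hi3 := integrable_gauss_iff.mp h3
  have := integral_eq_zero_of_hasDerivAt_of_integrable hd (hi1.sub hi2) hi3
  rw [integral_sub hi1 hi2] at this
  rw [integral_gaussianReal_eq_integral_smul one_ne_zero,
    integral_gaussianReal_eq_integral_smul one_ne_zero]
  exact sub_eq_zero.mp this

lemma hasDerivAt_realPoly (h : ℝ[X]) (x : ℝ) :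
    HasDerivAt (fun x : ℝ => ((h.eval x : ℝ) : ℂ)) (((derivative h).eval x : ℝ) : ℂ) x :=
  (h.hasDerivAt x).ofReal_comp

lemma Phi_ibp (h : ℝ[X]) (g : ℂ[X]) (ξ : ℝ) :
    Phi gam h (X * g) ξ = Phi gam h (derivative g) ξ +
      I * ξ * Phi gam h (toC (derivative h) * g) ξ := by
  have hd : ∀ x : ℝ, HasDerivAt (fun x : ℝ => g.eval (x : ℂ) * cexp (I * ξ * ((h.eval x : ℝ) : ℂ)))
      ((derivative g).eval (x : ℂ) * cexp (I * ξ * ((h.eval x : ℝ) : ℂ)) +
        (I * ξ) * ((toC (derivative h) * g).eval (x : ℂ) *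
          cexp (I * ξ * ((h.eval x : ℝ) : ℂ)))) x := by
    intro x
    have h1 : HasDerivAt (fun x : ℝ => g.eval (x : ℂ)) ((derivative g).eval (x : ℂ)) x :=
      (g.hasDerivAt (x : ℂ)).comp_ofReal
    have h2 : HasDerivAt (fun x : ℝ => cexp (I * ξ * ((h.eval x : ℝ) : ℂ)))
        (cexp (I * ξ * ((h.eval x : ℝ) : ℂ)) * (I * ξ * (((derivative h).eval x : ℝ) : ℂ))) x :=
      ((hasDerivAt_realPoly h x).const_mul (I * (ξ : ℂ))).cexp
    refine (h1.mul h2).congr_deriv ?_
    rw [eval_mul, eval_toC]
    ring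
  have hi1 := integrable_integrand allMom_gauss h (derivative g) ξ
  have hi2 := (integrable_integrand allMom_gauss h (toC (derivative h) * g) ξ).const_mul (I * (ξ : ℂ))
  have hi3 := integrable_integrand allMom_gauss h (X * g) ξ
  have hi4 := integrable_integrand allMom_gauss h g ξ
  have key := gauss_ibp hd (hi1.add hi2) (hi3.congr (Eventually.of_forall fun x => by
    simp only [eval_mul, eval_X]; ring)) hi4
  rw [integral_add hi1 hi2, integral_const_mul] at key
  unfold Phi
  rw [key]
  congr 1
  ext x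
  simp only [eval_mul, eval_X]
  ring

lemma Phi_toC_mul (h : ℝ[X]) (a : ℝ[X]) (n : ℕ) (hn : a.natDegree < n) (j : ℕ) (ξ : ℝ) :
    Phi gam h (toC a * X ^ j) ξ = ∑ l ∈ Finset.range n, (a.coeff l : ℂ) * Phi gam h (X ^ (j + l)) ξ := by
  have h1 : toC a * X ^ j = ∑ l ∈ Finset.range n, C (a.coeff l : ℂ) * X ^ (j + l) := by
    have h2 : toC a = ∑ l ∈ Finset.range n, C (a.coeff l : ℂ) * X ^ l := by
      unfold toC
      conv_lhs => rw [a.as_sum_range' n hn]
      rw [Polynomial.map_sum]
      refine Finset.sum_congr rfl fun l _ => ?_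
      rw [map_monomial, ← C_mul_X_pow_eq_monomial]
      rfl
    rw [h2, Finset.sum_mul]
    refine Finset.sum_congr rfl fun l _ => ?_
    rw [mul_assoc, ← pow_add, add_comm l j]
  rw [h1, Phi_sum allMom_gauss]
  refine Finset.sum_congr rfl fun l _ => ?_
  rw [Phi_C_mul]

theorem sys_Phi (h : ℝ[X]) (hh : 0 < h.natDegree) : Sys h (fun j => Phi gam h (X ^ j)) Set.univ := by
  refine ⟨?_, ?_⟩
  · intro ξ _ j
    have h1 := Phi_ibp h (X ^ j) ξ
    rw [← pow_succ'] at h1
    rw [h1]
    have h2 : Phi gam h (derivative (X ^ j)) ξ = (j : ℂ) * Phi gam h (X ^ (j - 1)) ξ := by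
      rw [derivative_X_pow, Phi_C_mul]
    rw [h2, Phi_toC_mul h (derivative h) h.natDegree (natDegree_derivative_lt hh.ne')]
    congr 1
    congr 1
    refine Finset.sum_congr rfl fun l _ => ?_
    rw [coeff_derivative]
    push_cast
    ring
  · intro ξ _ j
    have h1 := hasDerivAt_Phi allMom_gauss h (X ^ j) ξ
    rwa [Phi_toC_mul h h (h.natDegree + 1) (Nat.lt_succ_self _)] at h1

/-- parity -/
lemma Phi_odd (h : ℝ[X]) (he : ∀ x, h.eval (-x) = h.eval x) {j : ℕ} (hj : Odd j) (ξ : ℝ) :
    Phi gam h (X ^ j) ξ = 0 := by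
  have h1 : Phi gam h (X ^ j) ξ = - Phi gam h (X ^ j) ξ := by
    have hmap : (gam).map (fun x => -x) = gam := by
      have := gaussianReal_map_neg (μ := 0) (v := 1)
      simpa using this
    conv_lhs =>
      unfold Phi
      rw [← hmap]
    rw [integral_map measurable_neg.aemeasurable (cont_integrand h _ ξ).aestronglyMeasurable]
    unfold Phi
    rw [← integral_neg]
    congr 1
    ext x
    simp only [eval_pow, eval_X, he]
    push_cast
    rw [hj.neg_pow]
    ring
  have h2 : (2 : ℂ) * Phi gam h (X ^ j) ξ = 0 := by linear_combination h1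
  simpa using h2

instance : (gam).IsOpenPosMeasure :=
  (gaussianReal_absolutelyContinuous' 0 one_ne_zero).isOpenPosMeasure

lemma support_map_cont {f : ℝ → ℝ} (hf : Continuous f) :
    (gam.map f).support = closure (Set.range f) := by
  apply Set.Subset.antisymm
  · refine Measure.support_subset_of_isClosed isClosed_closure ?_
    rw [mem_ae_iff, Measure.map_apply hf.measurable isClosed_closure.measurableSet.compl]
    have : f ⁻¹' (closure (Set.range f))ᶜ = ∅ := by
      ext x
      simp only [Set.mem_preimage, Set.mem_compl_iff, Set.mem_empty_iff_false, iff_false, not_not]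
      exact subset_closure ⟨x, rfl⟩
    rw [this, measure_empty]
  · refine closure_minimal ?_ Measure.isClosed_support
    rintro _ ⟨x, rfl⟩
    rw [Measure.mem_support_iff_forall]
    intro U hU
    obtain ⟨V, hVU, hVo, hxV⟩ := mem_nhds_iff.mp hU
    refine lt_of_lt_of_le ?_ (measure_mono hVU)
    rw [Measure.map_apply hf.measurable hVo.measurableSet]
    exact (hVo.preimage hf).measure_pos _ ⟨x, hxV⟩

lemma support_convex {f : ℝ → ℝ} (hf : Continuous f) : Convex ℝ (gam.map f).support := by
  rw [support_map_cont hf]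
  exact ((isPreconnected_range hf).ordConnected.convex).closure

lemma support_uniqueDiffOn {f : ℝ → ℝ} (hf : Continuous f) {a b : ℝ} (hab : f a < f b) :
    UniqueDiffOn ℝ (gam.map f).support := by
  refine uniqueDiffOn_convex (support_convex hf) ?_
  rw [support_map_cont hf]
  have h1 : Set.Icc (f a) (f b) ⊆ Set.range f :=
    (isPreconnected_range hf).ordConnected.out ⟨a, rfl⟩ ⟨b, rfl⟩
  refine ⟨(f a + f b) / 2, ?_⟩
  refine interior_mono (h1.trans subset_closure) ?_
  rw [interior_Icc]
  constructor <;> linarith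

end

end Pool.Agent.H65.ST
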