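import Mathlib

/-!
# Lexicographically maximal level decompositions

For a finite graded poset with rank function `ρ`, a point `h` of the dilated lecture hall order
polytope is written as a sum of `ρ x + 1` levels; the lexicographically largest way of doing so is
governed by difference constraints and hence is integral.
-/

namespace Pool.Agent.H65.Levels

open Finset

variable {P : Type*} [PartialOrder P]

/-- number of levels of `x` when `m` levels remain -/
def lev (ρ : P → ℕ) (m : ℕ) (x : P) : ℕ := min (ρ x + 1) m

structure Feas (ρ : P → ℕ) (m : ℕ) (h N : P → ℝ) : Prop where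
  mono : ∀ x y, x < y → h x * (lev ρ m y : ℝ) ≤ h y * (lev ρ m x : ℝ)
  nonneg : ∀ x, 0 ≤ h x
  le : ∀ x, h x ≤ (lev ρ m x : ℝ) * N x

structure Sol (ρ : P → ℕ) (m : ℕ) (h N : P → ℝ) (U : P → ℕ → ℝ) : Prop where
  nonneg : ∀ x i, 0 ≤ U x i
  le : ∀ x i, i < lev ρ m x → U x i ≤ N x
  step : ∀ x i, i + 1 < lev ρ m x → U x i ≤ U x (i + 1)
  mono : ∀ x y i, x < y → i < lev ρ m x → U x i ≤ U y i
  sum : ∀ x, ∑ i ∈ range (lev ρ m x), U x i = h x
  zero : ∀ x i, lev ρ m x ≤ i → U x i = 0

/-- constraints for the top level `m` when `m + 1` levels remain -/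
structure Top (ρ : P → ℕ) (m : ℕ) (h N u : P → ℝ) : Prop where
  zero : ∀ x, ρ x < m → u x = 0
  leN : ∀ x, m ≤ ρ x → u x ≤ N x
  leh : ∀ x, m ≤ ρ x → u x ≤ h x
  low : ∀ x y, x < y → ρ x < m → m ≤ ρ y → u y ≤ h y - h x
  mono : ∀ x y, x < y → m ≤ ρ x → u x ≤ u y
  anti : ∀ x y, x < y → m ≤ ρ x → u y - u x ≤ h y - h x

lemma lev_of_lt {ρ : P → ℕ} {m : ℕ} {x : P} (h : ρ x < m) : lev ρ m x = ρ x + 1 := by
  unfold lev; omega

lemma lev_of_le {ρ : P → ℕ} {m : ℕ} {x : P} (h : m ≤ ρ x) : lev ρ m x = m := by
  unfold lev; omega

lemma lev_succ_of_lt {ρ : P → ℕ} {m : ℕ} {x : P} (h : ρ x < m) :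
    lev ρ (m + 1) x = ρ x + 1 := by
  unfold lev; omega

lemma lev_succ_of_le {ρ : P → ℕ} {m : ℕ} {x : P} (h : m ≤ ρ x) :
    lev ρ (m + 1) x = m + 1 := by
  unfold lev; omega

lemma top_base {ρ : P → ℕ} (hρ : ∀ x y : P, x < y → ρ x < ρ y) {m : ℕ} {h N : P → ℝ}
    (hF : Feas ρ (m + 1) h N) :
    Top ρ m h N (fun x => if m ≤ ρ x then h x / (m + 1) else 0) := by
  have hm : (0 : ℝ) < (m : ℝ) + 1 := by positivity
  refine ⟨?_, ?_, ?_, ?_, ?_, ?_⟩
  · intro x hx
    show (if m ≤ ρ x then h x / (m + 1) else 0) = 0
    rw [if_neg (by omega)]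
  · intro x hx
    show (if m ≤ ρ x then h x / (m + 1) else 0) ≤ N x
    rw [if_pos hx, div_le_iff₀ hm]
    have := hF.le x
    rw [lev_succ_of_le hx] at this
    push_cast at this
    linarith
  · intro x hx
    show (if m ≤ ρ x then h x / (m + 1) else 0) ≤ h x
    rw [if_pos hx, div_le_iff₀ hm]
    have := hF.nonneg x
    have hm' : (0 : ℝ) ≤ m := by positivity
    nlinarith
  · intro x y hxy hx hy
    show (if m ≤ ρ y then h y / (m + 1) else 0) ≤ h y - h x
    rw [if_pos hy, div_le_iff₀ hm]
    have h1 := hF.mono x y hxy
    rw [lev_succ_of_le hy, lev_succ_of_lt hx] at h1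
    push_cast at h1
    have h2 := hF.nonneg y
    have h3 : ((ρ x : ℝ) + 1) ≤ m := by exact_mod_cast hx
    nlinarith
  · intro x y hxy hx
    have hy : m ≤ ρ y := by have := hρ x y hxy; omega
    show (if m ≤ ρ x then h x / (m + 1) else 0) ≤ (if m ≤ ρ y then h y / (m + 1) else 0)
    rw [if_pos hx, if_pos hy]
    have h1 := hF.mono x y hxy
    rw [lev_succ_of_le hy, lev_succ_of_le hx] at h1
    push_cast at h1
    have h4 : h x ≤ h y := le_of_mul_le_mul_right h1 hm
    gcongr
  · intro x y hxy hx
    have hy : m ≤ ρ y := by have := hρ x y hxy; omega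
    show (if m ≤ ρ y then h y / (m + 1) else 0) - (if m ≤ ρ x then h x / (m + 1) else 0) ≤ h y - h x
    rw [if_pos hx, if_pos hy]
    have h1 := hF.mono x y hxy
    rw [lev_succ_of_le hy, lev_succ_of_le hx] at h1
    push_cast at h1
    have h4 : h x ≤ h y := le_of_mul_le_mul_right h1 hm
    rw [← sub_div, div_le_iff₀ hm]
    have hm' : (0 : ℝ) ≤ m := by positivity
    nlinarith

/-- the largest admissible top level -/
lemma exists_top {ρ : P → ℕ} (hρ : ∀ x y : P, x < y → ρ x < ρ y) {m : ℕ} {h N : P → ℝ}
    (hF : Feas ρ (m + 1) h N) :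
    ∃ u, Top ρ m h N u ∧ ∀ u', Top ρ m h N u' → ∀ x, u' x ≤ u x := by
  classical
  let s : P → Set ℝ := fun x => {r | ∃ u, Top ρ m h N u ∧ u x = r}
  have hne : ∀ x, (s x).Nonempty := fun x => ⟨_, _, top_base hρ hF, rfl⟩
  have hbdd : ∀ x, BddAbove (s x) := by
    intro x
    by_cases hx : m ≤ ρ x
    · refine ⟨N x, ?_⟩
      rintro r ⟨u, hu, rfl⟩
      exact hu.leN x hx
    · refine ⟨0, ?_⟩
      rintro r ⟨u, hu, rfl⟩
      rw [hu.zero x (by omega)]
  have hle : ∀ u', Top ρ m h N u' → ∀ x, u' x ≤ sSup (s x) := fun u' hu' x =>
    le_csSup (hbdd x) ⟨u', hu', rfl⟩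
  refine ⟨fun x => sSup (s x), ⟨?_, ?_, ?_, ?_, ?_, ?_⟩, hle⟩
  · intro x hx
    apply le_antisymm
    · apply csSup_le (hne x)
      rintro r ⟨u, hu, rfl⟩
      rw [hu.zero x hx]
    · have := hle _ (top_base hρ hF) x
      rw [if_neg (by omega)] at this
      exact this
  · intro x hx
    apply csSup_le (hne x)
    rintro r ⟨u, hu, rfl⟩
    exact hu.leN x hx
  · intro x hx
    apply csSup_le (hne x)
    rintro r ⟨u, hu, rfl⟩
    exact hu.leh x hx
  · intro x y hxy hx hy
    apply csSup_le (hne y)
    rintro r ⟨u, hu, rfl⟩
    exact hu.low x y hxy hx hy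
  · intro x y hxy hx
    apply csSup_le (hne x)
    rintro r ⟨u, hu, rfl⟩
    exact (hu.mono x y hxy hx).trans (hle u hu y)
  · intro x y hxy hx
    have : sSup (s y) ≤ sSup (s x) + (h y - h x) := by
      apply csSup_le (hne y)
      rintro r ⟨u, hu, rfl⟩
      have h1 := hu.anti x y hxy hx
      have h2 := hle u hu x
      linarith
    show sSup (s y) - sSup (s x) ≤ h y - h x
    linarith

/-- the largest top level is integral for integral data (with denominators `c`) -/
lemma top_integral {ρ : P → ℕ} {m : ℕ} {h N u : P → ℝ}
    (hu : Top ρ m h N u) (hmax : ∀ u', Top ρ m h N u' → ∀ x, u' x ≤ u x)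
    {c : ℕ} (hc : 0 < c) (hh : ∀ x, ∃ z : ℤ, (c : ℝ) * h x = z)
    (hN : ∀ x, ∃ z : ℤ, (c : ℝ) * N x = z) : ∀ x, ∃ z : ℤ, (c : ℝ) * u x = z := by
  have hcpos : (0 : ℝ) < c := by exact_mod_cast hc
  have hle : ∀ x, u x ≤ (⌈(c : ℝ) * u x⌉ : ℝ) / c := by
    intro x
    rw [le_div_iff₀ hcpos]
    have := Int.le_ceil ((c : ℝ) * u x)
    linarith
  have hT : Top ρ m h N (fun x => (⌈(c : ℝ) * u x⌉ : ℝ) / c) := by
    refine ⟨?_, ?_, ?_, ?_, ?_, ?_⟩
    · intro x hx
      show (⌈(c : ℝ) * u x⌉ : ℝ) / c = 0
      rw [hu.zero x hx]; simp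
    · intro x hx
      show (⌈(c : ℝ) * u x⌉ : ℝ) / c ≤ N x
      obtain ⟨z, hz⟩ := hN x
      rw [div_le_iff₀ hcpos, mul_comm (N x), hz]
      have : ⌈(c : ℝ) * u x⌉ ≤ z := by
        rw [Int.ceil_le, ← hz]
        exact mul_le_mul_of_nonneg_left (hu.leN x hx) hcpos.le
      exact_mod_cast this
    · intro x hx
      show (⌈(c : ℝ) * u x⌉ : ℝ) / c ≤ h x
      obtain ⟨z, hz⟩ := hh x
      rw [div_le_iff₀ hcpos, mul_comm (h x), hz]
      have : ⌈(c : ℝ) * u x⌉ ≤ z := by
        rw [Int.ceil_le, ← hz]
        exact mul_le_mul_of_nonneg_left (hu.leh x hx) hcpos.le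
      exact_mod_cast this
    · intro x y hxy hx hy
      show (⌈(c : ℝ) * u y⌉ : ℝ) / c ≤ h y - h x
      obtain ⟨z, hz⟩ := hh x
      obtain ⟨z', hz'⟩ := hh y
      rw [div_le_iff₀ hcpos, mul_comm (h y - h x), mul_sub, hz, hz']
      have : ⌈(c : ℝ) * u y⌉ ≤ z' - z := by
        rw [Int.ceil_le]
        push_cast
        rw [← hz, ← hz', ← mul_sub]
        exact mul_le_mul_of_nonneg_left (hu.low x y hxy hx hy) hcpos.le
      exact_mod_cast this
    · intro x y hxy hx
      show (⌈(c : ℝ) * u x⌉ : ℝ) / c ≤ (⌈(c : ℝ) * u y⌉ : ℝ) / c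
      have : ⌈(c : ℝ) * u x⌉ ≤ ⌈(c : ℝ) * u y⌉ :=
        Int.ceil_mono (mul_le_mul_of_nonneg_left (hu.mono x y hxy hx) hcpos.le)
      have h2 : (⌈(c : ℝ) * u x⌉ : ℝ) ≤ (⌈(c : ℝ) * u y⌉ : ℝ) := by exact_mod_cast this
      gcongr
    · intro x y hxy hx
      show (⌈(c : ℝ) * u y⌉ : ℝ) / c - (⌈(c : ℝ) * u x⌉ : ℝ) / c ≤ h y - h x
      obtain ⟨z, hz⟩ := hh x
      obtain ⟨z', hz'⟩ := hh y
      have h1 := mul_le_mul_of_nonneg_left (hu.anti x y hxy hx) hcpos.le
      have h2 : ⌈(c : ℝ) * u y⌉ ≤ ⌈(c : ℝ) * u x⌉ + (z' - z) := by
        rw [Int.ceil_le]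
        push_cast
        rw [← hz, ← hz']
        have := Int.le_ceil ((c : ℝ) * u x)
        nlinarith
      have h3 : (⌈(c : ℝ) * u y⌉ : ℝ) ≤ (⌈(c : ℝ) * u x⌉ : ℝ) + (z' - z) := by exact_mod_cast h2
      rw [← sub_div, div_le_iff₀ hcpos]
      have : (h y - h x) * c = z' - z := by rw [← hz, ← hz']; ring
      rw [this]; linarith
  intro x
  refine ⟨⌈(c : ℝ) * u x⌉, ?_⟩
  have h1 := hmax _ hT x
  have h2 := hle x
  have h3 : u x = (⌈(c : ℝ) * u x⌉ : ℝ) / c := le_antisymm h2 h1
  have h4 : (c : ℝ) * u x = (c : ℝ) * ((⌈(c : ℝ) * u x⌉ : ℝ) / c) := by rw [← h3]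
  rw [mul_div_cancel₀ _ hcpos.ne'] at h4
  exact h4

lemma exists_mid [Finite P] {ρ : P → ℕ} (hρ : ∀ x y : P, x < y → ρ x < ρ y)
    (hcov : ∀ x y : P, x ⋖ y → ρ y = ρ x + 1) {m : ℕ} :
    ∀ (n : ℕ) (x y : P), x < y → ρ y - ρ x ≤ n → ρ x < m → m ≤ ρ y →
      ∃ z, x ≤ z ∧ z < y ∧ ρ z + 1 = m := by
  intro n
  induction n with
  | zero =>
    intro x y hxy hn _ _
    have := hρ x y hxy
    omega
  | succ n ih =>
    intro x y hxy hn hx hy
    obtain ⟨z, hxz, hzy⟩ := exists_le_covBy_of_lt hxy
    have hz := hcov z y hzy
    by_cases hzm : ρ z < m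
    · exact ⟨z, hxz, hzy.lt, by omega⟩
    · have hxz' : x < z := lt_of_le_of_ne hxz (fun h => by subst h; omega)
      obtain ⟨w, h1, h2, h3⟩ := ih x z hxz' (by omega) hx (by omega)
      exact ⟨w, h1, h2.trans hzy.lt, h3⟩

/-- **Lexicographically maximal level decomposition.** -/
theorem exists_levels [Finite P] {ρ : P → ℕ} (hρ : ∀ x y : P, x < y → ρ x < ρ y)
    (hcov : ∀ x y : P, x ⋖ y → ρ y = ρ x + 1) :
    ∀ (m : ℕ) (h N : P → ℝ), Feas ρ m h N → ∃ σ : P → ℕ → ℝ, Sol ρ m h N σ ∧
      (∀ U, Sol ρ m h N U → (∀ x i, U x i = σ x i) ∨ ∃ i < m,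
        (∀ k, i < k → k < m → ∀ x, U x k = σ x k) ∧ (∀ x, U x i ≤ σ x i) ∧
        ∃ x, U x i < σ x i) ∧
      (∀ c : ℕ, 0 < c → (∀ x, ∃ z : ℤ, (c : ℝ) * h x = z) → (∀ x, ∃ z : ℤ, (c : ℝ) * N x = z) →
        ∀ x i, ∃ z : ℤ, (c : ℝ) * σ x i = z) := by
  classical
  intro m
  induction m with
  | zero =>
    intro h N hF
    have hl : ∀ x, lev ρ 0 x = 0 := fun x => by unfold lev; omega
    have hh : ∀ x, h x = 0 := fun x => by
      have h1 := hF.le x
      rw [hl] at h1
      have h2 := hF.nonneg x
      simp at h1
      linarith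
    refine ⟨fun _ _ => 0, ⟨?_, ?_, ?_, ?_, ?_, ?_⟩, ?_, ?_⟩
    · intro x i; exact le_refl _
    · intro x i hi; rw [hl] at hi; omega
    · intro x i hi; exact le_refl _
    · intro x y i _ hi; exact le_refl _
    · intro x; rw [hl, hh]; simp
    · intro x i _; rfl
    · intro U hU
      left
      intro x i
      exact hU.zero x i (by rw [hl]; omega)
    · intro c _ _ _ x i
      exact ⟨0, by simp⟩
  | succ m ih =>
    intro h N hF
    obtain ⟨u, hu, hmax⟩ := exists_top hρ hF
    have hm0 : (0 : ℝ) < (m : ℝ) + 1 := by positivity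
    -- lower bound for `u`
    have hlow : ∀ x, m ≤ ρ x → h x ≤ ((m : ℝ) + 1) * u x := by
      intro x hx
      have := hmax _ (top_base hρ hF) x
      rw [if_pos hx, div_le_iff₀ hm0] at this
      linarith
    have hu0 : ∀ x, 0 ≤ u x := by
      intro x
      by_cases hx : m ≤ ρ x
      · have h1 := hlow x hx
        have h2 := hF.nonneg x
        by_contra hneg
        push Not at hneg
        nlinarith
      · rw [hu.zero x (by omega)]
    set h' : P → ℝ := fun x => h x - u x with hh'
    set N' : P → ℝ := fun x => if m ≤ ρ x then u x else N x with hN'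
    have hF' : Feas ρ m h' N' := by
      refine ⟨?_, ?_, ?_⟩
      · intro x y hxy
        have hρxy := hρ x y hxy
        by_cases hy : m ≤ ρ y
        · by_cases hx : m ≤ ρ x
          · rw [lev_of_le hx, lev_of_le hy]
            have := hu.anti x y hxy hx
            apply mul_le_mul_of_nonneg_right _ (by positivity)
            simp only [h']; linarith
          · have hx' : ρ x < m := by omega
            rw [lev_of_le hy, lev_of_lt hx']
            simp only [h']
            rw [hu.zero x hx', sub_zero]
            obtain ⟨z, hxz, hzy, hzm⟩ := exists_mid hρ hcov _ x y hxy (le_refl _) hx' hy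
            have h1 := hu.low z y hzy (by omega) hy
            have h2 : h x * m ≤ h z * (ρ x + 1) := by
              rcases hxz.eq_or_lt with rfl | hlt
              · have : ((ρ x : ℝ) + 1) = m := by exact_mod_cast hzm
                rw [this]
              · have h3 := hF.mono x z hlt
                rw [lev_succ_of_lt hx', lev_succ_of_lt (by omega : ρ z < m)] at h3
                have : ((ρ z + 1 : ℕ) : ℝ) = m := by rw [hzm]
                rw [this] at h3
                push_cast at h3
                exact h3
            have h4 : h z * ((ρ x : ℝ) + 1) ≤ (h y - u y) * ((ρ x : ℝ) + 1) := by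
              apply mul_le_mul_of_nonneg_right _ (by positivity)
              linarith
            push_cast
            linarith
        · have hx' : ρ x < m := by omega
          have hy' : ρ y < m := by omega
          rw [lev_of_lt hx', lev_of_lt hy']
          have h3 := hF.mono x y hxy
          rw [lev_succ_of_lt hx', lev_succ_of_lt hy'] at h3
          simp only [h']
          rw [hu.zero x hx', hu.zero y hy', sub_zero, sub_zero]
          exact h3
      · intro x
        simp only [h']
        by_cases hx : m ≤ ρ x
        · have := hu.leh x hx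
          linarith
        · rw [hu.zero x (by omega), sub_zero]
          exact hF.nonneg x
      · intro x
        simp only [h', N']
        by_cases hx : m ≤ ρ x
        · rw [if_pos hx, lev_of_le hx]
          have := hlow x hx
          linarith
        · rw [if_neg hx, lev_of_lt (by omega), hu.zero x (by omega), sub_zero]
          have := hF.le x
          rw [lev_succ_of_lt (by omega)] at this
          exact this
    obtain ⟨σ', hσ', hlex, hint⟩ := ih h' N' hF'
    let σ : P → ℕ → ℝ := fun x i => if i < m then σ' x i else if i = m then u x else 0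
    have hσlt : ∀ x i, i < m → σ x i = σ' x i := fun x i hi => by simp only [σ]; rw [if_pos hi]
    have hσm : ∀ x, σ x m = u x := fun x => by simp [σ]
    have hσgt : ∀ x i, m < i → σ x i = 0 := fun x i hi => by
      simp only [σ]; rw [if_neg (by omega), if_neg (by omega)]
    refine ⟨σ, ⟨?_, ?_, ?_, ?_, ?_, ?_⟩, ?_, ?_⟩
    · intro x i
      rcases lt_trichotomy i m with hi | hi | hi
      · rw [hσlt x i hi]; exact hσ'.nonneg x i
      · subst hi; rw [hσm]; exact hu0 x
      · rw [hσgt x i hi]
    · intro x i hi
      by_cases hx : m ≤ ρ x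
      · rw [lev_succ_of_le hx] at hi
        rcases Nat.lt_succ_iff_lt_or_eq.1 hi with him | him
        · rw [hσlt x i him]
          have := hσ'.le x i (by rw [lev_of_le hx]; exact him)
          simp only [N'] at this
          rw [if_pos hx] at this
          exact this.trans (hu.leN x hx)
        · subst him; rw [hσm]; exact hu.leN x hx
      · rw [lev_succ_of_lt (by omega)] at hi
        rw [hσlt x i (by omega)]
        have := hσ'.le x i (by rw [lev_of_lt (by omega)]; exact hi)
        simp only [N'] at this
        rw [if_neg hx] at this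
        exact this
    · intro x i hi
      by_cases hx : m ≤ ρ x
      · rw [lev_succ_of_le hx] at hi
        rw [hσlt x i (by omega)]
        rcases Nat.lt_or_ge (i + 1) m with him | him
        · rw [hσlt x (i + 1) him]
          exact hσ'.step x i (by rw [lev_of_le hx]; exact him)
        · have him' : i + 1 = m := by omega
          rw [him', hσm]
          have := hσ'.le x i (by rw [lev_of_le hx]; omega)
          simp only [N'] at this
          rw [if_pos hx] at this
          exact this
      · rw [lev_succ_of_lt (by omega)] at hi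
        rw [hσlt x i (by omega), hσlt x (i + 1) (by omega)]
        exact hσ'.step x i (by rw [lev_of_lt (by omega)]; exact hi)
    · intro x y i hxy hi
      by_cases hx : m ≤ ρ x
      · rw [lev_succ_of_le hx] at hi
        rcases Nat.lt_succ_iff_lt_or_eq.1 hi with him | him
        · rw [hσlt x i him, hσlt y i him]
          exact hσ'.mono x y i hxy (by rw [lev_of_le hx]; exact him)
        · subst him; rw [hσm, hσm]; exact hu.mono x y hxy hx
      · rw [lev_succ_of_lt (by omega)] at hi
        rw [hσlt x i (by omega), hσlt y i (by omega)]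
        exact hσ'.mono x y i hxy (by rw [lev_of_lt (by omega)]; exact hi)
    · intro x
      by_cases hx : m ≤ ρ x
      · rw [lev_succ_of_le hx, Finset.sum_range_succ, hσm]
        have h1 := hσ'.sum x
        rw [lev_of_le hx] at h1
        rw [Finset.sum_congr rfl (fun i hi => hσlt x i (Finset.mem_range.1 hi)), h1]
        simp only [h']; ring
      · rw [lev_succ_of_lt (by omega)]
        have h1 := hσ'.sum x
        rw [lev_of_lt (by omega)] at h1
        rw [Finset.sum_congr rfl (fun i hi => hσlt x i (by
          have := Finset.mem_range.1 hi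
          omega)), h1]
        simp only [h']
        rw [hu.zero x (by omega)]; ring
    · intro x i hi
      rcases lt_trichotomy i m with him | him | him
      · rw [hσlt x i him]
        apply hσ'.zero
        by_cases hx : m ≤ ρ x
        · rw [lev_succ_of_le hx] at hi; omega
        · rw [lev_of_lt (by omega)]
          rw [lev_succ_of_lt (by omega)] at hi; exact hi
      · subst him
        rw [hσm]
        apply hu.zero
        unfold lev at hi
        omega
      · exact hσgt x i him
    · intro U hU
      have hUm0 : ∀ x, ρ x < m → U x m = 0 := fun x hx =>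
        hU.zero x m (by rw [lev_succ_of_lt hx]; omega)
      have hsum1 : ∀ x, m ≤ ρ x → ∑ i ∈ range m, U x i = h x - U x m := by
        intro x hx
        have := hU.sum x
        rw [lev_succ_of_le hx, Finset.sum_range_succ] at this
        linarith
      have hsum2 : ∀ x, ρ x < m → ∑ i ∈ range (ρ x + 1), U x i = h x := by
        intro x hx
        have := hU.sum x
        rw [lev_succ_of_lt hx] at this
        exact this
      have hTop : Top ρ m h N (fun x => U x m) := by
        refine ⟨hUm0, ?_, ?_, ?_, ?_, ?_⟩
        · intro x hx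
          exact hU.le x m (by rw [lev_succ_of_le hx]; omega)
        · intro x hx
          have h1 := hsum1 x hx
          have h2 : 0 ≤ ∑ i ∈ range m, U x i := Finset.sum_nonneg (fun i _ => hU.nonneg x i)
          show U x m ≤ h x
          linarith
        · intro x y hxy hx hy
          have h1 := hsum1 y hy
          have h2 := hsum2 x hx
          have h3 : ∑ i ∈ range (ρ x + 1), U x i ≤ ∑ i ∈ range (ρ x + 1), U y i :=
            Finset.sum_le_sum (fun i hi => hU.mono x y i hxy (by
              rw [lev_succ_of_lt hx]; exact Finset.mem_range.1 hi))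
          have h4 : ∑ i ∈ range (ρ x + 1), U y i ≤ ∑ i ∈ range m, U y i :=
            Finset.sum_le_sum_of_subset_of_nonneg (by
              intro i hi
              rw [Finset.mem_range] at hi ⊢
              omega) (fun i _ _ => hU.nonneg y i)
          show U y m ≤ h y - h x
          linarith
        · intro x y hxy hx
          exact hU.mono x y m hxy (by rw [lev_succ_of_le hx]; omega)
        · intro x y hxy hx
          have hy : m ≤ ρ y := by have := hρ x y hxy; omega
          have h1 := hsum1 y hy
          have h2 := hsum1 x hx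
          have h3 : ∑ i ∈ range m, U x i ≤ ∑ i ∈ range m, U y i :=
            Finset.sum_le_sum (fun i hi => hU.mono x y i hxy (by
              rw [lev_succ_of_le hx]
              have := Finset.mem_range.1 hi
              omega))
          show U y m - U x m ≤ h y - h x
          linarith
      have hle := hmax _ hTop
      by_cases heq : ∀ x, U x m = u x
      · -- compare lower levels
        have hsol : Sol ρ m h' N' (fun x i => if i < m then U x i else 0) := by
          refine ⟨?_, ?_, ?_, ?_, ?_, ?_⟩
          · intro x i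
            show 0 ≤ if i < m then U x i else 0
            split_ifs
            · exact hU.nonneg x i
            · exact le_refl _
          · intro x i hi
            have him : i < m := by unfold lev at hi; omega
            show (if i < m then U x i else 0) ≤ N' x
            rw [if_pos him]
            simp only [N']
            by_cases hx : m ≤ ρ x
            · rw [if_pos hx, ← heq x]
              -- U x i ≤ U x m
              have : ∀ k, i + k ≤ m → U x i ≤ U x (i + k) := by
                intro k
                induction k with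
                | zero => intro _; exact le_refl _
                | succ k ihk =>
                  intro hk
                  exact (ihk (by omega)).trans (hU.step x (i + k) (by
                    rw [lev_succ_of_le hx]; omega))
              have h5 := this (m - i) (by omega)
              rw [show i + (m - i) = m by omega] at h5
              exact h5
            · rw [if_neg hx]
              rw [lev_of_lt (by omega)] at hi
              exact hU.le x i (by rw [lev_succ_of_lt (by omega)]; exact hi)
          · intro x i hi
            have him : i + 1 < m := by unfold lev at hi; omega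
            show (if i < m then U x i else 0) ≤ (if i + 1 < m then U x (i + 1) else 0)
            rw [if_pos him, if_pos (by omega)]
            exact hU.step x i (by unfold lev at hi ⊢; omega)
          · intro x y i hxy hi
            have him : i < m := by unfold lev at hi; omega
            show (if i < m then U x i else 0) ≤ (if i < m then U y i else 0)
            rw [if_pos him, if_pos him]
            exact hU.mono x y i hxy (by unfold lev at hi ⊢; omega)
          · intro x
            show ∑ i ∈ range (lev ρ m x), (if i < m then U x i else 0) = h' x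
            rw [Finset.sum_congr rfl (fun i hi => if_pos (by
              have := Finset.mem_range.1 hi
              unfold lev at this; omega))]
            simp only [h']
            by_cases hx : m ≤ ρ x
            · rw [lev_of_le hx, hsum1 x hx, heq x]
            · rw [lev_of_lt (by omega), hsum2 x (by omega), hu.zero x (by omega), sub_zero]
          · intro x i hi
            show (if i < m then U x i else 0) = 0
            split_ifs with him
            · exact hU.zero x i (by unfold lev at hi ⊢; omega)
            · rfl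
        rcases hlex _ hsol with hall | ⟨i, him, h1, h2, x, h3⟩
        · left
          intro x i
          rcases lt_trichotomy i m with him | him | him
          · have := hall x i
            rw [hσlt x i him, ← this, if_pos him]
          · subst him; rw [hσm]; exact heq x
          · rw [hσgt x i him]
            exact hU.zero x i (by unfold lev; omega)
        · right
          refine ⟨i, by omega, ?_, ?_, x, ?_⟩
          · intro k hik hk y
            rcases Nat.lt_succ_iff_lt_or_eq.1 hk with hkm | hkm
            · have := h1 k hik hkm y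
              rw [if_pos hkm] at this
              rw [hσlt y k hkm]; exact this
            · subst hkm; rw [hσm]; exact heq y
          · intro y
            have := h2 y
            rw [if_pos him] at this
            rw [hσlt y i him]; exact this
          · rw [if_pos him] at h3
            rw [hσlt x i him]; exact h3
      · right
        push Not at heq
        obtain ⟨x, hx⟩ := heq
        refine ⟨m, by omega, ?_, ?_, x, ?_⟩
        · intro k hk hk'; omega
        · intro y; rw [hσm]; exact hle y
        · rw [hσm]; exact lt_of_le_of_ne (hle x) hx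
    · intro c hc hch hcN x i
      have hcu := top_integral hu hmax hc hch hcN
      rcases lt_trichotomy i m with him | him | him
      · rw [hσlt x i him]
        apply hint c hc
        · intro y
          obtain ⟨z1, hz1⟩ := hch y
          obtain ⟨z2, hz2⟩ := hcu y
          refine ⟨z1 - z2, ?_⟩
          simp only [h']
          push_cast
          rw [← hz1, ← hz2]; ring
        · intro y
          simp only [N']
          split_ifs
          · exact hcu y
          · exact hcN y
      · subst him; rw [hσm]; exact hcu x
      · rw [hσgt x i him]; exact ⟨0, by simp⟩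

end Pool.Agent.H65.Levels
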