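import Mathlib

/-!
# Regular unimodular triangulations from unique integral minimisers

`V` is a finite set of points in `P → ℝ`, `ω` a height function.  If for every point the
`ω`-minimal convex representation by points of `V` is unique, the lower faces of the lifted
configuration form a simplicial complex with underlying space the convex hull of `V`.
-/

namespace Pool.Agent.H65.RegTri

open Finset

/-- A finite family of strict inequalities leaves some room. -/
lemma exists_small {α : Type*} (F : Finset α) (d φ : α → ℝ) (hd : ∀ a ∈ F, 0 < d a) :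
    ∃ t : ℝ, 0 < t ∧ ∀ a ∈ F, t * φ a ≤ d a := by
  classical
  induction F using Finset.induction_on with
  | empty => exact ⟨1, one_pos, by simp⟩
  | insert a F ha ih =>
    obtain ⟨t, ht, hF⟩ := ih (fun b hb => hd b (Finset.mem_insert_of_mem hb))
    have hda : 0 < d a := hd a (Finset.mem_insert_self _ _)
    have hden : 0 < |φ a| + 1 := by positivity
    refine ⟨min t (d a / (|φ a| + 1)), lt_min ht (by positivity), ?_⟩
    intro b hb
    rcases Finset.mem_insert.1 hb with rfl | hb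
    · have h1 : min t (d b / (|φ b| + 1)) ≤ d b / (|φ b| + 1) := min_le_right _ _
      have h0 : 0 ≤ min t (d b / (|φ b| + 1)) := (lt_min ht (by positivity)).le
      calc min t (d b / (|φ b| + 1)) * φ b
          ≤ min t (d b / (|φ b| + 1)) * (|φ b| + 1) := by
            apply mul_le_mul_of_nonneg_left _ h0
            linarith [le_abs_self (φ b)]
        _ ≤ d b / (|φ b| + 1) * (|φ b| + 1) := by
            apply mul_le_mul_of_nonneg_right h1 hden.le
        _ = d b := by field_simp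
    · have h0 : 0 ≤ min t (d a / (|φ a| + 1)) := (lt_min ht (by positivity)).le
      rcases le_or_gt (φ b) 0 with h | h
      · have hdb : 0 < d b := hd b (Finset.mem_insert_of_mem hb)
        nlinarith [mul_nonneg h0 (neg_nonneg.2 h)]
      · calc min t (d a / (|φ a| + 1)) * φ b ≤ t * φ b :=
              mul_le_mul_of_nonneg_right (min_le_left _ _) h.le
          _ ≤ d b := hF b hb

variable {P : Type*} [Fintype P]

/-- `w` is a convex representation of `p` by points of `V`. -/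
structure IsRep (V : Finset (P → ℝ)) (p : P → ℝ) (w : (P → ℝ) → ℝ) : Prop where
  nonneg : ∀ v ∈ V, 0 ≤ w v
  sum_one : ∑ v ∈ V, w v = 1
  sum_pt : ∑ v ∈ V, w v • v = p

/-- total height of a representation -/
def cost (V : Finset (P → ℝ)) (ω : (P → ℝ) → ℝ) (w : (P → ℝ) → ℝ) : ℝ := ∑ v ∈ V, w v * ω v

/-- minimal representation -/
def IsMinRep (V : Finset (P → ℝ)) (ω : (P → ℝ) → ℝ) (p : P → ℝ) (w : (P → ℝ) → ℝ) : Prop :=
  IsRep V p w ∧ ∀ w', IsRep V p w' → cost V ω w ≤ cost V ω w'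

/-- points of `V` where the affine function touches `ω` -/
noncomputable def touch (V : Finset (P → ℝ)) (ω : (P → ℝ) → ℝ) (l : (P → ℝ) →ᵃ[ℝ] ℝ) :
    Finset (P → ℝ) := by
  classical
  exact V.filter fun v => l v = ω v

lemma mem_touch {V : Finset (P → ℝ)} {ω : (P → ℝ) → ℝ} {l : (P → ℝ) →ᵃ[ℝ] ℝ} {v : P → ℝ} :
    v ∈ touch V ω l ↔ v ∈ V ∧ l v = ω v := by
  classical
  unfold touch
  rw [Finset.mem_filter]

lemma touch_subset {V : Finset (P → ℝ)} {ω : (P → ℝ) → ℝ} {l : (P → ℝ) →ᵃ[ℝ] ℝ} :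
    touch V ω l ⊆ V := fun _ hv => (mem_touch.1 hv).1

lemma affine_sum {V : Finset (P → ℝ)} {p : P → ℝ} {w : (P → ℝ) → ℝ} (h : IsRep V p w)
    (l : (P → ℝ) →ᵃ[ℝ] ℝ) : ∑ v ∈ V, w v * l v = l p := by
  have hl : ∀ v, l v = l.linear v + l 0 := fun v => by
    have := congrFun (l.decomp) v
    simpa using this
  rw [hl p, ← h.sum_pt, map_sum]
  have : ∀ v ∈ V, w v * l v = l.linear (w v • v) + w v * l 0 := by
    intro v _
    rw [hl v, map_smul, smul_eq_mul]; ring
  rw [Finset.sum_congr rfl this, Finset.sum_add_distrib, ← Finset.sum_mul, h.sum_one, one_mul]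

/-- A representation supported on a touching set is minimal. -/
lemma isMinRep_of_touch {V : Finset (P → ℝ)} {ω : (P → ℝ) → ℝ} {l : (P → ℝ) →ᵃ[ℝ] ℝ}
    (hl : ∀ v ∈ V, l v ≤ ω v) {p : P → ℝ} {w : (P → ℝ) → ℝ} (h : IsRep V p w)
    (hs : ∀ v ∈ V, v ∉ touch V ω l → w v = 0) : IsMinRep V ω p w := by
  refine ⟨h, fun w' h' => ?_⟩
  have h1 : cost V ω w = l p := by
    rw [← affine_sum h l]
    unfold cost
    apply Finset.sum_congr rfl
    intro v hv
    by_cases hvt : v ∈ touch V ω l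
    · rw [(mem_touch.1 hvt).2]
    · rw [hs v hv hvt]; simp
  rw [h1, ← affine_sum h' l]
  unfold cost
  apply Finset.sum_le_sum
  intro v hv
  exact mul_le_mul_of_nonneg_left (hl v hv) (h'.nonneg v hv)

/-- Uniqueness of minimal representations. -/
def UniqueMin (V : Finset (P → ℝ)) (ω : (P → ℝ) → ℝ) : Prop :=
  ∀ p w w', IsMinRep V ω p w → IsMinRep V ω p w' → ∀ v ∈ V, w v = w' v

lemma touch_indep {V : Finset (P → ℝ)} {ω : (P → ℝ) → ℝ} (hU : UniqueMin V ω)
    {l : (P → ℝ) →ᵃ[ℝ] ℝ} (hl : ∀ v ∈ V, l v ≤ ω v) :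
    AffineIndependent ℝ ((↑) : touch V ω l → (P → ℝ)) := by
  classical
  set S := touch V ω l with hS
  rw [affineIndependent_iff]
  intro s w hw0 hw1 e he
  -- extend `w` by zero
  let W : (P → ℝ) → ℝ := fun v => if h : v ∈ S then (if (⟨v, h⟩ : S) ∈ s then w ⟨v, h⟩ else 0) else 0
  have hWS : ∀ v ∈ V, v ∉ S → W v = 0 := by
    intro v _ hv; simp [W, hv]
  have hWval : ∀ x : S, W x = if x ∈ s then w x else 0 := by
    intro x
    simp [W]
  have hWsum : ∑ v ∈ V, W v = 0 := by
    rw [← Finset.sum_subset (touch_subset (V := V) (ω := ω) (l := l)) (fun v hv hv' => hWS v hv hv')]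
    rw [← hS, ← Finset.sum_coe_sort S]
    simp only [hWval]
    rw [Finset.sum_ite_mem, Finset.univ_inter]
    exact hw0
  have hWpt : ∑ v ∈ V, W v • v = 0 := by
    rw [← Finset.sum_subset (touch_subset (V := V) (ω := ω) (l := l))
      (fun v hv hv' => by rw [hWS v hv hv', zero_smul])]
    rw [← hS, ← Finset.sum_coe_sort S]
    simp only [hWval, ite_smul, zero_smul]
    rw [Finset.sum_ite_mem, Finset.univ_inter]
    exact hw1
  have hne : (S : Finset (P → ℝ)).Nonempty := ⟨e, e.2⟩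
  have hcard : (0 : ℝ) < S.card := by exact_mod_cast Finset.card_pos.2 hne
  -- uniform representation and a perturbation
  let u : (P → ℝ) → ℝ := fun v => if v ∈ S then 1 / (S.card : ℝ) else 0
  obtain ⟨t, ht, hsmall⟩ := exists_small S (fun _ => 1 / (S.card : ℝ)) (fun v => - W v)
    (fun _ _ => by positivity)
  have hSV : S ⊆ V := touch_subset
  have husum : ∑ v ∈ V, u v = 1 := by
    rw [← Finset.sum_subset hSV (fun v _ hv' => by simp [u, hv'])]
    rw [Finset.sum_congr rfl (fun v hv => by simp only [u, if_pos hv] : ∀ v ∈ S, u v = 1 / (S.card : ℝ))]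
    rw [Finset.sum_const, nsmul_eq_mul]; field_simp
  have hu : IsRep V (∑ v ∈ V, u v • v) u := by
    refine ⟨fun v _ => ?_, husum, rfl⟩
    simp only [u]; split_ifs <;> positivity
  have hu' : IsRep V (∑ v ∈ V, u v • v) (fun v => u v + t * W v) := by
    refine ⟨fun v hv => ?_, ?_, ?_⟩
    · by_cases hvS : v ∈ S
      · have := hsmall v hvS
        simp only [u, if_pos hvS]
        linarith
      · simp only [u, if_neg hvS, hWS v hv hvS]; simp
    · rw [Finset.sum_add_distrib, husum, ← Finset.mul_sum, hWsum]; simp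
    · simp only [add_smul, Finset.sum_add_distrib, mul_smul]
      rw [← Finset.smul_sum, hWpt]; simp
  have m1 : IsMinRep V ω (∑ v ∈ V, u v • v) u :=
    isMinRep_of_touch hl hu (fun v _ hv => by simp only [u]; rw [if_neg hv])
  have m2 : IsMinRep V ω (∑ v ∈ V, u v • v) (fun v => u v + t * W v) :=
    isMinRep_of_touch hl hu' (fun v hv hv' => by
      show u v + t * W v = 0
      rw [hWS v hv hv']; simp only [u]; rw [if_neg hv']; simp)
  have := hU _ _ _ m1 m2 e (hSV e.2)
  have hWe : W e = 0 := by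
    have h2 : t * W e = 0 := by linarith
    rcases mul_eq_zero.1 h2 with h3 | h3
    · exact absurd h3 ht.ne'
    · exact h3
  rw [hWval, if_pos he] at hWe
  exact hWe

/-- Affinely independent finite sets extend to an affine basis; we record the coordinates. -/
lemma exists_coords {S : Finset (P → ℝ)} (hS : AffineIndependent ℝ ((↑) : S → (P → ℝ))) :
    ∃ (t : Finset (P → ℝ)) (c : (P → ℝ) → ((P → ℝ) →ᵃ[ℝ] ℝ)), S ⊆ t ∧
      affineSpan ℝ (t : Set (P → ℝ)) = ⊤ ∧ (∀ v ∈ t, c v v = 1) ∧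
      (∀ v ∈ t, ∀ w ∈ t, v ≠ w → c v w = 0) ∧ (∀ p, ∑ v ∈ t, c v p = 1) ∧
      (∀ p, ∑ v ∈ t, c v p • v = p) := by
  classical
  obtain ⟨t, hst, hind, htop⟩ :=
    exists_subset_affineIndependent_affineSpan_eq_top (k := ℝ) (s := (S : Set (P → ℝ))) hS
  have hfin : t.Finite := finite_set_of_fin_dim_affineIndependent ℝ hind
  let b : AffineBasis t ℝ (P → ℝ) := ⟨fun x => x, hind, by
    rw [Subtype.range_coe]; exact htop⟩
  letI : Fintype t := hfin.fintype
  refine ⟨hfin.toFinset, fun v => if h : v ∈ t then b.coord ⟨v, h⟩ else 0, ?_, ?_, ?_, ?_, ?_, ?_⟩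
  · intro v hv
    exact hfin.mem_toFinset.2 (hst hv)
  · simpa using htop
  · intro v hv
    have hv' : v ∈ t := hfin.mem_toFinset.1 hv
    simp only [dif_pos hv']
    exact b.coord_apply_eq ⟨v, hv'⟩
  · intro v hv w hw hvw
    have hv' : v ∈ t := hfin.mem_toFinset.1 hv
    have hw' : w ∈ t := hfin.mem_toFinset.1 hw
    simp only [dif_pos hv']
    exact b.coord_apply_ne (i := ⟨v, hv'⟩) (j := ⟨w, hw'⟩) (fun h => hvw (by simpa using h))
  · intro p
    rw [← b.sum_coord_apply_eq_one p]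
    rw [← Finset.sum_coe_sort hfin.toFinset]
    refine Fintype.sum_equiv (Equiv.subtypeEquivRight (fun x => hfin.mem_toFinset)) _ _ ?_
    intro x
    have hx : (x : P → ℝ) ∈ t := hfin.mem_toFinset.1 x.2
    simp only [dif_pos hx]
    rfl
  · intro p
    conv_rhs => rw [← b.linear_combination_coord_eq_self p]
    rw [← Finset.sum_coe_sort hfin.toFinset]
    refine Fintype.sum_equiv (Equiv.subtypeEquivRight (fun x => hfin.mem_toFinset)) _ _ ?_
    intro x
    have hx : (x : P → ℝ) ∈ t := hfin.mem_toFinset.1 x.2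
    simp only [dif_pos hx]
    rfl

/-- Tilting a supporting function until it touches a new point. -/
lemma rotate {V : Finset (P → ℝ)} {ω : (P → ℝ) → ℝ} {l : (P → ℝ) →ᵃ[ℝ] ℝ}
    (hl : ∀ v ∈ V, l v ≤ ω v) (φ : (P → ℝ) →ᵃ[ℝ] ℝ) (h0 : ∀ v ∈ touch V ω l, φ v = 0)
    {v0 : P → ℝ} (hv0 : v0 ∈ V) (hφ : 0 < φ v0) :
    ∃ t : ℝ, 0 < t ∧ (∀ v ∈ V, (l + t • φ) v ≤ ω v) ∧ touch V ω l ⊂ touch V ω (l + t • φ) := by
  classical
  let F : Finset (P → ℝ) := V.filter fun v => 0 < φ v
  have hFne : F.Nonempty := ⟨v0, Finset.mem_filter.2 ⟨hv0, hφ⟩⟩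
  obtain ⟨v1, hv1, hmin⟩ := Finset.exists_min_image F (fun v => (ω v - l v) / φ v) hFne
  have hv1' := Finset.mem_filter.1 hv1
  have hv1S : v1 ∉ touch V ω l := fun h => by
    have := h0 v1 h
    linarith [hv1'.2]
  have hlt : l v1 < ω v1 := lt_of_le_of_ne (hl v1 hv1'.1)
    (fun h => hv1S (mem_touch.2 ⟨hv1'.1, h⟩))
  have hval : ∀ (t : ℝ) v, (l + t • φ) v = l v + t * φ v := by
    intro t v; simp
  refine ⟨(ω v1 - l v1) / φ v1, div_pos (by linarith) hv1'.2, ?_, ?_⟩
  · intro v hv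
    rw [hval]
    rcases lt_or_ge 0 (φ v) with h | h
    · have := hmin v (Finset.mem_filter.2 ⟨hv, h⟩)
      have h2 : (ω v1 - l v1) / φ v1 * φ v ≤ (ω v - l v) / φ v * φ v :=
        mul_le_mul_of_nonneg_right this h.le
      rw [div_mul_cancel₀ _ h.ne'] at h2
      linarith
    · have h3 : 0 < (ω v1 - l v1) / φ v1 := div_pos (by linarith) hv1'.2
      have := hl v hv
      nlinarith
  · rw [Finset.ssubset_iff_of_subset]
    · refine ⟨v1, mem_touch.2 ⟨hv1'.1, ?_⟩, hv1S⟩
      rw [hval, div_mul_cancel₀ _ hv1'.2.ne']; ring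
    · intro v hv
      have h4 := mem_touch.1 hv
      refine mem_touch.2 ⟨h4.1, ?_⟩
      rw [hval, h0 v hv, h4.2]; ring

lemma exists_pos_of_mem {V : Finset (P → ℝ)} {p : P → ℝ} {w : (P → ℝ) → ℝ} (h : IsRep V p w)
    (φ : (P → ℝ) →ᵃ[ℝ] ℝ) (hφ : 0 < φ p) : ∃ v ∈ V, 0 < φ v := by
  by_contra hcon
  push Not at hcon
  have := affine_sum h φ
  have h2 : ∑ v ∈ V, w v * φ v ≤ 0 := Finset.sum_nonpos (fun v hv =>
    mul_nonpos_of_nonneg_of_nonpos (h.nonneg v hv) (hcon v hv))
  linarith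

/-- Above every supporting function there is one whose touching set spans. -/
lemma spanning_above {V : Finset (P → ℝ)} {ω : (P → ℝ) → ℝ} (hU : UniqueMin V ω)
    (hV : affineSpan ℝ (V : Set (P → ℝ)) = ⊤) {p : P → ℝ} {w : (P → ℝ) → ℝ} (h : IsRep V p w) :
    ∀ (n : ℕ) (l : (P → ℝ) →ᵃ[ℝ] ℝ), (∀ v ∈ V, l v ≤ ω v) → V.card - (touch V ω l).card ≤ n →
    ∃ l' : (P → ℝ) →ᵃ[ℝ] ℝ, (∀ v ∈ V, l' v ≤ ω v) ∧
      affineSpan ℝ (touch V ω l' : Set (P → ℝ)) = ⊤ ∧ touch V ω l ⊆ touch V ω l' ∧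
      l p ≤ l' p := by
  classical
  intro n
  induction n with
  | zero =>
    intro l hl hn
    have h1 : touch V ω l = V := by
      apply Finset.eq_of_subset_of_card_le touch_subset
      omega
    exact ⟨l, hl, by rw [h1]; exact hV, Finset.Subset.refl _, le_refl _⟩
  | succ n ih =>
    intro l hl hn
    by_cases hsp : affineSpan ℝ (touch V ω l : Set (P → ℝ)) = ⊤
    · exact ⟨l, hl, hsp, Finset.Subset.refl _, le_refl _⟩
    obtain ⟨t, c, hSt, ht, hc1, hc0, hcs, hcp⟩ := exists_coords (touch_indep hU hl)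
    have hne : ∃ b ∈ t, b ∉ touch V ω l := by
      by_contra hcon
      push Not at hcon
      apply hsp
      have : touch V ω l = t := Finset.Subset.antisymm hSt hcon
      rw [this]; exact ht
    obtain ⟨b, hbt, hbS⟩ := hne
    have hφ0 : ∀ v ∈ touch V ω l, c b v = 0 := fun v hv =>
      hc0 b hbt v (hSt hv) (fun hbv => hbS (hbv ▸ hv))
    have hex : ∃ v ∈ V, c b v ≠ 0 := by
      by_contra hcon
      push Not at hcon
      have heq : c b = 0 := AffineMap.ext_on hV (fun v hv => by simpa using hcon v hv)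
      have := hc1 b hbt
      rw [heq] at this
      simp at this
    -- choose a sign
    have key : ∃ φ : (P → ℝ) →ᵃ[ℝ] ℝ, (∀ v ∈ touch V ω l, φ v = 0) ∧ 0 ≤ φ p ∧
        ∃ v ∈ V, 0 < φ v := by
      rcases lt_trichotomy (c b p) 0 with hlt | heq | hgt
      · have hpos : 0 < (-(c b)) p := by simpa using hlt
        exact ⟨-(c b), fun v hv => by simp [hφ0 v hv], hpos.le, exists_pos_of_mem h _ hpos⟩
      · obtain ⟨v, hv, hvne⟩ := hex
        rcases lt_or_gt_of_ne hvne with h1 | h1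
        · exact ⟨-(c b), fun v hv => by simp [hφ0 v hv], by simp [heq], v, hv, by simpa using h1⟩
        · exact ⟨c b, hφ0, heq.ge, v, hv, h1⟩
      · exact ⟨c b, hφ0, hgt.le, exists_pos_of_mem h _ hgt⟩
    obtain ⟨φ, hφz, hφp, v0, hv0, hφv0⟩ := key
    obtain ⟨s, hs, hle, hss⟩ := rotate hl φ hφz hv0 hφv0
    have hcard := Finset.card_lt_card hss
    have hcard2 := Finset.card_le_card (touch_subset (V := V) (ω := ω) (l := l + s • φ))
    obtain ⟨l', hl', hsp', hsub, hpl⟩ := ih (l + s • φ) hle (by omega)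
    refine ⟨l', hl', hsp', hss.subset.trans hsub, le_trans ?_ hpl⟩
    have : (l + s • φ) p = l p + s * φ p := by simp
    rw [this]
    have := mul_nonneg hs.le hφp
    linarith

/-- A constant function below `ω`. -/
lemma exists_below (V : Finset (P → ℝ)) (ω : (P → ℝ) → ℝ) :
    ∃ l : (P → ℝ) →ᵃ[ℝ] ℝ, ∀ v ∈ V, l v ≤ ω v := by
  classical
  rcases V.eq_empty_or_nonempty with rfl | hne
  · exact ⟨0, by simp⟩
  · obtain ⟨v1, _, hmin⟩ := Finset.exists_min_image V ω hne
    exact ⟨AffineMap.const ℝ _ (ω v1), fun v hv => by simpa using hmin v hv⟩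

lemma isRep_of_mem_convexHull {V : Finset (P → ℝ)} {p : P → ℝ}
    (hp : p ∈ convexHull ℝ (V : Set (P → ℝ))) : ∃ w, IsRep V p w := by
  obtain ⟨w, h1, h2, h3⟩ := Finset.mem_convexHull'.1 hp
  exact ⟨w, h1, h2, h3⟩

lemma mem_convexHull_of_isRep {V : Finset (P → ℝ)} {p : P → ℝ} {w} (h : IsRep V p w) :
    p ∈ convexHull ℝ (V : Set (P → ℝ)) :=
  Finset.mem_convexHull'.2 ⟨w, h.nonneg, h.sum_one, h.sum_pt⟩

/-- The simplices cover the convex hull. -/
lemma exists_touch_mem {V : Finset (P → ℝ)} {ω : (P → ℝ) → ℝ} (hU : UniqueMin V ω)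
    (hV : affineSpan ℝ (V : Set (P → ℝ)) = ⊤) {p : P → ℝ}
    (hp : p ∈ convexHull ℝ (V : Set (P → ℝ))) :
    ∃ l : (P → ℝ) →ᵃ[ℝ] ℝ, (∀ v ∈ V, l v ≤ ω v) ∧
      affineSpan ℝ (touch V ω l : Set (P → ℝ)) = ⊤ ∧
      p ∈ convexHull ℝ (touch V ω l : Set (P → ℝ)) := by
  classical
  obtain ⟨w, hw⟩ := isRep_of_mem_convexHull hp
  -- spanning touching sets
  let good : Finset (P → ℝ) → Prop := fun S => ∃ l : (P → ℝ) →ᵃ[ℝ] ℝ, (∀ v ∈ V, l v ≤ ω v) ∧
      affineSpan ℝ (touch V ω l : Set (P → ℝ)) = ⊤ ∧ touch V ω l = S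
  let B : Finset (Finset (P → ℝ)) := V.powerset.filter good
  let val : Finset (P → ℝ) → ℝ := fun S => if h : good S then (h.choose) p else 0
  have hval : ∀ l : (P → ℝ) →ᵃ[ℝ] ℝ, (∀ v ∈ V, l v ≤ ω v) →
      affineSpan ℝ (touch V ω l : Set (P → ℝ)) = ⊤ → val (touch V ω l) = l p := by
    intro l hl hsp
    have hg : good (touch V ω l) := ⟨l, hl, hsp, rfl⟩
    simp only [val, dif_pos hg]
    have hs := hg.choose_spec
    have : hg.choose = l := by
      apply AffineMap.ext_on hsp
      intro v hv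
      have h1 := (mem_touch.1 (Finset.mem_coe.1 hv)).2
      have h2 : v ∈ touch V ω hg.choose := by rw [hs.2.2]; exact hv
      rw [h1, (mem_touch.1 h2).2]
    rw [this]
  have hBne : B.Nonempty := by
    obtain ⟨l0, hl0⟩ := exists_below V ω
    obtain ⟨l', hl', hsp', _, _⟩ := spanning_above hU hV hw _ l0 hl0 (le_refl _)
    exact ⟨touch V ω l', Finset.mem_filter.2 ⟨Finset.mem_powerset.2 touch_subset, l', hl', hsp', rfl⟩⟩
  obtain ⟨S, hSB, hmax⟩ := Finset.exists_max_image B val hBne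
  obtain ⟨l, hl, hsp, rfl⟩ := (Finset.mem_filter.1 hSB).2
  refine ⟨l, hl, hsp, ?_⟩
  obtain ⟨t, c, hSt, ht, hc1, hc0, hcs, hcp⟩ := exists_coords (touch_indep hU hl)
  have hSeq : t = touch V ω l := by
    refine (Finset.Subset.antisymm hSt ?_).symm
    intro b hb
    by_contra hbS
    have hz : c b = 0 := AffineMap.ext_on hsp (fun v hv => by
      have hv' : v ∈ touch V ω l := hv
      simpa using hc0 b hb v (hSt hv') (fun hbv => hbS (hbv ▸ hv')))
    have := hc1 b hb
    rw [hz] at this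
    simp at this
  by_cases hpos : ∀ v ∈ t, 0 ≤ c v p
  · rw [← hSeq]
    exact Finset.mem_convexHull'.2 ⟨fun v => c v p, hpos, hcs p, hcp p⟩
  · exfalso
    push Not at hpos
    obtain ⟨b, hbt, hneg⟩ := hpos
    obtain ⟨s, hs, hsmall⟩ := exists_small (V \ touch V ω l) (fun v => ω v - l v)
      (fun v => -(c b v)) (fun v hv => by
        have hv' := Finset.mem_sdiff.1 hv
        have : l v < ω v := lt_of_le_of_ne (hl v hv'.1) (fun h => hv'.2 (mem_touch.2 ⟨hv'.1, h⟩))
        linarith)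
    have hvalt : ∀ v, (l + s • (-(c b))) v = l v + s * (-(c b v)) := by intro v; simp
    have hl2 : ∀ v ∈ V, (l + s • (-(c b))) v ≤ ω v := by
      intro v hv
      rw [hvalt]
      by_cases hvS : v ∈ touch V ω l
      · have hvt : v ∈ t := hSt hvS
        have h1 := (mem_touch.1 hvS).2
        by_cases hbv : b = v
        · subst hbv
          rw [hc1 b hbt, h1]; linarith
        · rw [hc0 b hbt v hvt hbv, h1]; linarith
      · have := hsmall v (Finset.mem_sdiff.2 ⟨hv, hvS⟩)
        linarith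
    obtain ⟨l', hl', hsp', _, hpl⟩ := spanning_above hU hV hw _ _ hl2 (le_refl _)
    have h5 := hmax (touch V ω l') (Finset.mem_filter.2
      ⟨Finset.mem_powerset.2 touch_subset, l', hl', hsp', rfl⟩)
    rw [hval l hl hsp, hval l' hl' hsp'] at h5
    rw [hvalt] at hpl
    have : 0 < s * (-(c b p)) := mul_pos hs (by linarith)
    linarith

lemma affineMap_sum_apply {α : Type*} (F : Finset α) (c : α → ((P → ℝ) →ᵃ[ℝ] ℝ)) (v : P → ℝ) :
    (∑ b ∈ F, c b) v = ∑ b ∈ F, c b v := by
  classical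
  induction F using Finset.induction_on with
  | empty => simp
  | insert a F ha ih => rw [Finset.sum_insert ha, Finset.sum_insert ha, ← ih]; rfl

/-- faces: exact touching sets -/
def IsFace (V : Finset (P → ℝ)) (ω : (P → ℝ) → ℝ) (S : Finset (P → ℝ)) : Prop :=
  S.Nonempty ∧ ∃ l : (P → ℝ) →ᵃ[ℝ] ℝ, (∀ v ∈ V, l v ≤ ω v) ∧ touch V ω l = S

lemma IsFace.mono {V : Finset (P → ℝ)} {ω : (P → ℝ) → ℝ} (hU : UniqueMin V ω)
    {S T : Finset (P → ℝ)} (hS : IsFace V ω S) (hTS : T ⊆ S) (hT : T.Nonempty) :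
    IsFace V ω T := by
  classical
  obtain ⟨_, l, hl, rfl⟩ := hS
  refine ⟨hT, ?_⟩
  obtain ⟨t, c, hSt, ht, hc1, hc0, hcs, hcp⟩ := exists_coords (touch_indep hU hl)
  let φ : (P → ℝ) →ᵃ[ℝ] ℝ := -∑ b ∈ touch V ω l \ T, c b
  have hφ : ∀ v, φ v = -∑ b ∈ touch V ω l \ T, c b v := by
    intro v
    rw [← affineMap_sum_apply]
    rfl
  have hφT : ∀ v ∈ T, φ v = 0 := by
    intro v hv
    rw [hφ, neg_eq_zero]
    apply Finset.sum_eq_zero
    intro b hb
    have hb' := Finset.mem_sdiff.1 hb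
    exact hc0 b (hSt hb'.1) v (hSt (hTS hv)) (fun h => hb'.2 (h ▸ hv))
  have hφS : ∀ v ∈ touch V ω l, v ∉ T → φ v = -1 := by
    intro v hv hvT
    rw [hφ, Finset.sum_eq_single v]
    · rw [hc1 v (hSt hv)]
    · intro b hb hbv
      have hb' := Finset.mem_sdiff.1 hb
      exact hc0 b (hSt hb'.1) v (hSt hv) hbv
    · intro h
      exact absurd (Finset.mem_sdiff.2 ⟨hv, hvT⟩) h
  obtain ⟨s, hs, hsmall⟩ := exists_small (V \ touch V ω l) (fun v => (ω v - l v) / 2)
      (fun v => φ v) (fun v hv => by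
        have hv' := Finset.mem_sdiff.1 hv
        have : l v < ω v := lt_of_le_of_ne (hl v hv'.1) (fun h => hv'.2 (mem_touch.2 ⟨hv'.1, h⟩))
        linarith)
  have hvalt : ∀ v, (l + s • φ) v = l v + s * φ v := by intro v; simp
  have hstrict : ∀ v ∈ V, v ∉ touch V ω l → (l + s • φ) v < ω v := by
    intro v hv hvS
    have h1 : l v < ω v := lt_of_le_of_ne (hl v hv) (fun h => hvS (mem_touch.2 ⟨hv, h⟩))
    have := hsmall v (Finset.mem_sdiff.2 ⟨hv, hvS⟩)
    rw [hvalt]; linarith
  refine ⟨l + s • φ, ?_, ?_⟩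
  · intro v hv
    by_cases hvS : v ∈ touch V ω l
    · rw [hvalt, (mem_touch.1 hvS).2]
      by_cases hvT : v ∈ T
      · rw [hφT v hvT]; linarith
      · rw [hφS v hvS hvT]; linarith
    · exact (hstrict v hv hvS).le
  · ext v
    rw [mem_touch]
    constructor
    · rintro ⟨hv, heq⟩
      by_contra hvT
      by_cases hvS : v ∈ touch V ω l
      · rw [hvalt, (mem_touch.1 hvS).2, hφS v hvS hvT] at heq
        linarith
      · exact absurd heq (hstrict v hv hvS).ne
    · intro hvT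
      have hvS := hTS hvT
      refine ⟨touch_subset hvS, ?_⟩
      rw [hvalt, hφT v hvT, (mem_touch.1 hvS).2]; ring

/-- The simplicial complex of lower faces. -/
noncomputable def complex (V : Finset (P → ℝ)) (ω : (P → ℝ) → ℝ) (hU : UniqueMin V ω) :
    Geometry.SimplicialComplex ℝ (P → ℝ) where
  faces := {S | IsFace V ω S}
  isRelLowerSet_faces := fun {S} hS => ⟨hS.1, fun {T} hTS hT => IsFace.mono hU hS hTS hT⟩
  indep := fun {S} hS => by
    obtain ⟨_, l, hl, rfl⟩ := hS
    exact touch_indep hU hl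
  inter_subset_convexHull := fun {S T} hS hT => by
    classical
    obtain ⟨_, l, hl, rfl⟩ := hS
    obtain ⟨_, l', hl', rfl⟩ := hT
    rintro p ⟨hp1, hp2⟩
    obtain ⟨w1, a1, a2, a3⟩ := Finset.mem_convexHull'.1 hp1
    obtain ⟨w2, b1, b2, b3⟩ := Finset.mem_convexHull'.1 hp2
    have ext : ∀ (l : (P → ℝ) →ᵃ[ℝ] ℝ) (w : (P → ℝ) → ℝ), (∀ y ∈ touch V ω l, 0 ≤ w y) →
        ∑ y ∈ touch V ω l, w y = 1 → ∑ y ∈ touch V ω l, w y • y = p →
        IsRep V p (fun v => if v ∈ touch V ω l then w v else 0) := by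
      intro l w c1 c2 c3
      refine ⟨fun v _ => ?_, ?_, ?_⟩
      · show 0 ≤ (if v ∈ touch V ω l then w v else 0)
        split_ifs with h
        · exact c1 v h
        · exact le_refl _
      · rw [Finset.sum_ite_mem, Finset.inter_eq_right.2 touch_subset, c2]
      · simp only [ite_smul, zero_smul]
        rw [Finset.sum_ite_mem, Finset.inter_eq_right.2 touch_subset, c3]
    have m1 := isMinRep_of_touch hl (ext l w1 a1 a2 a3) (fun v _ hv => by simp [hv])
    have m2 := isMinRep_of_touch hl' (ext l' w2 b1 b2 b3) (fun v _ hv => by simp [hv])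
    have heq := hU _ _ _ m1 m2
    rw [← Finset.coe_inter]
    refine Finset.mem_convexHull'.2 ⟨w1, fun v hv => a1 v (Finset.mem_inter.1 hv).1, ?_, ?_⟩
    · rw [← a2]
      apply Finset.sum_subset Finset.inter_subset_left
      intro v hv hv'
      have hv2 : v ∉ touch V ω l' := fun h => hv' (Finset.mem_inter.2 ⟨hv, h⟩)
      have := heq v (touch_subset hv)
      simpa [hv, hv2] using this
    · rw [← a3]
      apply Finset.sum_subset Finset.inter_subset_left
      intro v hv hv'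
      have hv2 : v ∉ touch V ω l' := fun h => hv' (Finset.mem_inter.2 ⟨hv, h⟩)
      have h6 : w1 v = 0 := by
        have := heq v (touch_subset hv)
        simpa [hv, hv2] using this
      rw [h6, zero_smul]

lemma mem_complex_faces {V : Finset (P → ℝ)} {ω : (P → ℝ) → ℝ} {hU : UniqueMin V ω}
    {S : Finset (P → ℝ)} : S ∈ (complex V ω hU).faces ↔ IsFace V ω S := Iff.rfl

lemma complex_space {V : Finset (P → ℝ)} {ω : (P → ℝ) → ℝ} (hU : UniqueMin V ω)
    (hV : affineSpan ℝ (V : Set (P → ℝ)) = ⊤) :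
    (complex V ω hU).space = convexHull ℝ (V : Set (P → ℝ)) := by
  apply Set.Subset.antisymm
  · intro p hp
    obtain ⟨S, hS, hpS⟩ := Geometry.SimplicialComplex.mem_space_iff.1 hp
    obtain ⟨_, l, _, rfl⟩ := hS
    exact convexHull_mono (by exact_mod_cast touch_subset) hpS
  · intro p hp
    obtain ⟨l, hl, _, hpl⟩ := exists_touch_mem hU hV hp
    refine Geometry.SimplicialComplex.mem_space_iff.2 ⟨touch V ω l, ⟨?_, l, hl, rfl⟩, hpl⟩
    by_contra hne
    rw [Finset.not_nonempty_iff_eq_empty] at hne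
    rw [hne] at hpl
    simp at hpl

/-- Facets span the whole space. -/
lemma facet_span {V : Finset (P → ℝ)} {ω : (P → ℝ) → ℝ} (hU : UniqueMin V ω)
    (hV : affineSpan ℝ (V : Set (P → ℝ)) = ⊤) {S : Finset (P → ℝ)}
    (hS : S ∈ (complex V ω hU).facets) : affineSpan ℝ (S : Set (P → ℝ)) = ⊤ := by
  classical
  obtain ⟨⟨hne, l, hl, hlS⟩, hmax⟩ := hS
  subst hlS
  obtain ⟨v, hv⟩ := hne
  have hrep : IsRep V v (fun u => if u = v then 1 else 0) := by
    refine ⟨fun u _ => ?_, ?_, ?_⟩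
    · show (0 : ℝ) ≤ if u = v then 1 else 0
      split_ifs <;> norm_num
    · rw [Finset.sum_ite_eq' V v]; simp [touch_subset hv]
    · simp only [ite_smul, one_smul, zero_smul]
      rw [Finset.sum_ite_eq' V v]; simp [touch_subset hv]
  obtain ⟨l', hl', hsp', hsub, _⟩ := spanning_above hU hV hrep _ l hl (le_refl _)
  have : touch V ω l = touch V ω l' := hmax ⟨⟨v, hsub hv⟩, l', hl', rfl⟩ hsub
  rw [this]; exact hsp'

lemma facet_card {V : Finset (P → ℝ)} {ω : (P → ℝ) → ℝ} (hU : UniqueMin V ω)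
    (hV : affineSpan ℝ (V : Set (P → ℝ)) = ⊤) {S : Finset (P → ℝ)}
    (hS : S ∈ (complex V ω hU).facets) : S.card = Fintype.card P + 1 := by
  have hsp := facet_span hU hV hS
  have hind := (complex V ω hU).indep hS.1
  have := hind.affineSpan_eq_top_iff_card_eq_finrank_add_one.1 (by
    rw [Subtype.range_coe]; exact hsp)
  rw [Fintype.card_coe, Module.finrank_fintype_fun_eq_card] at this
  exact this

/-! ### Integrality and determinants -/

/-- integer points of `P → ℝ` -/
def IsLat (v : P → ℝ) : Prop := ∀ x, ∃ z : ℤ, v x = z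

/-- minimal representations of points with denominator `N` have denominator `N` -/
def IntMin (V : Finset (P → ℝ)) (ω : (P → ℝ) → ℝ) : Prop :=
  ∀ p w (N : ℕ), 0 < N → IsMinRep V ω p w → IsLat ((N : ℝ) • p) →
    ∀ v ∈ V, ∃ z : ℤ, (N : ℝ) * w v = z

lemma facet_int {V : Finset (P → ℝ)} {ω : (P → ℝ) → ℝ} (hU : UniqueMin V ω) (hI : IntMin V ω)
    (hlat : ∀ v ∈ V, IsLat v)
    (hV : affineSpan ℝ (V : Set (P → ℝ)) = ⊤) {S : Finset (P → ℝ)}
    (hS : S ∈ (complex V ω hU).facets) (z : P → ℝ) (hz : IsLat z) :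
    ∃ a : (P → ℝ) → ℤ, ∑ v ∈ S, a v = 1 ∧ ∑ v ∈ S, (a v : ℝ) • v = z := by
  classical
  have hsp := facet_span hU hV hS
  obtain ⟨⟨hne, l, hl, hlS⟩, _⟩ := hS
  subst hlS
  obtain ⟨t, c, hSt, ht, hc1, hc0, hcs, hcp⟩ := exists_coords (touch_indep hU hl)
  have hSeq : t = touch V ω l := by
    refine (Finset.Subset.antisymm hSt ?_).symm
    intro b hb
    by_contra hbS
    have hz : c b = 0 := AffineMap.ext_on hsp (fun v hv => by
      have hv' : v ∈ touch V ω l := hv
      simpa using hc0 b hb v (hSt hv') (fun hbv => hbS (hbv ▸ hv')))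
    have := hc1 b hb
    rw [hz] at this
    simp at this
  rw [hSeq] at hcs hcp
  set S := touch V ω l with hSdef
  obtain ⟨M, hM⟩ := exists_nat_ge (∑ v ∈ S, |c v z|)
  have hMv : ∀ v ∈ S, 0 ≤ (M : ℝ) + c v z := by
    intro v hv
    have h1 : |c v z| ≤ ∑ v ∈ S, |c v z| :=
      Finset.single_le_sum (f := fun v => |c v z|) (fun _ _ => abs_nonneg _) hv
    have h2 := neg_abs_le (c v z)
    linarith
  set N : ℕ := M * S.card + 1 with hN
  have hNpos : (0 : ℝ) < N := by exact_mod_cast Nat.succ_pos _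
  have hNval : (N : ℝ) = M * S.card + 1 := by rw [hN]; push_cast; ring
  let w : (P → ℝ) → ℝ := fun v => if v ∈ S then ((M : ℝ) + c v z) / N else 0
  let p : P → ℝ := (1 / (N : ℝ)) • (z + (M : ℝ) • ∑ v ∈ S, v)
  have hrep : IsRep V p w := by
    refine ⟨fun v _ => ?_, ?_, ?_⟩
    · show 0 ≤ if v ∈ S then ((M : ℝ) + c v z) / N else 0
      split_ifs with h
      · exact div_nonneg (hMv v h) hNpos.le
      · exact le_refl _
    · rw [Finset.sum_ite_mem, Finset.inter_eq_right.2 touch_subset, ← Finset.sum_div,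
        Finset.sum_add_distrib, Finset.sum_const, nsmul_eq_mul, hcs z, hNval]
      rw [div_eq_one_iff_eq (by rw [← hNval]; exact hNpos.ne')]; ring
    · simp only [w, ite_smul, zero_smul]
      rw [Finset.sum_ite_mem, Finset.inter_eq_right.2 touch_subset]
      rw [← hSdef]
      have h7 : ∀ v ∈ S, (((M : ℝ) + c v z) / N) • v = (1 / (N : ℝ)) • ((M : ℝ) • v + c v z • v) := by
        intro v _
        rw [← add_smul, smul_smul]
        congr 1
        ring
      rw [Finset.sum_congr rfl h7, ← Finset.smul_sum, Finset.sum_add_distrib, ← Finset.smul_sum,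
        hcp z]
      simp only [p]
      rw [add_comm z]
  have hmin : IsMinRep V ω p w := isMinRep_of_touch hl hrep (fun v _ hv => by
    simp only [w]; rw [if_neg hv])
  have hlatp : IsLat ((N : ℝ) • p) := by
    have hp : (N : ℝ) • p = z + (M : ℝ) • ∑ v ∈ S, v := by
      simp only [p, smul_smul]
      rw [mul_one_div_cancel hNpos.ne', one_smul]
    rw [hp]
    intro x
    obtain ⟨z1, hz1⟩ := hz x
    have : ∀ v ∈ S, ∃ k : ℤ, v x = k := fun v hv => hlat v (touch_subset hv) x
    choose! k hk using this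
    refine ⟨z1 + M * ∑ v ∈ S, k v, ?_⟩
    rw [Pi.add_apply, Pi.smul_apply, Finset.sum_apply, hz1, Finset.sum_congr rfl hk]
    push_cast
    rw [smul_eq_mul]
  have hint := hI p w N (Nat.succ_pos _) hmin hlatp
  have hcint : ∀ v ∈ S, ∃ k : ℤ, c v z = k := by
    intro v hv
    obtain ⟨k, hk⟩ := hint v (touch_subset hv)
    refine ⟨k - M, ?_⟩
    have : (N : ℝ) * (((M : ℝ) + c v z) / N) = k := by
      rw [← hk]; simp only [w]; rw [if_pos hv]
    rw [mul_div_cancel₀ _ hNpos.ne'] at this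
    push_cast
    linarith
  choose! a ha using hcint
  refine ⟨a, ?_, ?_⟩
  · have : ((∑ v ∈ S, a v : ℤ) : ℝ) = 1 := by
      push_cast
      rw [← Finset.sum_congr rfl ha]; exact hcs z
    exact_mod_cast this
  · rw [← hcp z]
    apply Finset.sum_congr rfl
    intro v hv
    rw [ha v hv]

/-- The matrix with rows `(1, v)`, `v` running over the vertices. -/
def simplexMatrix (S : Finset (P → ℝ)) (e : Option P ≃ S) : Matrix (Option P) (Option P) ℝ :=
  Matrix.of fun i j => j.elim 1 (fun x => (e i : P → ℝ) x)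

open Classical in
lemma abs_det_eq_one (S : Finset (P → ℝ)) (hlat : ∀ v ∈ S, IsLat v)
    (hspan : ∀ z : P → ℝ, IsLat z →
      ∃ a : (P → ℝ) → ℤ, ∑ v ∈ S, a v = 1 ∧ ∑ v ∈ S, (a v : ℝ) • v = z)
    (e : Option P ≃ S) : |(simplexMatrix S e).det| = 1 := by
  have hl' : ∀ v ∈ S, ∃ k : P → ℤ, ∀ x, v x = k x := fun v hv => by
    choose k hk using hlat v hv
    exact ⟨k, hk⟩
  choose! k hk using hl'
  let A : Matrix (Option P) (Option P) ℤ :=
    Matrix.of fun i j => j.elim 1 (fun x => k (e i : P → ℝ) x)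
  have hA : simplexMatrix S e = A.map (Int.castRingHom ℝ) := by
    ext i j
    cases j with
    | none => simp [simplexMatrix, A]
    | some x => simp [simplexMatrix, A, hk (e i) (e i).2 x]
  have hz0 : IsLat (0 : P → ℝ) := fun x => ⟨0, by simp⟩
  have hz1 : ∀ x : P, IsLat (Pi.single x (1 : ℝ) : P → ℝ) := fun x y => by
    by_cases h : y = x
    · subst h; exact ⟨1, by simp⟩
    · exact ⟨0, by simp [h]⟩
  obtain ⟨a0, ha0, ha0'⟩ := hspan 0 hz0
  have h1 : ∀ x : P, ∃ a : (P → ℝ) → ℤ, ∑ v ∈ S, a v = 1 ∧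
      ∑ v ∈ S, (a v : ℝ) • v = (Pi.single x (1 : ℝ) : P → ℝ) := fun x => hspan _ (hz1 x)
  choose a1 ha1 ha1' using h1
  let B : Matrix (Option P) (Option P) ℤ :=
    Matrix.of fun i j => i.elim (a0 (e j : P → ℝ)) (fun x => a1 x (e j : P → ℝ) - a0 (e j : P → ℝ))
  have hsum : ∀ f : (P → ℝ) → ℤ, ∑ j, f (e j : P → ℝ) = ∑ v ∈ S, f v := by
    intro f
    rw [← Finset.sum_coe_sort S]
    exact Fintype.sum_equiv e _ _ (fun _ => rfl)
  -- coordinates of integer combinations
  have hcoord : ∀ (a : (P → ℝ) → ℤ) (z : P → ℝ), ∑ v ∈ S, (a v : ℝ) • v = z →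
      ∀ y, ((∑ v ∈ S, a v * k v y : ℤ) : ℝ) = z y := by
    intro a z h y
    rw [← h, Finset.sum_apply]
    push_cast
    apply Finset.sum_congr rfl
    intro v hv
    rw [Pi.smul_apply, smul_eq_mul, hk v hv y]
  have hBA : B * A = 1 := by
    ext i j
    rw [Matrix.mul_apply]
    cases i with
    | none =>
      cases j with
      | none =>
        have := hsum (fun v => a0 v)
        simp only [B, A, Matrix.of_apply, Option.elim, mul_one, Matrix.one_apply_eq]
        rw [this, ha0]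
      | some y =>
        have := hsum (fun v => a0 v * k v y)
        simp only [B, A, Matrix.of_apply, Option.elim]
        rw [this, Matrix.one_apply_ne (by simp)]
        have h2 := hcoord a0 0 ha0' y
        simp only [Pi.zero_apply] at h2
        exact_mod_cast h2
    | some x =>
      cases j with
      | none =>
        have := hsum (fun v => a1 x v - a0 v)
        simp only [B, A, Matrix.of_apply, Option.elim, mul_one]
        rw [this, Matrix.one_apply_ne (by simp), Finset.sum_sub_distrib, ha1, ha0]; ring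
      | some y =>
        have := hsum (fun v => (a1 x v - a0 v) * k v y)
        simp only [B, A, Matrix.of_apply, Option.elim]
        rw [this]
        simp only [sub_mul, Finset.sum_sub_distrib]
        have h2 := hcoord a0 0 ha0' y
        have h3 := hcoord (a1 x) _ (ha1' x) y
        simp only [Pi.zero_apply] at h2
        have h2' : ∑ v ∈ S, a0 v * k v y = 0 := by exact_mod_cast h2
        rw [h2', sub_zero]
        by_cases hxy : x = y
        · subst hxy
          rw [Pi.single_eq_same] at h3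
          rw [Matrix.one_apply_eq]
          exact_mod_cast h3
        · rw [Pi.single_eq_of_ne (Ne.symm hxy)] at h3
          rw [Matrix.one_apply_ne (by simpa using hxy)]
          exact_mod_cast h3
  have hdet : B.det * A.det = 1 := by rw [← Matrix.det_mul, hBA, Matrix.det_one]
  have hu : IsUnit A.det := isUnit_iff_exists_inv'.2 ⟨B.det, hdet⟩
  have hfin : (simplexMatrix S e).det = (A.det : ℝ) := by
    rw [hA, ← RingHom.mapMatrix_apply, ← RingHom.map_det]; rfl
  rw [hfin]
  rcases Int.isUnit_iff.1 hu with h | h <;> rw [h] <;> norm_num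

end Pool.Agent.H65.RegTri
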