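import Mathlib
import Pool.Agent.H65.RegTri

/-!
# From lexicographic objectives to a real height function
-/

namespace Pool.Agent.H65.RegTri

open Finset Filter Topology

variable {P : Type*} [Fintype P]

/-- a lexicographically positive vector has positive generating polynomial for small `ε` -/
lemma eventually_pos_of_lex (m : ℕ) (d : ℕ → ℝ)
    (h : ∃ k < m, (∀ j < k, d j = 0) ∧ 0 < d k) :
    ∀ᶠ ε : ℝ in 𝓝[>] 0, 0 < ∑ j ∈ range m, ε ^ j * d j := by
  obtain ⟨k, hk, hz, hpos⟩ := h
  let f : ℝ → ℝ := fun ε => ∑ i ∈ range (m - k), ε ^ i * d (k + i)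
  have hf : Continuous f := by
    apply continuous_finsetSum
    intro i _
    fun_prop
  have hf0 : f 0 = d k := by
    simp only [f]
    rw [Finset.sum_eq_single 0]
    · simp
    · intro b _ hb; simp [hb]
    · intro h; exact absurd (Finset.mem_range.2 (by omega)) h
  have h1 : ∀ᶠ ε : ℝ in 𝓝 0, 0 < f ε := by
    have := hf.continuousAt (x := (0 : ℝ))
    apply this.eventually (lt_mem_nhds _)
    rw [hf0]; exact hpos
  have h2 : ∀ᶠ ε : ℝ in 𝓝[>] 0, 0 < f ε := h1.filter_mono nhdsWithin_le_nhds
  have h3 : ∀ᶠ ε : ℝ in 𝓝[>] 0, 0 < ε := eventually_mem_nhdsWithin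
  filter_upwards [h2, h3] with ε hε hε0
  have hsplit : ∑ j ∈ range m, ε ^ j * d j = ε ^ k * f ε := by
    have hm : m = k + (m - k) := by omega
    conv_lhs => rw [hm, Finset.sum_range_add]
    have hzero : ∑ x ∈ range k, ε ^ x * d x = 0 := by
      apply Finset.sum_eq_zero
      intro j hj
      rw [hz j (Finset.mem_range.1 hj), mul_zero]
    rw [hzero, zero_add]
    simp only [f]
    rw [Finset.mul_sum]
    apply Finset.sum_congr rfl
    intro i _
    rw [pow_add]; ring
  rw [hsplit]
  exact mul_pos (pow_pos hε0 k) hε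

/-- existence of minimal representations -/
lemma exists_minRep {V : Finset (P → ℝ)} (ω : (P → ℝ) → ℝ) {p : P → ℝ} {w0}
    (h0 : IsRep V p w0) : ∃ w, IsMinRep V ω p w := by
  classical
  let K : Set (V → ℝ) := stdSimplex ℝ V ∩ {w | ∑ v : V, w v • (v : P → ℝ) = p}
  have hK : IsCompact K := by
    apply (isCompact_stdSimplex ℝ V).inter_right
    apply isClosed_eq
    · apply continuous_finsetSum
      intro v _
      exact (continuous_apply v).smul continuous_const
    · exact continuous_const
  have toK : ∀ w : (P → ℝ) → ℝ, IsRep V p w → (fun v : V => w v) ∈ K := by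
    intro w hw
    refine ⟨⟨fun v => hw.nonneg v v.2, ?_⟩, ?_⟩
    · rw [Finset.sum_coe_sort V (fun v => w v)]; exact hw.sum_one
    · show ∑ v : V, w v • (v : P → ℝ) = p
      rw [Finset.sum_coe_sort V (fun v => w v • v)]; exact hw.sum_pt
  have hKne : K.Nonempty := ⟨_, toK w0 h0⟩
  let f : (V → ℝ) → ℝ := fun w => ∑ v : V, w v * ω v
  have hf : Continuous f := by
    apply continuous_finsetSum
    intro v _
    exact (continuous_apply v).mul continuous_const
  obtain ⟨x, hxK, hxmin⟩ := hK.exists_isMinOn hKne hf.continuousOn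
  let w : (P → ℝ) → ℝ := fun v => if h : v ∈ V then x ⟨v, h⟩ else 0
  have hwx : ∀ v : V, w v = x v := by intro v; simp [w]
  have hrep : IsRep V p w := by
    refine ⟨fun v hv => ?_, ?_, ?_⟩
    · have := hxK.1.1 ⟨v, hv⟩
      rw [← hwx] at this; exact this
    · rw [← Finset.sum_coe_sort V (fun v => w v)]
      rw [Finset.sum_congr rfl (fun v _ => hwx v)]
      exact hxK.1.2
    · rw [← Finset.sum_coe_sort V (fun v => w v • v)]
      rw [Finset.sum_congr rfl (fun v _ => by rw [hwx v])]
      exact hxK.2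
  refine ⟨w, hrep, fun w' hw' => ?_⟩
  have h1 := hxmin (toK w' hw')
  have h2 : cost V ω w = f x := by
    unfold cost
    rw [← Finset.sum_coe_sort V (fun v => w v * ω v)]
    exact Finset.sum_congr rfl (fun v _ => by rw [hwx v])
  have h3 : cost V ω w' = f (fun v : V => w' v) := by
    unfold cost
    rw [← Finset.sum_coe_sort V (fun v => w' v * ω v)]
  rw [h2, h3]
  exact h1

lemma cost_add_smul (V : Finset (P → ℝ)) (ω a b c : (P → ℝ) → ℝ) (t : ℝ) :
    cost V ω (fun v => a v + t * (b v - c v)) = cost V ω a + t * (cost V ω b - cost V ω c) := by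
  unfold cost
  rw [← Finset.sum_sub_distrib, Finset.mul_sum, ← Finset.sum_add_distrib]
  apply Finset.sum_congr rfl
  intro v _
  ring

lemma cost_congr {V : Finset (P → ℝ)} {ω a b : (P → ℝ) → ℝ} (h : ∀ v ∈ V, a v = b v) :
    cost V ω a = cost V ω b := by
  unfold cost
  exact Finset.sum_congr rfl (fun v hv => by rw [h v hv])

/-- exchange: `a + t (b - c)` is again a representation -/
lemma IsRep.exchange {V : Finset (P → ℝ)} {p q : P → ℝ} {a b c : (P → ℝ) → ℝ} {t : ℝ}
    (ht : 0 ≤ t) (ha : IsRep V p a) (hb : IsRep V q b) (hc : IsRep V q c)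
    (hle : ∀ v ∈ V, t * c v ≤ a v) : IsRep V p (fun v => a v + t * (b v - c v)) := by
  refine ⟨fun v hv => ?_, ?_, ?_⟩
  · have h1 := hle v hv
    have h2 := mul_nonneg ht (hb.nonneg v hv)
    show 0 ≤ a v + t * (b v - c v)
    nlinarith
  · rw [Finset.sum_add_distrib, ← Finset.mul_sum, Finset.sum_sub_distrib, ha.sum_one, hb.sum_one,
      hc.sum_one]
    ring
  · have h3 : ∀ v ∈ V, (a v + t * (b v - c v)) • v = a v • v + t • (b v • v - c v • v) := by
      intro v _
      rw [add_smul, mul_smul, sub_smul]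
    rw [Finset.sum_congr rfl h3, Finset.sum_add_distrib, ← Finset.smul_sum,
      Finset.sum_sub_distrib, ha.sum_pt, hb.sum_pt, hc.sum_pt, sub_self, smul_zero, add_zero]

/-- Lexicographically unique maximisers are unique minimisers for a suitable real height. -/
theorem exists_height (V : Finset (P → ℝ)) (m : ℕ) (L : ℕ → (P → ℝ) → ℝ)
    (κ : (P → ℝ) → (P → ℝ) → ℝ)
    (hκ : ∀ p w, IsRep V p w → IsRep V p (κ p))
    (hlex : ∀ p w, IsRep V p w → (∀ v ∈ V, w v = κ p v) ∨
      ∃ k < m, (∀ j < k, cost V (L j) w = cost V (L j) (κ p)) ∧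
        cost V (L k) w < cost V (L k) (κ p)) :
    ∃ ω : (P → ℝ) → ℝ, ∀ p w, IsMinRep V ω p w → ∀ v ∈ V, w v = κ p v := by
  classical
  -- uniform distributions
  let u : Finset (P → ℝ) → (P → ℝ) → ℝ := fun S v => if v ∈ S then 1 / (S.card : ℝ) else 0
  have hu : ∀ S ⊆ V, S.Nonempty → IsRep V (∑ v ∈ V, u S v • v) (u S) := by
    intro S hS hne
    have hcard : (0 : ℝ) < S.card := by exact_mod_cast Finset.card_pos.2 hne
    refine ⟨fun v _ => ?_, ?_, rfl⟩
    · show 0 ≤ if v ∈ S then 1 / (S.card : ℝ) else 0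
      split_ifs <;> positivity
    · simp only [u]
      rw [Finset.sum_ite_mem, Finset.inter_eq_right.2 hS, Finset.sum_const, nsmul_eq_mul]
      field_simp
  -- choose `ε`
  have hev : ∀ᶠ ε : ℝ in 𝓝[>] 0, ∀ S ∈ V.powerset.filter (fun S => S.Nonempty ∧
      ¬ ∀ v ∈ V, u S v = κ (∑ v ∈ V, u S v • v) v),
      0 < ∑ j ∈ range m, ε ^ j *
        (cost V (L j) (κ (∑ v ∈ V, u S v • v)) - cost V (L j) (u S)) := by
    rw [Filter.eventually_all_finset]
    intro S hS
    obtain ⟨hSV, hne, hnot⟩ := Finset.mem_filter.1 hS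
    apply eventually_pos_of_lex
    rcases hlex _ _ (hu S (Finset.mem_powerset.1 hSV) hne) with h | ⟨k, hk, h1, h2⟩
    · exact absurd h hnot
    · exact ⟨k, hk, fun j hj => by rw [h1 j hj, sub_self], by linarith⟩
  obtain ⟨ε, hε⟩ := hev.exists
  refine ⟨fun v => -∑ j ∈ range m, ε ^ j * L j v, ?_⟩
  set ω : (P → ℝ) → ℝ := fun v => -∑ j ∈ range m, ε ^ j * L j v with hω
  have hcost : ∀ w, cost V ω w = -∑ j ∈ range m, ε ^ j * cost V (L j) w := by
    intro w
    simp only [cost, hω, Finset.mul_sum, mul_neg, Finset.sum_neg_distrib]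
    rw [Finset.sum_comm]
    congr 1
    apply Finset.sum_congr rfl
    intro j _
    apply Finset.sum_congr rfl
    intro v _
    ring
  intro p w hw
  have hwr := hw.1
  set S := V.filter (fun v => 0 < w v) with hS
  have hSV : S ⊆ V := Finset.filter_subset _ _
  have hSne : S.Nonempty := by
    by_contra hcon
    rw [Finset.not_nonempty_iff_eq_empty] at hcon
    have : ∑ v ∈ V, w v = 0 := by
      apply Finset.sum_eq_zero
      intro v hv
      have h1 : v ∉ S := by rw [hcon]; simp
      have h2 : ¬ 0 < w v := fun h => h1 (Finset.mem_filter.2 ⟨hv, h⟩)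
      exact le_antisymm (not_lt.1 h2) (hwr.nonneg v hv)
    rw [hwr.sum_one] at this
    exact one_ne_zero this
  have hwS : ∀ v ∈ V, v ∉ S → w v = 0 := by
    intro v hv hvS
    have h2 : ¬ 0 < w v := fun h => hvS (Finset.mem_filter.2 ⟨hv, h⟩)
    exact le_antisymm (not_lt.1 h2) (hwr.nonneg v hv)
  have huS := hu S hSV hSne
  set b := ∑ v ∈ V, u S v • v with hb
  have hκb := hκ _ _ huS
  -- first claim
  have claim1 : ∀ v ∈ V, u S v = κ b v := by
    by_contra hcon
    have hpos := hε S (Finset.mem_filter.2 ⟨Finset.mem_powerset.2 hSV, hSne, hcon⟩)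
    obtain ⟨t, ht, hsmall⟩ := exists_small S (fun v => w v) (fun v => u S v)
      (fun v hv => (Finset.mem_filter.1 hv).2)
    have hle : ∀ v ∈ V, t * u S v ≤ w v := by
      intro v hv
      by_cases hvS : v ∈ S
      · exact hsmall v hvS
      · have : u S v = 0 := by simp only [u]; rw [if_neg hvS]
        rw [this, mul_zero]; exact hwr.nonneg v hv
    have hrep := IsRep.exchange ht.le hwr hκb huS hle
    have h1 := hw.2 _ hrep
    rw [cost_add_smul] at h1
    have h2 : 0 ≤ t * (cost V ω (κ b) - cost V ω (u S)) := by linarith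
    have h3 : 0 ≤ cost V ω (κ b) - cost V ω (u S) := nonneg_of_mul_nonneg_right h2 ht
    rw [hcost, hcost] at h3
    have h4 : ∑ j ∈ range m, ε ^ j * (cost V (L j) (κ b) - cost V (L j) (u S)) =
        (∑ j ∈ range m, ε ^ j * cost V (L j) (κ b)) -
        ∑ j ∈ range m, ε ^ j * cost V (L j) (u S) := by
      rw [← Finset.sum_sub_distrib]
      apply Finset.sum_congr rfl
      intro j _; ring
    rw [h4] at hpos
    linarith
  -- second claim
  rcases hlex p w hwr with h | ⟨k, hk, hk1, hk2⟩
  · exact h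
  exfalso
  have hcardpos : (0 : ℝ) < S.card := by exact_mod_cast Finset.card_pos.2 hSne
  obtain ⟨t, ht, hsmall⟩ := exists_small S (fun _ => 1 / (S.card : ℝ)) (fun v => w v)
      (fun v _ => by positivity)
  have hle : ∀ v ∈ V, t * w v ≤ u S v := by
    intro v hv
    by_cases hvS : v ∈ S
    · have := hsmall v hvS
      simp only [u]; rw [if_pos hvS]; exact this
    · rw [hwS v hv hvS, mul_zero]; exact huS.nonneg v hv
  have hκp := hκ _ _ hwr
  have hrep := IsRep.exchange ht.le huS hκp hwr hle
  have hdiff : ∀ j, cost V (L j) (fun v => u S v + t * (κ p v - w v)) - cost V (L j) (κ b) =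
      t * (cost V (L j) (κ p) - cost V (L j) w) := by
    intro j
    rw [cost_add_smul, cost_congr claim1]; ring
  rcases hlex _ _ hrep with h | ⟨k', hk', h1, h2⟩
  · have := cost_congr (ω := L k) h
    have h3 := hdiff k
    rw [this, sub_self] at h3
    have : 0 < t * (cost V (L k) (κ p) - cost V (L k) w) := mul_pos ht (by linarith)
    linarith
  · rcases lt_trichotomy k k' with hlt | heq | hgt
    · have h3 := hdiff k
      rw [h1 k hlt, sub_self] at h3
      have : 0 < t * (cost V (L k) (κ p) - cost V (L k) w) := mul_pos ht (by linarith)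
      linarith
    · subst heq
      have h3 := hdiff k
      have : 0 < t * (cost V (L k) (κ p) - cost V (L k) w) := mul_pos ht (by linarith)
      linarith
    · have h3 := hdiff k'
      rw [hk1 k' hgt, sub_self, mul_zero] at h3
      linarith

end Pool.Agent.H65.RegTri
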