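import Mathlib
import Pool.Agent.H65.Levels
import Pool.Agent.H65.LexWeights

/-!
# Lecture hall order polytopes: lattice points, levels and the layer-cake representation
-/

namespace Pool.Agent.H65.Cake

open Finset MeasureTheory Pool.Agent.H65.RegTri Pool.Agent.H65.Levels

variable {P : Type*} [PartialOrder P] [Fintype P]

/-- The polytope `O(P, ρ + 1)`. -/
def Q (ρ : P → ℕ) : Set (P → ℝ) :=
  {f | (∀ x y, x < y → f x * ((ρ y : ℝ) + 1) ≤ f y * ((ρ x : ℝ) + 1)) ∧
    ∀ x, 0 ≤ f x ∧ f x ≤ (ρ x : ℝ) + 1}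

lemma convex_Q (ρ : P → ℕ) : Convex ℝ (Q ρ) := by
  intro f hf g hg a b ha hb hab
  refine ⟨fun x y hxy => ?_, fun x => ⟨?_, ?_⟩⟩
  · have h1 := mul_le_mul_of_nonneg_left (hf.1 x y hxy) ha
    have h2 := mul_le_mul_of_nonneg_left (hg.1 x y hxy) hb
    simp only [Pi.add_apply, Pi.smul_apply, smul_eq_mul]
    nlinarith
  · have h1 := mul_nonneg ha (hf.2 x).1
    have h2 := mul_nonneg hb (hg.2 x).1
    simp only [Pi.add_apply, Pi.smul_apply, smul_eq_mul]
    linarith
  · have h1 := mul_le_mul_of_nonneg_left (hf.2 x).2 ha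
    have h2 := mul_le_mul_of_nonneg_left (hg.2 x).2 hb
    simp only [Pi.add_apply, Pi.smul_apply, smul_eq_mul]
    calc a * f x + b * g x ≤ a * ((ρ x : ℝ) + 1) + b * ((ρ x : ℝ) + 1) := by linarith
      _ = (a + b) * ((ρ x : ℝ) + 1) := by ring
      _ = (ρ x : ℝ) + 1 := by rw [hab, one_mul]

lemma finite_lat (ρ : P → ℕ) : {v : P → ℝ | v ∈ Q ρ ∧ IsLat v}.Finite := by
  classical
  let F : Finset (P → ℝ) := (Fintype.piFinset (fun x : P => range (ρ x + 2))).image
    (fun k x => (k x : ℝ))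
  apply F.finite_toSet.subset
  rintro v ⟨hv, hl⟩
  choose z hz using hl
  have hz0 : ∀ x, 0 ≤ z x := fun x => by
    have := (hv.2 x).1
    rw [hz x] at this
    exact_mod_cast this
  simp only [F, Finset.coe_image, Set.mem_image, Finset.mem_coe, Fintype.mem_piFinset,
    Finset.mem_range]
  refine ⟨fun x => (z x).toNat, fun x => ?_, ?_⟩
  · have h1 := (hv.2 x).2
    rw [hz x] at h1
    have h2 : z x ≤ ρ x + 1 := by exact_mod_cast h1
    have := hz0 x
    show (z x).toNat < ρ x + 2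
    omega
  · funext x
    rw [hz x]
    have : ((z x).toNat : ℤ) = z x := Int.toNat_of_nonneg (hz0 x)
    exact_mod_cast this

/-- The finite set of lattice points of `Q`. -/
noncomputable def V (ρ : P → ℕ) : Finset (P → ℝ) := (finite_lat ρ).toFinset

lemma mem_V {ρ : P → ℕ} {v : P → ℝ} : v ∈ V ρ ↔ v ∈ Q ρ ∧ IsLat v := by
  unfold V
  rw [Set.Finite.mem_toFinset]
  rfl

/-- level indicator -/
noncomputable def chi (ρ : P → ℕ) (v : P → ℝ) (x : P) (i : ℕ) : ℝ :=
  if i < ρ x + 1 ∧ (ρ x : ℝ) + 1 ≤ v x + i then 1 else 0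

lemma chi_nonneg (ρ : P → ℕ) (v : P → ℝ) (x : P) (i : ℕ) : 0 ≤ chi ρ v x i := by
  unfold chi; split_ifs <;> norm_num

lemma chi_le_one (ρ : P → ℕ) (v : P → ℝ) (x : P) (i : ℕ) : chi ρ v x i ≤ 1 := by
  unfold chi; split_ifs <;> norm_num

lemma chi_zero_or_one (ρ : P → ℕ) (v : P → ℝ) (x : P) (i : ℕ) :
    chi ρ v x i = 0 ∨ chi ρ v x i = 1 := by
  unfold chi; split_ifs <;> simp

lemma chi_zero {ρ : P → ℕ} {v : P → ℝ} {x : P} {i : ℕ} (h : ρ x + 1 ≤ i) : chi ρ v x i = 0 := by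
  unfold chi
  rw [if_neg]
  rintro ⟨h1, _⟩
  omega

lemma exists_nat {ρ : P → ℕ} {v : P → ℝ} (hv : v ∈ V ρ) (x : P) :
    ∃ k : ℕ, v x = k ∧ k ≤ ρ x + 1 := by
  obtain ⟨h1, h2⟩ := mem_V.1 hv
  obtain ⟨z, hz⟩ := h2 x
  have h3 := h1.2 x
  rw [hz] at h3
  have h4 : 0 ≤ z := by exact_mod_cast h3.1
  have h5 : z ≤ ρ x + 1 := by exact_mod_cast h3.2
  refine ⟨z.toNat, ?_, by omega⟩
  rw [hz]
  have : ((z).toNat : ℤ) = z := Int.toNat_of_nonneg h4
  exact_mod_cast this.symm

lemma chi_sum {ρ : P → ℕ} {v : P → ℝ} (hv : v ∈ V ρ) (x : P) :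
    ∑ i ∈ range (ρ x + 1), chi ρ v x i = v x := by
  classical
  obtain ⟨k, hk, hle⟩ := exists_nat hv x
  unfold chi
  rw [← Finset.sum_filter]
  have : (range (ρ x + 1)).filter (fun i => i < ρ x + 1 ∧ (ρ x : ℝ) + 1 ≤ v x + i) =
      Finset.Ico (ρ x + 1 - k) (ρ x + 1) := by
    ext i
    rw [Finset.mem_filter, Finset.mem_range, Finset.mem_Ico, hk]
    constructor
    · rintro ⟨h1, _, h2⟩
      have h3 : ρ x + 1 ≤ k + i := by exact_mod_cast h2
      omega
    · rintro ⟨h1, h2⟩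
      refine ⟨h2, h2, ?_⟩
      have h3 : ρ x + 1 ≤ k + i := by omega
      exact_mod_cast h3
  rw [this, Finset.sum_const, nsmul_eq_mul, mul_one, Nat.card_Ico, hk]
  congr 1
  omega

lemma chi_step {ρ : P → ℕ} {v : P → ℝ} {x : P} {i : ℕ} (h : i + 1 < ρ x + 1) :
    chi ρ v x i ≤ chi ρ v x (i + 1) := by
  unfold chi
  by_cases h1 : i < ρ x + 1 ∧ (ρ x : ℝ) + 1 ≤ v x + i
  · rw [if_pos h1, if_pos]
    refine ⟨h, ?_⟩
    push_cast
    linarith [h1.2]
  · rw [if_neg h1]
    split_ifs <;> norm_num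

/-- monotonicity of the level indicators of lattice points; uses that the poset is graded -/
lemma chi_mono {ρ : P → ℕ} (hρ : ∀ x y : P, x < y → ρ x < ρ y)
    (hcov : ∀ x y : P, x ⋖ y → ρ y = ρ x + 1) {v : P → ℝ} (hv : v ∈ V ρ) :
    ∀ (n : ℕ) (x y : P), x < y → ρ y - ρ x ≤ n → ∀ i < ρ x + 1,
      chi ρ v x i ≤ chi ρ v y i := by
  intro n
  induction n with
  | zero =>
    intro x y hxy hn
    have := hρ x y hxy
    omega
  | succ n ih =>
    intro x y hxy hn i hi
    obtain ⟨z, hxz, hzy⟩ := exists_le_covBy_of_lt hxy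
    have hz := hcov z y hzy
    have key : ∀ j < ρ z + 1, chi ρ v z j ≤ chi ρ v y j := by
      intro j hj
      unfold chi
      by_cases h1 : j < ρ z + 1 ∧ (ρ z : ℝ) + 1 ≤ v z + j
      · rw [if_pos h1, if_pos]
        refine ⟨by omega, ?_⟩
        obtain ⟨a, ha, ha'⟩ := exists_nat hv z
        obtain ⟨b, hb, hb'⟩ := exists_nat hv y
        have h2 := (mem_V.1 hv).1.1 z y hzy.lt
        have h3 := h1.2
        rw [ha] at h2 h3
        rw [hb] at h2 ⊢
        have h3' : ρ z + 1 ≤ a + j := by exact_mod_cast h3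
        rw [hz] at h2 ⊢
        have h2' : a * ((ρ z + 1) + 1) ≤ b * (ρ z + 1) := by exact_mod_cast h2
        have hapos : 0 < a := by omega
        have h4 : a < b := by
          by_contra hcon
          push Not at hcon
          have : b * (ρ z + 1) ≤ a * (ρ z + 1) := Nat.mul_le_mul_right _ hcon
          nlinarith
        have h5 : (ρ z + 1) + 1 ≤ b + j := by omega
        exact_mod_cast h5
      · rw [if_neg h1]
        split_ifs <;> norm_num
    rcases hxz.eq_or_lt with rfl | hlt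
    · exact key i hi
    · have hxz' := hρ x z hlt
      exact (ih x z hlt (by omega) i hi).trans (key i (by omega))

/-- the levels of a representation -/
noncomputable def levels (ρ : P → ℕ) (w : (P → ℝ) → ℝ) (x : P) (i : ℕ) : ℝ :=
  ∑ v ∈ V ρ, w v * chi ρ v x i

lemma lev_top {ρ : P → ℕ} {R : ℕ} (hR : ∀ x, ρ x ≤ R) (x : P) : lev ρ (R + 1) x = ρ x + 1 := by
  unfold lev
  have := hR x
  omega

lemma levels_sol {ρ : P → ℕ} (hρ : ∀ x y : P, x < y → ρ x < ρ y)
    (hcov : ∀ x y : P, x ⋖ y → ρ y = ρ x + 1) {R : ℕ} (hR : ∀ x, ρ x ≤ R)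
    {p : P → ℝ} {w : (P → ℝ) → ℝ} (hw : IsRep (V ρ) p w) :
    Sol ρ (R + 1) p (fun _ => 1) (levels ρ w) := by
  refine ⟨?_, ?_, ?_, ?_, ?_, ?_⟩
  · intro x i
    exact Finset.sum_nonneg (fun v hv => mul_nonneg (hw.nonneg v hv) (chi_nonneg _ _ _ _))
  · intro x i _
    rw [← hw.sum_one]
    apply Finset.sum_le_sum
    intro v hv
    have := mul_le_mul_of_nonneg_left (chi_le_one ρ v x i) (hw.nonneg v hv)
    linarith
  · intro x i hi
    rw [lev_top hR] at hi
    apply Finset.sum_le_sum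
    intro v hv
    exact mul_le_mul_of_nonneg_left (chi_step hi) (hw.nonneg v hv)
  · intro x y i hxy hi
    rw [lev_top hR] at hi
    apply Finset.sum_le_sum
    intro v hv
    exact mul_le_mul_of_nonneg_left (chi_mono hρ hcov hv _ x y hxy (le_refl _) i hi)
      (hw.nonneg v hv)
  · intro x
    rw [lev_top hR]
    unfold levels
    rw [Finset.sum_comm]
    rw [← hw.sum_pt, Finset.sum_apply]
    apply Finset.sum_congr rfl
    intro v hv
    rw [← Finset.mul_sum, chi_sum hv, Pi.smul_apply, smul_eq_mul]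
  · intro x i hi
    rw [lev_top hR] at hi
    apply Finset.sum_eq_zero
    intro v _
    rw [chi_zero hi, mul_zero]

/-- the lattice point at threshold `t` -/
noncomputable def pt (ρ : P → ℕ) (σ : P → ℕ → ℝ) (t : ℝ) : P → ℝ :=
  fun x => ∑ i ∈ range (ρ x + 1), if t ≤ σ x i then (1 : ℝ) else 0

section Threshold

variable {ρ : P → ℕ} {R : ℕ} {p : P → ℝ} {σ : P → ℕ → ℝ}

lemma sol_step_le (hR : ∀ x, ρ x ≤ R) (hσ : Sol ρ (R + 1) p (fun _ => 1) σ) (x : P) :
    ∀ (k i : ℕ), i + k < ρ x + 1 → σ x i ≤ σ x (i + k) := by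
  intro k
  induction k with
  | zero => intro i _; exact le_refl _
  | succ k ih =>
    intro i hi
    exact (ih i (by omega)).trans (hσ.step x (i + k) (by rw [lev_top hR]; omega))

lemma pt_eq_card (x : P) (t : ℝ) :
    pt ρ σ t x = (((range (ρ x + 1)).filter (fun i => t ≤ σ x i)).card : ℝ) := by
  unfold pt
  rw [← Finset.sum_filter, Finset.sum_const, nsmul_eq_mul, mul_one]

lemma chi_pt (hR : ∀ x, ρ x ≤ R) (hσ : Sol ρ (R + 1) p (fun _ => 1) σ) {x : P} {i : ℕ}
    (hi : i < ρ x + 1) (t : ℝ) : chi ρ (pt ρ σ t) x i = if t ≤ σ x i then 1 else 0 := by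
  classical
  unfold chi
  by_cases ht : t ≤ σ x i
  · rw [if_pos ht, if_pos]
    refine ⟨hi, ?_⟩
    rw [pt_eq_card]
    have hsub : Finset.Ico i (ρ x + 1) ⊆ (range (ρ x + 1)).filter (fun i => t ≤ σ x i) := by
      intro j hj
      rw [Finset.mem_Ico] at hj
      rw [Finset.mem_filter, Finset.mem_range]
      refine ⟨hj.2, ht.trans ?_⟩
      have := sol_step_le hR hσ x (j - i) i (by omega)
      rwa [show i + (j - i) = j by omega] at this
    have := Finset.card_le_card hsub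
    rw [Nat.card_Ico] at this
    have h2 : ρ x + 1 ≤ ((range (ρ x + 1)).filter (fun i => t ≤ σ x i)).card + i := by omega
    exact_mod_cast h2
  · rw [if_neg ht, if_neg]
    rintro ⟨_, h1⟩
    rw [pt_eq_card] at h1
    have hsub : (range (ρ x + 1)).filter (fun i => t ≤ σ x i) ⊆ Finset.Ico (i + 1) (ρ x + 1) := by
      intro j hj
      rw [Finset.mem_filter, Finset.mem_range] at hj
      rw [Finset.mem_Ico]
      refine ⟨?_, hj.1⟩
      by_contra hcon
      apply ht
      have := sol_step_le hR hσ x (i - j) j (by omega)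
      rw [show j + (i - j) = i by omega] at this
      exact hj.2.trans this
    have := Finset.card_le_card hsub
    rw [Nat.card_Ico] at this
    have h2 : ρ x + 1 ≤ ((range (ρ x + 1)).filter (fun i => t ≤ σ x i)).card + i := by
      exact_mod_cast h1
    omega

/-- averages of an increasing sequence increase -/
lemma avg_mono (a : ℕ → ℝ) (k : ℕ) :
    ∀ n, (∀ i j, i ≤ j → j < k + n → a i ≤ a j) →
      (∑ i ∈ range k, a i) * ((k + n : ℕ) : ℝ) ≤ (∑ i ∈ range (k + n), a i) * (k : ℝ) := by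
  intro n
  induction n with
  | zero => intro _; simp
  | succ n ih =>
    intro hmono
    have h1 := ih (fun i j hij hj => hmono i j hij (by omega))
    rw [← Nat.add_assoc, Finset.sum_range_succ]
    have h2 : ∑ i ∈ range k, a i ≤ (k : ℝ) * a (k + n) := by
      calc ∑ i ∈ range k, a i ≤ ∑ i ∈ range k, a (k + n) :=
            Finset.sum_le_sum (fun i hi => hmono i (k + n) (by
              have := Finset.mem_range.1 hi; omega) (by omega))
        _ = (k : ℝ) * a (k + n) := by rw [Finset.sum_const, Finset.card_range, nsmul_eq_mul]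
    push_cast at h1 ⊢
    nlinarith

lemma pt_mem_V (hρ : ∀ x y : P, x < y → ρ x < ρ y) (hR : ∀ x, ρ x ≤ R)
    (hσ : Sol ρ (R + 1) p (fun _ => 1) σ) (t : ℝ) : pt ρ σ t ∈ V ρ := by
  classical
  rw [mem_V]
  refine ⟨⟨?_, ?_⟩, ?_⟩
  · intro x y hxy
    have hxy' := hρ x y hxy
    let a : ℕ → ℝ := fun i => if t ≤ σ y i then 1 else 0
    have hle : pt ρ σ t x ≤ ∑ i ∈ range (ρ x + 1), a i := by
      unfold pt
      apply Finset.sum_le_sum
      intro i hi
      have h1 := hσ.mono x y i hxy (by rw [lev_top hR]; exact Finset.mem_range.1 hi)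
      simp only [a]
      by_cases ht : t ≤ σ x i
      · rw [if_pos ht, if_pos (ht.trans h1)]
      · rw [if_neg ht]; split_ifs <;> norm_num
    have h2 := avg_mono a (ρ x + 1) (ρ y - ρ x) (fun i j hij hj => by
      simp only [a]
      have h3 := sol_step_le hR hσ y (j - i) i (by omega)
      rw [show i + (j - i) = j by omega] at h3
      by_cases ht : t ≤ σ y i
      · rw [if_pos ht, if_pos (ht.trans h3)]
      · rw [if_neg ht]; split_ifs <;> norm_num)
    rw [show ρ x + 1 + (ρ y - ρ x) = ρ y + 1 by omega] at h2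
    push_cast at h2
    have h4 : pt ρ σ t y = ∑ i ∈ range (ρ y + 1), a i := rfl
    rw [h4]
    refine le_trans ?_ h2
    apply mul_le_mul_of_nonneg_right hle (by positivity)
  · intro x
    rw [pt_eq_card]
    refine ⟨by positivity, ?_⟩
    have := Finset.card_filter_le (range (ρ x + 1)) (fun i => t ≤ σ x i)
    rw [Finset.card_range] at this
    exact_mod_cast this
  · intro x
    rw [pt_eq_card]
    exact ⟨_, by norm_cast⟩

lemma measurable_pt : Measurable (pt ρ σ) := by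
  apply measurable_pi_lambda
  intro x
  unfold pt
  apply Finset.measurable_sum
  intro i _
  exact Measurable.ite (measurableSet_Iic) measurable_const measurable_const

/-- the threshold set of a lattice point -/
def T (ρ : P → ℕ) (σ : P → ℕ → ℝ) (v : P → ℝ) : Set ℝ := {t | t ∈ Set.Ioc (0 : ℝ) 1 ∧ pt ρ σ t = v}

lemma measurableSet_T (v : P → ℝ) : MeasurableSet (T ρ σ v) := by
  apply measurableSet_Ioc.inter
  exact measurable_pt (measurableSet_singleton v)

/-- canonical weights -/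
noncomputable def kap (ρ : P → ℕ) (σ : P → ℕ → ℝ) (v : P → ℝ) : ℝ := volume.real (T ρ σ v)

lemma kap_nonneg (v : P → ℝ) : 0 ≤ kap ρ σ v := measureReal_nonneg

lemma T_finite (v : P → ℝ) : volume (T ρ σ v) ≠ ⊤ := by
  apply ne_top_of_le_ne_top (b := volume (Set.Ioc (0 : ℝ) 1))
  · simp
  · exact measure_mono (fun t ht => ht.1)

open Classical in
lemma kap_sum_filter (hρ : ∀ x y : P, x < y → ρ x < ρ y) (hR : ∀ x, ρ x ≤ R)
    (hσ : Sol ρ (R + 1) p (fun _ => 1) σ) (B : (P → ℝ) → Prop) :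
    ∑ v ∈ (V ρ).filter B, kap ρ σ v = volume.real {t | t ∈ Set.Ioc (0 : ℝ) 1 ∧ B (pt ρ σ t)} := by
  unfold kap
  rw [← measureReal_biUnion_finset (h := fun b _ => T_finite b)]
  · congr 1
    ext t
    simp only [Set.mem_iUnion, Finset.mem_filter, T, Set.mem_ofPred_eq, exists_prop]
    constructor
    · rintro ⟨v, ⟨_, hB⟩, ht, rfl⟩
      exact ⟨ht, hB⟩
    · rintro ⟨ht, hB⟩
      exact ⟨_, ⟨pt_mem_V hρ hR hσ t, hB⟩, ht, rfl⟩
  · intro v _ w _ hvw
    apply Set.disjoint_left.2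
    rintro t ⟨_, h1⟩ ⟨_, h2⟩
    exact hvw (h1.symm.trans h2)
  · intro v _
    exact measurableSet_T v

lemma volume_le (a : ℝ) (h0 : 0 ≤ a) (h1 : a ≤ 1) :
    volume.real {t : ℝ | t ∈ Set.Ioc (0 : ℝ) 1 ∧ t ≤ a} = a := by
  have : {t : ℝ | t ∈ Set.Ioc (0 : ℝ) 1 ∧ t ≤ a} = Set.Ioc 0 a := by
    ext t
    simp only [Set.mem_ofPred_eq, Set.mem_Ioc]
    constructor
    · rintro ⟨⟨h2, _⟩, h4⟩; exact ⟨h2, h4⟩
    · rintro ⟨h2, h3⟩; exact ⟨⟨h2, h3.trans h1⟩, h3⟩
  rw [this, Real.volume_real_Ioc_of_le h0, sub_zero]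

lemma sol_le_one (hR : ∀ x, ρ x ≤ R) (hσ : Sol ρ (R + 1) p (fun _ => 1) σ) (x : P) (i : ℕ) :
    σ x i ≤ 1 := by
  by_cases hi : i < ρ x + 1
  · exact hσ.le x i (by rw [lev_top hR]; exact hi)
  · rw [hσ.zero x i (by rw [lev_top hR]; omega)]; norm_num

lemma kap_sum_one (hρ : ∀ x y : P, x < y → ρ x < ρ y) (hR : ∀ x, ρ x ≤ R)
    (hσ : Sol ρ (R + 1) p (fun _ => 1) σ) : ∑ v ∈ V ρ, kap ρ σ v = 1 := by
  classical
  have h := kap_sum_filter hρ hR hσ (fun _ => True)
  rw [Finset.filter_true] at h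
  rw [h]
  have : {t : ℝ | t ∈ Set.Ioc (0 : ℝ) 1 ∧ True} = Set.Ioc 0 1 := by ext t; simp
  rw [this, Real.volume_real_Ioc_of_le zero_le_one, sub_zero]

lemma kap_chi (hρ : ∀ x y : P, x < y → ρ x < ρ y) (hR : ∀ x, ρ x ≤ R)
    (hσ : Sol ρ (R + 1) p (fun _ => 1) σ) (x : P) (i : ℕ) :
    levels ρ (kap ρ σ) x i = σ x i := by
  classical
  by_cases hi : i < ρ x + 1
  · have h := kap_sum_filter hρ hR hσ (fun v => chi ρ v x i = 1)
    have h2 : levels ρ (kap ρ σ) x i = ∑ v ∈ (V ρ).filter (fun v => chi ρ v x i = 1), kap ρ σ v := by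
      unfold levels
      rw [Finset.sum_filter]
      apply Finset.sum_congr rfl
      intro v _
      rcases chi_zero_or_one ρ v x i with h3 | h3
      · rw [h3]; simp
      · rw [h3]; simp
    rw [h2, h]
    have h4 : {t : ℝ | t ∈ Set.Ioc (0 : ℝ) 1 ∧ chi ρ (pt ρ σ t) x i = 1} =
        {t : ℝ | t ∈ Set.Ioc (0 : ℝ) 1 ∧ t ≤ σ x i} := by
      ext t
      simp only [Set.mem_ofPred_eq]
      rw [chi_pt hR hσ hi t]
      constructor
      · rintro ⟨h5, h6⟩
        refine ⟨h5, ?_⟩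
        by_contra hcon
        rw [if_neg hcon] at h6
        norm_num at h6
      · rintro ⟨h5, h6⟩
        exact ⟨h5, if_pos h6⟩
    rw [h4]
    exact volume_le _ (hσ.nonneg x i) (sol_le_one hR hσ x i)
  · have h1 : σ x i = 0 := hσ.zero x i (by rw [lev_top hR]; omega)
    rw [h1]
    apply Finset.sum_eq_zero
    intro v _
    rw [chi_zero (by omega), mul_zero]

lemma kap_rep (hρ : ∀ x y : P, x < y → ρ x < ρ y) (hR : ∀ x, ρ x ≤ R)
    (hσ : Sol ρ (R + 1) p (fun _ => 1) σ) : IsRep (V ρ) p (kap ρ σ) := by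
  refine ⟨fun v _ => kap_nonneg v, kap_sum_one hρ hR hσ, ?_⟩
  funext x
  rw [Finset.sum_apply, ← hσ.sum x, lev_top hR]
  have h1 : ∀ i ∈ range (ρ x + 1), σ x i = levels ρ (kap ρ σ) x i :=
    fun i _ => (kap_chi hρ hR hσ x i).symm
  rw [Finset.sum_congr rfl h1]
  unfold levels
  rw [Finset.sum_comm]
  apply Finset.sum_congr rfl
  intro v hv
  rw [← Finset.mul_sum, chi_sum hv, Pi.smul_apply, smul_eq_mul]

/-- pair correlations of the canonical weights -/
lemma kap_pair (hρ : ∀ x y : P, x < y → ρ x < ρ y) (hR : ∀ x, ρ x ≤ R)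
    (hσ : Sol ρ (R + 1) p (fun _ => 1) σ) (x y : P) (i j : ℕ) :
    ∑ v ∈ V ρ, kap ρ σ v * (chi ρ v x i * chi ρ v y j) = min (σ x i) (σ y j) := by
  classical
  by_cases hi : i < ρ x + 1
  · by_cases hj : j < ρ y + 1
    · have h := kap_sum_filter hρ hR hσ (fun v => chi ρ v x i = 1 ∧ chi ρ v y j = 1)
      have h2 : ∑ v ∈ V ρ, kap ρ σ v * (chi ρ v x i * chi ρ v y j) =
          ∑ v ∈ (V ρ).filter (fun v => chi ρ v x i = 1 ∧ chi ρ v y j = 1), kap ρ σ v := by
        rw [Finset.sum_filter]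
        apply Finset.sum_congr rfl
        intro v _
        rcases chi_zero_or_one ρ v x i with h3 | h3 <;>
        rcases chi_zero_or_one ρ v y j with h4 | h4 <;> rw [h3, h4] <;> simp
      have h' : ∑ v ∈ (V ρ).filter (fun v => chi ρ v x i = 1 ∧ chi ρ v y j = 1), kap ρ σ v =
          volume.real {t : ℝ | t ∈ Set.Ioc (0 : ℝ) 1 ∧ (chi ρ (pt ρ σ t) x i = 1 ∧
          chi ρ (pt ρ σ t) y j = 1)} := by convert h
      rw [h2, h']
      have h4 : {t : ℝ | t ∈ Set.Ioc (0 : ℝ) 1 ∧ (chi ρ (pt ρ σ t) x i = 1 ∧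
          chi ρ (pt ρ σ t) y j = 1)} =
          {t : ℝ | t ∈ Set.Ioc (0 : ℝ) 1 ∧ t ≤ min (σ x i) (σ y j)} := by
        ext t
        simp only [Set.mem_ofPred_eq, le_min_iff]
        rw [chi_pt hR hσ hi t, chi_pt hR hσ hj t]
        constructor
        · rintro ⟨h5, h6, h7⟩
          refine ⟨h5, ?_, ?_⟩
          · by_contra hcon
            rw [if_neg hcon] at h6
            norm_num at h6
          · by_contra hcon
            rw [if_neg hcon] at h7
            norm_num at h7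
        · rintro ⟨h5, h6, h7⟩
          exact ⟨h5, if_pos h6, if_pos h7⟩
      rw [h4]
      exact volume_le _ (le_min (hσ.nonneg x i) (hσ.nonneg y j))
        ((min_le_left _ _).trans (sol_le_one hR hσ x i))
    · have h1 : σ y j = 0 := hσ.zero y j (by rw [lev_top hR]; omega)
      rw [h1, min_eq_right (hσ.nonneg x i)]
      apply Finset.sum_eq_zero
      intro v _
      rw [chi_zero (x := y) (by omega), mul_zero, mul_zero]
  · have h1 : σ x i = 0 := hσ.zero x i (by rw [lev_top hR]; omega)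
    rw [h1, min_eq_left (hσ.nonneg y j)]
    apply Finset.sum_eq_zero
    intro v _
    rw [chi_zero (x := x) (by omega), zero_mul, mul_zero]

/-- integrality of the canonical weights -/
lemma kap_integral (hρ : ∀ x y : P, x < y → ρ x < ρ y) (hR : ∀ x, ρ x ≤ R)
    (hσ : Sol ρ (R + 1) p (fun _ => 1) σ) {N : ℕ} (hN : 0 < N)
    (hint : ∀ x i, ∃ z : ℤ, (N : ℝ) * σ x i = z) (v : P → ℝ) :
    ∃ z : ℤ, (N : ℝ) * kap ρ σ v = z := by
  classical
  have hNpos : (0 : ℝ) < N := by exact_mod_cast hN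
  -- `pt` is constant on intervals
  have hconst : ∀ (k : ℕ) (t : ℝ), (k : ℝ) / N < t → t ≤ ((k : ℝ) + 1) / N →
      pt ρ σ t = pt ρ σ (((k : ℝ) + 1) / N) := by
    intro k t h1 h2
    funext x
    unfold pt
    apply Finset.sum_congr rfl
    intro i _
    obtain ⟨z, hz⟩ := hint x i
    have heq : (t ≤ σ x i) ↔ (((k : ℝ) + 1) / N ≤ σ x i) := by
      constructor
      · intro h
        have h3 : (k : ℝ) < z := by
          rw [← hz]
          rw [div_lt_iff₀ hNpos] at h1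
          nlinarith
        have h4 : (k : ℤ) < z := by exact_mod_cast h3
        have h5 : (k : ℝ) + 1 ≤ z := by exact_mod_cast h4
        rw [div_le_iff₀ hNpos, mul_comm, hz]
        exact h5
      · intro h; exact h2.trans h
    simp only [heq]
  let K : Finset ℕ := (range N).filter (fun k => pt ρ σ (((k : ℝ) + 1) / N) = v)
  have hT : T ρ σ v = ⋃ k ∈ K, Set.Ioc ((k : ℝ) / N) (((k : ℝ) + 1) / N) := by
    ext t
    simp only [Set.mem_iUnion, T, Set.mem_ofPred_eq, exists_prop, K, Finset.mem_filter,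
      Finset.mem_range, Set.mem_Ioc]
    constructor
    · rintro ⟨⟨h1, h2⟩, h3⟩
      have hpos : 0 < (N : ℝ) * t := mul_pos hNpos h1
      have hc1 : 0 < ⌈(N : ℝ) * t⌉ := Int.ceil_pos.2 hpos
      obtain ⟨k, hk⟩ : ∃ k : ℕ, (k : ℤ) + 1 = ⌈(N : ℝ) * t⌉ :=
        ⟨(⌈(N : ℝ) * t⌉ - 1).toNat, by
          rw [Int.toNat_of_nonneg (by omega)]; ring⟩
      have hkR : ((k : ℝ) + 1) = (⌈(N : ℝ) * t⌉ : ℝ) := by exact_mod_cast hk
      have h4 : (k : ℝ) / N < t := by
        rw [div_lt_iff₀ hNpos]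
        have := Int.ceil_lt_add_one ((N : ℝ) * t)
        rw [← hkR] at this
        linarith
      have h5 : t ≤ ((k : ℝ) + 1) / N := by
        rw [le_div_iff₀ hNpos, hkR]
        have := Int.le_ceil ((N : ℝ) * t)
        linarith
      have h6 : k < N := by
        have h7 : ⌈(N : ℝ) * t⌉ ≤ N := by
          rw [Int.ceil_le]
          push_cast
          nlinarith
        omega
      exact ⟨k, ⟨h6, by rw [← hconst k t h4 h5]; exact h3⟩, h4, h5⟩
    · rintro ⟨k, ⟨h1, h2⟩, h3, h4⟩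
      refine ⟨⟨?_, ?_⟩, ?_⟩
      · exact lt_of_le_of_lt (by positivity) h3
      · refine h4.trans ?_
        rw [div_le_one hNpos]
        exact_mod_cast h1
      · rw [hconst k t h3 h4]; exact h2
  refine ⟨K.card, ?_⟩
  unfold kap
  rw [hT, measureReal_biUnion_finset (h := fun b _ => by simp)]
  · have : ∀ k ∈ K, volume.real (Set.Ioc ((k : ℝ) / N) (((k : ℝ) + 1) / N)) = 1 / N := by
      intro k _
      rw [Real.volume_real_Ioc_of_le (by gcongr; linarith)]
      ring
    rw [Finset.sum_congr rfl this, Finset.sum_const, nsmul_eq_mul]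
    push_cast
    field_simp
  · intro a _ b _ hab
    apply Set.disjoint_left.2
    rintro t ⟨h1, h2⟩ ⟨h3, h4⟩
    rcases lt_or_gt_of_ne hab with h | h
    · have h5 : (a : ℝ) + 1 ≤ b := by exact_mod_cast h
      have h6 : ((a : ℝ) + 1) / N ≤ (b : ℝ) / N := by gcongr
      linarith
    · have h5 : (b : ℝ) + 1 ≤ a := by exact_mod_cast h
      have h6 : ((b : ℝ) + 1) / N ≤ (a : ℝ) / N := by gcongr
      linarith
  · intro k _
    exact measurableSet_Ioc

end Threshold

end Pool.Agent.H65.Cake
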