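import Mathlib
import Pool.Agent.H65.ST2

/-!
Flat functions: Taylor bound, super-flatness from growth of derivatives, quotients by polynomials.
-/

namespace Pool.Agent.H65.ST

open Polynomial Complex Filter Topology

noncomputable section

/-- Taylor bound at a flat point. -/
lemma flat_bound {f : ℝ → ℂ} (hf : ContDiff ℝ (⊤ : ℕ∞) f) {b x C : ℝ} (n : ℕ)
    (h0 : ∀ k < n, iteratedDeriv k f b = 0) (hx : b ≤ x)
    (hC : ∀ y ∈ Set.Icc b x, ‖iteratedDeriv n f y‖ ≤ C) :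
    ‖f x‖ ≤ C * ((x - b) ^ n / n.factorial) := by
  induction n generalizing f x with
  | zero =>
    have := hC x ⟨hx, le_refl _⟩
    simpa using this
  | succ n ih =>
    have hf' : ContDiff ℝ (⊤ : ℕ∞) (deriv f) := hf.iterate_deriv 1
    have h1 : ∀ y ∈ Set.Icc b x, ‖deriv f y‖ ≤ C * ((y - b) ^ n / n.factorial) := by
      intro y hy
      refine ih hf' (fun k hk => ?_) hy.1 (fun z hz => ?_)
      · rw [← iteratedDeriv_succ']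
        exact h0 (k + 1) (by omega)
      · rw [← iteratedDeriv_succ']
        exact hC z ⟨hz.1, hz.2.trans hy.2⟩
    have hdiff : Differentiable ℝ f := hf.differentiable (by simp)
    have h2 := image_norm_le_of_norm_deriv_right_le_deriv_boundary (f := f) (a := b) (b := x)
      (f' := deriv f) (B := fun y => C * ((y - b) ^ (n + 1) / (n + 1).factorial))
      (B' := fun y => C * ((y - b) ^ n / n.factorial)) hdiff.continuous.continuousOn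
      (fun y _ => (hdiff y).hasDerivAt.hasDerivWithinAt) (by
        have := h0 0 (Nat.succ_pos n)
        simp only [iteratedDeriv_zero] at this
        rw [this]
        simp) (fun y => by
        have h3 : HasDerivAt (fun y : ℝ => (y - b) ^ (n + 1)) ((n + 1 : ℕ) * (y - b) ^ n) y := by
          have := ((hasDerivAt_id y).sub_const b).fun_pow (n + 1)
          simpa using this
        refine ((h3.div_const _).const_mul C).congr_deriv ?_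
        rw [Nat.factorial_succ]
        push_cast
        have h4 : (n.factorial : ℝ) ≠ 0 := by positivity
        have h5 : (n : ℝ) + 1 ≠ 0 := by positivity
        field_simp)
      (fun y hy => h1 y ⟨hy.1, hy.2.le⟩)
    exact h2 ⟨hx, le_refl _⟩

lemma iteratedDeriv_iteratedDeriv (f : ℝ → ℂ) (j k : ℕ) :
    iteratedDeriv j (iteratedDeriv k f) = iteratedDeriv (k + j) f := by
  rw [iteratedDeriv_eq_iterate, iteratedDeriv_eq_iterate, iteratedDeriv_eq_iterate,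
    ← Function.iterate_add_apply, add_comm]

lemma contDiff_iteratedDeriv {f : ℝ → ℂ} (hf : ContDiff ℝ (⊤ : ℕ∞) f) (k : ℕ) :
    ContDiff ℝ (⊤ : ℕ∞) (iteratedDeriv k f) := by
  rw [iteratedDeriv_eq_iterate]
  exact hf.iterate_deriv k

/-- the main estimate at one point -/
lemma superflat_aux {ψ : ℝ → ℂ} (hψ : ContDiff ℝ (⊤ : ℕ∞) ψ) (hflat : ∀ k, iteratedDeriv k ψ 0 = 0)
    {d : ℕ} {M c θ : ℝ} (hc : 0 < c)
    (hM : ∀ (n : ℕ) (ξ : ℝ), ‖iteratedDeriv (2 * n) ψ ξ‖ ≤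
      M * ((((d : ℝ) + 2) * n) / (Real.exp 1 * c)) ^ ((d + 2) * n))
    (hθc : ((d : ℝ) + 2) ^ (d + 2) * θ ^ d ≤ 4 * c ^ (d + 2)) (k n : ℕ) (hn : 1 ≤ n) (hk : k ≤ 2 * n)
    {τ : ℝ} (hτ : 0 < τ) (hnτ : n * τ ^ 2 ≤ θ) :
    ‖iteratedDeriv k ψ (τ ^ d)‖ ≤ M * (2 * n : ℝ) ^ k * (τ⁻¹) ^ (d * k) *
      Real.exp (-(d * n)) := by
  have hM0 : 0 ≤ M := by
    have := hM 0 0
    simp only [mul_zero, CharP.cast_eq_zero, zero_div, pow_zero, mul_one] at this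
    exact (norm_nonneg _).trans this
  have hx : (0 : ℝ) ≤ τ ^ d := by positivity
  have h1 := flat_bound (contDiff_iteratedDeriv hψ k) (b := 0) (x := τ ^ d)
    (C := M * ((((d : ℝ) + 2) * n) / (Real.exp 1 * c)) ^ ((d + 2) * n)) (2 * n - k)
    (fun j _ => by rw [iteratedDeriv_iteratedDeriv]; exact hflat _) hx
    (fun y _ => by
      rw [iteratedDeriv_iteratedDeriv, show k + (2 * n - k) = 2 * n by omega]
      exact hM n y)
  refine h1.trans ?_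
  rw [sub_zero]
  have hnpos : (0 : ℝ) < n := by exact_mod_cast hn
  have hfac : ((2 * n - k).factorial : ℝ) * ((2 * n : ℕ) : ℝ) ^ k ≥ ((2 * n).factorial : ℝ) := by
    rw [← Nat.factorial_mul_descFactorial hk]
    push_cast
    have : ((2 * n).descFactorial k : ℝ) ≤ ((2 * n : ℕ) : ℝ) ^ k := by
      exact_mod_cast Nat.descFactorial_le_pow (2 * n) k
    push_cast at this
    exact mul_le_mul_of_nonneg_left this (by positivity)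
  have hst : ((2 * n : ℕ) : ℝ) ^ (2 * n) ≤ Real.exp (2 * n : ℕ) * ((2 * n).factorial : ℝ) := by
    have := Real.pow_div_factorial_le_exp ((2 * n : ℕ) : ℝ) (by positivity) (2 * n)
    rwa [div_le_iff₀ (by positivity)] at this
  -- `x^(2n-k)/(2n-k)! ≤ x^(2n) x^{-k} (2n)^k e^{2n} / (2n)^{2n}`
  have h2 : (τ ^ d) ^ (2 * n - k) / ((2 * n - k).factorial : ℝ) ≤
      (2 * n : ℝ) ^ k * (τ⁻¹) ^ (d * k) *
        ((τ ^ d) ^ (2 * n) * (Real.exp (2 * n : ℕ) / (2 * n : ℝ) ^ (2 * n))) := by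
    have e1 : (τ ^ d) ^ (2 * n - k) = (τ ^ d) ^ (2 * n) * (τ⁻¹) ^ (d * k) := by
      rw [inv_pow, pow_mul τ d k, ← div_eq_mul_inv, eq_div_iff (by positivity), ← pow_add]
      congr 1; omega
    have e2 : 1 / ((2 * n - k).factorial : ℝ) ≤
        (2 * n : ℝ) ^ k * (Real.exp (2 * n : ℕ) / (2 * n : ℝ) ^ (2 * n)) := by
      rw [div_le_iff₀ (by positivity)]
      have e3 : (2 * n : ℝ) ^ k * (Real.exp (2 * n : ℕ) / (2 * n : ℝ) ^ (2 * n)) *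
          ((2 * n - k).factorial : ℝ) =
          (Real.exp (2 * n : ℕ) * (((2 * n - k).factorial : ℝ) * (2 * n : ℝ) ^ k)) /
            (2 * n : ℝ) ^ (2 * n) := by
        field_simp
      rw [e3, one_le_div (by positivity)]
      push_cast at hfac hst ⊢
      refine hst.trans ?_
      exact mul_le_mul_of_nonneg_left hfac (by positivity)
    rw [e1]
    calc (τ ^ d) ^ (2 * n) * (τ⁻¹) ^ (d * k) / ((2 * n - k).factorial : ℝ)
        = (τ ^ d) ^ (2 * n) * (τ⁻¹) ^ (d * k) * (1 / ((2 * n - k).factorial : ℝ)) := by ring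
      _ ≤ (τ ^ d) ^ (2 * n) * (τ⁻¹) ^ (d * k) *
          ((2 * n : ℝ) ^ k * (Real.exp (2 * n : ℕ) / (2 * n : ℝ) ^ (2 * n))) :=
        mul_le_mul_of_nonneg_left e2 (by positivity)
      _ = _ := by ring
  -- the bracket
  have h3 : ((((d : ℝ) + 2) * n) / (Real.exp 1 * c)) ^ ((d + 2) * n) *
      ((τ ^ d) ^ (2 * n) * (Real.exp (2 * n : ℕ) / (2 * n : ℝ) ^ (2 * n))) ≤
      Real.exp (-(d * n)) := by
    have e1 : ((((d : ℝ) + 2) * n) / (Real.exp 1 * c)) ^ ((d + 2) * n) *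
      ((τ ^ d) ^ (2 * n) * (Real.exp (2 * n : ℕ) / (2 * n : ℝ) ^ (2 * n))) =
      ((((d : ℝ) + 2) ^ (d + 2) * (n * τ ^ 2) ^ d / (4 * c ^ (d + 2))) * Real.exp (-d)) ^ n := by
      have e2 : Real.exp (2 * n : ℕ) = (Real.exp 1 ^ 2) ^ n := by
        rw [← pow_mul, ← Real.exp_nat_mul]; simp
      have e3 : Real.exp (-(d : ℝ)) = (Real.exp 1 ^ d)⁻¹ := by
        rw [Real.exp_neg, ← Real.exp_nat_mul]; simp
      rw [e2, e3, pow_mul, pow_mul (τ ^ d), pow_mul (2 * n : ℝ), ← div_pow, ← mul_pow, ← mul_pow]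
      congr 1
      have hE : Real.exp 1 ≠ 0 := (Real.exp_pos 1).ne'
      have hn0 : (n : ℝ) ≠ 0 := hnpos.ne'
      have hc0 : c ≠ 0 := hc.ne'
      rw [div_pow, mul_pow, mul_pow, mul_pow]
      field_simp
      ring
    rw [e1]
    have e4 : (((d : ℝ) + 2) ^ (d + 2) * (n * τ ^ 2) ^ d / (4 * c ^ (d + 2))) ≤ 1 := by
      rw [div_le_one (by positivity)]
      refine le_trans ?_ hθc
      have : (n * τ ^ 2) ^ d ≤ θ ^ d := pow_le_pow_left₀ (by positivity) hnτ d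
      exact mul_le_mul_of_nonneg_left this (by positivity)
    have e5 : Real.exp (-(d * n : ℝ)) = Real.exp (-d) ^ n := by
      rw [← Real.exp_nat_mul]
      congr 1
      ring
    rw [e5]
    refine pow_le_pow_left₀ (by positivity) ?_ n
    calc _ ≤ 1 * Real.exp (-(d : ℝ)) := mul_le_mul_of_nonneg_right e4 (Real.exp_pos _).le
      _ = _ := one_mul _
  calc M * ((((d : ℝ) + 2) * n) / (Real.exp 1 * c)) ^ ((d + 2) * n) *
        ((τ ^ d) ^ (2 * n - k) / ((2 * n - k).factorial : ℝ))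
      ≤ M * ((((d : ℝ) + 2) * n) / (Real.exp 1 * c)) ^ ((d + 2) * n) *
        ((2 * n : ℝ) ^ k * (τ⁻¹) ^ (d * k) *
        ((τ ^ d) ^ (2 * n) * (Real.exp (2 * n : ℕ) / (2 * n : ℝ) ^ (2 * n)))) := by
        refine mul_le_mul_of_nonneg_left h2 ?_
        positivity
    _ = M * (2 * n : ℝ) ^ k * (τ⁻¹) ^ (d * k) *
        (((((d : ℝ) + 2) * n) / (Real.exp 1 * c)) ^ ((d + 2) * n) *
      ((τ ^ d) ^ (2 * n) * (Real.exp (2 * n : ℕ) / (2 * n : ℝ) ^ (2 * n)))) := by ring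
    _ ≤ _ := mul_le_mul_of_nonneg_left h3 (by positivity)

/-- super-flatness at `0` -/
theorem superflat {ψ : ℝ → ℂ} (hψ : ContDiff ℝ (⊤ : ℕ∞) ψ) (hflat : ∀ k, iteratedDeriv k ψ 0 = 0)
    {d : ℕ} {M c θ : ℝ} (hc : 0 < c) (hθ : 0 < θ)
    (hM : ∀ (n : ℕ) (ξ : ℝ), ‖iteratedDeriv (2 * n) ψ ξ‖ ≤
      M * ((((d : ℝ) + 2) * n) / (Real.exp 1 * c)) ^ ((d + 2) * n))
    (hθc : ((d : ℝ) + 2) ^ (d + 2) * θ ^ d ≤ 4 * c ^ (d + 2)) (k : ℕ) :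
    ∃ C τ₀ : ℝ, 0 ≤ C ∧ 0 < τ₀ ∧ ∀ τ ∈ Set.Ioo 0 τ₀, ‖iteratedDeriv k ψ (τ ^ d)‖ ≤
      C * (τ⁻¹) ^ ((d + 2) * k) * Real.exp (-(d * θ / τ ^ 2)) := by
  have hM0 : 0 ≤ M := by
    have := hM 0 0
    simp only [mul_zero, CharP.cast_eq_zero, zero_div, pow_zero, mul_one] at this
    exact (norm_nonneg _).trans this
  refine ⟨M * (2 * θ) ^ k * Real.exp d, min 1 (θ / (k + 2)), by positivity,
    lt_min one_pos (by positivity), ?_⟩
  intro τ hτ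
  have hτ0 : 0 < τ := hτ.1
  have hτ1 : τ < 1 := hτ.2.trans_le (min_le_left _ _)
  have hτ2 : τ < θ / (k + 2) := hτ.2.trans_le (min_le_right _ _)
  have h1 : (k : ℝ) + 2 ≤ θ / τ ^ 2 := by
    rw [le_div_iff₀ (by positivity)]
    rw [lt_div_iff₀ (by positivity)] at hτ2
    have : τ ^ 2 ≤ τ := by nlinarith
    nlinarith [this, hτ2, (by positivity : (0 : ℝ) ≤ k)]
  set n := ⌊θ / τ ^ 2⌋₊ with hn
  have hn1 : (n : ℝ) ≤ θ / τ ^ 2 := Nat.floor_le (by positivity)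
  have hn2 : θ / τ ^ 2 < n + 1 := Nat.lt_floor_add_one _
  have hn3 : (k : ℝ) + 1 < n := by linarith
  have hn4 : k + 1 < n := by exact_mod_cast hn3
  have h2 := superflat_aux hψ hflat hc hM hθc k n (by omega) (by omega) hτ0
    (by rwa [← le_div_iff₀ (by positivity)])
  refine h2.trans ?_
  have h3 : (2 * n : ℝ) ^ k ≤ (2 * θ) ^ k * (τ⁻¹) ^ (2 * k) := by
    rw [pow_mul, ← mul_pow]
    refine pow_le_pow_left₀ (by positivity) ?_ k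
    have : (τ⁻¹) ^ 2 = 1 / τ ^ 2 := by rw [inv_pow, one_div]
    rw [this]
    calc 2 * (n : ℝ) ≤ 2 * (θ / τ ^ 2) := by linarith
      _ = _ := by ring
  have h4 : Real.exp (-(d * n : ℝ)) ≤ Real.exp d * Real.exp (-(d * θ / τ ^ 2)) := by
    rw [← Real.exp_add]
    refine Real.exp_le_exp.mpr ?_
    have : (d : ℝ) * (θ / τ ^ 2) ≤ d * (n + 1) := mul_le_mul_of_nonneg_left hn2.le (by positivity)
    have e : (d : ℝ) * θ / τ ^ 2 = d * (θ / τ ^ 2) := by ring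
    rw [e]
    linarith
  calc M * (2 * n : ℝ) ^ k * (τ⁻¹) ^ (d * k) * Real.exp (-(d * n : ℝ))
      ≤ M * ((2 * θ) ^ k * (τ⁻¹) ^ (2 * k)) * (τ⁻¹) ^ (d * k) *
        (Real.exp d * Real.exp (-(d * θ / τ ^ 2))) := by
        gcongr
    _ = _ := by
        rw [show (d + 2) * k = d * k + 2 * k by ring, pow_add]
        ring

/-- lower bound for a polynomial near a zero -/
lemma poly_lower {q : ℂ[X]} (hq : q ≠ 0) (b : ℝ) :
    ∃ (m : ℕ) (c δ : ℝ), 0 < c ∧ 0 < δ ∧ ∀ ξ ∈ Set.Ioo b (b + δ), c * (ξ - b) ^ m ≤ ‖q.eval (ξ : ℂ)‖ := by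
  obtain ⟨q', hq', hnd⟩ := exists_eq_pow_rootMultiplicity_mul_and_not_dvd q hq (b : ℂ)
  have h0 : q'.eval (b : ℂ) ≠ 0 := fun h => hnd (dvd_iff_isRoot.mpr h)
  have h1 : Continuous (fun ξ : ℝ => ‖q'.eval (ξ : ℂ)‖) := (q'.continuous.comp continuous_ofReal).norm
  have h2 : 0 < ‖q'.eval (b : ℂ)‖ := norm_pos_iff.mpr h0
  have h3 : ∀ᶠ ξ : ℝ in 𝓝 b, ‖q'.eval (b : ℂ)‖ / 2 < ‖q'.eval (ξ : ℂ)‖ :=
    h1.continuousAt.eventually (lt_mem_nhds (half_lt_self h2))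
  obtain ⟨δ, hδ, h4⟩ := Metric.eventually_nhds_iff.mp h3
  refine ⟨rootMultiplicity (b : ℂ) q, ‖q'.eval (b : ℂ)‖ / 2, δ, half_pos h2, hδ, ?_⟩
  intro ξ hξ
  have h5 := h4 (y := ξ) (by rw [Real.dist_eq, abs_lt]; constructor <;> linarith [hξ.1, hξ.2])
  have h6 : q.eval (ξ : ℂ) = ((ξ : ℂ) - b) ^ rootMultiplicity (b : ℂ) q * q'.eval (ξ : ℂ) := by
    conv_lhs => rw [hq']
    simp
  rw [h6, norm_mul, norm_pow, ← ofReal_sub, norm_real, Real.norm_of_nonneg (by linarith [hξ.1]), mul_comm]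
  exact mul_le_mul_of_nonneg_left h5.le (pow_nonneg (by linarith [hξ.1]) _)

lemma poly_bdd (a : ℂ[X]) (b c : ℝ) : ∃ K : ℝ, 0 ≤ K ∧ ∀ ξ ∈ Set.Icc b c, ‖a.eval (ξ : ℂ)‖ ≤ K := by
  have h1 : Continuous (fun ξ : ℝ => ‖a.eval (ξ : ℂ)‖) := (a.continuous.comp continuous_ofReal).norm
  obtain ⟨K, hK⟩ := (isCompact_Icc (a := b) (b := c)).bddAbove_image h1.continuousOn
  refine ⟨max K 0, le_max_right _ _, fun ξ hξ => ?_⟩
  exact (hK ⟨ξ, hξ, rfl⟩).trans (le_max_left _ _)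

/-- super-flatness at `0+` in the variable `τ = ξ^{1/d}` -/
def SF (d : ℕ) (θ : ℝ) (f : ℝ → ℂ) : Prop :=
  ∃ (C τ₀ : ℝ) (N : ℕ), 0 ≤ C ∧ 0 < τ₀ ∧ ∀ τ ∈ Set.Ioo 0 τ₀, ‖f (τ ^ d)‖ ≤
    C * (τ⁻¹) ^ N * Real.exp (-(d * θ / τ ^ 2))

lemma SF.add {d : ℕ} {θ : ℝ} {f g : ℝ → ℂ} (hf : SF d θ f) (hg : SF d θ g) :
    SF d θ (fun ξ => f ξ + g ξ) := by
  obtain ⟨C₁, τ₁, N₁, hC₁, hτ₁, h₁⟩ := hf
  obtain ⟨C₂, τ₂, N₂, hC₂, hτ₂, h₂⟩ := hg
  refine ⟨C₁ + C₂, min (min τ₁ τ₂) 1, max N₁ N₂, by positivity, lt_min (lt_min hτ₁ hτ₂) one_pos, ?_⟩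
  intro τ hτ
  have hτ0 := hτ.1
  have hτ1 : τ < 1 := hτ.2.trans_le (min_le_right _ _)
  have e1 := h₁ τ ⟨hτ0, hτ.2.trans_le ((min_le_left _ _).trans (min_le_left _ _))⟩
  have e2 := h₂ τ ⟨hτ0, hτ.2.trans_le ((min_le_left _ _).trans (min_le_right _ _))⟩
  have hinv : 1 ≤ τ⁻¹ := (one_le_inv₀ hτ0).mpr hτ1.le
  have e3 : (τ⁻¹) ^ N₁ ≤ (τ⁻¹) ^ (max N₁ N₂) := pow_le_pow_right₀ hinv (le_max_left _ _)
  have e4 : (τ⁻¹) ^ N₂ ≤ (τ⁻¹) ^ (max N₁ N₂) := pow_le_pow_right₀ hinv (le_max_right _ _)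
  calc ‖f (τ ^ d) + g (τ ^ d)‖ ≤ ‖f (τ ^ d)‖ + ‖g (τ ^ d)‖ := norm_add_le _ _
    _ ≤ C₁ * (τ⁻¹) ^ N₁ * Real.exp (-(d * θ / τ ^ 2)) +
        C₂ * (τ⁻¹) ^ N₂ * Real.exp (-(d * θ / τ ^ 2)) := add_le_add e1 e2
    _ ≤ C₁ * (τ⁻¹) ^ (max N₁ N₂) * Real.exp (-(d * θ / τ ^ 2)) +
        C₂ * (τ⁻¹) ^ (max N₁ N₂) * Real.exp (-(d * θ / τ ^ 2)) := by gcongr
    _ = _ := by ring

lemma SF_act {ψ : ℝ → ℂ} {d : ℕ} {θ : ℝ}
    (hs : ∀ k : ℕ, ∃ C τ₀ : ℝ, 0 ≤ C ∧ 0 < τ₀ ∧ ∀ τ ∈ Set.Ioo 0 τ₀, ‖iteratedDeriv k ψ (τ ^ d)‖ ≤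
      C * (τ⁻¹) ^ ((d + 2) * k) * Real.exp (-(d * θ / τ ^ 2)))
    (A : ℂ[X][X]) : SF d θ (act A ψ) := by
  induction A using Polynomial.induction_on' with
  | add p q' hp hq' =>
    have h2 : (act (p + q') ψ) = fun ξ => act p ψ ξ + act q' ψ ξ := by
      ext ξ; exact act_add p q' ψ ξ
    rw [h2]
    exact hp.add hq'
  | monomial n a =>
    obtain ⟨C, τ₀, hC, hτ₀, h⟩ := hs n
    obtain ⟨K, hK0, hK⟩ := poly_bdd a 0 1
    refine ⟨K * C, min τ₀ 1, (d + 2) * n, by positivity, lt_min hτ₀ one_pos, fun τ hτ => ?_⟩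
    have hτ1 : τ < 1 := hτ.2.trans_le (min_le_right _ _)
    have hτ2 : τ < τ₀ := hτ.2.trans_le (min_le_left _ _)
    rw [act_monomial, norm_mul]
    have e1 := h τ ⟨hτ.1, hτ2⟩
    have e2 := hK (τ ^ d) ⟨pow_nonneg hτ.1.le d, pow_le_one₀ hτ.1.le hτ1.le⟩
    calc _ ≤ K * (C * (τ⁻¹) ^ ((d + 2) * n) * Real.exp (-(d * θ / τ ^ 2))) :=
          mul_le_mul (by exact_mod_cast e2) e1 (norm_nonneg _) hK0
      _ = _ := by ring

/-- the quotients `A ψ / q` are super-flat at `0` -/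
theorem superflat_quot {ψ : ℝ → ℂ} {d : ℕ} (hd : 1 ≤ d) {θ : ℝ}
    (hs : ∀ k : ℕ, ∃ C τ₀ : ℝ, 0 ≤ C ∧ 0 < τ₀ ∧ ∀ τ ∈ Set.Ioo 0 τ₀, ‖iteratedDeriv k ψ (τ ^ d)‖ ≤
      C * (τ⁻¹) ^ ((d + 2) * k) * Real.exp (-(d * θ / τ ^ 2)))
    {q : ℂ[X]} (hq : q ≠ 0) (A : ℂ[X][X]) {z : ℝ → ℂ} {δ : ℝ} (hδ : 0 < δ)
    (hz : ∀ ξ ∈ Set.Ioo 0 δ, q.eval (ξ : ℂ) * z ξ = act A ψ ξ) : SF d θ z := by
  have h1 : SF d θ (act A ψ) := SF_act hs A
  obtain ⟨C, τ₀, N, hC, hτ₀, h2⟩ := h1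
  obtain ⟨m, c, δ', hc, hδ', h3⟩ := poly_lower hq 0
  refine ⟨C / c, min (min τ₀ 1) (min δ δ'), N + d * m, by positivity,
    lt_min (lt_min hτ₀ one_pos) (lt_min hδ hδ'), fun τ hτ => ?_⟩
  have hτ0 : 0 < τ := hτ.1
  have hτ1 : τ < 1 := hτ.2.trans_le ((min_le_left _ _).trans (min_le_right _ _))
  have hτ2 : τ < τ₀ := hτ.2.trans_le ((min_le_left _ _).trans (min_le_left _ _))
  have hτ3 : τ < δ := hτ.2.trans_le ((min_le_right _ _).trans (min_le_left _ _))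
  have hτ4 : τ < δ' := hτ.2.trans_le ((min_le_right _ _).trans (min_le_right _ _))
  have hpow : τ ^ d ≤ τ := by
    calc τ ^ d ≤ τ ^ 1 := pow_le_pow_of_le_one hτ0.le hτ1.le hd
      _ = τ := pow_one τ
  have hpos : 0 < τ ^ d := by positivity
  have e1 := h3 (τ ^ d) ⟨hpos, by linarith⟩
  have e2 := hz (τ ^ d) ⟨hpos, by linarith⟩
  have e3 := h2 τ ⟨hτ0, hτ2⟩
  rw [sub_zero] at e1
  have e4 : ‖q.eval ((τ ^ d : ℝ) : ℂ)‖ * ‖z (τ ^ d)‖ = ‖act A ψ (τ ^ d)‖ := by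
    rw [← norm_mul, e2]
  have e5 : c * (τ ^ d) ^ m * ‖z (τ ^ d)‖ ≤ C * (τ⁻¹) ^ N * Real.exp (-(d * θ / τ ^ 2)) := by
    calc _ ≤ ‖q.eval ((τ ^ d : ℝ) : ℂ)‖ * ‖z (τ ^ d)‖ :=
          mul_le_mul_of_nonneg_right e1 (norm_nonneg _)
      _ ≤ _ := by rw [e4]; exact e3
  have e6 : ‖z (τ ^ d)‖ = (c * (τ ^ d) ^ m)⁻¹ * (c * (τ ^ d) ^ m * ‖z (τ ^ d)‖) := by
    field_simp
  rw [e6]
  calc _ ≤ (c * (τ ^ d) ^ m)⁻¹ * (C * (τ⁻¹) ^ N * Real.exp (-(d * θ / τ ^ 2))) :=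
        mul_le_mul_of_nonneg_left e5 (by positivity)
    _ = _ := by
        rw [pow_add, pow_mul, mul_inv, ← inv_pow, ← inv_pow]
        ring

end

end Pool.Agent.H65.ST
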