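import Mathlib
import Pool.Agent.H65.ST1
import Pool.Agent.H65.ST8
import Pool.Agent.H65.ST10

/-!
Moments of `h(X)` and the resulting super-flatness of the difference of two characteristic functions.
-/

namespace Pool.Agent.H65.ST

open MeasureTheory ProbabilityTheory Polynomial Complex Filter Topology

noncomputable section

lemma pow_le_exp_bound {u c : ℝ} (hu : 0 ≤ u) (hc : 0 < c) (s : ℕ) :
    u ^ s ≤ ((s : ℝ) / (Real.exp 1 * c)) ^ s * Real.exp (c * u) := by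
  rcases Nat.eq_zero_or_pos s with rfl | hs
  · simp only [pow_zero, one_mul]
    exact Real.one_le_exp (by positivity)
  have hs' : (0 : ℝ) < s := by exact_mod_cast hs
  have h1 : c * u / s ≤ Real.exp (c * u / s - 1) := by
    have := Real.add_one_le_exp (c * u / s - 1)
    linarith
  have h2 : (c * u / s) ^ s ≤ Real.exp (c * u / s - 1) ^ s := pow_le_pow_left₀ (by positivity) h1 s
  have h3 : Real.exp (c * u / s - 1) ^ s = Real.exp (c * u) * (Real.exp 1 ^ s)⁻¹ := by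
    rw [← Real.exp_nat_mul, ← Real.exp_nat_mul, ← Real.exp_neg, ← Real.exp_add]
    congr 1
    field_simp
    ring
  rw [h3] at h2
  have h4 : u ^ s = ((s : ℝ) / c) ^ s * (c * u / s) ^ s := by
    rw [← mul_pow]
    congr 1
    field_simp
  rw [h4]
  calc ((s : ℝ) / c) ^ s * (c * u / s) ^ s
      ≤ ((s : ℝ) / c) ^ s * (Real.exp (c * u) * (Real.exp 1 ^ s)⁻¹) :=
        mul_le_mul_of_nonneg_left h2 (by positivity)
    _ = _ := by
        rw [div_pow, div_pow, mul_pow]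
        field_simp

lemma integrable_exp_sq {a : ℝ} (ha : a < 1 / 2) : Integrable (fun x : ℝ => Real.exp (a * x ^ 2)) gam := by
  unfold gam
  rw [gaussianReal_of_var_ne_zero 0 one_ne_zero]
  rw [integrable_withDensity_iff_integrable_smul' (measurable_gaussianPDF 0 1)
    (ae_of_all _ fun x => gaussianPDF_lt_top)]
  have h1 := (integrable_exp_neg_mul_sq (b := 1 / 2 - a) (by linarith)).const_mul (√(2 * Real.pi))⁻¹
  refine h1.congr (Eventually.of_forall fun x => ?_)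
  simp only [toReal_gaussianPDF, smul_eq_mul, gaussianPDFReal_def, NNReal.coe_one, mul_one, sub_zero]
  rw [mul_assoc, ← Real.exp_add]
  congr 2
  ring

/-- growth of a monic polynomial -/
lemma monic_growth {h : ℝ[X]} (hm : h.Monic) {d : ℕ} (hd : h.natDegree = d + 2) {ε : ℝ} (hε : 0 < ε) :
    ∃ A : ℝ, 0 ≤ A ∧ ∀ x : ℝ, (h.eval x) ^ 2 ≤ (A + (1 + ε) * x ^ 2) ^ (d + 2) := by
  set H : ℝ := ∑ l ∈ Finset.range (d + 2), |h.coeff l| with hH
  have hH0 : 0 ≤ H := Finset.sum_nonneg fun l _ => abs_nonneg _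
  have heval : ∀ x : ℝ, h.eval x = x ^ (d + 2) + ∑ l ∈ Finset.range (d + 2), h.coeff l * x ^ l := by
    intro x
    conv_lhs => rw [hm.as_sum, hd]
    simp [eval_finsetSum]
  set R : ℝ := max 1 (H / ε) with hR
  have hR1 : 1 ≤ R := le_max_left _ _
  have hbig : ∀ x : ℝ, R ≤ |x| → (h.eval x) ^ 2 ≤ ((1 + ε) * x ^ 2) ^ (d + 2) := by
    intro x hx
    have hx1 : 1 ≤ |x| := hR1.trans hx
    have hxH : H ≤ ε * |x| := by
      have : H / ε ≤ |x| := (le_max_right _ _).trans hx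
      rw [div_le_iff₀ hε] at this
      linarith
    have h1 : |h.eval x| ≤ (1 + ε) * |x| ^ (d + 2) := by
      rw [heval]
      calc |x ^ (d + 2) + ∑ l ∈ Finset.range (d + 2), h.coeff l * x ^ l|
          ≤ |x ^ (d + 2)| + |∑ l ∈ Finset.range (d + 2), h.coeff l * x ^ l| := abs_add_le _ _
        _ ≤ |x| ^ (d + 2) + ∑ l ∈ Finset.range (d + 2), |h.coeff l| * |x| ^ (d + 1) := by
            refine add_le_add (by rw [abs_pow]) ?_
            refine (Finset.abs_sum_le_sum_abs _ _).trans (Finset.sum_le_sum fun l hl => ?_)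
            rw [abs_mul, abs_pow]
            exact mul_le_mul_of_nonneg_left
              (pow_le_pow_right₀ hx1 (by have := Finset.mem_range.mp hl; omega)) (abs_nonneg _)
        _ = |x| ^ (d + 2) + H * |x| ^ (d + 1) := by rw [← Finset.sum_mul]
        _ ≤ |x| ^ (d + 2) + (ε * |x|) * |x| ^ (d + 1) := by gcongr
        _ = _ := by ring
    have h2 : (h.eval x) ^ 2 ≤ ((1 + ε) * |x| ^ (d + 2)) ^ 2 := by
      rw [← sq_abs]
      exact pow_le_pow_left₀ (abs_nonneg _) h1 2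
    refine h2.trans ?_
    have h3 : ((1 + ε) * |x| ^ (d + 2)) ^ 2 = (1 + ε) ^ 2 * (x ^ 2) ^ (d + 2) := by
      rw [mul_pow, ← pow_mul, mul_comm (d + 2) 2, pow_mul, sq_abs]
    rw [h3, mul_pow]
    refine mul_le_mul_of_nonneg_right ?_ (by positivity)
    exact pow_le_pow_right₀ (by linarith) (by omega)
  obtain ⟨B, hB⟩ := (isCompact_Icc (a := -R) (b := R)).bddAbove_image
    (f := fun x : ℝ => (h.eval x) ^ 2) (h.continuous.pow 2).continuousOn
  refine ⟨max B 1, by positivity, fun x => ?_⟩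
  rcases le_or_gt R |x| with hx | hx
  · refine (hbig x hx).trans ?_
    refine pow_le_pow_left₀ (by positivity) ?_ _
    have : (0 : ℝ) ≤ max B 1 := by positivity
    linarith
  · have h1 : (h.eval x) ^ 2 ≤ B := hB ⟨x, ⟨by linarith [neg_abs_le x], by linarith [le_abs_self x]⟩, rfl⟩
    have h2 : (1 : ℝ) ≤ max B 1 := le_max_right _ _
    have h3 : max B 1 ≤ max B 1 + (1 + ε) * x ^ 2 := by
      have : 0 ≤ (1 + ε) * x ^ 2 := by positivity
      linarith
    calc (h.eval x) ^ 2 ≤ max B 1 := h1.trans (le_max_left _ _)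
      _ ≤ max B 1 + (1 + ε) * x ^ 2 := h3
      _ ≤ (max B 1 + (1 + ε) * x ^ 2) ^ (d + 2) := le_self_pow₀ (h2.trans h3) (by omega)

/-- moments of `h(X)` -/
theorem moment_bound {h : ℝ[X]} (hm : h.Monic) {d : ℕ} (hd : h.natDegree = d + 2) {c : ℝ} (hc : 0 < c)
    (hc2 : c < 1 / 2) : ∃ M : ℝ, 0 ≤ M ∧ ∀ n : ℕ, ∫ x, (h.eval x) ^ (2 * n) ∂gam ≤
      M * ((((d : ℝ) + 2) * n) / (Real.exp 1 * c)) ^ ((d + 2) * n) := by
  -- choose `ε`
  obtain ⟨ε, hε, hcε⟩ : ∃ ε : ℝ, 0 < ε ∧ c * (1 + ε) < 1 / 2 := by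
    refine ⟨(1 / 2 - c) / (2 * c), by apply div_pos <;> linarith, ?_⟩
    have : c * (1 + (1 / 2 - c) / (2 * c)) = c + (1 / 2 - c) / 2 := by field_simp
    rw [this]
    linarith
  obtain ⟨A, hA, hg⟩ := monic_growth hm hd hε
  have hint : Integrable (fun x : ℝ => Real.exp (c * (A + (1 + ε) * x ^ 2))) gam := by
    have := (integrable_exp_sq hcε).const_mul (Real.exp (c * A))
    refine this.congr (Eventually.of_forall fun x => ?_)
    simp only
    rw [← Real.exp_add]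
    congr 1
    ring
  refine ⟨∫ x, Real.exp (c * (A + (1 + ε) * x ^ 2)) ∂gam,
    integral_nonneg fun x => (Real.exp_pos _).le, fun n => ?_⟩
  rw [mul_comm (∫ x, Real.exp (c * (A + (1 + ε) * x ^ 2)) ∂gam), ← integral_const_mul]
  have hint2 : Integrable (fun x : ℝ => (h.eval x) ^ (2 * n)) gam := by
    have := allMom_gauss.realPoly (h ^ (2 * n))
    simpa using this
  refine integral_mono hint2 (hint.const_mul _) fun x => ?_
  have h1 : (h.eval x) ^ (2 * n) ≤ (A + (1 + ε) * x ^ 2) ^ ((d + 2) * n) := by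
    rw [pow_mul, pow_mul]
    exact pow_le_pow_left₀ (by positivity) (hg x) n
  have h2 := pow_le_exp_bound (u := A + (1 + ε) * x ^ 2) (by positivity) hc ((d + 2) * n)
  push_cast at h2
  exact h1.trans h2

lemma norm_Phi_le {μ : Measure ℝ} (h : ℝ[X]) (g : ℂ[X]) (ξ : ℝ) :
    ‖Phi μ h g ξ‖ ≤ ∫ x : ℝ, ‖g.eval (x : ℂ)‖ ∂μ := by
  unfold Phi
  refine (norm_integral_le_integral_norm _).trans (le_of_eq ?_)
  congr 1
  ext x
  rw [norm_mul, norm_expI, mul_one]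

lemma norm_iteratedDeriv_cf {μ : Measure ℝ} (hμ : AllMom μ) (n : ℕ) (ξ : ℝ) :
    ‖iteratedDeriv (2 * n) (cf μ) ξ‖ ≤ ∫ y, y ^ (2 * n) ∂μ := by
  unfold cf
  rw [iteratedDeriv_Phi hμ]
  simp only
  rw [norm_mul, norm_pow, norm_I, one_pow, one_mul]
  refine (norm_Phi_le X _ ξ).trans (le_of_eq ?_)
  congr 1
  ext y
  have h1 : toC X = X := by unfold toC; simp
  rw [h1]
  simp only [mul_one, eval_pow, eval_X, norm_pow, norm_real, Real.norm_eq_abs]
  rw [pow_mul, pow_mul, sq_abs]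

lemma iteratedDeriv_cf_zero {μ : Measure ℝ} (hμ : AllMom μ) (k : ℕ) :
    iteratedDeriv k (cf μ) 0 = I ^ k * ((∫ y, y ^ k ∂μ : ℝ) : ℂ) := by
  unfold cf
  rw [iteratedDeriv_Phi hμ]
  simp only
  congr 1
  unfold Phi
  rw [← integral_complex_ofReal]
  congr 1
  ext y
  have h1 : toC X = X := by unfold toC; simp
  rw [h1]
  simp

lemma contDiff_cf {μ : Measure ℝ} (hμ : AllMom μ) : ContDiff ℝ (⊤ : ℕ∞) (cf μ) := contDiff_Phi hμ X 1

lemma iteratedDeriv_cf_sub {μ ν : Measure ℝ} (hμ : AllMom μ) (hν : AllMom ν) (k : ℕ) (ξ : ℝ) :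
    iteratedDeriv k (cf ν - cf μ) ξ = iteratedDeriv k (cf ν) ξ - iteratedDeriv k (cf μ) ξ := by
  apply iteratedDeriv_sub
  · exact (contDiff_cf hν).contDiffAt.of_le (by exact_mod_cast le_top)
  · exact (contDiff_cf hμ).contDiffAt.of_le (by exact_mod_cast le_top)

lemma psi_bound {μ ν : Measure ℝ} (hμ : AllMom μ) (hν : AllMom ν)
    (hflat : ∀ k, iteratedDeriv k (cf ν - cf μ) 0 = 0) (n : ℕ) (ξ : ℝ) :
    ‖iteratedDeriv (2 * n) (cf ν - cf μ) ξ‖ ≤ 2 * ∫ y, y ^ (2 * n) ∂μ := by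
  have h1 := hflat (2 * n)
  rw [iteratedDeriv_cf_sub hμ hν, iteratedDeriv_cf_zero hμ, iteratedDeriv_cf_zero hν] at h1
  have h2 : (∫ y, y ^ (2 * n) ∂ν) = ∫ y, y ^ (2 * n) ∂μ := by
    have h3 : I ^ (2 * n) * (((∫ y, y ^ (2 * n) ∂ν : ℝ) : ℂ) - ((∫ y, y ^ (2 * n) ∂μ : ℝ) : ℂ)) = 0 := by
      linear_combination h1
    have h4 := (mul_eq_zero.mp h3).resolve_left (pow_ne_zero _ I_ne_zero)
    exact_mod_cast sub_eq_zero.mp h4
  rw [iteratedDeriv_cf_sub hμ hν]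
  have h3 := norm_iteratedDeriv_cf hμ n ξ
  have h4 := norm_iteratedDeriv_cf hν n ξ
  rw [h2] at h4
  calc _ ≤ ‖iteratedDeriv (2 * n) (cf ν) ξ‖ + ‖iteratedDeriv (2 * n) (cf μ) ξ‖ := norm_sub_le _ _
    _ ≤ _ := by linarith

/-- **Super-flatness.** -/
theorem psi_superflat {h : ℝ[X]} (hm : h.Monic) {d : ℕ} (hd : h.natDegree = d + 2) {ν : Measure ℝ}
    (hν : AllMom ν) (hflat : ∀ k, iteratedDeriv k (cf ν - cf (gam.map fun x => h.eval x)) 0 = 0)
    {θ : ℝ} (hθ : 0 < θ) (hθ2 : ((d : ℝ) + 2) ^ (d + 2) * (2 * θ) ^ d < 1) (k : ℕ) :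
    ∃ C τ₀ : ℝ, 0 ≤ C ∧ 0 < τ₀ ∧ ∀ τ ∈ Set.Ioo 0 τ₀,
      ‖iteratedDeriv k (cf ν - cf (gam.map fun x => h.eval x)) (τ ^ d)‖ ≤
      C * (τ⁻¹) ^ ((d + 2) * k) * Real.exp (-(d * θ / τ ^ 2)) := by
  have hμ : AllMom (gam.map fun x => h.eval x) := allMom_gauss.map h
  -- choose `c`
  obtain ⟨c, hc, hc2, hcθ⟩ : ∃ c : ℝ, 0 < c ∧ c < 1 / 2 ∧
      ((d : ℝ) + 2) ^ (d + 2) * θ ^ d ≤ 4 * c ^ (d + 2) := by
    have h1 : ((d : ℝ) + 2) ^ (d + 2) * θ ^ d < 4 * (1 / 2 : ℝ) ^ (d + 2) := by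
      rw [mul_pow] at hθ2
      have h2 : (4 : ℝ) * (1 / 2 : ℝ) ^ (d + 2) = (1 / 2) ^ d := by rw [pow_add]; ring
      rw [h2, one_div, inv_pow, ← one_div, lt_div_iff₀ (by positivity)]
      linarith
    have h2 : Continuous (fun c : ℝ => 4 * c ^ (d + 2)) := by fun_prop
    have h3 : ∀ᶠ c : ℝ in 𝓝 (1 / 2), ((d : ℝ) + 2) ^ (d + 2) * θ ^ d < 4 * c ^ (d + 2) :=
      h2.continuousAt.eventually (lt_mem_nhds h1)
    obtain ⟨δ, hδ, h4⟩ := Metric.eventually_nhds_iff.mp h3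
    refine ⟨max (1 / 4) (1 / 2 - δ / 2), by positivity, max_lt (by norm_num) (by linarith), ?_⟩
    refine (h4 ?_).le
    rw [Real.dist_eq, abs_lt]
    constructor
    · have := le_max_right (1 / 4 : ℝ) (1 / 2 - δ / 2)
      linarith
    · have : max (1 / 4 : ℝ) (1 / 2 - δ / 2) < 1 / 2 := max_lt (by norm_num) (by linarith)
      linarith
  obtain ⟨M, hM0, hM⟩ := moment_bound hm hd hc hc2
  refine superflat (M := 2 * M) ((contDiff_cf hν).sub (contDiff_cf hμ)) hflat hc hθ ?_ hcθ k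
  intro n ξ
  refine (psi_bound hμ hν hflat n ξ).trans ?_
  have h1 : ∫ y, y ^ (2 * n) ∂(gam.map fun x => h.eval x) = ∫ x, (h.eval x) ^ (2 * n) ∂gam := by
    rw [integral_map h.continuous.measurable.aemeasurable (continuous_pow _).aestronglyMeasurable]
  rw [h1]
  have := hM n
  linarith

end

end Pool.Agent.H65.ST
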