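import Mathlib
import Pool.Agent.H65.ST2
import Pool.Agent.H65.STSys

/-!
Transport of the system satisfied by `F_j` to a second function `ψ` killed by all operators killing `F_0`.
-/

namespace Pool.Agent.H65.ST

open Polynomial Complex Filter Topology

noncomputable section

/-- `F` and `z` are obtained from `φ`, `ψ` by the same operator divided by the same polynomial. -/
def Rel (φ ψ : ℝ → ℂ) (Q : ℂ[X]) (F z : ℝ → ℂ) : Prop :=
  ∃ (q : ℂ[X]) (A : ℂ[X][X]), (∀ ξ : ℝ, Q.eval (ξ : ℂ) ≠ 0 → q.eval (ξ : ℂ) ≠ 0) ∧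
    (∀ ξ : ℝ, q.eval (ξ : ℂ) * F ξ = act A φ ξ) ∧
    (∀ ξ : ℝ, Q.eval (ξ : ℂ) ≠ 0 → q.eval (ξ : ℂ) * z ξ = act A ψ ξ)

variable {φ ψ : ℝ → ℂ} {Q : ℂ[X]}

lemma Rel.add {F F' z z' : ℝ → ℂ} (h : Rel φ ψ Q F z) (h' : Rel φ ψ Q F' z') :
    Rel φ ψ Q (fun ξ => F ξ + F' ξ) (fun ξ => z ξ + z' ξ) := by
  obtain ⟨q, A, h1, h2, h3⟩ := h
  obtain ⟨q', A', h1', h2', h3'⟩ := h'
  refine ⟨q * q', C q' * A + C q * A', ?_, ?_, ?_⟩
  · intro ξ hξ
    rw [eval_mul]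
    exact mul_ne_zero (h1 ξ hξ) (h1' ξ hξ)
  · intro ξ
    rw [act_add, act_C_mul, act_C_mul, ← h2, ← h2', eval_mul]
    ring
  · intro ξ hξ
    rw [act_add, act_C_mul, act_C_mul, ← h3 ξ hξ, ← h3' ξ hξ, eval_mul]
    ring

lemma Rel.poly_mul {F z : ℝ → ℂ} (h : Rel φ ψ Q F z) (c : ℂ[X]) :
    Rel φ ψ Q (fun ξ => c.eval (ξ : ℂ) * F ξ) (fun ξ => c.eval (ξ : ℂ) * z ξ) := by
  obtain ⟨q, A, h1, h2, h3⟩ := h
  refine ⟨q, C c * A, h1, ?_, ?_⟩
  · intro ξ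
    rw [act_C_mul, ← h2]
    ring
  · intro ξ hξ
    rw [act_C_mul, ← h3 ξ hξ]
    ring

lemma Rel.const_mul {F z : ℝ → ℂ} (h : Rel φ ψ Q F z) (c : ℂ) :
    Rel φ ψ Q (fun ξ => c * F ξ) (fun ξ => c * z ξ) := by
  have := h.poly_mul (C c)
  simpa using this

lemma Rel.zero : Rel φ ψ Q (fun _ => 0) (fun _ => 0) :=
  ⟨1, 0, fun _ _ => by simp, fun ξ => by rw [act_zero]; simp, fun ξ _ => by rw [act_zero]; simp⟩

lemma Rel.congr {F F' z z' : ℝ → ℂ} (h : Rel φ ψ Q F z) (h1 : ∀ ξ, F ξ = F' ξ)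
    (h2 : ∀ ξ : ℝ, Q.eval (ξ : ℂ) ≠ 0 → z ξ = z' ξ) : Rel φ ψ Q F' z' := by
  obtain ⟨q, A, h3, h4, h5⟩ := h
  refine ⟨q, A, h3, fun ξ => ?_, fun ξ hξ => ?_⟩
  · rw [← h1, h4]
  · rw [← h2 ξ hξ, h5 ξ hξ]

lemma Rel.sum {ι : Type*} (s : Finset ι) {F z : ι → ℝ → ℂ} (h : ∀ i ∈ s, Rel φ ψ Q (F i) (z i)) :
    Rel φ ψ Q (fun ξ => ∑ i ∈ s, F i ξ) (fun ξ => ∑ i ∈ s, z i ξ) := by
  classical
  induction s using Finset.induction_on with
  | empty => simpa using Rel.zero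
  | insert a s ha ih =>
    have h1 := h a (Finset.mem_insert_self a s)
    have h2 := ih fun i hi => h i (Finset.mem_insert_of_mem hi)
    refine (h1.add h2).congr (fun ξ => ?_) (fun ξ _ => ?_)
    · rw [Finset.sum_insert ha]
    · rw [Finset.sum_insert ha]

lemma isOpen_nonzero (Q : ℂ[X]) : IsOpen {ξ : ℝ | Q.eval (ξ : ℂ) ≠ 0} := by
  have h1 : Continuous (fun ξ : ℝ => Q.eval (ξ : ℂ)) := Q.continuous.comp continuous_ofReal
  exact isOpen_ne_fun h1 continuous_const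

lemma Rel.hasDerivAt {F z : ℝ → ℂ} (h : Rel φ ψ Q F z) (hψ : ContDiff ℝ (⊤ : ℕ∞) ψ) {ξ : ℝ}
    (hξ : Q.eval (ξ : ℂ) ≠ 0) : DifferentiableAt ℝ z ξ := by
  obtain ⟨q, A, h1, h2, h3⟩ := h
  have h4 : (fun t : ℝ => act A ψ t / q.eval (t : ℂ)) =ᶠ[𝓝 ξ] z := by
    filter_upwards [(isOpen_nonzero Q).mem_nhds hξ] with t ht
    rw [← h3 t ht, mul_div_cancel_left₀ _ (h1 t ht)]
  exact ((hasDerivAt_act A hψ ξ).div (hasDerivAt_evalC q ξ) (h1 ξ hξ)).differentiableAt.congr_of_eventuallyEq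
    h4.symm

lemma Rel.deriv {F z F' : ℝ → ℂ} (h : Rel φ ψ Q F z) (hφ : ContDiff ℝ (⊤ : ℕ∞) φ)
    (hψ : ContDiff ℝ (⊤ : ℕ∞) ψ) (hF : ∀ ξ, HasDerivAt F (F' ξ) ξ) :
    Rel φ ψ Q F' (fun ξ => _root_.deriv z ξ) := by
  have hz : ∀ ξ : ℝ, Q.eval (ξ : ℂ) ≠ 0 → HasDerivAt z (_root_.deriv z ξ) ξ := fun ξ hξ =>
    (h.hasDerivAt hψ hξ).hasDerivAt
  obtain ⟨q, A, h1, h2, h3⟩ := h
  refine ⟨q ^ 2, C q * dop A - C (derivative q) * A, ?_, ?_, ?_⟩
  · intro ξ hξ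
    rw [eval_pow]
    exact pow_ne_zero 2 (h1 ξ hξ)
  · intro ξ
    rw [act_sub, act_C_mul, act_C_mul, ← h2, eval_pow]
    have h4 : HasDerivAt (fun t : ℝ => q.eval (t : ℂ) * F t)
        ((derivative q).eval (ξ : ℂ) * F ξ + q.eval (ξ : ℂ) * F' ξ) ξ :=
      (hasDerivAt_evalC q ξ).mul (hF ξ)
    have h5 : (fun t : ℝ => q.eval (t : ℂ) * F t) = act A φ := by ext t; exact h2 t
    rw [h5] at h4
    have h6 := h4.unique (hasDerivAt_act A hφ ξ)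
    rw [← h6]
    ring
  · intro ξ hξ
    rw [act_sub, act_C_mul, act_C_mul, ← h3 ξ hξ, eval_pow]
    have h4 : HasDerivAt (fun t : ℝ => q.eval (t : ℂ) * z t)
        ((derivative q).eval (ξ : ℂ) * z ξ + q.eval (ξ : ℂ) * _root_.deriv z ξ) ξ :=
      (hasDerivAt_evalC q ξ).mul (hz ξ hξ)
    have h5 : (fun t : ℝ => q.eval (t : ℂ) * z t) =ᶠ[𝓝 ξ] act A ψ := by
      filter_upwards [(isOpen_nonzero Q).mem_nhds hξ] with t ht
      exact h3 t ht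
    have h6 := h4.unique ((hasDerivAt_act A hψ ξ).congr_of_eventuallyEq h5)
    rw [← h6]
    ring

lemma Rel.eq_zero {F z : ℝ → ℂ} (h : Rel φ ψ Q F z)
    (hT : ∀ A : ℂ[X][X], (∀ ξ, act A φ ξ = 0) → ∀ ξ, act A ψ ξ = 0) (hF : ∀ ξ, F ξ = 0) {ξ : ℝ}
    (hξ : Q.eval (ξ : ℂ) ≠ 0) : z ξ = 0 := by
  obtain ⟨q, A, h1, h2, h3⟩ := h
  have h4 := hT A (fun ξ => by rw [← h2, hF, mul_zero]) ξ
  have h5 := h3 ξ hξ
  rw [h4] at h5
  exact (mul_eq_zero.mp h5).resolve_left (h1 ξ hξ)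

/-- the family `z_j` -/
theorem exists_sys {h : ℝ[X]} (hm : h.Monic) {F : ℕ → ℝ → ℂ} (hF : Sys h F Set.univ)
    (hφ : ContDiff ℝ (⊤ : ℕ∞) (F 0)) (hψ : ContDiff ℝ (⊤ : ℕ∞) ψ)
    (hp0 : 0 < h.natDegree)
    (hT : ∀ A : ℂ[X][X], (∀ ξ, act A (F 0) ξ = 0) → ∀ ξ, act A ψ ξ = 0)
    (h5 : ∀ j, ∃ (q : ℂ[X]) (A : ℂ[X][X]), q ≠ 0 ∧ ∀ ξ : ℝ, q.eval (ξ : ℂ) * F j ξ = act A (F 0) ξ) :
    ∃ (Q : ℂ[X]) (z : ℕ → ℝ → ℂ), Q ≠ 0 ∧ Sys h z {ξ : ℝ | Q.eval (ξ : ℂ) ≠ 0} ∧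
      (∀ ξ : ℝ, Q.eval (ξ : ℂ) ≠ 0 → z 0 ξ = ψ ξ) ∧
      ∀ j, ∃ (q : ℂ[X]) (A : ℂ[X][X]), ∀ ξ : ℝ, Q.eval (ξ : ℂ) ≠ 0 →
        q.eval (ξ : ℂ) ≠ 0 ∧ q.eval (ξ : ℂ) * z j ξ = act A ψ ξ := by
  classical
  choose q A hq hA using h5
  set p := h.natDegree with hp
  set Q : ℂ[X] := ∏ j ∈ Finset.range p, q j with hQ
  have hQ0 : Q ≠ 0 := Finset.prod_ne_zero_iff.mpr fun j _ => hq j
  have hrel : ∀ j, ∃ z, Rel (F 0) ψ Q (F j) z := by
    intro j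
    induction j using Nat.strong_induction_on with
    | _ j ih =>
      rcases lt_or_ge j p with hj | hj
      · refine ⟨fun ξ => act (A j) ψ ξ / (q j).eval (ξ : ℂ), q j, A j, ?_, hA j, ?_⟩
        · intro ξ hξ h0
          apply hξ
          rw [hQ, eval_prod]
          exact Finset.prod_eq_zero (Finset.mem_range.mpr hj) h0
        · intro ξ hξ
          have h0 : (q j).eval (ξ : ℂ) ≠ 0 := by
            intro h0
            apply hξ
            rw [hQ, eval_prod]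
            exact Finset.prod_eq_zero (Finset.mem_range.mpr hj) h0
          rw [mul_div_cancel₀ _ h0]
      · obtain ⟨i, rfl⟩ : ∃ i, j = i + p := ⟨j - p, by omega⟩
        obtain ⟨zi, hzi⟩ := ih i (by omega)
        have hd : Rel (F 0) ψ Q (fun ξ => I * ∑ l ∈ Finset.range (h.natDegree + 1),
            (h.coeff l : ℂ) * F (i + l) ξ) (fun ξ => _root_.deriv zi ξ) :=
          hzi.deriv hφ hψ fun ξ => hF.der ξ (Set.mem_univ ξ) i
        have hs : ∀ l ∈ Finset.range p, ∃ z, Rel (F 0) ψ Q (F (i + l)) z := by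
          intro l hl
          exact ih (i + l) (by have := Finset.mem_range.mp hl; omega)
        choose! y hy using hs
        have hsum := Rel.sum (Finset.range p) (F := fun l ξ => (h.coeff l : ℂ) * F (i + l) ξ)
          (z := fun l ξ => (h.coeff l : ℂ) * y l ξ) (fun l hl => (hy l hl).const_mul _)
        refine ⟨_, ((hd.const_mul (-I)).add (hsum.const_mul (-1))).congr (fun ξ => ?_) (fun ξ _ => rfl)⟩
        rw [Finset.sum_range_succ]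
        have h1 : h.coeff h.natDegree = 1 := hm
        rw [h1, ← hp]
        have h2 : I * I = -1 := I_mul_I
        push_cast
        linear_combination (-(∑ l ∈ Finset.range p, (h.coeff l : ℂ) * F (i + l) ξ) - F (i + p) ξ) * h2
  choose z hz using hrel
  refine ⟨Q, z, hQ0, ⟨?_, ?_⟩, ?_, ?_⟩
  · intro ξ hξ j
    have h1 := Rel.sum (Finset.range h.natDegree)
      (F := fun l ξ => ((((l : ℝ) + 1) * h.coeff (l + 1) : ℝ) : ℂ) * F (j + l) ξ)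
      (z := fun l ξ => ((((l : ℝ) + 1) * h.coeff (l + 1) : ℝ) : ℂ) * z (j + l) ξ)
      (fun l hl => (hz (j + l)).const_mul _)
    have h2 := (h1.poly_mul (C I * X)).const_mul (-1)
    have h3 := ((hz (j + 1)).add ((hz (j - 1)).const_mul (-(j : ℂ)))).add h2
    have h4 := h3.eq_zero hT (fun ξ => by
      have := hF.ibp ξ (Set.mem_univ ξ) j
      simp only [eval_mul, eval_C, eval_X]
      rw [this]
      ring) hξ
    simp only [eval_mul, eval_C, eval_X] at h4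
    linear_combination h4
  · intro ξ hξ j
    have h1 := (hz j).deriv hφ hψ (fun ξ => hF.der ξ (Set.mem_univ ξ) j)
    have h2 := Rel.sum (Finset.range (h.natDegree + 1))
      (F := fun l ξ => (h.coeff l : ℂ) * F (j + l) ξ)
      (z := fun l ξ => (h.coeff l : ℂ) * z (j + l) ξ)
      (fun l hl => (hz (j + l)).const_mul _)
    have h3 := h1.add (h2.const_mul (-I))
    have h4 := h3.eq_zero hT (fun ξ => by ring) hξ
    have h5 := ((hz j).hasDerivAt hψ hξ).hasDerivAt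
    refine h5.congr_deriv ?_
    linear_combination h4
  · intro ξ hξ
    have h1 : Rel (F 0) ψ Q (F 0) ψ := by
      refine ⟨1, 1, ?_, ?_, ?_⟩
      · intro ξ _; simp
      · intro ξ
        have := act_monomial 0 1 (F 0) ξ
        simp only [monomial_zero_left, C_1] at this
        rw [this]
        simp
      · intro ξ _
        have := act_monomial 0 1 ψ ξ
        simp only [monomial_zero_left, C_1] at this
        rw [this]
        simp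
    have h2 := (hz 0).add (h1.const_mul (-1))
    have h3 := h2.eq_zero hT (fun ξ => by ring) hξ
    linear_combination h3
  · intro j
    obtain ⟨q', A', h1, h2, h3⟩ := hz j
    exact ⟨q', A', fun ξ hξ => ⟨h1 ξ hξ, h3 ξ hξ⟩⟩

end

end Pool.Agent.H65.ST
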