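import Mathlib
import Pool.Agent.H65.ST9
import Pool.Agent.H65.ST10

/-!
Propagation of the zero set of `ψ`.
-/

namespace Pool.Agent.H65.ST

open Polynomial Complex Filter Topology

noncomputable section

/-- Gronwall argument on a half-open interval. -/
lemma energy_zero {n : ℕ} {v v' : Fin n → ℝ → ℂ} {b δ K : ℝ} (hK : 0 ≤ K)
    (hd : ∀ i, ∀ x ∈ Set.Ioo b (b + δ), HasDerivAt (v i) (v' i x) x)
    (hb : ∀ i, ∀ x ∈ Set.Ioo b (b + δ), ‖v' i x‖ ≤ K * ∑ j, ‖v j x‖)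
    (h0 : ∀ i, Tendsto (v i) (𝓝[>] b) (𝓝 0)) (i : Fin n) (x : ℝ) (hx : x ∈ Set.Ioo b (b + δ)) :
    v i x = 0 := by
  set E : ℝ → ℝ := fun x => ∑ i, ‖v i x‖ ^ 2 with hE
  set L : ℝ := 2 * K * n with hL
  have hEd : ∀ x ∈ Set.Ioo b (b + δ), HasDerivAt E (∑ i, 2 * inner ℝ (v i x) (v' i x)) x := by
    intro x hx
    have := HasDerivAt.fun_sum (u := Finset.univ) (fun i _ => (hd i x hx).norm_sq)
    exact this
  have hEb : ∀ x ∈ Set.Ioo b (b + δ), (∑ i, 2 * inner ℝ (v i x) (v' i x)) ≤ L * E x := by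
    intro x hx
    have h1 : (∑ i, 2 * inner ℝ (v i x) (v' i x)) ≤ ∑ i, 2 * (‖v i x‖ * (K * ∑ j, ‖v j x‖)) := by
      refine Finset.sum_le_sum fun i _ => ?_
      have := real_inner_le_norm (v i x) (v' i x)
      have h2 := mul_le_mul_of_nonneg_left (hb i x hx) (norm_nonneg (v i x))
      linarith
    have h2 : ∑ i, 2 * (‖v i x‖ * (K * ∑ j, ‖v j x‖)) = 2 * K * (∑ j, ‖v j x‖) ^ 2 := by
      rw [← Finset.mul_sum, ← Finset.sum_mul]
      ring
    have h3 : (∑ j, ‖v j x‖) ^ 2 ≤ n * E x := by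
      have := sq_sum_le_card_mul_sum_sq (s := Finset.univ) (f := fun j => ‖v j x‖)
      simpa using this
    rw [h2] at h1
    refine h1.trans ?_
    have := mul_le_mul_of_nonneg_left h3 (by positivity : 0 ≤ 2 * K)
    rw [hL]
    linarith
  have hanti : AntitoneOn (fun x => E x * Real.exp (-(L * x))) (Set.Ioo b (b + δ)) := by
    refine antitoneOn_of_hasDerivWithinAt_nonpos (convex_Ioo _ _)
      (f' := fun x => (∑ i, 2 * inner ℝ (v i x) (v' i x)) * Real.exp (-(L * x)) +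
        E x * (Real.exp (-(L * x)) * (-L))) ?_ ?_ ?_
    · intro x hx
      exact (((hEd x hx).continuousAt).mul (by fun_prop)).continuousWithinAt
    · intro x hx
      rw [interior_Ioo] at hx
      have h1 : HasDerivAt (fun x : ℝ => Real.exp (-(L * x))) (Real.exp (-(L * x)) * (-L)) x := by
        have := (((hasDerivAt_id x).const_mul L).neg).exp
        simpa using this
      exact ((hEd x hx).mul h1).hasDerivWithinAt
    · intro x hx
      rw [interior_Ioo] at hx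
      have h1 := hEb x hx
      have h2 := Real.exp_pos (-(L * x))
      nlinarith
  have hlim : Tendsto (fun x => E x * Real.exp (-(L * x))) (𝓝[>] b) (𝓝 0) := by
    have h1 : Tendsto E (𝓝[>] b) (𝓝 0) := by
      have h2 : Tendsto (fun x => ∑ i, ‖v i x‖ ^ 2) (𝓝[>] b) (𝓝 (∑ i : Fin n, ‖(0 : ℂ)‖ ^ 2)) :=
        tendsto_finsetSum _ fun i _ => ((h0 i).norm).pow 2
      simpa using h2
    have h2 : Tendsto (fun x : ℝ => Real.exp (-(L * x))) (𝓝[>] b) (𝓝 (Real.exp (-(L * b)))) := by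
      have : Continuous (fun x : ℝ => Real.exp (-(L * x))) := by fun_prop
      exact (this.tendsto b).mono_left nhdsWithin_le_nhds
    have := h1.mul h2
    simpa using this
  have hle : E x * Real.exp (-(L * x)) ≤ 0 := by
    refine ge_of_tendsto hlim ?_
    filter_upwards [Ioo_mem_nhdsGT hx.1] with y hy
    exact hanti ⟨hy.1, hy.2.trans hx.2⟩ hx hy.2.le
  have hE0 : E x ≤ 0 := by
    by_contra hcon
    push Not at hcon
    have := mul_pos hcon (Real.exp_pos (-(L * x)))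
    linarith
  have hE1 : ‖v i x‖ ^ 2 ≤ E x := by
    rw [hE]
    exact Finset.single_le_sum (f := fun i => ‖v i x‖ ^ 2) (fun j _ => by positivity) (Finset.mem_univ i)
  have : ‖v i x‖ = 0 := by
    have h1 : ‖v i x‖ ^ 2 ≤ 0 := hE1.trans hE0
    have h2 := norm_nonneg (v i x)
    nlinarith
  exact norm_eq_zero.mp this

/-- flat at `b` from the right -/
def FL (b : ℝ) (f : ℝ → ℂ) : Prop := ∀ n : ℕ, ∃ C : ℝ, 0 ≤ C ∧ ∀ x ∈ Set.Icc b (b + 1), ‖f x‖ ≤ C * (x - b) ^ n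

lemma FL.add {b : ℝ} {f g : ℝ → ℂ} (hf : FL b f) (hg : FL b g) : FL b (fun x => f x + g x) := by
  intro n
  obtain ⟨C₁, h₁, h₂⟩ := hf n
  obtain ⟨C₂, h₃, h₄⟩ := hg n
  refine ⟨C₁ + C₂, by positivity, fun x hx => ?_⟩
  calc _ ≤ ‖f x‖ + ‖g x‖ := norm_add_le _ _
    _ ≤ C₁ * (x - b) ^ n + C₂ * (x - b) ^ n := add_le_add (h₂ x hx) (h₄ x hx)
    _ = _ := by ring

lemma FL.poly_mul {b : ℝ} {f : ℝ → ℂ} (hf : FL b f) (a : ℂ[X]) : FL b (fun x => a.eval (x : ℂ) * f x) := by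
  intro n
  obtain ⟨C₁, h₁, h₂⟩ := hf n
  obtain ⟨K, hK0, hK⟩ := poly_bdd a b (b + 1)
  refine ⟨K * C₁, by positivity, fun x hx => ?_⟩
  rw [norm_mul, mul_assoc]
  exact mul_le_mul (hK x hx) (h₂ x hx) (norm_nonneg _) hK0

lemma FL_of_flat {b : ℝ} {f : ℝ → ℂ} (hf : ContDiff ℝ (⊤ : ℕ∞) f) (h0 : ∀ k, iteratedDeriv k f b = 0) :
    FL b f := by
  intro n
  have h1 : Continuous (fun x => ‖iteratedDeriv n f x‖) := (contDiff_iteratedDeriv hf n).continuous.norm
  obtain ⟨C, hC⟩ := (isCompact_Icc (a := b) (b := b + 1)).bddAbove_image h1.continuousOn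
  have hC0 : 0 ≤ C := (norm_nonneg _).trans (hC ⟨b, ⟨le_refl _, by linarith⟩, rfl⟩)
  refine ⟨C, hC0, fun x hx => ?_⟩
  have h2 := flat_bound hf n (fun k _ => h0 k) hx.1
    (fun y hy => hC ⟨y, ⟨hy.1, hy.2.trans hx.2⟩, rfl⟩)
  refine h2.trans (mul_le_mul_of_nonneg_left ?_ hC0)
  refine div_le_self (pow_nonneg (by linarith [hx.1]) _) ?_
  exact_mod_cast Nat.one_le_iff_ne_zero.mpr (Nat.factorial_ne_zero n)

lemma FL_act {b : ℝ} {f : ℝ → ℂ} (hf : ContDiff ℝ (⊤ : ℕ∞) f) (h0 : ∀ k, iteratedDeriv k f b = 0)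
    (A : ℂ[X][X]) : FL b (act A f) := by
  induction A using Polynomial.induction_on' with
  | add p q hp hq =>
    have h2 : (act (p + q) f) = fun ξ => act p f ξ + act q f ξ := by
      ext ξ; exact act_add p q f ξ
    rw [h2]
    exact hp.add hq
  | monomial n a =>
    have h2 : (act (monomial n a) f) = fun ξ : ℝ => a.eval (ξ : ℂ) * iteratedDeriv n f ξ := by
      ext ξ; exact act_monomial n a f ξ
    rw [h2]
    refine FL.poly_mul (FL_of_flat (contDiff_iteratedDeriv hf n) fun k => ?_) a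
    rw [iteratedDeriv_iteratedDeriv]
    exact h0 _

/-- quotients of flat functions by polynomials tend to `0` -/
lemma tendsto_quot {b δ : ℝ} (hδ : 0 < δ) {f z : ℝ → ℂ} (hf : FL b f) {q : ℂ[X]} (hq : q ≠ 0)
    (hz : ∀ ξ ∈ Set.Ioo b (b + δ), q.eval (ξ : ℂ) * z ξ = f ξ) : Tendsto z (𝓝[>] b) (𝓝 0) := by
  obtain ⟨m, c, δ', hc, hδ', h1⟩ := poly_lower hq b
  obtain ⟨C, hC, h2⟩ := hf (m + 1)
  have h3 : Tendsto (fun x : ℝ => C / c * (x - b)) (𝓝[>] b) (𝓝 0) := by
    have h4 : Continuous (fun x : ℝ => C / c * (x - b)) := by fun_prop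
    have h5 := (h4.tendsto b).mono_left (nhdsWithin_le_nhds (s := Set.Ioi b))
    simpa using h5
  refine squeeze_zero_norm' ?_ h3
  filter_upwards [Ioo_mem_nhdsGT (show b < b + min (min δ δ') 1 by
    have : 0 < min (min δ δ') 1 := lt_min (lt_min hδ hδ') one_pos
    linarith)] with x hx
  have hx1 : x < b + δ := hx.2.trans_le (by
    have := (min_le_left (min δ δ') 1).trans (min_le_left δ δ'); linarith)
  have hx2 : x < b + δ' := hx.2.trans_le (by
    have := (min_le_left (min δ δ') 1).trans (min_le_right δ δ'); linarith)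
  have hx3 : x < b + 1 := hx.2.trans_le (by
    have := (min_le_right (min δ δ') 1); linarith)
  have hpos : 0 < x - b := by linarith [hx.1]
  have e1 := h1 x ⟨hx.1, hx2⟩
  have e2 := h2 x ⟨hx.1.le, hx3.le⟩
  rw [← hz x ⟨hx.1, hx1⟩, norm_mul] at e2
  have e3 : c * (x - b) ^ m * ‖z x‖ ≤ C * (x - b) ^ (m + 1) :=
    (mul_le_mul_of_nonneg_right e1 (norm_nonneg _)).trans e2
  have hpm : 0 < (x - b) ^ m := by positivity
  rw [pow_succ] at e3
  have e4 : (x - b) ^ m * (c * ‖z x‖) ≤ (x - b) ^ m * (C * (x - b)) := by linarith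
  have e5 : c * ‖z x‖ ≤ C * (x - b) := le_of_mul_le_mul_left e4 hpm
  rw [div_mul_eq_mul_div, le_div_iff₀ hc]
  linarith

/-- all `z_j` are bounded by the first ones -/
lemma sys_bound {h : ℝ[X]} (hm : h.Monic) {d : ℕ} (hd : h.natDegree = d + 2) (hd1 : 1 ≤ d)
    {z : ℕ → ℝ → ℂ} {U : Set ℝ} (hs : Sys h z U) {b : ℝ} (hb : 0 < b) (j : ℕ) :
    ∃ K : ℝ, 0 ≤ K ∧ ∀ x ∈ U, b ≤ x → x ≤ b + 1 → ‖z j x‖ ≤ K * ∑ i : Fin (d + 1), ‖z i x‖ := by
  induction j using Nat.strong_induction_on with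
  | _ j ih =>
    rcases lt_or_ge j (d + 1) with hj | hj
    · refine ⟨1, zero_le_one, fun x _ _ _ => ?_⟩
      rw [one_mul]
      exact Finset.single_le_sum (f := fun i : Fin (d + 1) => ‖z i x‖) (fun i _ => norm_nonneg _)
        (Finset.mem_univ (⟨j, hj⟩ : Fin (d + 1)))
    · obtain ⟨i, rfl⟩ : ∃ i, j = i + (d + 1) := ⟨j - (d + 1), by omega⟩
      obtain ⟨K₁, hK₁, h₁⟩ := ih (i + 1) (by omega)
      obtain ⟨K₂, hK₂, h₂⟩ := ih (i - 1) (by omega)
      have hex : ∀ l ∈ Finset.range (d + 1), ∃ K : ℝ, 0 ≤ K ∧ ∀ x ∈ U, b ≤ x → x ≤ b + 1 →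
          ‖z (i + l) x‖ ≤ K * ∑ i : Fin (d + 1), ‖z i x‖ := by
        intro l hl
        exact ih (i + l) (by have := Finset.mem_range.mp hl; omega)
      choose! K hK hKb using hex
      set p : ℝ := (d : ℝ) + 2 with hp
      have hp0 : 0 < p := by positivity
      refine ⟨(1 / (b * p)) * (K₁ + i * K₂) + (1 / p) * ∑ l ∈ Finset.range (d + 1),
        |((l : ℝ) + 1) * h.coeff (l + 1)| * K l, ?_, ?_⟩
      · have : 0 ≤ ∑ l ∈ Finset.range (d + 1), |((l : ℝ) + 1) * h.coeff (l + 1)| * K l :=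
          Finset.sum_nonneg fun l hl => mul_nonneg (abs_nonneg _) (hK l hl)
        positivity
      · intro x hxU hx1 hx2
        have hx0 : 0 < x := by linarith
        have h3 := hs.ibp x hxU i
        rw [hd, Finset.sum_range_succ] at h3
        have hlead : h.coeff (d + 1 + 1) = 1 := by
          have := hm.coeff_natDegree
          rwa [hd] at this
        rw [hlead] at h3
        have h4 : z (i + (d + 1)) x = (1 / (I * x * p)) * (z (i + 1) x - i * z (i - 1) x) -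
            (1 / p) * ∑ l ∈ Finset.range (d + 1), ((((l : ℝ) + 1) * h.coeff (l + 1) : ℝ) : ℂ) * z (i + l) x := by
          rw [h3]
          have e1 : (x : ℂ) ≠ 0 := by exact_mod_cast hx0.ne'
          have e2 : (p : ℂ) ≠ 0 := by exact_mod_cast hp0.ne'
          have e3 : ((((d + 1 : ℕ) : ℝ) + 1) * 1 : ℝ) = p := by rw [hp]; push_cast; ring
          rw [e3]
          field_simp
          ring
        rw [h4]
        set N := ∑ i : Fin (d + 1), ‖z i x‖ with hN
        have hN0 : 0 ≤ N := Finset.sum_nonneg fun i _ => norm_nonneg _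
        have h5 : ‖(1 / (I * x * p) : ℂ)‖ ≤ 1 / (b * p) := by
          rw [norm_div, norm_one, norm_mul, norm_mul, norm_I, one_mul, norm_real, norm_real,
            Real.norm_of_nonneg hx0.le, Real.norm_of_nonneg hp0.le]
          exact one_div_le_one_div_of_le (by positivity) (mul_le_mul_of_nonneg_right hx1 hp0.le)
        have h6 : ‖z (i + 1) x - i * z (i - 1) x‖ ≤ (K₁ + i * K₂) * N := by
          refine (norm_sub_le _ _).trans ?_
          rw [norm_mul, norm_natCast]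
          have e1 := h₁ x hxU hx1 hx2
          have e2 := mul_le_mul_of_nonneg_left (h₂ x hxU hx1 hx2) (Nat.cast_nonneg' (α := ℝ) i)
          linarith
        have h7 : ‖∑ l ∈ Finset.range (d + 1), ((((l : ℝ) + 1) * h.coeff (l + 1) : ℝ) : ℂ) * z (i + l) x‖ ≤
            (∑ l ∈ Finset.range (d + 1), |((l : ℝ) + 1) * h.coeff (l + 1)| * K l) * N := by
          refine (norm_sum_le _ _).trans ?_
          rw [Finset.sum_mul]
          refine Finset.sum_le_sum fun l hl => ?_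
          rw [norm_mul, norm_real, Real.norm_eq_abs, mul_assoc]
          exact mul_le_mul_of_nonneg_left (hKb l hl x hxU hx1 hx2) (abs_nonneg _)
        have h8 : ‖(1 / p : ℂ)‖ = 1 / p := by
          rw [norm_div, norm_one, norm_real, Real.norm_of_nonneg hp0.le]
        refine (norm_sub_le _ _).trans ?_
        rw [norm_mul, norm_mul, h8, add_mul]
        refine add_le_add ?_ ?_
        · rw [mul_assoc (1 / (b * p))]
          exact mul_le_mul h5 h6 (norm_nonneg _) (by positivity)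
        · rw [mul_assoc (1 / p)]
          exact mul_le_mul_of_nonneg_left h7 (by positivity)

/-- propagation past a flat point `b > 0` -/
theorem propagate {h : ℝ[X]} (hm : h.Monic) {d : ℕ} (hd : h.natDegree = d + 2) (hd1 : 1 ≤ d)
    {z : ℕ → ℝ → ℂ} {ψ : ℝ → ℂ} (hψ : ContDiff ℝ (⊤ : ℕ∞) ψ) {b δ : ℝ} (hb : 0 < b) (hδ : 0 < δ)
    (hδ1 : δ ≤ 1) (hs : Sys h z (Set.Ioo b (b + δ))) (hz0 : ∀ ξ ∈ Set.Ioo b (b + δ), z 0 ξ = ψ ξ)
    (hq : ∀ j, ∃ (q : ℂ[X]) (A : ℂ[X][X]), q ≠ 0 ∧ ∀ ξ ∈ Set.Ioo b (b + δ),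
      q.eval (ξ : ℂ) * z j ξ = act A ψ ξ)
    (hflat : ∀ k, iteratedDeriv k ψ b = 0) : ∀ ξ ∈ Set.Ioo b (b + δ), ψ ξ = 0 := by
  intro ξ hξ
  rw [← hz0 ξ hξ]
  -- bounds for the derivative
  have hK : ∀ j : ℕ, ∃ K : ℝ, 0 ≤ K ∧ ∀ x ∈ Set.Ioo b (b + δ), ‖z j x‖ ≤ K * ∑ i : Fin (d + 1), ‖z i x‖ := by
    intro j
    obtain ⟨K, hK, h1⟩ := sys_bound hm hd hd1 hs hb j
    exact ⟨K, hK, fun x hx => h1 x hx hx.1.le (by linarith [hx.2])⟩
  choose K hK0 hKb using hK
  set L : Fin (d + 1) → ℝ := fun j => ∑ l ∈ Finset.range (h.natDegree + 1), |h.coeff l| * K (j + l) with hL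
  have hL0 : ∀ j, 0 ≤ L j := fun j => Finset.sum_nonneg fun l _ => mul_nonneg (abs_nonneg _) (hK0 _)
  have h1 := energy_zero (n := d + 1) (v := fun i => z i)
    (v' := fun j ξ => I * ∑ l ∈ Finset.range (h.natDegree + 1), (h.coeff l : ℂ) * z (j + l) ξ)
    (b := b) (δ := δ) (K := ∑ j, L j) (Finset.sum_nonneg fun j _ => hL0 j)
    (fun i x hx => hs.der x hx i) (fun i x hx => by
      rw [norm_mul, norm_I, one_mul]
      refine (norm_sum_le _ _).trans ?_
      have e1 : ∑ l ∈ Finset.range (h.natDegree + 1), ‖(h.coeff l : ℂ) * z (i + l) x‖ ≤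
          L i * ∑ j : Fin (d + 1), ‖z j x‖ := by
        rw [hL, Finset.sum_mul]
        refine Finset.sum_le_sum fun l _ => ?_
        rw [norm_mul, norm_real, Real.norm_eq_abs, mul_assoc]
        exact mul_le_mul_of_nonneg_left (hKb _ x hx) (abs_nonneg _)
      refine e1.trans ?_
      refine mul_le_mul_of_nonneg_right ?_ (Finset.sum_nonneg fun i _ => norm_nonneg _)
      exact Finset.single_le_sum (f := L) (fun j _ => hL0 j) (Finset.mem_univ i))
    (fun i => by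
      obtain ⟨q, A, hq0, hqA⟩ := hq i
      exact tendsto_quot hδ (FL_act hψ hflat A) hq0 hqA)
    ⟨0, by omega⟩ ξ hξ
  exact h1

end

end Pool.Agent.H65.ST
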