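import Mathlib
import Pool.Agent.H65.ST1
import Pool.Agent.H65.ST2

/-!
From an equation with polynomial coefficients for the characteristic function to the corresponding identity
for Schwartz test functions.
-/

namespace Pool.Agent.H65.ST

open MeasureTheory Polynomial Complex Filter Topology FourierTransform SchwartzMap

noncomputable section

/-- all derivatives of a Schwartz function as Fourier integrals -/
lemma schwartz_rep (f : 𝓢(ℝ, ℂ)) : ∃ g : 𝓢(ℝ, ℂ), ∀ (t : ℕ) (y : ℝ),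
    iteratedDeriv t f y = ∫ v : ℝ, (I * ((-2 * Real.pi * v : ℝ) : ℂ)) ^ t * g v *
      cexp (I * ((-2 * Real.pi * v : ℝ) : ℂ) * (y : ℂ)) := by
  refine ⟨𝓕⁻ f, ?_⟩
  intro t y
  have h1 : (𝓕 ((𝓕⁻ f : 𝓢(ℝ, ℂ)) : ℝ → ℂ)) = (f : ℝ → ℂ) := by
    rw [← SchwartzMap.fourier_coe, FourierInvPair.fourier_fourierInv_eq]
  have h2 := Real.iteratedDeriv_fourier (f := ((𝓕⁻ f : 𝓢(ℝ, ℂ)) : ℝ → ℂ)) (N := ⊤) (n := t)
    (fun n _ => by
      have := (𝓕⁻ f : 𝓢(ℝ, ℂ)).integrable_pow_mul (volume : Measure ℝ) n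
      refine (integrable_norm_iff ?_).mp ?_
      · exact ((continuous_pow n).smul (𝓕⁻ f : 𝓢(ℝ, ℂ)).continuous).aestronglyMeasurable
      · refine this.congr (Eventually.of_forall fun x => ?_)
        simp) le_top
  rw [h1] at h2
  rw [h2, Real.fourier_real_eq_integral_exp_smul]
  congr 1
  ext v
  simp only [smul_eq_mul]
  rw [show I * ((-2 * Real.pi * v : ℝ) : ℂ) * (y : ℂ) = ((-2 * Real.pi * v * y : ℝ) : ℂ) * I by
    push_cast; ring]
  rw [show I * ((-2 * Real.pi * v : ℝ) : ℂ) = (-2 * (Real.pi : ℂ) * I * v) by push_cast; ring]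
  ring

lemma schwartz_integrable (g : 𝓢(ℝ, ℂ)) (t : ℕ) :
    Integrable (fun v : ℝ => (I * ((-2 * Real.pi * v : ℝ) : ℂ)) ^ t * g v) := by
  have h1 := g.integrable_pow_mul (volume : Measure ℝ) t
  refine (integrable_norm_iff ?_).mp ?_
  · refine Continuous.aestronglyMeasurable ?_
    have := g.continuous
    fun_prop
  · refine (h1.const_mul ((2 * Real.pi) ^ t)).congr (Eventually.of_forall fun x => ?_)
    simp only [norm_mul, norm_pow, norm_I, one_mul]
    rw [Complex.norm_real, norm_mul, norm_mul]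
    rw [Real.norm_of_nonneg Real.pi_pos.le, norm_neg, Real.norm_two]
    ring

/-- The identity for Schwartz functions. -/
theorem schwartz_identity {μ : Measure ℝ} [IsFiniteMeasure μ] (hμ : AllMom μ) (q : ℕ → ℂ[X]) (T : ℕ)
    (h0 : ∀ ξ : ℝ, ∑ t ∈ Finset.range (T + 1), (I * (ξ : ℂ)) ^ t * Phi μ X (q t) ξ = 0)
    (f : 𝓢(ℝ, ℂ)) :
    ∑ t ∈ Finset.range (T + 1), ∫ y, (q t).eval (y : ℂ) * iteratedDeriv t f y ∂μ = 0 := by
  obtain ⟨g, hg⟩ := schwartz_rep f
  have hint : ∀ t : ℕ, Integrable (Function.uncurry fun (y v : ℝ) => (q t).eval (y : ℂ) *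
      ((I * ((-2 * Real.pi * v : ℝ) : ℂ)) ^ t * g v *
      cexp (I * ((-2 * Real.pi * v : ℝ) : ℂ) * (y : ℂ)))) (μ.prod volume) := by
    intro t
    have h1 := (hμ.poly (q t)).mul_prod (schwartz_integrable g t)
    refine h1.mono ?_ ?_
    · refine Continuous.aestronglyMeasurable ?_
      have h3 := g.continuous
      have h4 : Continuous (fun y : ℝ => (q t).eval (y : ℂ)) :=
        (q t).continuous.comp continuous_ofReal
      simp only [Function.uncurry_def]
      have h5 : Continuous (fun z : ℝ × ℝ => (q t).eval (z.1 : ℂ)) := h4.comp continuous_fst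
      have h6 : Continuous (fun z : ℝ × ℝ => g z.2) := h3.comp continuous_snd
      refine h5.mul (((Continuous.pow ?_ t).mul h6).mul ?_)
      · fun_prop
      · fun_prop
    · refine Eventually.of_forall fun z => ?_
      simp only [Function.uncurry_def, norm_mul]
      rw [norm_expI, mul_one]
  have hterm : ∀ t : ℕ, ∫ y, (q t).eval (y : ℂ) * iteratedDeriv t f y ∂μ =
      ∫ v : ℝ, g v * ((I * ((-2 * Real.pi * v : ℝ) : ℂ)) ^ t *
        Phi μ X (q t) (-2 * Real.pi * v)) := by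
    intro t
    have h1 : (fun y : ℝ => (q t).eval (y : ℂ) * iteratedDeriv t f y) = fun y : ℝ =>
        ∫ v : ℝ, (q t).eval (y : ℂ) * ((I * ((-2 * Real.pi * v : ℝ) : ℂ)) ^ t * g v *
      cexp (I * ((-2 * Real.pi * v : ℝ) : ℂ) * (y : ℂ))) := by
      ext y
      rw [hg t y, integral_const_mul]
    rw [h1, integral_integral_swap (hint t)]
    congr 1
    ext v
    have h2 : (fun y : ℝ => (q t).eval (y : ℂ) * ((I * ((-2 * Real.pi * v : ℝ) : ℂ)) ^ t * g v *
      cexp (I * ((-2 * Real.pi * v : ℝ) : ℂ) * (y : ℂ)))) = fun y : ℝ =>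
        ((I * ((-2 * Real.pi * v : ℝ) : ℂ)) ^ t * g v) * ((q t).eval (y : ℂ) *
          cexp (I * ((-2 * Real.pi * v : ℝ) : ℂ) * (y : ℂ))) := by
      ext y; ring
    rw [h2, integral_const_mul]
    unfold Phi
    simp only [eval_X]
    ring
  have hintt : ∀ t : ℕ, Integrable (fun v : ℝ => g v * ((I * ((-2 * Real.pi * v : ℝ) : ℂ)) ^ t *
        Phi μ X (q t) (-2 * Real.pi * v))) := by
    intro t
    have h1 := (hint t).integral_prod_right
    refine h1.congr (Eventually.of_forall fun v => ?_)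
    simp only [Function.uncurry_def]
    have h2 : (fun y : ℝ => (q t).eval (y : ℂ) * ((I * ((-2 * Real.pi * v : ℝ) : ℂ)) ^ t * g v *
      cexp (I * ((-2 * Real.pi * v : ℝ) : ℂ) * (y : ℂ)))) = fun y : ℝ =>
        ((I * ((-2 * Real.pi * v : ℝ) : ℂ)) ^ t * g v) * ((q t).eval (y : ℂ) *
          cexp (I * ((-2 * Real.pi * v : ℝ) : ℂ) * (y : ℂ))) := by
      ext y; ring
    rw [h2, integral_const_mul]
    unfold Phi
    simp only [eval_X]
    ring
  rw [Finset.sum_congr rfl fun t _ => hterm t, ← integral_finsetSum _ fun t _ => hintt t]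
  have h3 : (fun v : ℝ => ∑ t ∈ Finset.range (T + 1), g v *
      ((I * ((-2 * Real.pi * v : ℝ) : ℂ)) ^ t * Phi μ X (q t) (-2 * Real.pi * v))) = fun _ => 0 := by
    ext v
    rw [← Finset.mul_sum, h0 (-2 * Real.pi * v), mul_zero]
  rw [h3]
  simp

end

end Pool.Agent.H65.ST
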