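import Mathlib

/-!
Approximation of `C^T` functions on a closed interval by polynomials, and cut-offs.
-/

namespace Pool.Agent.H65.ST

open MeasureTheory Polynomial Filter Topology Set

noncomputable section

lemma exists_antideriv (Q : ℝ[X]) : ∃ P : ℝ[X], derivative P = Q := by
  induction Q using Polynomial.induction_on' with
  | add p q hp hq =>
    obtain ⟨a, ha⟩ := hp
    obtain ⟨b, hb⟩ := hq
    exact ⟨a + b, by rw [derivative_add, ha, hb]⟩
  | monomial n a =>
    refine ⟨monomial (n + 1) (a / (n + 1)), ?_⟩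
    rw [derivative_monomial]
    simp only [Nat.add_sub_cancel]
    congr 1
    push_cast
    field_simp

/-- polynomial approximation of a continuous function on a compact convex set -/
lemma weier {K : Set ℝ} (hK : IsCompact K) (hc : Convex ℝ K) {f : ℝ → ℝ} (hf : ContinuousOn f K)
    {ε : ℝ} (hε : 0 < ε) : ∃ P : ℝ[X], ∀ y ∈ K, |f y - P.eval y| ≤ ε := by
  rcases K.eq_empty_or_nonempty with h | h
  · exact ⟨0, by simp [h]⟩
  have h1 : K = Icc (sInf K) (sSup K) :=
    eq_Icc_of_connected_compact (hc.isConnected h) hK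
  rw [h1] at hf
  obtain ⟨P, hP⟩ := exists_polynomial_near_of_continuousOn _ _ f hf ε hε
  refine ⟨P, fun y hy => ?_⟩
  rw [h1] at hy
  have := hP y hy
  rw [abs_sub_comm]
  exact this.le

/-- simultaneous approximation of `g` and its derivatives up to order `T` on `I ∩ [-R, R]` -/
lemma approx {I : Set ℝ} (hI : IsClosed I) (hc : Convex ℝ I) (hu : UniqueDiffOn ℝ I) (R : ℝ) (T : ℕ) :
    ∀ (g : ℝ → ℝ), ContDiffOn ℝ T g I → ∀ ε : ℝ, 0 < ε → ∃ P : ℝ[X], ∀ t ≤ T, ∀ y ∈ I ∩ Icc (-R) R,
      |iteratedDerivWithin t g I y - (derivative^[t] P).eval y| ≤ ε := by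
  have hK : IsCompact (I ∩ Icc (-R) R) := isCompact_Icc.inter_left hI
  have hKc : Convex ℝ (I ∩ Icc (-R) R) := hc.inter (convex_Icc _ _)
  induction T with
  | zero =>
    intro g hg ε hε
    obtain ⟨P, hP⟩ := weier hK hKc (hg.continuousOn.mono inter_subset_left) hε
    refine ⟨P, fun t ht y hy => ?_⟩
    obtain rfl : t = 0 := by omega
    simpa using hP y hy
  | succ T ih =>
    intro g hg ε hε
    rcases (I ∩ Icc (-R) R).eq_empty_or_nonempty with h | ⟨b, hb⟩
    · exact ⟨0, by simp [h]⟩
    have hR : 0 ≤ R := by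
      have := hb.2.1.trans hb.2.2
      linarith
    have hg' : ContDiffOn ℝ T (derivWithin g I) I :=
      hg.derivWithin hu (by norm_cast)
    set δ := ε / (2 * R + 1) with hδ
    have hδ0 : 0 < δ := by positivity
    have hδε : δ ≤ ε := by
      rw [hδ, div_le_iff₀ (by positivity)]
      nlinarith
    obtain ⟨Q, hQ⟩ := ih (derivWithin g I) hg' δ hδ0
    obtain ⟨P0, hP0⟩ := exists_antideriv Q
    set P : ℝ[X] := P0 + C (g b - P0.eval b) with hP
    have hPd : derivative P = Q := by rw [hP, derivative_add, hP0, derivative_C, add_zero]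
    refine ⟨P, fun t ht y hy => ?_⟩
    rcases t with _ | t
    · simp only [iteratedDerivWithin_zero, Function.iterate_zero, id_eq]
      have hdiff : ∀ x ∈ I ∩ Icc (-R) R, HasDerivWithinAt (fun x => g x - P.eval x)
          (derivWithin g I x - Q.eval x) (I ∩ Icc (-R) R) x := by
        intro x hx
        have h1 : HasDerivWithinAt g (derivWithin g I x) I x :=
          ((hg.differentiableOn (by norm_num)) x hx.1).hasDerivWithinAt
        have h2 : HasDerivAt (fun x => P.eval x) (Q.eval x) x := by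
          have := P.hasDerivAt x
          rwa [hPd] at this
        exact (h1.mono inter_subset_left).sub h2.hasDerivWithinAt
      have hbound : ∀ x ∈ I ∩ Icc (-R) R, ‖derivWithin g I x - Q.eval x‖ ≤ δ := by
        intro x hx
        have := hQ 0 (Nat.zero_le _) x hx
        simpa using this
      have h3 := hKc.norm_image_sub_le_of_norm_hasDerivWithin_le hdiff hbound hb hy
      have h4 : g b - P.eval b = 0 := by
        rw [hP, eval_add, eval_C]; ring
      rw [h4, sub_zero, Real.norm_eq_abs, Real.norm_eq_abs] at h3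
      refine h3.trans ?_
      have h5 : |y - b| ≤ 2 * R := by
        rw [abs_le]
        constructor <;> linarith [hb.2.1, hb.2.2, hy.2.1, hy.2.2]
      calc δ * |y - b| ≤ δ * (2 * R + 1) := by
            apply mul_le_mul_of_nonneg_left _ hδ0.le; linarith
        _ = ε := by rw [hδ]; field_simp
    · rw [iteratedDerivWithin_succ', Function.iterate_succ_apply, hPd]
      exact (hQ t (by omega) y hy).trans hδε

/-- smooth cut-off, equal to `1` on `[-1,1]` and to `0` outside `[-2,2]` -/
def bump : ContDiffBump (0 : ℝ) := ⟨1, 2, by norm_num, by norm_num⟩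

/-- scaled cut-off -/
def cut (n : ℝ) (y : ℝ) : ℝ := bump (n⁻¹ * y)

lemma cut_smooth (n : ℝ) : ContDiff ℝ (⊤ : ℕ∞) (cut n) := by
  unfold cut
  exact bump.contDiff.comp (contDiff_const.mul contDiff_id)

lemma cut_one {n y : ℝ} (hn : 0 < n) (hy : |y| ≤ n) : cut n y = 1 := by
  unfold cut
  apply bump.one_of_mem_closedBall
  rw [mem_closedBall_zero_iff, Real.norm_eq_abs, abs_mul, abs_of_pos (by positivity : 0 < n⁻¹)]
  show n⁻¹ * |y| ≤ 1
  rw [inv_mul_le_iff₀ hn]
  linarith

lemma cut_zero {n y : ℝ} (hn : 0 < n) (hy : 2 * n ≤ |y|) : cut n y = 0 := by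
  unfold cut
  apply bump.zero_of_le_dist
  rw [dist_zero_right, Real.norm_eq_abs, abs_mul, abs_of_pos (by positivity : 0 < n⁻¹)]
  show 2 ≤ n⁻¹ * |y|
  rw [le_inv_mul_iff₀ hn]
  linarith

/-- a uniform bound for the derivatives of the cut-offs -/
lemma cut_bound (T : ℕ) : ∃ C : ℝ, 0 ≤ C ∧ ∀ k ≤ T, ∀ n : ℝ, 1 ≤ n → ∀ y,
    |iteratedDeriv k (cut n) y| ≤ C := by
  have h1 : ∀ k : ℕ, ∃ C : ℝ, ∀ y, |iteratedDeriv k bump y| ≤ C := by
    intro k
    have hc : Continuous (iteratedDeriv k bump) :=
      (bump.contDiff (n := (⊤ : ℕ∞))).continuous_iteratedDeriv k (by exact_mod_cast le_top)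
    have hs : HasCompactSupport (iteratedDeriv k bump) := by
      have h2 := (bump.hasCompactSupport).iteratedFDeriv (𝕜 := ℝ) k
      rw [iteratedDeriv_eq_equiv_comp]
      exact h2.comp_left (by simp)
    obtain ⟨C, hC⟩ := hs.exists_bound_of_continuous hc
    exact ⟨C, fun y => by simpa using hC y⟩
  choose C hC using h1
  have hC0 : ∀ k, 0 ≤ C k := fun k => (abs_nonneg _).trans (hC k 0)
  refine ⟨∑ k ∈ Finset.range (T + 1), C k, Finset.sum_nonneg fun k _ => hC0 k, ?_⟩
  intro k hk n hn y
  have h2 : iteratedDeriv k (cut n) = fun y => n⁻¹ ^ k * iteratedDeriv k bump (n⁻¹ * y) := by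
    unfold cut
    have := iteratedDeriv_comp_const_mul (n := k) (f := (bump : ℝ → ℝ))
      ((bump.contDiff (n := (⊤ : ℕ∞))).of_le (by exact_mod_cast le_top)) n⁻¹
    simpa using this
  rw [h2]
  simp only [abs_mul, abs_pow]
  have h3 : |n⁻¹| ^ k ≤ 1 := by
    apply pow_le_one₀ (abs_nonneg _)
    rw [abs_of_pos (by positivity)]
    exact inv_le_one_of_one_le₀ hn
  calc |n⁻¹| ^ k * |iteratedDeriv k bump (n⁻¹ * y)| ≤ 1 * C k := by
        apply mul_le_mul h3 (hC k _) (abs_nonneg _) zero_le_one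
    _ = C k := one_mul _
    _ ≤ _ := Finset.single_le_sum (f := C) (fun i _ => hC0 i) (Finset.mem_range.mpr (by omega))

end

end Pool.Agent.H65.ST
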