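import Mathlib
import Pool.Agent.H65.ST1
import Pool.Agent.H65.ST4

/-!
An integral identity `∑ ∫ u_t f^(t) dμ = 0` extends from smooth compactly supported functions to the
natural class of test functions on the support of `μ`.
-/

namespace Pool.Agent.H65.ST

open MeasureTheory Polynomial Filter Topology Set

noncomputable section

lemma polyIter_eval (P : ℝ[X]) (t : ℕ) : iteratedDeriv t (fun y => P.eval y) =
    fun y => (derivative^[t] P).eval y := by
  induction t generalizing P with
  | zero => simp
  | succ t ih =>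
    rw [iteratedDeriv_succ', Function.iterate_succ_apply, ← ih]
    congr 1
    ext y
    exact P.deriv

lemma contDiff_poly (P : ℝ[X]) : ContDiff ℝ (⊤ : ℕ∞) (fun y : ℝ => P.eval y) := by
  have := P.contDiff_aeval (𝕜 := ℝ) (n := (⊤ : ℕ∞))
  simpa using this

lemma itSub {I : Set ℝ} (hu : UniqueDiffOn ℝ I) {f g : ℝ → ℝ} {t : ℕ} {y : ℝ} (hy : y ∈ I)
    (hf : ContDiffWithinAt ℝ t f I y) (hg : ContDiffWithinAt ℝ t g I y) :
    iteratedDerivWithin t (fun z => f z - g z) I y =
      iteratedDerivWithin t f I y - iteratedDerivWithin t g I y :=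
  iteratedDerivWithin_sub hy hu hf hg

/-- Leibniz formula for the product with a cut-off -/
lemma leib {I : Set ℝ} (hu : UniqueDiffOn ℝ I) {T : ℕ} {f : ℝ → ℝ} (hf : ContDiffOn ℝ T f I)
    (n : ℝ) {t : ℕ} (ht : t ≤ T) {y : ℝ} (hy : y ∈ I) :
    iteratedDerivWithin t (fun z => cut n z * f z) I y = ∑ i ∈ Finset.range (t + 1),
      (t.choose i : ℝ) * iteratedDeriv i (cut n) y * iteratedDerivWithin (t - i) f I y := by
  have h1 : ContDiffWithinAt ℝ t (cut n) I y :=
    ((cut_smooth n).of_le (by exact_mod_cast le_top)).contDiffAt.contDiffWithinAt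
  have h2 : ContDiffWithinAt ℝ t f I y := (hf.of_le (by exact_mod_cast ht)) y hy
  have h3 := iteratedDerivWithin_mul hy hu h1 h2
  have h4 : (cut n * f) = fun z => cut n z * f z := rfl
  rw [h4] at h3
  rw [h3]
  refine Finset.sum_congr rfl fun i _ => ?_
  rw [iteratedDerivWithin_eq_iteratedDeriv hu
    ((cut_smooth n).of_le (by exact_mod_cast le_top)).contDiffAt hy]

lemma leib_bound {I : Set ℝ} (hu : UniqueDiffOn ℝ I) {T : ℕ} {C : ℝ}
    (hC : ∀ k ≤ T, ∀ n : ℝ, 1 ≤ n → ∀ y, |iteratedDeriv k (cut n) y| ≤ C)
    {f : ℝ → ℝ} (hf : ContDiffOn ℝ T f I)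
    {n : ℝ} (hn : 1 ≤ n) {t : ℕ} (ht : t ≤ T) {y : ℝ} (hy : y ∈ I) :
    |iteratedDerivWithin t (fun z => cut n z * f z) I y| ≤
      2 ^ T * C * ∑ i ∈ Finset.range (T + 1), |iteratedDerivWithin i f I y| := by
  have hC0 : 0 ≤ C := (abs_nonneg _).trans (hC 0 (Nat.zero_le _) 1 le_rfl 0)
  rw [leib hu hf n ht hy]
  have hS : ∀ j ≤ T, |iteratedDerivWithin j f I y| ≤
      ∑ i ∈ Finset.range (T + 1), |iteratedDerivWithin i f I y| := fun j hj =>
    Finset.single_le_sum (f := fun i => |iteratedDerivWithin i f I y|) (fun i _ => abs_nonneg _)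
      (Finset.mem_range.mpr (by omega))
  set S := ∑ i ∈ Finset.range (T + 1), |iteratedDerivWithin i f I y|
  have hS0 : 0 ≤ S := Finset.sum_nonneg fun i _ => abs_nonneg _
  calc |∑ i ∈ Finset.range (t + 1),
      (t.choose i : ℝ) * iteratedDeriv i (cut n) y * iteratedDerivWithin (t - i) f I y|
      ≤ ∑ i ∈ Finset.range (t + 1), (t.choose i : ℝ) * (C * S) := by
        refine (Finset.abs_sum_le_sum_abs _ _).trans (Finset.sum_le_sum fun i hi => ?_)
        have hi' := Finset.mem_range.mp hi
        rw [abs_mul, abs_mul, abs_of_nonneg (by positivity : (0:ℝ) ≤ (t.choose i : ℝ)), mul_assoc]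
        apply mul_le_mul_of_nonneg_left _ (by positivity)
        exact mul_le_mul (hC i (by omega) n hn y) (hS _ (by omega)) (abs_nonneg _) hC0
    _ = 2 ^ t * (C * S) := by
        rw [← Finset.sum_mul]
        congr 1
        exact_mod_cast Nat.sum_range_choose t
    _ ≤ 2 ^ T * (C * S) := by
        apply mul_le_mul_of_nonneg_right _ (by positivity)
        exact pow_le_pow_right₀ (by norm_num) ht
    _ = _ := by ring

section

variable {μ : Measure ℝ} [IsFiniteMeasure μ]

/-- the identity for functions with bounded support -/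
lemma ext_bounded (hμ : AllMom μ) (hc : Convex ℝ μ.support) (hu : UniqueDiffOn ℝ μ.support)
    (u : ℕ → ℝ[X]) (T : ℕ)
    (H : ∀ f : ℝ → ℝ, ContDiff ℝ (⊤ : ℕ∞) f → HasCompactSupport f →
      ∑ t ∈ Finset.range (T + 1), ∫ y, (u t).eval y * iteratedDeriv t f y ∂μ = 0)
    {g : ℝ → ℝ} (hg : ContDiffOn ℝ T g μ.support) {n : ℝ} (hn : 1 ≤ n)
    (hg0 : ∀ y ∈ μ.support, n ≤ |y| → g y = 0) :
    ∫ y, ∑ t ∈ Finset.range (T + 1), (u t).eval y * iteratedDerivWithin t g μ.support y ∂μ = 0 := by
  set I := μ.support with hI
  have hIcl : IsClosed I := Measure.isClosed_support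
  have hIae : ∀ᵐ y ∂μ, y ∈ I := Measure.support_mem_ae
  by_cases hint : Integrable (fun y => ∑ t ∈ Finset.range (T + 1), (u t).eval y *
      iteratedDerivWithin t g I y) μ
  swap
  · exact integral_undef hint
  obtain ⟨C, hC0, hC⟩ := cut_bound T
  have hn0 : 0 < n := by linarith
  -- the constant
  set B : ℝ := ∫ y, ∑ t ∈ Finset.range (T + 1), |(u t).eval y| ∂μ with hB
  have hBint : Integrable (fun y => ∑ t ∈ Finset.range (T + 1), |(u t).eval y|) μ :=
    integrable_finsetSum _ fun t _ => (hμ.realPoly (u t)).abs
  have key : ∀ ε : ℝ, 0 < ε → |∫ y, ∑ t ∈ Finset.range (T + 1), (u t).eval y *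
      iteratedDerivWithin t g I y ∂μ| ≤ ε * (2 ^ T * C * (T + 1) * B) := by
    intro ε hε
    obtain ⟨P, hP⟩ := approx hIcl hc hu (2 * n) T g hg ε hε
    set f1 : ℝ → ℝ := fun y => cut n y * P.eval y with hf1
    have hf1s : ContDiff ℝ (⊤ : ℕ∞) f1 := (cut_smooth n).mul (contDiff_poly P)
    have hf1c : HasCompactSupport f1 := by
      refine HasCompactSupport.intro (isCompact_Icc (a := -(2 * n)) (b := 2 * n)) ?_
      intro y hy
      have : 2 * n ≤ |y| := by
        by_contra h
        push Not at h
        exact hy ⟨by linarith [(abs_lt.mp h).1], by linarith [(abs_lt.mp h).2]⟩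
      rw [hf1]
      simp only
      rw [cut_zero hn0 this, zero_mul]
    have h1 := H f1 hf1s hf1c
    have hint1 : ∀ t ∈ Finset.range (T + 1),
        Integrable (fun y => (u t).eval y * iteratedDeriv t f1 y) μ := by
      intro t _
      have hc1 : Continuous (iteratedDeriv t f1) :=
        hf1s.continuous_iteratedDeriv t (by exact_mod_cast le_top)
      have hs1 : HasCompactSupport (iteratedDeriv t f1) := by
        have h2 := hf1c.iteratedFDeriv (𝕜 := ℝ) t
        rw [iteratedDeriv_eq_equiv_comp]
        exact h2.comp_left (by simp)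
      exact ((u t).continuous.mul hc1).integrable_of_hasCompactSupport (hs1.mul_left)
    rw [← integral_finsetSum _ hint1] at h1
    have hint1' := integrable_finsetSum _ hint1
    have h2 : ∫ y, ∑ t ∈ Finset.range (T + 1), (u t).eval y * iteratedDerivWithin t g I y ∂μ =
        ∫ y, (∑ t ∈ Finset.range (T + 1), (u t).eval y * iteratedDerivWithin t g I y -
          ∑ t ∈ Finset.range (T + 1), (u t).eval y * iteratedDeriv t f1 y) ∂μ := by
      rw [integral_sub hint hint1', h1, sub_zero]
    rw [h2]
    -- pointwise bound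
    have hPd : ContDiffOn ℝ T (fun y : ℝ => g y - P.eval y) I :=
      hg.sub ((contDiff_poly P).of_le (by exact_mod_cast le_top)).contDiffOn
    have hpt : ∀ y ∈ I, ∀ t ≤ T, |iteratedDerivWithin t g I y - iteratedDeriv t f1 y| ≤
        2 ^ T * C * ((T + 1) * ε) := by
      intro y hy t ht
      have h3 : iteratedDeriv t f1 y = iteratedDerivWithin t f1 I y :=
        (iteratedDerivWithin_eq_iteratedDeriv hu
          (hf1s.of_le (by exact_mod_cast le_top)).contDiffAt hy).symm
      have h4 : iteratedDerivWithin t g I y - iteratedDerivWithin t f1 I y =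
          iteratedDerivWithin t (fun z => cut n z * (g z - P.eval z)) I y := by
        have h5 : Set.EqOn g (fun z => cut n z * g z) I := by
          intro z hz
          simp only
          rcases le_total |z| n with h | h
          · rw [cut_one hn0 h, one_mul]
          · rw [hg0 z hz h, mul_zero]
        rw [iteratedDerivWithin_congr h5 hy]
        have h6 : (fun z => cut n z * (g z - P.eval z)) = fun z => (cut n z * g z) - f1 z := by
          ext z; rw [hf1]; ring
        rw [h6]
        rw [itSub hu hy]
        · have ha : ContDiffOn ℝ T (fun z => cut n z * g z) I :=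
            ((cut_smooth n).of_le (by exact_mod_cast le_top)).contDiffOn.mul hg
          exact (ha.of_le (by exact_mod_cast ht)) y hy
        · exact (hf1s.of_le (by exact_mod_cast le_top)).contDiffAt.contDiffWithinAt
      rw [h3, h4]
      rcases le_or_gt |y| (2 * n) with h | h
      · refine (leib_bound hu hC hPd hn ht hy).trans ?_
        apply mul_le_mul_of_nonneg_left _ (by positivity)
        calc ∑ i ∈ Finset.range (T + 1), |iteratedDerivWithin i (fun y => g y - P.eval y) I y|
            ≤ ∑ i ∈ Finset.range (T + 1), ε := by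
              refine Finset.sum_le_sum fun i hi => ?_
              have hi' : i ≤ T := by have := Finset.mem_range.mp hi; omega
              rw [itSub hu hy]
              · rw [iteratedDerivWithin_eq_iteratedDeriv hu
                  ((contDiff_poly P).of_le (by exact_mod_cast le_top)).contDiffAt hy, polyIter_eval]
                exact hP i hi' y ⟨hy, abs_le.mp h⟩
              · exact (hg.of_le (by exact_mod_cast hi')) y hy
              · exact ((contDiff_poly P).of_le
                  (by exact_mod_cast le_top)).contDiffAt.contDiffWithinAt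
          _ = (T + 1) * ε := by simp
      · -- the cut-off vanishes near y
        have h7 : (fun z => cut n z * (g z - P.eval z)) =ᶠ[𝓝[insert y I] y] fun _ => 0 := by
          apply Filter.Eventually.filter_mono nhdsWithin_le_nhds
          have : {z : ℝ | 2 * n < |z|} ∈ 𝓝 y :=
            (isOpen_lt continuous_const continuous_abs).mem_nhds h
          filter_upwards [this] with z hz
          rw [cut_zero hn0 hz.le, zero_mul]
        rw [h7.iteratedDerivWithin_eq_of_nhds_insert]
        have h8 : iteratedDerivWithin t (fun _ : ℝ => (0 : ℝ)) I y = 0 := by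
          rw [iteratedDerivWithin_const]; simp
        rw [h8, abs_zero]
        positivity
    have hbd : ∀ᵐ y ∂μ, ‖∑ t ∈ Finset.range (T + 1), (u t).eval y * iteratedDerivWithin t g I y -
          ∑ t ∈ Finset.range (T + 1), (u t).eval y * iteratedDeriv t f1 y‖ ≤
        (2 ^ T * C * ((T + 1) * ε)) * ∑ t ∈ Finset.range (T + 1), |(u t).eval y| := by
      filter_upwards [hIae] with y hy
      rw [← Finset.sum_sub_distrib, Finset.mul_sum]
      refine (norm_sum_le _ _).trans (Finset.sum_le_sum fun t ht => ?_)
      rw [← mul_sub, Real.norm_eq_abs, abs_mul, mul_comm]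
      apply mul_le_mul_of_nonneg_right _ (abs_nonneg _)
      exact hpt y hy t (by have := Finset.mem_range.mp ht; omega)
    have h9 := norm_integral_le_of_norm_le (hBint.const_mul (2 ^ T * C * ((T + 1) * ε))) hbd
    rw [integral_const_mul, Real.norm_eq_abs] at h9
    refine h9.trans (le_of_eq ?_)
    rw [hB]; ring
  -- conclude
  by_contra hne
  have hpos := abs_pos.mpr hne
  have hB0 : 0 ≤ B := integral_nonneg fun y => Finset.sum_nonneg fun t _ => abs_nonneg _
  set D := 2 ^ T * C * (T + 1) * B
  have hD0 : 0 ≤ D := by positivity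
  set A := |∫ y, ∑ t ∈ Finset.range (T + 1), (u t).eval y * iteratedDerivWithin t g I y ∂μ|
  have h10 := key (A / (2 * (D + 1))) (by positivity)
  have h11 : A / (2 * (D + 1)) * D < A := by
    rw [div_mul_eq_mul_div, div_lt_iff₀ (by positivity)]
    nlinarith
  linarith

/-- the identity for all test functions -/
theorem ext_identity (hμ : AllMom μ) (hc : Convex ℝ μ.support) (hu : UniqueDiffOn ℝ μ.support)
    (u : ℕ → ℝ[X]) (T m : ℕ) (hm : ∀ t ≤ T, (u t).natDegree ≤ m)
    (H : ∀ f : ℝ → ℝ, ContDiff ℝ (⊤ : ℕ∞) f → HasCompactSupport f →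
      ∑ t ∈ Finset.range (T + 1), ∫ y, (u t).eval y * iteratedDeriv t f y ∂μ = 0)
    {f : ℝ → ℝ} (hf : ContDiffOn ℝ T f μ.support)
    (hfi : ∀ t j : ℕ, t ≤ T → j ≤ m →
      Integrable (fun y => y ^ j * iteratedDerivWithin t f μ.support y) μ) :
    ∫ y, ∑ t ∈ Finset.range (T + 1), (u t).eval y * iteratedDerivWithin t f μ.support y ∂μ = 0 := by
  set I := μ.support with hI
  have hIae : ∀ᵐ y ∂μ, y ∈ I := Measure.support_mem_ae
  obtain ⟨C, hC0, hC⟩ := cut_bound T
  -- products of the coefficients and derivatives are integrable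
  have hprod : ∀ t ≤ T, ∀ s ≤ T, Integrable (fun y => (u t).eval y *
      iteratedDerivWithin s f I y) μ := by
    intro t ht s hs
    have h1 : (fun y => (u t).eval y * iteratedDerivWithin s f I y) = fun y =>
        ∑ j ∈ Finset.range (m + 1), (u t).coeff j * (y ^ j * iteratedDerivWithin s f I y) := by
      ext y
      rw [Polynomial.eval_eq_sum_range' (Nat.lt_succ_of_le (hm t ht)), Finset.sum_mul]
      refine Finset.sum_congr rfl fun j _ => by ring
    rw [h1]
    refine integrable_finsetSum _ fun j hj => (hfi s j hs ?_).const_mul _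
    have := Finset.mem_range.mp hj; omega
  set F : ℕ → ℝ → ℝ := fun n y => ∑ t ∈ Finset.range (T + 1), (u t).eval y *
    iteratedDerivWithin t (fun z => cut (n + 1) z * f z) I y with hF
  have hF0 : ∀ n, ∫ y, F n y ∂μ = 0 := by
    intro n
    rw [hF]
    have hn1 : (1 : ℝ) ≤ (n : ℝ) + 1 := by have : (0:ℝ) ≤ n := Nat.cast_nonneg n; linarith
    refine ext_bounded hμ hc hu u T H (g := fun z => cut (n + 1) z * f z)
      (((cut_smooth _).of_le (by exact_mod_cast le_top)).contDiffOn.mul hf)
      (n := 2 * ((n : ℝ) + 1)) (by linarith) ?_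
    intro y _ hy
    rw [cut_zero (by linarith) hy, zero_mul]
  set bound : ℝ → ℝ := fun y => ∑ t ∈ Finset.range (T + 1), ∑ s ∈ Finset.range (T + 1),
    2 ^ T * C * |(u t).eval y * iteratedDerivWithin s f I y| with hbound
  have hlim : Tendsto (fun n => ∫ y, F n y ∂μ) atTop (𝓝 (∫ y, ∑ t ∈ Finset.range (T + 1),
      (u t).eval y * iteratedDerivWithin t f I y ∂μ)) := by
    refine tendsto_integral_of_dominated_convergence bound ?_ ?_ ?_ ?_
    · intro n
      have h1 : (fun y => ∑ t ∈ Finset.range (T + 1), ∑ i ∈ Finset.range (t + 1),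
          ((t.choose i : ℝ) * iteratedDeriv i (cut (n + 1)) y) * ((u t).eval y *
            iteratedDerivWithin (t - i) f I y)) =ᵐ[μ] F n := by
        filter_upwards [hIae] with y hy
        rw [hF]
        refine Finset.sum_congr rfl fun t ht => ?_
        rw [leib hu hf _ (by have := Finset.mem_range.mp ht; omega) hy, Finset.mul_sum]
        refine Finset.sum_congr rfl fun i _ => by ring
      refine AEStronglyMeasurable.congr ?_ h1
      refine Finset.aestronglyMeasurable_fun_sum _ fun t ht => ?_
      refine Finset.aestronglyMeasurable_fun_sum _ fun i hi => ?_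
      have ht' := Finset.mem_range.mp ht
      have hcont : Continuous (iteratedDeriv i (cut ((n : ℝ) + 1))) :=
        (cut_smooth _).continuous_iteratedDeriv i (by exact_mod_cast le_top)
      exact ((continuous_const.mul hcont).aestronglyMeasurable).mul
        (hprod t (by omega) (t - i) (by omega)).aestronglyMeasurable
    · refine integrable_finsetSum _ fun t ht => integrable_finsetSum _ fun s hs => ?_
      have ht' := Finset.mem_range.mp ht
      have hs' := Finset.mem_range.mp hs
      exact ((hprod t (by omega) s (by omega)).abs).const_mul _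
    · intro n
      filter_upwards [hIae] with y hy
      rw [hF, hbound]
      refine (norm_sum_le _ _).trans (Finset.sum_le_sum fun t ht => ?_)
      have hn1 : (1 : ℝ) ≤ (n : ℝ) + 1 := by have : (0:ℝ) ≤ n := Nat.cast_nonneg n; linarith
      have h2 := leib_bound hu hC hf hn1 (t := t) (by have := Finset.mem_range.mp ht; omega) hy
      rw [Real.norm_eq_abs, abs_mul]
      calc |(u t).eval y| * |iteratedDerivWithin t (fun z => cut (n + 1) z * f z) I y|
          ≤ |(u t).eval y| * (2 ^ T * C * ∑ i ∈ Finset.range (T + 1),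
              |iteratedDerivWithin i f I y|) := mul_le_mul_of_nonneg_left h2 (abs_nonneg _)
        _ = _ := by
            rw [Finset.mul_sum, Finset.mul_sum]
            refine Finset.sum_congr rfl fun i _ => ?_
            rw [abs_mul]; ring
    · filter_upwards [hIae] with y hy
      refine tendsto_const_nhds.congr' ?_
      obtain ⟨N, hN⟩ := exists_nat_gt |y|
      filter_upwards [eventually_ge_atTop N] with n hn
      rw [hF]
      refine Finset.sum_congr rfl fun t _ => ?_
      congr 1
      have h7 : f =ᶠ[𝓝[insert y I] y] fun z => cut (n + 1) z * f z := by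
        apply Filter.Eventually.filter_mono nhdsWithin_le_nhds
        have h8 : |y| < (n : ℝ) + 1 := by
          have : (N : ℝ) ≤ n := by exact_mod_cast hn
          linarith
        have : {z : ℝ | |z| < (n : ℝ) + 1} ∈ 𝓝 y :=
          (isOpen_lt continuous_abs continuous_const).mem_nhds h8
        filter_upwards [this] with z hz
        have hz' : |z| < (n : ℝ) + 1 := hz
        rw [cut_one ((abs_nonneg z).trans_lt hz') hz'.le, one_mul]
      exact h7.iteratedDerivWithin_eq_of_nhds_insert t
  have h0 : Tendsto (fun n => ∫ y, F n y ∂μ) atTop (𝓝 0) := by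
    simp only [hF0]; exact tendsto_const_nhds
  exact tendsto_nhds_unique hlim h0

end

end

end Pool.Agent.H65.ST
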