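import Mathlib

/-!
Polynomial Stein operators: definitions.
-/

namespace Pool.Agent.H65.ST

open MeasureTheory ProbabilityTheory Polynomial

noncomputable section

/-- A differential operator `S f = ∑_{t ≤ T} P_t f^(t)` with real polynomial coefficients `P_t`,
not all zero. -/
structure PolyOp where
  /-- the order -/
  T : ℕ
  /-- the coefficients -/
  P : Fin (T + 1) → ℝ[X]
  /-- not all coefficients vanish -/
  ne : P ≠ 0

/-- The maximal degree `m(S)` of a coefficient. -/
def PolyOp.deg (S : PolyOp) : ℕ := Finset.univ.sup fun t => (S.P t).natDegree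

/-- `(S f)(y)`, the derivatives being taken within the set `s`. -/
def PolyOp.app (S : PolyOp) (s : Set ℝ) (f : ℝ → ℝ) (y : ℝ) : ℝ :=
  ∑ t : Fin (S.T + 1), (S.P t).eval y * iteratedDerivWithin t f s y

/-- The class of test functions of `S` for a random variable of law `μ`: all `f` in `C^T(supp μ)` with
`E |Y^j f^(t)(Y)| < ∞` for all `t ≤ T` and `j ≤ m(S)`. -/
def PolyOp.testClass (S : PolyOp) (μ : Measure ℝ) : Set (ℝ → ℝ) :=
  {f | ContDiffOn ℝ S.T f μ.support ∧ ∀ t j : ℕ, t ≤ S.T → j ≤ S.deg →
    Integrable (fun y => y ^ j * iteratedDerivWithin t f μ.support y) μ}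

/-- `S` is a polynomial Stein operator for (a random variable of law) `μ`. -/
def PolyOp.IsStein (S : PolyOp) (μ : Measure ℝ) : Prop :=
  ∀ f ∈ S.testClass μ, ∫ y, S.app μ.support f y ∂μ = 0

/-- The least maximal degree of a polynomial Stein operator for `μ`. -/
def minDeg (μ : Measure ℝ) : ℕ := sInf {m | ∃ S : PolyOp, S.IsStein μ ∧ S.deg = m}

/-- `S` characterises `μ`: every probability law `ν` on the support of `μ` with
`E |S f(W)| < ∞` and `E S f(W) = 0` for all test functions of `S` for `μ` is equal to `μ`. -/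
def PolyOp.Characterises (S : PolyOp) (μ : Measure ℝ) : Prop :=
  ∀ ν : Measure ℝ, IsProbabilityMeasure ν → ν μ.supportᶜ = 0 →
    (∀ f ∈ S.testClass μ, Integrable (S.app μ.support f) ν ∧ ∫ y, S.app μ.support f y ∂ν = 0) →
    ν = μ

/-- The law of `H_p(X)`, `X` standard normal, `H_p` the probabilists' Hermite polynomial. -/
def lawH (p : ℕ) : Measure ℝ := (gaussianReal 0 1).map fun x => aeval x (hermite p)

end

end Pool.Agent.H65.ST
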