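import Mathlib
import Pool.Agent.H65.ST3
import Pool.Agent.H65.ST5
import Pool.Agent.H65.STDef

/-!
Stein operators and differential equations for the characteristic function.
-/

namespace Pool.Agent.H65.ST

open MeasureTheory Polynomial Complex Filter Topology SchwartzMap

noncomputable section

/-- real part of a complex polynomial -/
def reP (q : ℂ[X]) : ℝ[X] := ∑ j ∈ Finset.range (q.natDegree + 1), monomial j (q.coeff j).re

/-- imaginary part of a complex polynomial -/
def imP (q : ℂ[X]) : ℝ[X] := ∑ j ∈ Finset.range (q.natDegree + 1), monomial j (q.coeff j).im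

lemma reP_eval (q : ℂ[X]) (y : ℝ) : (reP q).eval y = (q.eval (y : ℂ)).re := by
  unfold reP
  rw [eval_finsetSum, Polynomial.eval_eq_sum_range, Complex.re_sum]
  refine Finset.sum_congr rfl fun j _ => ?_
  rw [eval_monomial, ← ofReal_pow, re_mul_ofReal]

lemma imP_eval (q : ℂ[X]) (y : ℝ) : (imP q).eval y = (q.eval (y : ℂ)).im := by
  unfold imP
  rw [eval_finsetSum, Polynomial.eval_eq_sum_range, Complex.im_sum]
  refine Finset.sum_congr rfl fun j _ => ?_
  rw [eval_monomial, ← ofReal_pow, im_mul_ofReal]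

lemma coeff_reP (q : ℂ[X]) (j : ℕ) : (reP q).coeff j = (q.coeff j).re := by
  unfold reP
  rw [finsetSum_coeff]
  simp only [coeff_monomial]
  rw [Finset.sum_ite_eq']
  split_ifs with h
  · rfl
  · rw [coeff_eq_zero_of_natDegree_lt (by simpa using h)]; simp

lemma coeff_imP (q : ℂ[X]) (j : ℕ) : (imP q).coeff j = (q.coeff j).im := by
  unfold imP
  rw [finsetSum_coeff]
  simp only [coeff_monomial]
  rw [Finset.sum_ite_eq']
  split_ifs with h
  · rfl
  · rw [coeff_eq_zero_of_natDegree_lt (by simpa using h)]; simp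

lemma natDegree_reP (q : ℂ[X]) : (reP q).natDegree ≤ q.natDegree := by
  rw [natDegree_le_iff_coeff_eq_zero]
  intro N hN
  rw [coeff_reP, coeff_eq_zero_of_natDegree_lt hN]; simp

lemma natDegree_imP (q : ℂ[X]) : (imP q).natDegree ≤ q.natDegree := by
  rw [natDegree_le_iff_coeff_eq_zero]
  intro N hN
  rw [coeff_imP, coeff_eq_zero_of_natDegree_lt hN]; simp

lemma reP_imP_zero {q : ℂ[X]} (h1 : reP q = 0) (h2 : imP q = 0) : q = 0 := by
  ext j
  apply Complex.ext
  · rw [← coeff_reP, h1]; simp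
  · rw [← coeff_imP, h2]; simp

/-- bound for the degrees in `ξ` of the coefficients of an operator -/
def xiDeg (A : ℂ[X][X]) : ℕ := (Finset.range (A.natDegree + 1)).sup fun j => (A.coeff j).natDegree

lemma le_xiDeg (A : ℂ[X][X]) {j : ℕ} (hj : j ≤ A.natDegree) : (A.coeff j).natDegree ≤ xiDeg A :=
  Finset.le_sup (f := fun j => (A.coeff j).natDegree) (Finset.mem_range.mpr (by omega))

/-- coefficients of the operator in `y` attached to an operator in `ξ` -/
def symb (A : ℂ[X][X]) (t : ℕ) : ℂ[X] :=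
  ∑ j ∈ Finset.range (A.natDegree + 1), C (((A.coeff j).coeff t) * (-I) ^ t * I ^ j) * X ^ j

lemma coeff_symb (A : ℂ[X][X]) (t j : ℕ) :
    (symb A t).coeff j = ((A.coeff j).coeff t) * (-I) ^ t * I ^ j := by
  unfold symb
  rw [finsetSum_coeff]
  simp only [coeff_C_mul, coeff_X_pow]
  simp only [mul_ite, mul_one, mul_zero]
  rw [Finset.sum_ite_eq]
  split_ifs with h
  · rfl
  · rw [coeff_eq_zero_of_natDegree_lt (p := A) (by simpa using h)]; simp

lemma natDegree_symb (A : ℂ[X][X]) (t : ℕ) : (symb A t).natDegree ≤ A.natDegree := by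
  rw [natDegree_le_iff_coeff_eq_zero]
  intro N hN
  rw [coeff_symb, coeff_eq_zero_of_natDegree_lt hN]; simp

lemma symb_ne_zero {A : ℂ[X][X]} (hA : A ≠ 0) : ∃ t ≤ xiDeg A, symb A t ≠ 0 := by
  have h1 : A.coeff A.natDegree ≠ 0 := by
    rw [coeff_natDegree]; exact leadingCoeff_ne_zero.mpr hA
  refine ⟨(A.coeff A.natDegree).natDegree, le_xiDeg A le_rfl, ?_⟩
  intro h
  have h2 := congrArg (fun p => coeff p A.natDegree) h
  simp only [coeff_symb, coeff_zero] at h2
  have h3 : (A.coeff A.natDegree).coeff (A.coeff A.natDegree).natDegree ≠ 0 := by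
    rw [coeff_natDegree]; exact leadingCoeff_ne_zero.mpr h1
  have h4 : (-I : ℂ) ≠ 0 := neg_ne_zero.mpr I_ne_zero
  simp only [mul_eq_zero, pow_eq_zero_iff', h3, h4, I_ne_zero, false_and, or_false] at h2

lemma iteratedDeriv_cf {μ : Measure ℝ} (hμ : AllMom μ) (k : ℕ) :
    iteratedDeriv k (cf μ) = fun ξ => I ^ k * Phi μ X (X ^ k) ξ := by
  unfold cf
  rw [iteratedDeriv_Phi hμ]
  ext ξ
  have : (toC X) ^ k * 1 = (X ^ k : ℂ[X]) := by simp [toC]
  rw [this]

lemma sum_symb {μ : Measure ℝ} (hμ : AllMom μ) (A : ℂ[X][X]) (ξ : ℝ) :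
    ∑ t ∈ Finset.range (xiDeg A + 1), (I * (ξ : ℂ)) ^ t * Phi μ X (symb A t) ξ =
      act A (cf μ) ξ := by
  rw [act_eq_sum_range A _ ξ (Nat.lt_succ_self _)]
  have h1 : ∀ t, Phi μ X (symb A t) ξ = ∑ j ∈ Finset.range (A.natDegree + 1),
      (((A.coeff j).coeff t) * (-I) ^ t * I ^ j) * Phi μ X (X ^ j) ξ := by
    intro t
    unfold symb
    rw [Phi_sum hμ]
    exact Finset.sum_congr rfl fun j _ => Phi_C_mul _ _ _ _ _
  simp only [h1, Finset.mul_sum]
  rw [Finset.sum_comm]
  refine Finset.sum_congr rfl fun j hj => ?_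
  have hj' : j ≤ A.natDegree := by have := Finset.mem_range.mp hj; omega
  rw [iteratedDeriv_cf hμ, Polynomial.eval_eq_sum_range' (n := xiDeg A + 1)
    (Nat.lt_succ_of_le (le_xiDeg A hj')), Finset.sum_mul]
  refine Finset.sum_congr rfl fun t _ => ?_
  have h2 : (I * (ξ : ℂ)) ^ t * (-I) ^ t = (ξ : ℂ) ^ t := by
    rw [← mul_pow]
    congr 1
    linear_combination (-(ξ : ℂ)) * I_mul_I
  rw [← h2]
  ring

/-- **From an equation for the characteristic function to a Stein operator.** -/
theorem exists_stein {μ : Measure ℝ} [IsFiniteMeasure μ] (hμ : AllMom μ)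
    (hc : Convex ℝ μ.support) (hu : UniqueDiffOn ℝ μ.support)
    {A : ℂ[X][X]} (hA : A ≠ 0) (h0 : ∀ ξ, act A (cf μ) ξ = 0) :
    ∃ S : PolyOp, S.IsStein μ ∧ S.deg ≤ A.natDegree := by
  -- identity for real test functions
  have hcx : ∀ f : ℝ → ℝ, ContDiff ℝ (⊤ : ℕ∞) f → HasCompactSupport f →
      ∑ t ∈ Finset.range (xiDeg A + 1), ∫ y, (symb A t).eval (y : ℂ) *
        ((iteratedDeriv t f y : ℝ) : ℂ) ∂μ = 0 := by
    intro f hf hfc
    have h1 : ContDiff ℝ (⊤ : ℕ∞) (fun y => (f y : ℂ)) := ofRealCLM.contDiff.comp hf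
    have h2 : HasCompactSupport (fun y => (f y : ℂ)) := hfc.comp_left (g := ofReal) (by simp)
    have h3 := schwartz_identity hμ (symb A) (xiDeg A) (fun ξ => by rw [sum_symb hμ, h0])
      (h2.toSchwartzMap h1)
    rw [← h3]
    refine Finset.sum_congr rfl fun t _ => ?_
    congr 1
    ext y
    congr 1
    have h4 : (⇑(h2.toSchwartzMap h1) : ℝ → ℂ) = fun y => (f y : ℂ) := rfl
    rw [h4]
    have h5 : ∀ t : ℕ, iteratedDeriv t (fun y => (f y : ℂ)) = fun y =>
        ((iteratedDeriv t f y : ℝ) : ℂ) := by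
      intro t
      induction t with
      | zero => simp
      | succ t ih =>
        rw [iteratedDeriv_succ, ih]
        ext z
        have h6 : HasDerivAt (iteratedDeriv t f) (iteratedDeriv (t + 1) f z) z := by
          have h7 : Differentiable ℝ (iteratedDeriv t f) :=
            hf.differentiable_iteratedDeriv t (by exact_mod_cast WithTop.coe_lt_top t)
          have h8 := (h7 z).hasDerivAt
          rwa [← iteratedDeriv_succ] at h8
        exact h6.ofReal_comp.deriv
    rw [h5]
  have hint : ∀ (f : ℝ → ℝ), ContDiff ℝ (⊤ : ℕ∞) f → HasCompactSupport f → ∀ t : ℕ,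
      Integrable (fun y : ℝ => (symb A t).eval (y : ℂ) * ((iteratedDeriv t f y : ℝ) : ℂ)) μ := by
    intro f hf hfc t
    have hc1 : Continuous (iteratedDeriv t f) :=
      hf.continuous_iteratedDeriv t (by exact_mod_cast le_top)
    have hs1 : HasCompactSupport (iteratedDeriv t f) := by
      have h2 := hfc.iteratedFDeriv (𝕜 := ℝ) t
      rw [iteratedDeriv_eq_equiv_comp]
      exact h2.comp_left (by simp)
    have hs2 : HasCompactSupport (fun y => ((iteratedDeriv t f y : ℝ) : ℂ)) :=
      hs1.comp_left (g := ofReal) (by simp)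
    exact (((symb A t).continuous.comp continuous_ofReal).mul
      (continuous_ofReal.comp hc1)).integrable_of_hasCompactSupport hs2.mul_left
  have hre : ∀ f : ℝ → ℝ, ContDiff ℝ (⊤ : ℕ∞) f → HasCompactSupport f →
      ∑ t ∈ Finset.range (xiDeg A + 1), ∫ y, (reP (symb A t)).eval y * iteratedDeriv t f y ∂μ = 0 := by
    intro f hf hfc
    have h1 := congrArg Complex.re (hcx f hf hfc)
    rw [Complex.re_sum, Complex.zero_re] at h1
    rw [← h1]
    refine Finset.sum_congr rfl fun t _ => ?_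
    have h2 := integral_re (hint f hf hfc t)
    simp only [RCLike.re_to_complex] at h2
    rw [← h2]
    congr 1
    ext y
    rw [reP_eval, re_mul_ofReal]
  have him : ∀ f : ℝ → ℝ, ContDiff ℝ (⊤ : ℕ∞) f → HasCompactSupport f →
      ∑ t ∈ Finset.range (xiDeg A + 1), ∫ y, (imP (symb A t)).eval y * iteratedDeriv t f y ∂μ = 0 := by
    intro f hf hfc
    have h1 := congrArg Complex.im (hcx f hf hfc)
    rw [Complex.im_sum, Complex.zero_im] at h1
    rw [← h1]
    refine Finset.sum_congr rfl fun t _ => ?_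
    have h2 := integral_im (hint f hf hfc t)
    simp only [RCLike.im_to_complex] at h2
    rw [← h2]
    congr 1
    ext y
    rw [imP_eval, im_mul_ofReal]
  -- build the operator
  have build : ∀ u : ℕ → ℝ[X], (∀ t, (u t).natDegree ≤ A.natDegree) →
      (∃ t ≤ xiDeg A, u t ≠ 0) →
      (∀ f : ℝ → ℝ, ContDiff ℝ (⊤ : ℕ∞) f → HasCompactSupport f →
        ∑ t ∈ Finset.range (xiDeg A + 1), ∫ y, (u t).eval y * iteratedDeriv t f y ∂μ = 0) →
      ∃ S : PolyOp, S.IsStein μ ∧ S.deg ≤ A.natDegree := by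
    intro u hdeg hne hid
    obtain ⟨t0, ht0, hut0⟩ := hne
    set S : PolyOp := ⟨xiDeg A, fun t => u t, fun h => hut0 (by
      have := congrFun h ⟨t0, by omega⟩
      simpa using this)⟩ with hS
    have hSd : ∀ t ≤ xiDeg A, (u t).natDegree ≤ S.deg := by
      intro t ht
      exact Finset.le_sup (f := fun t : Fin (S.T + 1) => (S.P t).natDegree)
        (Finset.mem_univ (⟨t, by show t < xiDeg A + 1; omega⟩ : Fin (S.T + 1)))
    refine ⟨S, ?_, ?_⟩
    · intro f hf
      have h1 := ext_identity hμ hc hu u (xiDeg A) S.deg hSd hid (f := f) hf.1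
        (fun t j ht hj => hf.2 t j ht hj)
      rw [← h1]
      congr 1
      ext y
      unfold PolyOp.app
      rw [Finset.sum_range]
    · unfold PolyOp.deg
      exact Finset.sup_le fun t _ => hdeg t
  obtain ⟨t, ht, hst⟩ := symb_ne_zero hA
  by_cases h1 : reP (symb A t) = 0
  · have h2 : imP (symb A t) ≠ 0 := fun h => hst (reP_imP_zero h1 h)
    exact build (fun t => imP (symb A t))
      (fun t => (natDegree_imP _).trans (natDegree_symb A t)) ⟨t, ht, h2⟩ him
  · exact build (fun t => reP (symb A t))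
      (fun t => (natDegree_reP _).trans (natDegree_symb A t)) ⟨t, ht, h1⟩ hre

end

end Pool.Agent.H65.ST
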