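import Mathlib
import Pool.Agent.H65.ST6

/-!
A law `ν` which satisfies all the expectation identities of a minimal Stein operator of `μ` has all
moments, and its characteristic function satisfies every equation satisfied by that of `μ`.
-/

namespace Pool.Agent.H65.ST

open MeasureTheory Polynomial Complex Filter Topology

noncomputable section

/-- if a polynomial of degree `n` is integrable, so is `y^n` -/
lemma integrable_pow_of_poly {ν : Measure ℝ} [IsFiniteMeasure ν] {Q : ℝ[X]} (hQ0 : Q ≠ 0)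
    (hQ : Integrable (fun y => Q.eval y) ν) : Integrable (fun y : ℝ => y ^ Q.natDegree) ν := by
  set n := Q.natDegree with hn
  have h1 : ∃ C R : ℝ, ∀ y : ℝ, R ≤ y → |y| ^ n ≤ C * |Q.eval y| := by
    have hO : (fun x : ℝ => (X ^ n : ℝ[X]).eval x) =O[atTop] fun x => Q.eval x :=
      Polynomial.isBigO_atTop_of_degree_le _ _ (by
        rw [degree_X_pow, degree_eq_natDegree hQ0])
    obtain ⟨C, hC⟩ := hO.bound
    obtain ⟨R, hR⟩ := eventually_atTop.mp hC
    refine ⟨C, R, fun y hy => ?_⟩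
    have := hR y hy
    simpa [abs_pow] using this
  have h2 : ∃ C R : ℝ, ∀ y : ℝ, y ≤ -R → |y| ^ n ≤ C * |Q.eval y| := by
    have hne : Q.comp (-X) ≠ 0 := by
      intro h
      apply hQ0
      have := congrArg (fun p => p.comp (-X)) h
      simpa [comp_assoc] using this
    have hdeg : (Q.comp (-X)).natDegree = n := by
      rw [natDegree_comp]; simp [hn]
    have hO : (fun x : ℝ => (X ^ n : ℝ[X]).eval x) =O[atTop] fun x => (Q.comp (-X)).eval x :=
      Polynomial.isBigO_atTop_of_degree_le _ _ (by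
        rw [degree_X_pow, degree_eq_natDegree hne, hdeg])
    obtain ⟨C, hC⟩ := hO.bound
    obtain ⟨R, hR⟩ := eventually_atTop.mp hC
    refine ⟨C, R, fun y hy => ?_⟩
    have := hR (-y) (by linarith)
    simpa [abs_pow, eval_comp] using this
  obtain ⟨C1, R1, hC1⟩ := h1
  obtain ⟨C2, R2, hC2⟩ := h2
  set R := max R1 R2
  have hdom : Integrable (fun y : ℝ => |R| ^ n + (|C1| + |C2|) * |Q.eval y|) ν :=
    (integrable_const _).add (hQ.abs.const_mul _)
  refine hdom.mono (continuous_pow n).aestronglyMeasurable (Eventually.of_forall fun y => ?_)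
  have hnn : 0 ≤ |R| ^ n + (|C1| + |C2|) * |Q.eval y| := by positivity
  rw [Real.norm_eq_abs, Real.norm_eq_abs, abs_of_nonneg hnn, abs_pow]
  have hq := abs_nonneg (Q.eval y)
  rcases le_or_gt R y with h | h
  · have h3 := hC1 y ((le_max_left _ _).trans h)
    have : C1 * |Q.eval y| ≤ |C1| * |Q.eval y| := mul_le_mul_of_nonneg_right (le_abs_self _) hq
    have h4 : 0 ≤ |C2| * |Q.eval y| := by positivity
    have h5 : 0 ≤ |R| ^ n := by positivity
    linarith
  rcases le_or_gt y (-R) with h' | h'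
  · have h3 := hC2 y (h'.trans (neg_le_neg (le_max_right _ _)))
    have : C2 * |Q.eval y| ≤ |C2| * |Q.eval y| := mul_le_mul_of_nonneg_right (le_abs_self _) hq
    have h4 : 0 ≤ |C1| * |Q.eval y| := by positivity
    have h5 : 0 ≤ |R| ^ n := by positivity
    linarith
  · have h3 : |y| ≤ |R| := by
      rw [abs_le]
      have := le_abs_self R
      constructor <;> linarith
    have h4 : |y| ^ n ≤ |R| ^ n := pow_le_pow_left₀ (abs_nonneg _) h3 n
    have h5 : 0 ≤ (|C1| + |C2|) * |Q.eval y| := by positivity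
    linarith

lemma integrable_pow_mono {ν : Measure ℝ} [IsFiniteMeasure ν] {m n : ℕ} (hmn : m ≤ n)
    (h : Integrable (fun y : ℝ => y ^ n) ν) : Integrable (fun y : ℝ => y ^ m) ν := by
  refine ((integrable_const (1 : ℝ)).add h.abs).mono (continuous_pow m).aestronglyMeasurable
    (Eventually.of_forall fun y => ?_)
  simp only [Pi.add_apply, Real.norm_eq_abs, abs_pow]
  rw [abs_of_nonneg (by positivity : (0:ℝ) ≤ 1 + |y| ^ n)]
  rcases le_total |y| 1 with h1 | h1
  · have := pow_le_one₀ (n := m) (abs_nonneg y) h1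
    have h2 : 0 ≤ |y| ^ n := by positivity
    linarith
  · have := pow_le_pow_right₀ h1 hmn
    linarith

/-- the polynomial `S (y^N)` -/
def onPow (S : PolyOp) (N : ℕ) : ℝ[X] := ∑ t : Fin (S.T + 1), S.P t * derivative^[t] (X ^ N)

lemma app_poly (S : PolyOp) {I : Set ℝ} (hu : UniqueDiffOn ℝ I) (P : ℝ[X]) {y : ℝ} (hy : y ∈ I)
    (t : ℕ) : iteratedDerivWithin t (fun y => P.eval y) I y = (derivative^[t] P).eval y := by
  rw [iteratedDerivWithin_eq_iteratedDeriv hu
    ((contDiff_poly P).of_le (by exact_mod_cast le_top)).contDiffAt hy, polyIter_eval]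

lemma app_pow (S : PolyOp) {I : Set ℝ} (hu : UniqueDiffOn ℝ I) (N : ℕ) {y : ℝ} (hy : y ∈ I) :
    S.app I (fun y => (X ^ N : ℝ[X]).eval y) y = (onPow S N).eval y := by
  unfold PolyOp.app onPow
  rw [eval_finsetSum]
  refine Finset.sum_congr rfl fun t _ => ?_
  rw [app_poly S hu _ hy, eval_mul]

/-- polynomials are test functions -/
lemma poly_mem_testClass (S : PolyOp) {μ : Measure ℝ} (hμ : AllMom μ)
    (hu : UniqueDiffOn ℝ μ.support) (P : ℝ[X]) : (fun y => P.eval y) ∈ S.testClass μ := by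
  refine ⟨((contDiff_poly P).of_le (by exact_mod_cast le_top)).contDiffOn, fun t j _ _ => ?_⟩
  have h1 := hμ.realPoly (X ^ j * derivative^[t] P)
  refine h1.congr ?_
  filter_upwards [Measure.support_mem_ae (μ := μ)] with y hy
  rw [app_poly S hu _ hy]
  simp

/-- the index of the top diagonal of the coefficients -/
lemma exists_top (S : PolyOp) : ∃ e : ℕ, (∃ t : Fin (S.T + 1), ∃ j, (S.P t).coeff j ≠ 0 ∧
    j + S.T = e + t) ∧ ∀ t : Fin (S.T + 1), ∀ j, (S.P t).coeff j ≠ 0 → j + S.T ≤ e + t := by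
  classical
  have h1 : ∃ t, S.P t ≠ 0 := by
    by_contra h
    push Not at h
    exact S.ne (funext h)
  obtain ⟨t, ht⟩ := h1
  set s : Set ℕ := {e | ∃ t : Fin (S.T + 1), ∃ j, (S.P t).coeff j ≠ 0 ∧ j + S.T = e + t} with hs
  have hne : s.Nonempty := by
    refine ⟨(S.P t).natDegree + S.T - t, t, (S.P t).natDegree, ?_, ?_⟩
    · rw [coeff_natDegree]; exact leadingCoeff_ne_zero.mpr ht
    · have := t.2; omega
  have hbd : BddAbove s := by
    refine ⟨S.deg + S.T, ?_⟩
    rintro e ⟨t, j, hj, he⟩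
    have h2 : j ≤ (S.P t).natDegree := le_natDegree_of_ne_zero hj
    have h3 : (S.P t).natDegree ≤ S.deg :=
      Finset.le_sup (f := fun t => (S.P t).natDegree) (Finset.mem_univ t)
    omega
  have hmem := Nat.sSup_mem hne hbd
  refine ⟨sSup s, hmem, ?_⟩
  intro t j hj
  have h4 : j + S.T - t ∈ s := ⟨t, j, hj, by have := t.2; omega⟩
  have h5 := le_csSup hbd h4
  omega

lemma coeff_onPow (S : PolyOp) {e : ℕ}
    (hmax : ∀ t : Fin (S.T + 1), ∀ j, (S.P t).coeff j ≠ 0 → j + S.T ≤ e + t)
    {N : ℕ} (hN : S.T ≤ N) :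
    (onPow S N).natDegree ≤ N - S.T + e ∧ (onPow S N).coeff (N - S.T + e) =
      ∑ t : Fin (S.T + 1), (if S.T ≤ e + t then (S.P t).coeff (e + t - S.T) else 0) *
        (N.descFactorial t : ℝ) := by
  have hterm : ∀ t : Fin (S.T + 1), S.P t * derivative^[t] (X ^ N) =
      (S.P t * C (N.descFactorial t : ℝ)) * X ^ (N - t) := by
    intro t
    rw [Polynomial.iterate_derivative_X_pow_eq_C_mul]
    ring
  have hco : ∀ (t : Fin (S.T + 1)) (m : ℕ), (S.P t * derivative^[t] (X ^ N)).coeff m =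
      if N - t ≤ m then (S.P t).coeff (m - (N - t)) * (N.descFactorial t : ℝ) else 0 := by
    intro t m
    rw [hterm, coeff_mul_X_pow', coeff_mul_C]
  constructor
  · rw [natDegree_le_iff_coeff_eq_zero]
    intro m hm
    unfold onPow
    rw [finsetSum_coeff]
    refine Finset.sum_eq_zero fun t _ => ?_
    rw [hco]
    split_ifs with h
    · by_cases h0 : (S.P t).coeff (m - (N - t)) = 0
      · rw [h0, zero_mul]
      · have h1 := hmax t _ h0
        have h2 := t.2
        omega
    · rfl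
  · unfold onPow
    rw [finsetSum_coeff]
    refine Finset.sum_congr rfl fun t _ => ?_
    rw [hco]
    have h2 := t.2
    by_cases h : S.T ≤ e + t
    · rw [if_pos (by omega), if_pos h]
      congr 2
      omega
    · rw [if_neg (by omega), if_neg h, zero_mul]

/-- for infinitely many `N` the top coefficient of `S (y^N)` does not vanish -/
lemma exists_good_pow (S : PolyOp) {e : ℕ}
    (hex : ∃ t : Fin (S.T + 1), ∃ j, (S.P t).coeff j ≠ 0 ∧ j + S.T = e + t) (M : ℕ) :
    ∃ N ≥ M, ∑ t : Fin (S.T + 1), (if S.T ≤ e + t then (S.P t).coeff (e + t - S.T) else 0) *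
        (N.descFactorial t : ℝ) ≠ 0 := by
  classical
  set c : ℕ → ℝ := fun t => if h : t < S.T + 1 then
    (if S.T ≤ e + t then (S.P ⟨t, h⟩).coeff (e + t - S.T) else 0) else 0 with hc
  set D : ℝ[X] := ∑ t ∈ Finset.range (S.T + 1), C (c t) * descPochhammer ℝ t with hD
  have hsum : ∀ N : ℕ, D.eval (N : ℝ) = ∑ t : Fin (S.T + 1),
      (if S.T ≤ e + t then (S.P t).coeff (e + t - S.T) else 0) * (N.descFactorial t : ℝ) := by
    intro N
    rw [hD, eval_finsetSum, Finset.sum_range]
    refine Finset.sum_congr rfl fun t _ => ?_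
    rw [eval_mul, eval_C, hc, descPochhammer_eval_eq_descFactorial]
    simp only [t.2, dif_pos, Fin.eta]
  have hD0 : D ≠ 0 := by
    obtain ⟨t0, j, hj, hje⟩ := hex
    -- the largest index with nonzero coefficient
    have hset : ((Finset.range (S.T + 1)).filter fun t => c t ≠ 0).Nonempty := by
      refine ⟨t0, ?_⟩
      rw [Finset.mem_filter, Finset.mem_range]
      refine ⟨t0.2, ?_⟩
      rw [hc]
      simp only [t0.2, dif_pos, Fin.eta]
      rw [if_pos (by omega)]
      have : e + t0 - S.T = j := by omega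
      rw [this]
      exact hj
    set tm := ((Finset.range (S.T + 1)).filter fun t => c t ≠ 0).max' hset with htm
    have hmem := Finset.max'_mem _ hset
    rw [← htm, Finset.mem_filter, Finset.mem_range] at hmem
    have hmaxt : ∀ t < S.T + 1, tm < t → c t = 0 := by
      intro t ht htt
      by_contra h
      have h5 : t ∈ (Finset.range (S.T + 1)).filter fun t => c t ≠ 0 :=
        Finset.mem_filter.mpr ⟨Finset.mem_range.mpr ht, h⟩
      have := Finset.le_max' _ t h5
      rw [← htm] at this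
      omega
    intro h0
    have h1 : D.coeff tm = c tm := by
      rw [hD, finsetSum_coeff]
      rw [Finset.sum_eq_single tm]
      · rw [coeff_C_mul]
        have hm := monic_descPochhammer ℝ tm
        have hd := descPochhammer_natDegree ℝ tm
        have : (descPochhammer ℝ tm).coeff tm = 1 := by
          have := hm.coeff_natDegree
          rwa [hd] at this
        rw [this, mul_one]
      · intro t ht hne
        rw [coeff_C_mul]
        rcases lt_or_gt_of_ne hne with h | h
        · rw [coeff_eq_zero_of_natDegree_lt (by rw [descPochhammer_natDegree]; exact h), mul_zero]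
        · rw [hmaxt t (Finset.mem_range.mp ht) h, zero_mul]
      · intro h
        exact absurd (Finset.mem_range.mpr hmem.1) h
    rw [h0, coeff_zero] at h1
    exact hmem.2 h1.symm
  by_contra hcon
  push Not at hcon
  have hinf : Set.Infinite {x : ℝ | D.IsRoot x} := by
    refine Set.infinite_of_injective_forall_mem (f := fun n : ℕ => ((n + M : ℕ) : ℝ)) ?_ ?_
    · intro a b h
      have h' : ((a + M : ℕ) : ℝ) = ((b + M : ℕ) : ℝ) := h
      have : a + M = b + M := by exact_mod_cast h'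
      omega
    · intro n
      show D.eval _ = 0
      rw [hsum]
      exact hcon _ (by omega)
  exact hinf (Polynomial.finite_setOfPred_isRoot hD0)

/-- **All moments of `ν` are finite.** -/
theorem allMom_of_stein {S : PolyOp} {μ ν : Measure ℝ} [IsFiniteMeasure ν] (hμ : AllMom μ)
    (hu : UniqueDiffOn ℝ μ.support) (hν : ν μ.supportᶜ = 0)
    (h : ∀ f ∈ S.testClass μ, Integrable (S.app μ.support f) ν) : AllMom ν := by
  intro n
  obtain ⟨e, hex, hmax⟩ := exists_top S
  obtain ⟨N, hN, hne⟩ := exists_good_pow S hex (n + S.T)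
  obtain ⟨hdeg, hco⟩ := coeff_onPow S hmax (N := N) (by omega)
  have h1 := h _ (poly_mem_testClass S hμ hu (X ^ N))
  have h2 : Integrable (fun y => (onPow S N).eval y) ν := by
    refine h1.congr ?_
    have hae : ∀ᵐ y ∂ν, y ∈ μ.support := by
      rw [ae_iff]; exact hν
    filter_upwards [hae] with y hy
    exact app_pow S hu N hy
  have hc : (onPow S N).coeff (N - S.T + e) ≠ 0 := by rw [hco]; exact hne
  have h0 : onPow S N ≠ 0 := by
    intro h0; rw [h0] at hc; simp at hc
  have h3 := integrable_pow_of_poly h0 h2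
  have h4 : n ≤ (onPow S N).natDegree := by
    have := le_natDegree_of_ne_zero hc
    omega
  exact integrable_pow_mono h4 h3

/-- the test functions `Re (c exp (i ξ y))` -/
def tf (c : ℂ) (ξ y : ℝ) : ℝ := (c * cexp (I * ξ * y)).re

lemma hasDerivAt_tf (c : ℂ) (ξ y : ℝ) : HasDerivAt (tf c ξ) (tf (c * (I * ξ)) ξ y) y := by
  have h0 : HasDerivAt (fun t : ℝ => (t : ℂ)) 1 y := ofRealCLM.hasDerivAt
  have h1 : HasDerivAt (fun y : ℝ => I * (ξ : ℂ) * (y : ℂ)) (I * ξ) y := by
    simpa using h0.const_mul (I * (ξ : ℂ))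
  have h2 := (h1.cexp).const_mul c
  have h3 : HasDerivAt (fun y : ℝ => (c * cexp (I * ξ * y)).re)
      (c * (cexp (I * ξ * y) * (I * ξ))).re y := by
    exact (Complex.reCLM.hasFDerivAt (x := c * cexp (I * ξ * y))).comp_hasDerivAt y h2
  refine h3.congr_deriv ?_
  unfold tf
  congr 1
  ring

lemma iteratedDeriv_tf (c : ℂ) (ξ : ℝ) (t : ℕ) :
    iteratedDeriv t (tf c ξ) = tf (c * (I * ξ) ^ t) ξ := by
  induction t generalizing c with
  | zero => simp
  | succ t ih =>
    rw [iteratedDeriv_succ']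
    have : deriv (tf c ξ) = tf (c * (I * ξ)) ξ := by
      ext y; exact (hasDerivAt_tf c ξ y).deriv
    rw [this, ih]
    congr 1
    ring

lemma tf_smooth (c : ℂ) (ξ : ℝ) : ContDiff ℝ (⊤ : ℕ∞) (tf c ξ) := by
  refine contDiff_of_differentiable_iteratedDeriv ?_
  intro m _
  rw [iteratedDeriv_tf]
  exact fun y => (hasDerivAt_tf _ ξ y).differentiableAt

lemma abs_tf_le (c : ℂ) (ξ y : ℝ) : |tf c ξ y| ≤ ‖c‖ := by
  unfold tf
  refine (Complex.abs_re_le_norm _).trans ?_
  rw [norm_mul, norm_expI, mul_one]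

lemma tf_mem_testClass (S : PolyOp) {μ : Measure ℝ} (hμ : AllMom μ)
    (hu : UniqueDiffOn ℝ μ.support) (c : ℂ) (ξ : ℝ) : tf c ξ ∈ S.testClass μ := by
  refine ⟨((tf_smooth c ξ).of_le (by exact_mod_cast le_top)).contDiffOn, fun t j _ _ => ?_⟩
  have h1 : Integrable (fun y : ℝ => y ^ j * tf (c * (I * ξ) ^ t) ξ y) μ := by
    refine ((hμ j).abs.mul_const ‖c * (I * ξ) ^ t‖).mono ?_ (Eventually.of_forall fun y => ?_)
    · exact ((continuous_pow j).mul (tf_smooth _ ξ).continuous).aestronglyMeasurable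
    · rw [Real.norm_eq_abs, Real.norm_eq_abs, abs_mul, abs_mul, abs_abs,
        abs_of_nonneg (norm_nonneg (c * (I * (ξ:ℂ)) ^ t))]
      exact mul_le_mul_of_nonneg_left (abs_tf_le _ _ _) (abs_nonneg _)
  refine h1.congr ?_
  filter_upwards [Measure.support_mem_ae (μ := μ)] with y hy
  rw [iteratedDerivWithin_eq_iteratedDeriv hu
    ((tf_smooth c ξ).of_le (by exact_mod_cast le_top)).contDiffAt hy, iteratedDeriv_tf]

/-- **The equation for the characteristic function** -/
theorem sum_of_stein {S : PolyOp} {μ ν : Measure ℝ} (hμ : AllMom μ) (hνm : AllMom ν)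
    (hu : UniqueDiffOn ℝ μ.support) (hν : ν μ.supportᶜ = 0)
    (h : ∀ f ∈ S.testClass μ, ∫ y, S.app μ.support f y ∂ν = 0) (ξ : ℝ) :
    ∑ t : Fin (S.T + 1), (I * (ξ : ℂ)) ^ (t : ℕ) * Phi ν X (toC (S.P t)) ξ = 0 := by
  have hae : ∀ᵐ y ∂ν, y ∈ μ.support := by
    rw [ae_iff]; exact hν
  set G : ℝ → ℂ := fun y => ∑ t : Fin (S.T + 1), (I * (ξ : ℂ)) ^ (t : ℕ) *
    ((toC (S.P t)).eval (y : ℂ) * cexp (I * ξ * (((X : ℝ[X]).eval y : ℝ) : ℂ))) with hG
  have hGint : ∀ t : Fin (S.T + 1), Integrable (fun y : ℝ => (I * (ξ : ℂ)) ^ (t : ℕ) *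
    ((toC (S.P t)).eval (y : ℂ) * cexp (I * ξ * (((X : ℝ[X]).eval y : ℝ) : ℂ)))) ν := fun t =>
    (integrable_integrand hνm X (toC (S.P t)) ξ).const_mul _
  have hGi : Integrable G ν := integrable_finsetSum _ fun t _ => hGint t
  have h1 : ∑ t : Fin (S.T + 1), (I * (ξ : ℂ)) ^ (t : ℕ) * Phi ν X (toC (S.P t)) ξ =
      ∫ y, G y ∂ν := by
    rw [hG, integral_finsetSum _ fun t _ => hGint t]
    refine Finset.sum_congr rfl fun t _ => ?_
    rw [integral_const_mul]
    rfl
  have key : ∀ c : ℂ, (c * ∫ y, G y ∂ν).re = 0 := by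
    intro c
    have h2 := h _ (tf_mem_testClass S hμ hu c ξ)
    rw [← h2, ← integral_const_mul]
    have h3 := integral_re (hGi.const_mul c)
    simp only [RCLike.re_to_complex] at h3
    rw [← h3]
    refine integral_congr_ae ?_
    filter_upwards [hae] with y hy
    unfold PolyOp.app
    rw [hG]
    simp only [Finset.mul_sum, Complex.re_sum]
    refine Finset.sum_congr rfl fun t _ => ?_
    rw [iteratedDerivWithin_eq_iteratedDeriv hu
      ((tf_smooth c ξ).of_le (by exact_mod_cast le_top)).contDiffAt hy, iteratedDeriv_tf]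
    unfold tf
    rw [eval_toC, eval_X, ← re_ofReal_mul]
    congr 1
    ring
  rw [h1]
  have ha := key 1
  have hb := key (-I)
  rw [one_mul] at ha
  apply Complex.ext
  · exact ha
  · simpa using hb

/-- the operator in `ξ` attached to `S` -/
def opOf (S : PolyOp) : ℂ[X][X] := ∑ j ∈ Finset.range (S.deg + 1),
  monomial j (∑ t : Fin (S.T + 1), C ((((S.P t).coeff j : ℝ) : ℂ) * (-I) ^ j) * (C I * X) ^ (t : ℕ))

lemma act_finset_sum {ι : Type*} (s : Finset ι) (A : ι → ℂ[X][X]) (f : ℝ → ℂ) (ξ : ℝ) :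
    act (∑ i ∈ s, A i) f ξ = ∑ i ∈ s, act (A i) f ξ := by
  classical
  induction s using Finset.induction_on with
  | empty => simp [act_zero]
  | insert a s ha ih => rw [Finset.sum_insert ha, Finset.sum_insert ha, act_add, ih]

lemma act_opOf (S : PolyOp) {ν : Measure ℝ} (hν : AllMom ν) (ξ : ℝ) :
    act (opOf S) (cf ν) ξ =
      ∑ t : Fin (S.T + 1), (I * (ξ : ℂ)) ^ (t : ℕ) * Phi ν X (toC (S.P t)) ξ := by
  unfold opOf
  rw [act_finset_sum]
  have h1 : ∀ t : Fin (S.T + 1), Phi ν X (toC (S.P t)) ξ = ∑ j ∈ Finset.range (S.deg + 1),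
      (((S.P t).coeff j : ℝ) : ℂ) * Phi ν X (X ^ j) ξ := by
    intro t
    have h2 : toC (S.P t) = ∑ j ∈ Finset.range (S.deg + 1),
        C (((S.P t).coeff j : ℝ) : ℂ) * X ^ j := by
      have h3 : (toC (S.P t)).natDegree < S.deg + 1 := by
        have : (S.P t).natDegree ≤ S.deg :=
          Finset.le_sup (f := fun t => (S.P t).natDegree) (Finset.mem_univ t)
        have h4 : (toC (S.P t)).natDegree ≤ (S.P t).natDegree := natDegree_map_le
        omega
      conv_lhs => rw [Polynomial.as_sum_range' _ _ h3]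
      refine Finset.sum_congr rfl fun j _ => ?_
      rw [← C_mul_X_pow_eq_monomial]
      congr 2
      exact coeff_map _ _
    rw [h2, Phi_sum hν]
    exact Finset.sum_congr rfl fun j _ => Phi_C_mul _ _ _ _ _
  simp only [h1, Finset.mul_sum]
  rw [Finset.sum_comm]
  refine Finset.sum_congr rfl fun j _ => ?_
  rw [act_monomial, iteratedDeriv_cf hν, eval_finsetSum, Finset.sum_mul]
  refine Finset.sum_congr rfl fun t _ => ?_
  have h2 : (-I) ^ j * I ^ j = (1 : ℂ) := by
    rw [← mul_pow]
    have : -I * I = (1 : ℂ) := by rw [neg_mul, I_mul_I, neg_neg]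
    rw [this, one_pow]
  simp only [eval_mul, eval_C, eval_pow, eval_X]
  linear_combination ((((S.P t).coeff j : ℝ) : ℂ) * (I * (ξ : ℂ)) ^ (t : ℕ) *
    Phi ν X (X ^ j) ξ) * h2

lemma coeff_opOf (S : PolyOp) (j : ℕ) : (opOf S).coeff j =
    if j ≤ S.deg then ∑ t : Fin (S.T + 1), C ((((S.P t).coeff j : ℝ) : ℂ) * (-I) ^ j) *
      (C I * X) ^ (t : ℕ) else 0 := by
  unfold opOf
  rw [finsetSum_coeff]
  simp only [coeff_monomial]
  rw [Finset.sum_ite_eq']
  simp only [Finset.mem_range, Nat.lt_succ_iff]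

lemma natDegree_opOf (S : PolyOp) : (opOf S).natDegree = S.deg ∧ opOf S ≠ 0 := by
  classical
  have hex : ∃ t, (S.P t).coeff S.deg ≠ 0 := by
    by_cases hd : S.deg = 0
    · have h1 : ∃ t, S.P t ≠ 0 := by
        by_contra h
        push Not at h
        exact S.ne (funext h)
      obtain ⟨t, ht⟩ := h1
      refine ⟨t, ?_⟩
      have h2 : (S.P t).natDegree ≤ S.deg :=
        Finset.le_sup (f := fun t => (S.P t).natDegree) (Finset.mem_univ t)
      have h3 : (S.P t).natDegree = S.deg := by omega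
      rw [← h3, coeff_natDegree]
      exact leadingCoeff_ne_zero.mpr ht
    · obtain ⟨t, _, ht⟩ := Finset.exists_mem_eq_sup Finset.univ Finset.univ_nonempty
        (fun t : Fin (S.T + 1) => (S.P t).natDegree)
      have ht' : S.deg = (S.P t).natDegree := ht
      refine ⟨t, ?_⟩
      rw [ht', coeff_natDegree, leadingCoeff_ne_zero]
      intro h
      rw [h, natDegree_zero] at ht'
      exact hd ht'
  have hco : (opOf S).coeff S.deg ≠ 0 := by
    obtain ⟨t, ht⟩ := hex
    rw [coeff_opOf, if_pos le_rfl]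
    intro h
    have h1 := congrArg (fun p => coeff p t) h
    simp only [finsetSum_coeff, coeff_zero] at h1
    rw [Finset.sum_eq_single t] at h1
    · rw [mul_pow, ← C_pow, ← mul_assoc, ← C_mul, coeff_C_mul, coeff_X_pow, if_pos rfl, mul_one] at h1
      have h4 : (-I : ℂ) ≠ 0 := neg_ne_zero.mpr I_ne_zero
      have h5 : (((S.P t).coeff S.deg : ℝ) : ℂ) ≠ 0 := by exact_mod_cast ht
      simp only [mul_eq_zero, pow_eq_zero_iff', h4, h5, I_ne_zero, false_and, or_false] at h1
    · intro s _ hs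
      rw [mul_pow, ← C_pow, ← mul_assoc, ← C_mul, coeff_C_mul, coeff_X_pow, if_neg, mul_zero]
      intro h; exact hs (Fin.ext h.symm)
    · intro h; exact absurd (Finset.mem_univ _) h
  constructor
  · apply le_antisymm
    · rw [natDegree_le_iff_coeff_eq_zero]
      intro N hN
      rw [coeff_opOf, if_neg (by omega)]
    · exact le_natDegree_of_ne_zero hco
  · intro h; rw [h] at hco; simp at hco

/-- **Main reduction**: `ν` has all moments and satisfies all equations of `μ`. -/
theorem reduction {S : PolyOp} {μ ν : Measure ℝ} [IsFiniteMeasure μ] [IsFiniteMeasure ν]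
    (hμ : AllMom μ) (hc : Convex ℝ μ.support) (hu : UniqueDiffOn ℝ μ.support)
    (hS : S.IsStein μ) (hmin : S.deg = minDeg μ) (hν : ν μ.supportᶜ = 0)
    (h : ∀ f ∈ S.testClass μ, Integrable (S.app μ.support f) ν ∧
      ∫ y, S.app μ.support f y ∂ν = 0) :
    AllMom ν ∧ ∀ A : ℂ[X][X], (∀ ξ, act A (cf μ) ξ = 0) → ∀ ξ, act A (cf ν) ξ = 0 := by
  have hνm : AllMom ν := allMom_of_stein hμ hu hν fun f hf => (h f hf).1
  refine ⟨hνm, ?_⟩
  obtain ⟨hd, hne⟩ := natDegree_opOf S
  have hμs : μ μ.supportᶜ = 0 := Measure.measure_compl_support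
  refine transfer (contDiff_Phi hμ X 1) (contDiff_Phi hνm X 1) hne ?_ ?_ ?_
  · intro ξ
    have := act_opOf S hμ ξ
    rw [this]
    exact sum_of_stein hμ hμ hu hμs (fun f hf => hS f hf) ξ
  · intro ξ
    have := act_opOf S hνm ξ
    rw [this]
    exact sum_of_stein hμ hνm hu hν (fun f hf => (h f hf).2) ξ
  · intro A hA hA0
    by_contra hne0
    obtain ⟨S', hS', hdeg'⟩ := exists_stein hμ hc hu hne0 hA0
    have h1 : minDeg μ ≤ S'.deg := Nat.sInf_le ⟨S', hS', rfl⟩
    omega

end

end Pool.Agent.H65.ST
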