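import Mathlib
import Pool.Agent.H65.ST7
import Pool.Agent.H65.ST8
import Pool.Agent.H65.ST9
import Pool.Agent.H65.ST11
import Pool.Agent.H65.ST12

/-!
Assembly.
-/

namespace Pool.Agent.H65.ST

open MeasureTheory ProbabilityTheory Polynomial Complex Filter Topology

noncomputable section

lemma exists_gap {Q : ℂ[X]} (hQ : Q ≠ 0) (b : ℝ) :
    ∃ δ : ℝ, 0 < δ ∧ δ ≤ 1 ∧ ∀ ξ ∈ Set.Ioo b (b + δ), Q.eval (ξ : ℂ) ≠ 0 := by
  obtain ⟨m, c, δ, hc, hδ, h⟩ := poly_lower hQ b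
  refine ⟨min δ 1, lt_min hδ one_pos, min_le_right _ _, fun ξ hξ h0 => ?_⟩
  have h1 := h ξ ⟨hξ.1, hξ.2.trans_le (by have := min_le_left δ 1; linarith)⟩
  rw [h0, norm_zero] at h1
  have : 0 < c * (ξ - b) ^ m := mul_pos hc (pow_pos (by linarith [hξ.1]) m)
  linarith

lemma flat_of_left {ψ : ℝ → ℂ} (hψ : ContDiff ℝ (⊤ : ℕ∞) ψ) {b : ℝ} (hb : 0 < b)
    (h0 : ∀ ξ ∈ Set.Ioo 0 b, ψ ξ = 0) (k : ℕ) : iteratedDeriv k ψ b = 0 := by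
  have h1 : ∀ ξ ∈ Set.Ioo 0 b, iteratedDeriv k ψ ξ = 0 := by
    intro ξ hξ
    have h2 : ψ =ᶠ[𝓝 ξ] fun _ => 0 := by
      filter_upwards [isOpen_Ioo.mem_nhds hξ] with x hx
      exact h0 x hx
    rw [h2.iteratedDeriv_eq]
    rw [iteratedDeriv_const]
    split_ifs <;> rfl
  have h2 : Tendsto (iteratedDeriv k ψ) (𝓝[<] b) (𝓝 (iteratedDeriv k ψ b)) :=
    ((contDiff_iteratedDeriv hψ k).continuous.tendsto b).mono_left nhdsWithin_le_nhds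
  have h3 : Tendsto (iteratedDeriv k ψ) (𝓝[<] b) (𝓝 0) := by
    refine tendsto_const_nhds.congr' ?_
    filter_upwards [Ioo_mem_nhdsLT hb] with x hx
    exact (h1 x hx).symm
  exact tendsto_nhds_unique h2 h3

/-- from a neighbourhood of `0` to the half-line -/
theorem zero_on_pos {h : ℝ[X]} (hm : h.Monic) {d : ℕ} (hd : h.natDegree = d + 2) (hd1 : 1 ≤ d)
    {z : ℕ → ℝ → ℂ} {ψ : ℝ → ℂ} (hψ : ContDiff ℝ (⊤ : ℕ∞) ψ) {Q : ℂ[X]} (hQ : Q ≠ 0)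
    (hs : Sys h z {ξ : ℝ | Q.eval (ξ : ℂ) ≠ 0}) (hz0 : ∀ ξ : ℝ, Q.eval (ξ : ℂ) ≠ 0 → z 0 ξ = ψ ξ)
    (hq : ∀ j, ∃ (q : ℂ[X]) (A : ℂ[X][X]), ∀ ξ : ℝ, Q.eval (ξ : ℂ) ≠ 0 →
      q.eval (ξ : ℂ) ≠ 0 ∧ q.eval (ξ : ℂ) * z j ξ = act A ψ ξ)
    {ε : ℝ} (hε : 0 < ε) (h0 : ∀ ξ ∈ Set.Ioo 0 ε, ψ ξ = 0) : ∀ ξ : ℝ, 0 < ξ → ψ ξ = 0 := by
  by_contra hcon
  push Not at hcon
  obtain ⟨ξ₀, hξ₀, hne⟩ := hcon
  set S : Set ℝ := {ξ | 0 < ξ ∧ ψ ξ ≠ 0} with hS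
  have hne' : S.Nonempty := ⟨ξ₀, hξ₀, hne⟩
  have hbdd : BddBelow S := ⟨0, fun x hx => hx.1.le⟩
  set b := sInf S with hb
  have hbε : ε ≤ b := by
    refine le_csInf hne' fun x hx => ?_
    by_contra hlt
    push Not at hlt
    exact hx.2 (h0 x ⟨hx.1, hlt⟩)
  have hb0 : 0 < b := hε.trans_le hbε
  have hzero : ∀ ξ ∈ Set.Ioo 0 b, ψ ξ = 0 := by
    intro ξ hξ
    by_contra hne2
    exact absurd (csInf_le hbdd (show ξ ∈ S from ⟨hξ.1, hne2⟩)) (not_le.mpr hξ.2)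
  have hflat := flat_of_left hψ hb0 hzero
  obtain ⟨δ, hδ, hδ1, hgap⟩ := exists_gap hQ b
  have hprop := propagate hm hd hd1 hψ hb0 hδ hδ1
    (z := z) ⟨fun ξ hξ => hs.ibp ξ (hgap ξ hξ), fun ξ hξ => hs.der ξ (hgap ξ hξ)⟩
    (fun ξ hξ => hz0 ξ (hgap ξ hξ)) (fun j => by
      obtain ⟨q, A, hqA⟩ := hq j
      refine ⟨q, A, ?_, fun ξ hξ => (hqA ξ (hgap ξ hξ)).2⟩
      rintro rfl
      have := (hqA (b + δ / 2) (hgap (b + δ / 2) ⟨by linarith, by linarith⟩)).1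
      simp at this) hflat
  have hle : b + δ ≤ b := by
    refine le_csInf hne' fun x hx => ?_
    by_contra hlt
    push Not at hlt
    apply hx.2
    rcases lt_trichotomy x b with h1 | h1 | h1
    · exact hzero x ⟨hx.1, h1⟩
    · have := hflat 0
      rw [iteratedDeriv_zero] at this
      rw [h1, this]
    · exact hprop x ⟨h1, hlt⟩
  linarith

lemma cf_neg (μ : Measure ℝ) (ξ : ℝ) : cf μ (-ξ) = (starRingEnd ℂ) (cf μ ξ) := by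
  rw [cf_eq_charFun, cf_eq_charFun, charFun_neg]

lemma cf_zero (μ : Measure ℝ) [IsProbabilityMeasure μ] : cf μ 0 = 1 := by
  rw [cf_eq_charFun]
  simp

lemma ext_of_pos {μ ν : Measure ℝ} [IsProbabilityMeasure μ] [IsProbabilityMeasure ν]
    (h : ∀ ξ : ℝ, 0 < ξ → cf ν ξ = cf μ ξ) : ν = μ := by
  apply Measure.ext_of_charFun
  ext ξ
  rw [← cf_eq_charFun, ← cf_eq_charFun]
  rcases lt_trichotomy ξ 0 with h1 | h1 | h1
  · have h2 := h (-ξ) (by linarith)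
    rw [cf_neg, cf_neg] at h2
    have := congrArg (starRingEnd ℂ) h2
    simpa using this
  · rw [h1, cf_zero, cf_zero]
  · exact h ξ h1

/-- one-function case -/
lemma first_order {ψ a : ℝ → ℂ} {K : ℝ → ℝ} (hψ : ContDiff ℝ (⊤ : ℕ∞) ψ) (h0 : ψ 0 = 0)
    (hd : ∀ ξ, deriv ψ ξ = a ξ * ψ ξ) (hK : ∀ R ξ, 0 ≤ ξ → ξ ≤ R → ‖a ξ‖ ≤ K R) :
    ∀ ξ : ℝ, 0 < ξ → ψ ξ = 0 := by
  intro ξ hξ
  have hdiff : Differentiable ℝ ψ := hψ.differentiable (by simp)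
  have h1 := energy_zero (n := 1) (v := fun _ => ψ) (v' := fun _ => deriv ψ) (b := 0) (δ := ξ + 1)
    (K := K (ξ + 1)) ((norm_nonneg _).trans (hK (ξ + 1) 0 (le_refl _) (by linarith)))
    (fun _ x _ => (hdiff x).hasDerivAt) (fun _ x hx => by
      rw [hd x, norm_mul]
      simp only [Finset.univ_unique, Fin.default_eq_zero, Fin.isValue, Finset.sum_const,
        Finset.card_singleton, one_smul]
      exact mul_le_mul_of_nonneg_right (hK _ x hx.1.le (by linarith [hx.2])) (norm_nonneg _))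
    (fun _ => by
      have := (hψ.continuous.tendsto 0).mono_left (nhdsWithin_le_nhds (s := Set.Ioi (0 : ℝ)))
      rwa [h0] at this) 0 ξ ⟨hξ, by linarith⟩
  exact h1

end

end Pool.Agent.H65.ST
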