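import Mathlib
import Pool.Agent.H65.ST13

/-!
Reduction of the theorem to the vanishing of `ψ` on the positive half-line; the cases `p = 1, 2`.
-/

namespace Pool.Agent.H65.ST

open MeasureTheory ProbabilityTheory Polynomial Complex Filter Topology

noncomputable section

/-- the Hermite polynomial with real coefficients -/
def hp (p : ℕ) : ℝ[X] := (hermite p).map (Int.castRingHom ℝ)

lemma hp_monic (p : ℕ) : (hp p).Monic := (hermite_monic p).map _

lemma hp_natDegree (p : ℕ) : (hp p).natDegree = p := by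
  unfold hp
  rw [(hermite_monic p).natDegree_map, natDegree_hermite]

lemma lawH_eq (p : ℕ) : lawH p = gam.map fun x => (hp p).eval x := by
  unfold lawH hp
  congr 1
  ext x
  rw [eval_map, aeval_def]
  rfl

lemma hp_neg_eval {p : ℕ} (he : Even p) (x : ℝ) : (hp p).eval (-x) = (hp p).eval x := by
  rw [eval_eq_sum_range, eval_eq_sum_range]
  refine Finset.sum_congr rfl fun i _ => ?_
  rcases Nat.even_or_odd i with hi | hi
  · rw [hi.neg_pow]
  · have : (hp p).coeff i = 0 := by
      unfold hp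
      rw [coeff_map, coeff_hermite_of_odd_add (he.add_odd hi)]
      simp
    rw [this]
    simp

lemma exists_lt_eval {h : ℝ[X]} (hd : 0 < h.natDegree) : ∃ a b : ℝ, h.eval a < h.eval b := by
  by_contra hcon
  push Not at hcon
  have h1 : ∀ x : ℝ, h.eval x = h.eval 0 := fun x => le_antisymm (hcon 0 x) (hcon x 0)
  have h2 : h = C (h.eval 0) := Polynomial.funext fun x => by rw [h1 x, eval_C]
  rw [h2, natDegree_C] at hd
  exact lt_irrefl _ hd

/-- the reduction -/
theorem characterises_of_zero {h : ℝ[X]} (hd : 0 < h.natDegree)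
    (key : ∀ ν : Measure ℝ, IsProbabilityMeasure ν → AllMom ν →
      (∀ A : ℂ[X][X], (∀ ξ, act A (Phi gam h 1) ξ = 0) →
        ∀ ξ, act A (cf ν - cf (gam.map fun x => h.eval x)) ξ = 0) →
      ∀ ξ : ℝ, 0 < ξ → (cf ν - cf (gam.map fun x => h.eval x)) ξ = 0)
    {S : PolyOp} (hS : S.IsStein (gam.map fun x => h.eval x))
    (hmin : S.deg = minDeg (gam.map fun x => h.eval x)) :
    S.Characterises (gam.map fun x => h.eval x) := by
  intro ν hν hsupp hT
  obtain ⟨a, b, hab⟩ := exists_lt_eval hd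
  have : IsProbabilityMeasure (gam.map fun x => h.eval x) :=
    Measure.isProbabilityMeasure_map h.continuous.measurable.aemeasurable
  have hμ : AllMom (gam.map fun x => h.eval x) := allMom_gauss.map h
  obtain ⟨hνm, hA⟩ := reduction hμ (support_convex h.continuous)
    (support_uniqueDiffOn h.continuous hab) hS hmin hsupp hT
  refine ext_of_pos fun ξ hξ => ?_
  have h1 := key ν hν hνm (fun A hA0 ξ => by
    rw [← cf_map] at hA0
    rw [act_sub_fun A (contDiff_cf hνm) (contDiff_cf hμ), hA A hA0, hA0, sub_zero]) ξ hξ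
  exact sub_eq_zero.mp h1

lemma iteratedDeriv_one' (f : ℝ → ℂ) (ξ : ℝ) : iteratedDeriv 1 f ξ = deriv f ξ := by
  rw [iteratedDeriv_one]

/-- first-order equations -/
theorem characterises_first_order {h : ℝ[X]} (hd : 0 < h.natDegree) {a b : ℂ[X]}
    (h1 : ∀ ξ : ℝ, b.eval (ξ : ℂ) * deriv (Phi gam h 1) ξ + a.eval (ξ : ℂ) * Phi gam h 1 ξ = 0)
    (hb : ∀ ξ : ℝ, 1 ≤ ‖b.eval (ξ : ℂ)‖)
    {S : PolyOp} (hS : S.IsStein (gam.map fun x => h.eval x))
    (hmin : S.deg = minDeg (gam.map fun x => h.eval x)) :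
    S.Characterises (gam.map fun x => h.eval x) := by
  refine characterises_of_zero hd ?_ hS hmin
  intro ν hν hνm hT
  have : IsProbabilityMeasure (gam.map fun x => h.eval x) :=
    Measure.isProbabilityMeasure_map h.continuous.measurable.aemeasurable
  have hμ : AllMom (gam.map fun x => h.eval x) := allMom_gauss.map h
  have h2 := hT (monomial 1 b + monomial 0 a) (fun ξ => by
    rw [act_add, act_monomial, act_monomial, iteratedDeriv_one', iteratedDeriv_zero]
    exact h1 ξ)
  set ψ := cf ν - cf (gam.map fun x => h.eval x) with hψ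
  have hsm : ContDiff ℝ (⊤ : ℕ∞) ψ := (contDiff_cf hνm).sub (contDiff_cf hμ)
  have h0 : ψ 0 = 0 := by
    rw [hψ, Pi.sub_apply, cf_zero, cf_zero, sub_self]
  have hb0 : ∀ ξ : ℝ, b.eval (ξ : ℂ) ≠ 0 := fun ξ h => by
    have := hb ξ
    rw [h, norm_zero] at this
    linarith
  choose K hK0 hK using fun R : ℝ => poly_bdd a 0 R
  refine first_order (a := fun ξ => -(a.eval (ξ : ℂ)) / b.eval (ξ : ℂ)) (K := K) hsm h0 ?_ ?_
  · intro ξ
    have h3 := h2 ξ
    rw [act_add, act_monomial, act_monomial, iteratedDeriv_one', iteratedDeriv_zero] at h3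
    rw [div_mul_eq_mul_div, eq_div_iff (hb0 ξ)]
    linear_combination h3
  · intro R ξ hξ hξR
    rw [norm_div, norm_neg]
    exact (div_le_self (norm_nonneg _) (hb ξ)).trans (hK R ξ ⟨hξ, hξR⟩)

lemma hp_one : hp 1 = X := by
  unfold hp
  rw [hermite_one]
  simp

lemma hp_two : hp 2 = X ^ 2 - 1 := by
  unfold hp
  rw [hermite_succ, hermite_one]
  simp [sq]

theorem case_one {S : PolyOp} (hS : S.IsStein (lawH 1)) (hmin : S.deg = minDeg (lawH 1)) :
    S.Characterises (lawH 1) := by
  rw [lawH_eq, hp_one] at *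
  refine characterises_first_order (h := X) (by simp) (a := X) (b := 1) ?_ (by simp) hS hmin
  intro ξ
  have hs := sys_Phi X (by simp)
  have h1 := hs.ibp ξ (Set.mem_univ ξ) 0
  have h2 := (hs.der ξ (Set.mem_univ ξ) 0).deriv
  simp only [natDegree_X, Finset.sum_range_succ, Finset.sum_range_zero, coeff_X, pow_zero, zero_add,
    pow_one] at h1 h2
  rw [h2, h1]
  simp
  linear_combination (ξ * Phi gam X 1 ξ) * I_mul_I

theorem case_two {S : PolyOp} (hS : S.IsStein (lawH 2)) (hmin : S.deg = minDeg (lawH 2)) :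
    S.Characterises (lawH 2) := by
  rw [lawH_eq, hp_two] at *
  have hnd : (X ^ 2 - 1 : ℝ[X]).natDegree = 2 := by
    have := hp_natDegree 2
    rwa [hp_two] at this
  refine characterises_first_order (h := X ^ 2 - 1) (by rw [hnd]; norm_num) (a := C 2 * X)
    (b := 1 - C (2 * I) * X) ?_ ?_ hS hmin
  · intro ξ
    have hs := sys_Phi (X ^ 2 - 1) (by rw [hnd]; norm_num)
    have h1 := hs.ibp ξ (Set.mem_univ ξ) 1
    have h2 := (hs.der ξ (Set.mem_univ ξ) 0).deriv
    rw [hnd] at h1 h2
    simp only [Finset.sum_range_succ, Finset.sum_range_zero, coeff_sub, coeff_X_pow, coeff_one] at h1 h2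
    norm_num at h1 h2
    rw [h2]
    simp only [eval_sub, eval_one, eval_mul, eval_C, eval_X]
    linear_combination I * h1 + (2 * ξ * Phi gam (X ^ 2 - 1) 1 ξ) * I_mul_I
  · intro ξ
    have h1 : ‖(1 - C (2 * I) * X : ℂ[X]).eval (ξ : ℂ)‖ ≥ |((1 - C (2 * I) * X : ℂ[X]).eval (ξ : ℂ)).re| :=
      abs_re_le_norm _
    have h2 : ((1 - C (2 * I) * X : ℂ[X]).eval (ξ : ℂ)).re = 1 := by simp
    rw [h2] at h1
    simpa using h1

end

end Pool.Agent.H65.ST
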