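import Mathlib
import Pool.Agent.H65.STSys
import Pool.Agent.H65.ST10

/-!
The energy estimate at `0`: nodes, the rescaled family.
-/

namespace Pool.Agent.H65.ST

open Polynomial Complex Filter Topology

noncomputable section

lemma exists_nodes {d : ℕ} (hd : 1 ≤ d) {c : ℂ} (hc : c ≠ 0) :
    ∃ ζ : Fin (d + 1) → ℂ, Function.Injective ζ ∧ ∀ s, ζ s = 0 ∨ ζ s ^ d = c := by
  classical
  set P : ℂ[X] := X ^ d - C c with hP
  have hd0 : d ≠ 0 := by omega
  have hsep : P.Separable := separable_X_pow_sub_C c (by exact_mod_cast hd0) hc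
  have hdeg : P.natDegree = d := natDegree_X_pow_sub_C
  have hP0 : P ≠ 0 := hsep.ne_zero
  have hcard : P.roots.toFinset.card = d := by
    rw [Multiset.toFinset_card_of_nodup (nodup_roots hsep), ← hdeg]
    exact (splits_iff_card_roots.mp (IsAlgClosed.splits P))
  have hmem : ∀ z, z ∈ P.roots.toFinset → z ^ d = c := by
    intro z hz
    rw [Multiset.mem_toFinset, mem_roots hP0, IsRoot.def, hP] at hz
    simpa [sub_eq_zero] using hz
  have h0 : (0 : ℂ) ∉ P.roots.toFinset := by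
    intro h
    have := hmem 0 h
    rw [zero_pow hd0] at this
    exact hc this.symm
  have hS : (insert (0 : ℂ) P.roots.toFinset).card = d + 1 := by
    rw [Finset.card_insert_of_notMem h0, hcard]
  let e := (insert (0 : ℂ) P.roots.toFinset).equivFinOfCardEq hS
  refine ⟨fun s => (e.symm s : ℂ), ?_, ?_⟩
  · intro s t hst
    exact e.symm.injective (Subtype.ext hst)
  · intro s
    have := (e.symm s).2
    rw [Finset.mem_insert] at this
    rcases this with h | h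
    · exact Or.inl h
    · exact Or.inr (hmem _ h)

/-- the number `m₀` -/
lemma exists_m0 {d : ℕ} (hd : 1 ≤ d) {ζ : Fin (d + 1) → ℂ}
    (hζ : ∀ s, ζ s = 0 ∨ ζ s ^ d = -I / ((d : ℂ) + 2)) :
    ∃ m : ℝ, 0 ≤ m ∧ (∀ s, (ζ s ^ 2).re ≤ m) ∧ ((d : ℝ) + 2) ^ 2 * m ^ d < 1 := by
  have hd0 : d ≠ 0 := by omega
  have key : ∀ s, ((d : ℝ) + 2) ^ 2 * (max 0 (ζ s ^ 2).re) ^ d < 1 := by
    intro s
    rcases le_or_gt (ζ s ^ 2).re 0 with h | h
    · rw [max_eq_left h, zero_pow hd0, mul_zero]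
      exact one_pos
    · rw [max_eq_right h.le]
      rcases hζ s with h0 | h0
      · rw [h0] at h
        simp at h
      · have h1 : ‖ζ s‖ ^ d = 1 / ((d : ℝ) + 2) := by
          rw [← norm_pow, h0, norm_div, norm_neg, norm_I]
          congr 1
          have : ((d : ℂ) + 2) = (((d : ℝ) + 2 : ℝ) : ℂ) := by push_cast; rfl
          rw [this, norm_real, Real.norm_of_nonneg (by positivity)]
        have h2 : (ζ s ^ 2).re < ‖ζ s ^ 2‖ := by
          refine lt_of_le_of_ne (re_le_norm _) fun heq => ?_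
          -- `ζ²` is a nonnegative real, so `ζ` is real
          have h3 : (ζ s ^ 2).im = 0 := by
            have h4 := Complex.sq_norm (ζ s ^ 2)
            rw [normSq_apply, ← heq] at h4
            nlinarith
          have h5 : (ζ s).re * (ζ s).im = 0 := by
            have : (ζ s ^ 2).im = 2 * ((ζ s).re * (ζ s).im) := by
              rw [sq, mul_im]; ring
            linarith
          have h6 : (ζ s ^ 2).re = (ζ s).re ^ 2 - (ζ s).im ^ 2 := by
            rw [sq, mul_re]; ring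
          have h7 : (ζ s).im = 0 := by
            rcases mul_eq_zero.mp h5 with h8 | h8
            · exfalso
              rw [h6, h8] at h
              nlinarith [sq_nonneg (ζ s).im]
            · exact h8
          have h8 : ζ s = ((ζ s).re : ℂ) := by
            apply Complex.ext <;> simp [h7]
          have h9 : (ζ s ^ d).im = 0 := by
            rw [h8, ← ofReal_pow, ofReal_im]
          rw [h0] at h9
          have h10 : (-I / ((d : ℂ) + 2)) = ((-1 / ((d : ℝ) + 2) : ℝ) : ℂ) * I := by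
            push_cast; ring
          have h11 : ((((-1 / ((d : ℝ) + 2) : ℝ) : ℂ) * I)).im = -1 / ((d : ℝ) + 2) := by
            rw [im_ofReal_mul, I_im, mul_one]
          rw [h10, h11] at h9
          have h12 : (0 : ℝ) < 1 / ((d : ℝ) + 2) := by positivity
          have h13 : -1 / ((d : ℝ) + 2) = -(1 / ((d : ℝ) + 2)) := by ring
          linarith
        have h3 : ‖ζ s ^ 2‖ ^ d = (1 / ((d : ℝ) + 2)) ^ 2 := by
          rw [norm_pow, ← pow_mul, mul_comm, pow_mul, h1]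
        have h4 : (ζ s ^ 2).re ^ d < (1 / ((d : ℝ) + 2)) ^ 2 := by
          rw [← h3]
          exact pow_lt_pow_left₀ h2 h.le hd0
        have h5 : (0 : ℝ) < (d : ℝ) + 2 := by positivity
        calc ((d : ℝ) + 2) ^ 2 * (ζ s ^ 2).re ^ d < ((d : ℝ) + 2) ^ 2 * (1 / ((d : ℝ) + 2)) ^ 2 :=
              mul_lt_mul_of_pos_left h4 (by positivity)
          _ = 1 := by field_simp
  obtain ⟨s, -, hs⟩ := Finset.exists_max_image Finset.univ (fun s => max 0 (ζ s ^ 2).re)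
    ⟨0, Finset.mem_univ _⟩
  exact ⟨max 0 (ζ s ^ 2).re, le_max_left _ _,
    fun t => (le_max_right _ _).trans (hs t (Finset.mem_univ t)), key s⟩

lemma exists_inverse {d : ℕ} {ζ : Fin (d + 1) → ℂ} (hζ : Function.Injective ζ) :
    ∃ B : Fin (d + 1) → Fin (d + 1) → ℂ,
      (∀ j k : Fin (d + 1), ∑ s, B j s * ζ s ^ (k : ℕ) = if j = k then 1 else 0) ∧
      (∀ t s : Fin (d + 1), ∑ j : Fin (d + 1), ζ t ^ (j : ℕ) * B j s = if t = s then 1 else 0) := by
  have hdet : (Matrix.vandermonde ζ).det ≠ 0 := Matrix.det_vandermonde_ne_zero_iff.mpr hζ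
  have hu : IsUnit (Matrix.vandermonde ζ).det := isUnit_iff_ne_zero.mpr hdet
  refine ⟨fun j s => (Matrix.vandermonde ζ)⁻¹ j s, ?_, ?_⟩
  · intro j k
    have h1 := congrFun (congrFun (Matrix.nonsing_inv_mul (Matrix.vandermonde ζ) hu) j) k
    rw [Matrix.mul_apply, Matrix.one_apply] at h1
    simpa [Matrix.vandermonde_apply] using h1
  · intro t s
    have h1 := congrFun (congrFun (Matrix.mul_nonsing_inv (Matrix.vandermonde ζ) hu) t) s
    rw [Matrix.mul_apply, Matrix.one_apply] at h1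
    simpa [Matrix.vandermonde_apply] using h1

/-- the rescaled family -/
def wf (d : ℕ) (z : ℕ → ℝ → ℂ) (j : ℕ) (τ : ℝ) : ℂ := (τ : ℂ) ^ j * z j (τ ^ d)

/-- the sum of the norms of the first members -/
def WS (d : ℕ) (z : ℕ → ℝ → ℂ) (n : ℕ) (τ : ℝ) : ℝ := ∑ i ∈ Finset.range n, ‖wf d z i τ‖

lemma WS_nonneg (d : ℕ) (z : ℕ → ℝ → ℂ) (n : ℕ) (τ : ℝ) : 0 ≤ WS d z n τ :=
  Finset.sum_nonneg fun _ _ => norm_nonneg _

lemma wf_le_WS {d : ℕ} {z : ℕ → ℝ → ℂ} {n i : ℕ} {τ : ℝ} (hi : i < n) : ‖wf d z i τ‖ ≤ WS d z n τ :=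
  Finset.single_le_sum (f := fun i => ‖wf d z i τ‖) (fun _ _ => norm_nonneg _) (Finset.mem_range.mpr hi)

lemma WS_mono {d : ℕ} {z : ℕ → ℝ → ℂ} {n m : ℕ} {τ : ℝ} (h : n ≤ m) : WS d z n τ ≤ WS d z m τ :=
  Finset.sum_le_sum_of_subset_of_nonneg (Finset.range_subset_range.mpr h) fun _ _ _ => norm_nonneg _

/-- a term with a surplus power of `τ` -/
lemma term_bound {d : ℕ} {z : ℕ → ℝ → ℂ} {n i m : ℕ} {τ : ℝ} (hτ : 0 < τ) (hτ1 : τ ≤ 1) (hi : i < n)
    (hm : i < m) : ‖(τ : ℂ) ^ m * z i (τ ^ d)‖ ≤ τ * WS d z n τ := by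
  obtain ⟨k, rfl⟩ : ∃ k, m = i + 1 + k := ⟨m - (i + 1), by omega⟩
  have h1 : (τ : ℂ) ^ (i + 1 + k) * z i (τ ^ d) = (τ : ℂ) ^ k * ((τ : ℂ) * wf d z i τ) := by
    unfold wf; ring
  rw [h1, norm_mul, norm_mul, norm_pow, norm_real, Real.norm_of_nonneg hτ.le]
  have h2 : τ ^ k ≤ 1 := pow_le_one₀ hτ.le hτ1
  have h3 : ‖wf d z i τ‖ ≤ WS d z n τ := wf_le_WS hi
  calc τ ^ k * (τ * ‖wf d z i τ‖) ≤ 1 * (τ * ‖wf d z i τ‖) :=
        mul_le_mul_of_nonneg_right h2 (by positivity)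
    _ ≤ _ := by rw [one_mul]; exact mul_le_mul_of_nonneg_left h3 hτ.le

lemma w_rec {h : ℝ[X]} (hm : h.Monic) {d : ℕ} (hd : h.natDegree = d + 2) {z : ℕ → ℝ → ℂ} {U : Set ℝ}
    (hs : Sys h z U) (j : ℕ) : ∃ K : ℝ, 0 ≤ K ∧ ∀ τ : ℝ, 0 < τ → τ ≤ 1 → τ ^ d ∈ U →
      ‖wf d z (j + (d + 1)) τ - (-I / ((d : ℂ) + 2)) * wf d z (j + 1) τ‖ ≤
        K * τ * WS d z (j + (d + 1)) τ := by
  have hp : (0 : ℝ) < (d : ℝ) + 2 := by positivity
  refine ⟨(1 / ((d : ℝ) + 2)) * (j + ∑ l ∈ Finset.range (d + 1), |((l : ℝ) + 1) * h.coeff (l + 1)|),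
    ?_, ?_⟩
  · have : 0 ≤ ∑ l ∈ Finset.range (d + 1), |((l : ℝ) + 1) * h.coeff (l + 1)| :=
      Finset.sum_nonneg fun _ _ => abs_nonneg _
    positivity
  intro τ hτ hτ1 hU
  have h3 := hs.ibp (τ ^ d) hU j
  rw [hd, Finset.sum_range_succ] at h3
  have hlead : h.coeff (d + 1 + 1) = 1 := by
    have := hm.coeff_natDegree
    rwa [hd] at this
  rw [hlead] at h3
  have hpC : ((d : ℂ) + 2) ≠ 0 := by
    have : ((d : ℂ) + 2) = (((d : ℝ) + 2 : ℝ) : ℂ) := by push_cast; rfl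
    rw [this]
    exact_mod_cast hp.ne'
  set S : ℂ := ∑ l ∈ Finset.range (d + 1), ((((l : ℝ) + 1) * h.coeff (l + 1) : ℝ) : ℂ) *
    ((τ : ℂ) ^ (d + j + 1) * z (j + l) (τ ^ d)) with hS
  have h4 : wf d z (j + (d + 1)) τ - (-I / ((d : ℂ) + 2)) * wf d z (j + 1) τ =
      (I / ((d : ℂ) + 2)) * (j * ((τ : ℂ) ^ (j + 1) * z (j - 1) (τ ^ d)) + I * S) := by
    unfold wf
    rw [h3, hS]
    have e1 : ∑ l ∈ Finset.range (d + 1), ((((l : ℝ) + 1) * h.coeff (l + 1) : ℝ) : ℂ) *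
        ((τ : ℂ) ^ (d + j + 1) * z (j + l) (τ ^ d)) = (τ : ℂ) ^ (d + j + 1) *
        ∑ l ∈ Finset.range (d + 1), ((((l : ℝ) + 1) * h.coeff (l + 1) : ℝ) : ℂ) * z (j + l) (τ ^ d) := by
      rw [Finset.mul_sum]
      refine Finset.sum_congr rfl fun l _ => ?_
      ring
    rw [e1]
    push_cast
    have hI : I * I = -1 := I_mul_I
    field_simp
    ring_nf
    rw [I_sq]
    ring
  rw [h4, norm_mul, norm_div, norm_I]
  have h5 : ‖((d : ℂ) + 2)‖ = (d : ℝ) + 2 := by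
    have : ((d : ℂ) + 2) = (((d : ℝ) + 2 : ℝ) : ℂ) := by push_cast; rfl
    rw [this, norm_real, Real.norm_of_nonneg hp.le]
  rw [h5]
  have h6 : ‖(j : ℂ) * ((τ : ℂ) ^ (j + 1) * z (j - 1) (τ ^ d)) + I * S‖ ≤
      (j + ∑ l ∈ Finset.range (d + 1), |((l : ℝ) + 1) * h.coeff (l + 1)|) * (τ * WS d z (j + (d + 1)) τ) := by
    refine (norm_add_le _ _).trans ?_
    rw [add_mul]
    refine add_le_add ?_ ?_
    · rw [norm_mul, norm_natCast]
      rcases Nat.eq_zero_or_pos j with rfl | hj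
      · simp
      · exact mul_le_mul_of_nonneg_left (term_bound hτ hτ1 (by omega) (by omega)) (Nat.cast_nonneg' j)
    · rw [norm_mul, norm_I, one_mul, hS]
      refine (norm_sum_le _ _).trans ?_
      rw [Finset.sum_mul]
      refine Finset.sum_le_sum fun l hl => ?_
      have := Finset.mem_range.mp hl
      rw [norm_mul, norm_real, Real.norm_eq_abs]
      exact mul_le_mul_of_nonneg_left (term_bound hτ hτ1 (by omega) (by omega)) (abs_nonneg _)
  calc _ ≤ (1 / ((d : ℝ) + 2)) * ((j + ∑ l ∈ Finset.range (d + 1), |((l : ℝ) + 1) * h.coeff (l + 1)|) *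
        (τ * WS d z (j + (d + 1)) τ)) := mul_le_mul_of_nonneg_left h6 (by positivity)
    _ = _ := by ring

lemma w_der {h : ℝ[X]} {d : ℕ} (hd : h.natDegree = d + 2) (hd1 : 1 ≤ d)
    {z : ℕ → ℝ → ℂ} {U : Set ℝ}
    (hs : Sys h z U) (j : ℕ) : ∃ (K : ℝ) (w' : ℝ → ℂ), 0 ≤ K ∧ ∀ τ : ℝ, 0 < τ → τ ≤ 1 → τ ^ d ∈ U →
      HasDerivAt (wf d z j) (w' τ) τ ∧
      ‖(τ : ℂ) ^ 3 * w' τ - ((d : ℂ) / ((d : ℂ) + 2)) * wf d z (j + 2) τ‖ ≤
        K * τ * WS d z (j + (d + 2)) τ := by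
  have hp : (0 : ℝ) < (d : ℝ) + 2 := by positivity
  have hpC : ((d : ℂ) + 2) ≠ 0 := by
    have : ((d : ℂ) + 2) = (((d : ℝ) + 2 : ℝ) : ℂ) := by push_cast; rfl
    rw [this]
    exact_mod_cast hp.ne'
  set D : ℝ → ℂ := fun ξ => I * ∑ l ∈ Finset.range (h.natDegree + 1), (h.coeff l : ℂ) * z (j + l) ξ
  refine ⟨|(j : ℝ) - d / (d + 2) * (j + 1)| + (d / ((d : ℝ) + 2)) *
      ∑ l ∈ Finset.range (d + 2), |((d : ℝ) + 2 - l) * h.coeff l|,
    fun τ => (j : ℂ) * (τ : ℂ) ^ (j - 1) * z j (τ ^ d) + (τ : ℂ) ^ j * ((d * τ ^ (d - 1) : ℝ) • D (τ ^ d)), ?_, ?_⟩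
  · have : 0 ≤ ∑ l ∈ Finset.range (d + 2), |((d : ℝ) + 2 - l) * h.coeff l| :=
      Finset.sum_nonneg fun _ _ => abs_nonneg _
    positivity
  intro τ hτ hτ1 hU
  constructor
  · have h1 : HasDerivAt (fun τ : ℝ => (τ : ℂ) ^ j) ((j : ℂ) * (τ : ℂ) ^ (j - 1)) τ := by
      have := (hasDerivAt_pow j (τ : ℂ)).comp_ofReal
      simpa using this
    have h2 : HasDerivAt (fun τ : ℝ => z j (τ ^ d)) ((d * τ ^ (d - 1) : ℝ) • D (τ ^ d)) τ := by
      have := (hs.der (τ ^ d) hU j).scomp τ (hasDerivAt_pow d τ)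
      exact this
    exact h1.mul h2
  · -- the formula for `ξ z_j'`
    have h3 := hs.ibp (τ ^ d) hU (j + 1)
    rw [hd] at h3
    simp only [Nat.add_sub_cancel] at h3
    set S : ℂ := ∑ l ∈ Finset.range (d + 2), ((((d : ℝ) + 2 - l) * h.coeff l : ℝ) : ℂ) *
      z (j + l) (τ ^ d) with hS
    have h4 : ((d : ℂ) + 2) * (((τ ^ d : ℝ) : ℂ) * D (τ ^ d)) =
        z (j + 2) (τ ^ d) - (j + 1) * z j (τ ^ d) + I * ((τ ^ d : ℝ) : ℂ) * S := by
      have e1 : ((d : ℂ) + 2) * ∑ l ∈ Finset.range (h.natDegree + 1), (h.coeff l : ℂ) * z (j + l) (τ ^ d) =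
          (∑ l ∈ Finset.range (d + 2), ((((l : ℝ) + 1) * h.coeff (l + 1) : ℝ) : ℂ) * z (j + 1 + l) (τ ^ d))
          + S := by
        rw [hd]
        have e2 : S = ∑ l ∈ Finset.range (d + 2 + 1), ((((d : ℝ) + 2 - l) * h.coeff l : ℝ) : ℂ) *
            z (j + l) (τ ^ d) := by
          rw [Finset.sum_range_succ _ (d + 2), hS]
          push_cast
          ring
        have e3 : (∑ l ∈ Finset.range (d + 2), ((((l : ℝ) + 1) * h.coeff (l + 1) : ℝ) : ℂ) *
            z (j + 1 + l) (τ ^ d)) = ∑ l ∈ Finset.range (d + 2 + 1), (((l : ℝ) * h.coeff l : ℝ) : ℂ) *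
            z (j + l) (τ ^ d) := by
          rw [Finset.sum_range_succ' _ (d + 2)]
          simp only [Nat.cast_zero, zero_mul, ofReal_zero, add_zero]
          refine Finset.sum_congr rfl fun l _ => ?_
          rw [show j + 1 + l = j + (l + 1) by ring]
          push_cast
          ring
        rw [e2, e3, ← Finset.sum_add_distrib, Finset.mul_sum]
        refine Finset.sum_congr rfl fun l _ => ?_
        push_cast
        ring
      calc ((d : ℂ) + 2) * (((τ ^ d : ℝ) : ℂ) * D (τ ^ d))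
          = I * ((τ ^ d : ℝ) : ℂ) * (((d : ℂ) + 2) *
            ∑ l ∈ Finset.range (h.natDegree + 1), (h.coeff l : ℂ) * z (j + l) (τ ^ d)) := by
            simp only [D]; ring
        _ = _ := by
            rw [e1]
            have e5 : z (j + 2) (τ ^ d) = z (j + 1 + 1) (τ ^ d) := rfl
            rw [e5, h3]
            push_cast
            ring
    have h5 : (τ : ℂ) ^ 3 * ((j : ℂ) * (τ : ℂ) ^ (j - 1) * z j (τ ^ d) +
        (τ : ℂ) ^ j * ((d * τ ^ (d - 1) : ℝ) • D (τ ^ d))) -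
        ((d : ℂ) / ((d : ℂ) + 2)) * wf d z (j + 2) τ =
        ((((j : ℝ) - d / (d + 2) * (j + 1) : ℝ)) : ℂ) * ((τ : ℂ) ^ (j + 2) * z j (τ ^ d)) +
        ((d : ℂ) / ((d : ℂ) + 2)) * (I * ∑ l ∈ Finset.range (d + 2),
          ((((d : ℝ) + 2 - l) * h.coeff l : ℝ) : ℂ) * ((τ : ℂ) ^ (d + j + 2) * z (j + l) (τ ^ d))) := by
      have e1 : ∑ l ∈ Finset.range (d + 2),
          ((((d : ℝ) + 2 - l) * h.coeff l : ℝ) : ℂ) * ((τ : ℂ) ^ (d + j + 2) * z (j + l) (τ ^ d)) =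
          (τ : ℂ) ^ (d + j + 2) * S := by
        rw [hS, Finset.mul_sum]
        refine Finset.sum_congr rfl fun l _ => ?_
        ring
      have e2 : (τ : ℂ) ^ 3 * ((j : ℂ) * (τ : ℂ) ^ (j - 1) * z j (τ ^ d)) =
          j * ((τ : ℂ) ^ (j + 2) * z j (τ ^ d)) := by
        rcases Nat.eq_zero_or_pos j with rfl | hj
        · simp
        · obtain ⟨i, rfl⟩ : ∃ i, j = i + 1 := ⟨j - 1, by omega⟩
          simp only [Nat.add_sub_cancel]
          ring
      have e3 : (τ : ℂ) ^ 3 * ((τ : ℂ) ^ j * ((d * τ ^ (d - 1) : ℝ) • D (τ ^ d))) =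
          (d / ((d : ℂ) + 2)) * (τ : ℂ) ^ (j + 2) * (((d : ℂ) + 2) * (((τ ^ d : ℝ) : ℂ) * D (τ ^ d))) := by
        obtain ⟨i, rfl⟩ : ∃ i, d = i + 1 := ⟨d - 1, by omega⟩
        simp only [Nat.add_sub_cancel, real_smul]
        push_cast
        push_cast at hpC
        field_simp
        ring
      rw [mul_add, e2, e3, h4, e1]
      unfold wf
      push_cast
      field_simp
      ring
    rw [h5]
    refine (norm_add_le _ _).trans ?_
    rw [add_mul, add_mul]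
    refine add_le_add ?_ ?_
    · rw [norm_mul, norm_real, Real.norm_eq_abs, mul_assoc]
      exact mul_le_mul_of_nonneg_left (term_bound hτ hτ1 (by omega) (by omega)) (abs_nonneg _)
    · have h6 : ‖((d : ℂ) / ((d : ℂ) + 2))‖ = d / ((d : ℝ) + 2) := by
        have : ((d : ℂ) / ((d : ℂ) + 2)) = (((d / ((d : ℝ) + 2)) : ℝ) : ℂ) := by push_cast; rfl
        rw [this, norm_real, Real.norm_of_nonneg (by positivity)]
      rw [norm_mul, norm_mul, norm_I, one_mul, h6, mul_assoc, mul_assoc]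
      refine mul_le_mul_of_nonneg_left ?_ (by positivity)
      refine (norm_sum_le _ _).trans ?_
      rw [Finset.sum_mul]
      refine Finset.sum_le_sum fun l hl => ?_
      have := Finset.mem_range.mp hl
      rw [norm_mul, norm_real, Real.norm_eq_abs]
      exact mul_le_mul_of_nonneg_left (term_bound hτ hτ1 (by omega) (by omega)) (abs_nonneg _)

end

end Pool.Agent.H65.ST
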