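import Mathlib
import Pool.Agent.H65.ST15

/-!
The energy estimate at `0`: conclusion.
-/

namespace Pool.Agent.H65.ST

open Polynomial Complex Filter Topology

noncomputable section

lemma tendsto_aux (C : ℝ) {a : ℝ} (ha : 0 < a) (b : ℝ) (N : ℕ) :
    Tendsto (fun τ : ℝ => C * (τ⁻¹) ^ N * Real.exp (-(a * (τ⁻¹) ^ 2) + b * τ⁻¹)) (𝓝[>] 0) (𝓝 0) := by
  have h1 : Tendsto (fun x : ℝ => C * x ^ N * Real.exp (-(a * x ^ 2) + b * x)) atTop (𝓝 0) := by
    have h2 : Tendsto (fun x : ℝ => |C| * (x ^ N * Real.exp (-x))) atTop (𝓝 0) := by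
      have := (Real.tendsto_pow_mul_exp_neg_atTop_nhds_zero N).const_mul |C|
      simpa using this
    refine squeeze_zero_norm' ?_ h2
    filter_upwards [eventually_ge_atTop ((b + 1) / a), eventually_ge_atTop 0] with x hx hx0
    rw [norm_mul, norm_mul, Real.norm_eq_abs, Real.norm_of_nonneg (pow_nonneg hx0 N),
      Real.norm_of_nonneg (Real.exp_pos _).le, mul_assoc]
    refine mul_le_mul_of_nonneg_left (mul_le_mul_of_nonneg_left (Real.exp_le_exp.mpr ?_)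
      (pow_nonneg hx0 N)) (abs_nonneg C)
    rw [div_le_iff₀ ha] at hx
    nlinarith
  exact h1.comp tendsto_inv_nhdsGT_zero

lemma SF_tendsto {d : ℕ} {θ : ℝ} {f : ℝ → ℂ} (hf : SF d θ f) {m b : ℝ} (hm : m < d * θ) (j : ℕ) :
    Tendsto (fun τ : ℝ => ((τ : ℂ) ^ j * f (τ ^ d)) * ((Real.exp (m * (τ⁻¹) ^ 2 + b * τ⁻¹) : ℝ) : ℂ))
      (𝓝[>] 0) (𝓝 0) := by
  obtain ⟨C, τ₀, N, hC, hτ₀, h⟩ := hf
  refine squeeze_zero_norm' ?_ (tendsto_aux C (a := d * θ - m) (by linarith) b N)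
  filter_upwards [Ioo_mem_nhdsGT (show (0 : ℝ) < min τ₀ 1 from lt_min hτ₀ one_pos)] with τ hτ
  have hτ0 := hτ.1
  have hτ1 : τ ≤ 1 := (hτ.2.trans_le (min_le_right _ _)).le
  have e1 := h τ ⟨hτ0, hτ.2.trans_le (min_le_left _ _)⟩
  rw [norm_mul, norm_mul, norm_pow, norm_real, norm_real, Real.norm_of_nonneg hτ0.le,
    Real.norm_of_nonneg (Real.exp_pos _).le]
  have e2 : τ ^ j ≤ 1 := pow_le_one₀ hτ0.le hτ1
  calc τ ^ j * ‖f (τ ^ d)‖ * Real.exp (m * (τ⁻¹) ^ 2 + b * τ⁻¹)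
      ≤ 1 * (C * (τ⁻¹) ^ N * Real.exp (-(d * θ / τ ^ 2))) * Real.exp (m * (τ⁻¹) ^ 2 + b * τ⁻¹) := by
        gcongr
    _ = C * (τ⁻¹) ^ N * (Real.exp (-(d * θ / τ ^ 2)) * Real.exp (m * (τ⁻¹) ^ 2 + b * τ⁻¹)) := by ring
    _ = _ := by
        rw [← Real.exp_add]
        congr 2
        rw [inv_pow]
        ring

/-- **Energy estimate at `0`.** -/
theorem zero_near_zero {h : ℝ[X]} (hm : h.Monic) {d : ℕ} (hd : h.natDegree = d + 2) (hd1 : 1 ≤ d)
    {z : ℕ → ℝ → ℂ} {e : ℝ} (he : 0 < e) (hs : Sys h z (Set.Ioo 0 e))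
    (hSF : ∀ θ : ℝ, 0 < θ → ((d : ℝ) + 2) ^ (d + 2) * (2 * θ) ^ d < 1 → ∀ j, SF d θ (z j)) :
    ∃ e' : ℝ, 0 < e' ∧ ∀ ξ ∈ Set.Ioo 0 e', z 0 ξ = 0 := by
  have hp : (0 : ℝ) < (d : ℝ) + 2 := by positivity
  have hpC : ((d : ℂ) + 2) ≠ 0 := by
    have : ((d : ℂ) + 2) = (((d : ℝ) + 2 : ℝ) : ℂ) := by push_cast; rfl
    rw [this]
    exact_mod_cast hp.ne'
  set c : ℂ := -I / ((d : ℂ) + 2) with hc
  have hc0 : c ≠ 0 := div_ne_zero (neg_ne_zero.mpr I_ne_zero) hpC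
  obtain ⟨ζ, hζi, hζ⟩ := exists_nodes hd1 hc0
  obtain ⟨m, hm0, hm1, hm2⟩ := exists_m0 hd1 hζ
  obtain ⟨B, hB1, hB2⟩ := exists_inverse hζi
  choose K hK0 hK using w_rec hm hd hs
  choose L w' hL0 hL using w_der hd hd1 hs
  set τ₁ : ℝ := min 1 e with hτ₁
  have hτ₁0 : 0 < τ₁ := lt_min one_pos he
  have hin : ∀ τ ∈ Set.Ioo 0 τ₁, 0 < τ ∧ τ ≤ 1 ∧ τ ^ d ∈ Set.Ioo 0 e := by
    intro τ hτ
    have h1 : τ < 1 := hτ.2.trans_le (min_le_left _ _)
    have h2 : τ < e := hτ.2.trans_le (min_le_right _ _)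
    refine ⟨hτ.1, h1.le, pow_pos hτ.1 d, ?_⟩
    calc τ ^ d ≤ τ ^ 1 := pow_le_pow_of_le_one hτ.1.le h1.le hd1
      _ = τ := pow_one τ
      _ < e := h2
  set u : Fin (d + 1) → ℝ → ℂ := fun s τ => ∑ j : Fin (d + 1), B j s * wf d z j τ with hu
  set N : ℝ → ℝ := fun τ => ∑ s, ‖u s τ‖ with hN
  have hN0 : ∀ τ, 0 ≤ N τ := fun τ => Finset.sum_nonneg fun _ _ => norm_nonneg _
  have hζ1 : ∀ s, ‖ζ s‖ ≤ 1 := by
    intro s
    rcases hζ s with h0 | h0
    · rw [h0, norm_zero]; exact zero_le_one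
    · by_contra hcon
      push Not at hcon
      have h1 : 1 < ‖ζ s‖ ^ d := one_lt_pow₀ hcon (by omega)
      rw [← norm_pow, h0, hc, norm_div, norm_neg, norm_I] at h1
      have h2 : ‖((d : ℂ) + 2)‖ = (d : ℝ) + 2 := by
        have : ((d : ℂ) + 2) = (((d : ℝ) + 2 : ℝ) : ℂ) := by push_cast; rfl
        rw [this, norm_real, Real.norm_of_nonneg hp.le]
      rw [h2, one_lt_div hp] at h1
      have : (0 : ℝ) ≤ d := by positivity
      linarith
  have hζc : ∀ s, ζ s ^ (d + 1) = c * ζ s := by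
    intro s
    rcases hζ s with h0 | h0
    · rw [h0]; simp
    · rw [pow_succ, h0]
  -- `w_k = ∑ ζ^k u` for `k ≤ d`
  have hw : ∀ (k : Fin (d + 1)) (τ : ℝ), wf d z k τ = ∑ s, ζ s ^ (k : ℕ) * u s τ := by
    intro k τ
    have h1 : ∑ s, ζ s ^ (k : ℕ) * u s τ = ∑ j : Fin (d + 1), wf d z j τ * ∑ s, B j s * ζ s ^ (k : ℕ) := by
      rw [hu]
      simp only [Finset.mul_sum]
      rw [Finset.sum_comm]
      refine Finset.sum_congr rfl fun j _ => Finset.sum_congr rfl fun s _ => ?_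
      ring
    rw [h1]
    simp only [hB1, mul_ite, mul_one, mul_zero]
    rw [Finset.sum_ite_eq' Finset.univ k]
    simp
  have hsum_bound : ∀ (k : ℕ) (τ : ℝ), ‖∑ s, ζ s ^ k * u s τ‖ ≤ N τ := by
    intro k τ
    refine (norm_sum_le _ _).trans (Finset.sum_le_sum fun s _ => ?_)
    rw [norm_mul, norm_pow]
    calc ‖ζ s‖ ^ k * ‖u s τ‖ ≤ 1 * ‖u s τ‖ :=
          mul_le_mul_of_nonneg_right (pow_le_one₀ (norm_nonneg _) (hζ1 s)) (norm_nonneg _)
      _ = _ := one_mul _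
  -- approximation
  have happ : ∀ j : ℕ, ∃ C : ℝ, 0 ≤ C ∧ ∀ τ ∈ Set.Ioo 0 τ₁,
      ‖wf d z j τ - ∑ s, ζ s ^ j * u s τ‖ ≤ C * τ * N τ := by
    intro j
    induction j using Nat.strong_induction_on with
    | _ j ih =>
      rcases lt_or_ge j (d + 1) with hj | hj
      · refine ⟨0, le_refl _, fun τ _ => ?_⟩
        have := hw ⟨j, hj⟩ τ
        simp only at this
        rw [this, sub_self, norm_zero]
        simp
      · obtain ⟨i, rfl⟩ : ∃ i, j = i + (d + 1) := ⟨j - (d + 1), by omega⟩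
        choose! C hC0 hC using ih
        refine ⟨K i * (∑ k ∈ Finset.range (i + (d + 1)), (C k + 1)) + ‖c‖ * C (i + 1), ?_, ?_⟩
        · have h1 : 0 ≤ ∑ k ∈ Finset.range (i + (d + 1)), (C k + 1) :=
            Finset.sum_nonneg fun k hk => by
              have := hC0 k (Finset.mem_range.mp hk); linarith
          have h2 := hC0 (i + 1) (by omega)
          have h3 := hK0 i
          positivity
        · intro τ hτ
          obtain ⟨h1, h2, h3⟩ := hin τ hτ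
          have h4 := hK i τ h1 h2 h3
          have h5 : WS d z (i + (d + 1)) τ ≤ (∑ k ∈ Finset.range (i + (d + 1)), (C k + 1)) * N τ := by
            unfold WS
            rw [Finset.sum_mul]
            refine Finset.sum_le_sum fun k hk => ?_
            have e1 := hC k (Finset.mem_range.mp hk) τ hτ
            have e2 := hsum_bound k τ
            have e3 : ‖wf d z k τ‖ ≤ ‖wf d z k τ - ∑ s, ζ s ^ k * u s τ‖ + ‖∑ s, ζ s ^ k * u s τ‖ := by
              have := norm_add_le (wf d z k τ - ∑ s, ζ s ^ k * u s τ) (∑ s, ζ s ^ k * u s τ)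
              simpa using this
            have e4 : C k * τ * N τ ≤ C k * N τ := by
              have := hC0 k (Finset.mem_range.mp hk)
              have h6 : C k * τ ≤ C k * 1 := mul_le_mul_of_nonneg_left h2 this
              have := mul_le_mul_of_nonneg_right h6 (hN0 τ)
              linarith
            linarith
          have h6 : ∑ s, ζ s ^ (i + (d + 1)) * u s τ = c * ∑ s, ζ s ^ (i + 1) * u s τ := by
            rw [Finset.mul_sum]
            refine Finset.sum_congr rfl fun s _ => ?_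
            rw [pow_add, hζc, pow_succ]
            ring
          rw [h6]
          have h7 := hC (i + 1) (by omega) τ hτ
          have h8 : wf d z (i + (d + 1)) τ - c * ∑ s, ζ s ^ (i + 1) * u s τ =
              (wf d z (i + (d + 1)) τ - c * wf d z (i + 1) τ) +
              c * (wf d z (i + 1) τ - ∑ s, ζ s ^ (i + 1) * u s τ) := by ring
          rw [h8]
          refine (norm_add_le _ _).trans ?_
          rw [norm_mul]
          have h9 : K i * τ * WS d z (i + (d + 1)) τ ≤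
              K i * τ * ((∑ k ∈ Finset.range (i + (d + 1)), (C k + 1)) * N τ) :=
            mul_le_mul_of_nonneg_left h5 (mul_nonneg (hK0 i) h1.le)
          have h10 := mul_le_mul_of_nonneg_left h7 (norm_nonneg c)
          linarith
  choose C hC0 hC using happ
  have hWS : ∀ (n : ℕ), ∀ τ ∈ Set.Ioo 0 τ₁, WS d z n τ ≤ (∑ k ∈ Finset.range n, (C k + 1)) * N τ := by
    intro n τ hτ
    obtain ⟨h1, h2, h3⟩ := hin τ hτ
    unfold WS
    rw [Finset.sum_mul]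
    refine Finset.sum_le_sum fun k hk => ?_
    have e1 := hC k τ hτ
    have e2 := hsum_bound k τ
    have e3 : ‖wf d z k τ‖ ≤ ‖wf d z k τ - ∑ s, ζ s ^ k * u s τ‖ + ‖∑ s, ζ s ^ k * u s τ‖ := by
      have := norm_add_le (wf d z k τ - ∑ s, ζ s ^ k * u s τ) (∑ s, ζ s ^ k * u s τ)
      simpa using this
    have e4 : C k * τ * N τ ≤ C k * N τ := by
      have h6 : C k * τ ≤ C k * 1 := mul_le_mul_of_nonneg_left h2 (hC0 k)
      have := mul_le_mul_of_nonneg_right h6 (hN0 τ)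
      linarith
    linarith
  -- the derivative of `u`
  set u' : Fin (d + 1) → ℝ → ℂ := fun s τ => ∑ j : Fin (d + 1), B j s * w' j τ with hu'
  have hud : ∀ s, ∀ τ ∈ Set.Ioo 0 τ₁, HasDerivAt (u s) (u' s τ) τ := by
    intro s τ hτ
    obtain ⟨h1, h2, h3⟩ := hin τ hτ
    exact HasDerivAt.fun_sum fun j _ => ((hL j τ h1 h2 h3).1).const_mul (B j s)
  set a : ℂ := (d : ℂ) / ((d : ℂ) + 2) with ha
  set ar : ℝ := (d : ℝ) / ((d : ℝ) + 2) with har
  have haa : a = (ar : ℂ) := by rw [ha, har]; push_cast; rfl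
  have har0 : 0 ≤ ar := by positivity
  have hest : ∃ M : ℝ, 0 ≤ M ∧ ∀ s, ∀ τ ∈ Set.Ioo 0 τ₁,
      ‖(τ : ℂ) ^ 3 * u' s τ - a * (ζ s ^ 2 * u s τ)‖ ≤ M * τ * N τ := by
    have hper : ∀ s, ∃ M : ℝ, 0 ≤ M ∧ ∀ τ ∈ Set.Ioo 0 τ₁,
        ‖(τ : ℂ) ^ 3 * u' s τ - a * (ζ s ^ 2 * u s τ)‖ ≤ M * τ * N τ := by
      intro s
      refine ⟨∑ j : Fin (d + 1), ‖B j s‖ * (L j * (∑ k ∈ Finset.range (j + (d + 2)), (C k + 1)) +
        ar * C (j + 2)), ?_, ?_⟩
      · refine Finset.sum_nonneg fun j _ => mul_nonneg (norm_nonneg _) ?_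
        have h1 : 0 ≤ ∑ k ∈ Finset.range ((j : ℕ) + (d + 2)), (C k + 1) :=
          Finset.sum_nonneg fun k _ => by have := hC0 k; linarith
        have h2 := hC0 (j + 2)
        have h3 := hL0 j
        positivity
      · intro τ hτ
        obtain ⟨h1, h2, h3⟩ := hin τ hτ
        have h4 : (τ : ℂ) ^ 3 * u' s τ - a * (ζ s ^ 2 * u s τ) =
            ∑ j : Fin (d + 1), B j s * (((τ : ℂ) ^ 3 * w' j τ - a * wf d z (j + 2) τ) +
              a * (wf d z (j + 2) τ - ∑ t, ζ t ^ ((j : ℕ) + 2) * u t τ)) := by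
          have e1 : ζ s ^ 2 * u s τ = ∑ j : Fin (d + 1), B j s * ∑ t, ζ t ^ ((j : ℕ) + 2) * u t τ := by
            simp only [Finset.mul_sum]
            rw [Finset.sum_comm]
            have e2 : ∀ t, ∑ j : Fin (d + 1), B j s * (ζ t ^ ((j : ℕ) + 2) * u t τ) =
                (if t = s then 1 else 0) * (ζ t ^ 2 * u t τ) := by
              intro t
              rw [← hB2 t s, Finset.sum_mul]
              refine Finset.sum_congr rfl fun j _ => ?_
              ring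
            simp only [e2, ite_mul, one_mul, zero_mul]
            rw [Finset.sum_ite_eq' Finset.univ s]
            simp
          rw [e1, hu']
          simp only [Finset.mul_sum, ← Finset.sum_sub_distrib]
          refine Finset.sum_congr rfl fun j _ => ?_
          rw [mul_add, mul_sub, mul_sub, mul_sub, Finset.mul_sum, Finset.mul_sum]
          have e3 : ∑ t, a * (B j s * (ζ t ^ ((j : ℕ) + 2) * u t τ)) =
              ∑ t, B j s * (a * (ζ t ^ ((j : ℕ) + 2) * u t τ)) :=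
            Finset.sum_congr rfl fun t _ => by ring
          rw [e3]
          ring
        rw [h4]
        refine (norm_sum_le _ _).trans ?_
        rw [Finset.sum_mul, Finset.sum_mul]
        refine Finset.sum_le_sum fun j _ => ?_
        rw [norm_mul, mul_assoc, mul_assoc]
        refine mul_le_mul_of_nonneg_left ?_ (norm_nonneg _)
        refine (norm_add_le _ _).trans ?_
        rw [add_mul]
        refine add_le_add ?_ ?_
        · refine ((hL j τ h1 h2 h3).2).trans ?_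
          have := mul_le_mul_of_nonneg_left (hWS ((j : ℕ) + (d + 2)) τ hτ) (mul_nonneg (hL0 j) h1.le)
          refine this.trans (le_of_eq ?_)
          ring
        · rw [norm_mul, haa, norm_real, Real.norm_of_nonneg har0]
          have := mul_le_mul_of_nonneg_left (hC (j + 2) τ hτ) har0
          refine this.trans (le_of_eq ?_)
          ring
    choose M hM0 hM using hper
    refine ⟨∑ s, M s, Finset.sum_nonneg fun s _ => hM0 s, fun s τ hτ => ?_⟩
    refine (hM s τ hτ).trans ?_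
    have h1 : M s ≤ ∑ s, M s := Finset.single_le_sum (fun t _ => hM0 t) (Finset.mem_univ s)
    have h2 : 0 ≤ τ * N τ := mul_nonneg (hin τ hτ).1.le (hN0 τ)
    have := mul_le_mul_of_nonneg_right h1 h2
    linarith
  obtain ⟨M, hM0, hM⟩ := hest
  -- energy
  set E : ℝ → ℝ := fun τ => ∑ s, ‖u s τ‖ ^ 2 with hE
  have hE0 : ∀ τ, 0 ≤ E τ := fun τ => Finset.sum_nonneg fun _ _ => by positivity
  set E' : ℝ → ℝ := fun τ => ∑ s, 2 * inner ℝ (u s τ) (u' s τ) with hE'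
  have hEd : ∀ τ ∈ Set.Ioo 0 τ₁, HasDerivAt E (E' τ) τ := fun τ hτ =>
    HasDerivAt.fun_sum fun s _ => (hud s τ hτ).norm_sq
  set b : ℝ := 2 * M * (d + 1) with hb
  have hE'b : ∀ τ ∈ Set.Ioo 0 τ₁, τ ^ 3 * E' τ ≤ (2 * ar * m + b * τ) * E τ := by
    intro τ hτ
    obtain ⟨h1, h2, h3⟩ := hin τ hτ
    have hinner : ∀ s, τ ^ 3 * (2 * inner ℝ (u s τ) (u' s τ)) ≤
        2 * ar * m * ‖u s τ‖ ^ 2 + 2 * M * τ * N τ * ‖u s τ‖ := by
      intro s
      have e1 : τ ^ 3 * inner ℝ (u s τ) (u' s τ) = inner ℝ (u s τ) ((τ : ℂ) ^ 3 * u' s τ) := by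
        have : (τ : ℂ) ^ 3 * u' s τ = (τ ^ 3 : ℝ) • u' s τ := by
          rw [real_smul]; push_cast; ring
        rw [this, real_inner_smul_right]
      have e2 : (τ : ℂ) ^ 3 * u' s τ = a * (ζ s ^ 2 * u s τ) +
          ((τ : ℂ) ^ 3 * u' s τ - a * (ζ s ^ 2 * u s τ)) := by ring
      have e3 : inner ℝ (u s τ) (a * (ζ s ^ 2 * u s τ)) = ar * ((ζ s ^ 2).re * ‖u s τ‖ ^ 2) := by
        rw [haa]
        have : (ar : ℂ) * (ζ s ^ 2 * u s τ) = ar • (ζ s ^ 2 * u s τ) := by rw [real_smul]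
        rw [this, real_inner_smul_right, Complex.inner, Complex.sq_norm, normSq_apply]
        simp only [mul_re, mul_im, conj_re, conj_im]
        ring
      have e4 : inner ℝ (u s τ) ((τ : ℂ) ^ 3 * u' s τ - a * (ζ s ^ 2 * u s τ)) ≤
          ‖u s τ‖ * (M * τ * N τ) :=
        (real_inner_le_norm _ _).trans (mul_le_mul_of_nonneg_left (hM s τ hτ) (norm_nonneg _))
      have e5 : τ ^ 3 * inner ℝ (u s τ) (u' s τ) ≤ ar * ((ζ s ^ 2).re * ‖u s τ‖ ^ 2) +
          ‖u s τ‖ * (M * τ * N τ) := by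
        rw [e1, e2, inner_add_right, e3]
        linarith
      have e6 : ar * ((ζ s ^ 2).re * ‖u s τ‖ ^ 2) ≤ ar * (m * ‖u s τ‖ ^ 2) :=
        mul_le_mul_of_nonneg_left (mul_le_mul_of_nonneg_right (hm1 s) (by positivity)) har0
      linarith
    have h4 : τ ^ 3 * E' τ ≤ 2 * ar * m * E τ + 2 * M * τ * N τ ^ 2 := by
      rw [hE', Finset.mul_sum]
      refine (Finset.sum_le_sum fun s _ => hinner s).trans (le_of_eq ?_)
      rw [Finset.sum_add_distrib, ← Finset.mul_sum, ← Finset.mul_sum]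
      simp only [hE, hN]
      ring
    have h5 : N τ ^ 2 ≤ (d + 1) * E τ := by
      have := sq_sum_le_card_mul_sum_sq (s := Finset.univ) (f := fun s => ‖u s τ‖)
      simpa using this
    have h6 := mul_le_mul_of_nonneg_left h5 (by positivity : 0 ≤ 2 * M * τ)
    rw [hb]
    linarith
  -- monotonicity
  set G : ℝ → ℝ := fun τ => E τ * Real.exp (ar * m * (τ⁻¹) ^ 2 + b * τ⁻¹) with hG
  have hanti : AntitoneOn G (Set.Ioo 0 τ₁) := by
    refine antitoneOn_of_hasDerivWithinAt_nonpos (convex_Ioo _ _)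
      (f' := fun τ => E' τ * Real.exp (ar * m * (τ⁻¹) ^ 2 + b * τ⁻¹) +
        E τ * (Real.exp (ar * m * (τ⁻¹) ^ 2 + b * τ⁻¹) *
          (ar * m * (2 * τ⁻¹ * (-(τ ^ 2)⁻¹)) + b * (-(τ ^ 2)⁻¹)))) ?_ ?_ ?_
    · intro τ hτ
      have h1 : τ ≠ 0 := hτ.1.ne'
      refine ContinuousAt.continuousWithinAt (ContinuousAt.mul (hEd τ hτ).continuousAt ?_)
      have h2 : ContinuousAt (fun τ : ℝ => τ⁻¹) τ := continuousAt_inv₀ h1
      exact Real.continuous_exp.continuousAt.comp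
        (((h2.pow 2).const_mul (ar * m)).add (h2.const_mul b))
    · intro τ hτ
      rw [interior_Ioo] at hτ
      have h1 : τ ≠ 0 := hτ.1.ne'
      have h2 : HasDerivAt (fun τ : ℝ => τ⁻¹) (-(τ ^ 2)⁻¹) τ := hasDerivAt_inv h1
      have h3 : HasDerivAt (fun τ : ℝ => ar * m * (τ⁻¹) ^ 2 + b * τ⁻¹)
          (ar * m * (2 * τ⁻¹ * (-(τ ^ 2)⁻¹)) + b * (-(τ ^ 2)⁻¹)) τ := by
        have h4 := (h2.fun_pow 2).const_mul (ar * m)
        have h5 := h2.const_mul b
        refine (h4.add h5).congr_deriv ?_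
        simp
      exact ((hEd τ hτ).mul h3.exp).hasDerivWithinAt
    · intro τ hτ
      rw [interior_Ioo] at hτ
      have h1 : 0 < τ := hτ.1
      have h2 := hE'b τ hτ
      have h3 := Real.exp_pos (ar * m * (τ⁻¹) ^ 2 + b * τ⁻¹)
      have h4 : E' τ + E τ * (ar * m * (2 * τ⁻¹ * (-(τ ^ 2)⁻¹)) + b * (-(τ ^ 2)⁻¹)) ≤ 0 := by
        have h5 : E τ * (ar * m * (2 * τ⁻¹ * (-(τ ^ 2)⁻¹)) + b * (-(τ ^ 2)⁻¹)) =
            -((2 * ar * m + b * τ) * E τ) / τ ^ 3 := by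
          field_simp
          ring
        have h6 : E' τ ≤ (2 * ar * m + b * τ) * E τ / τ ^ 3 := by
          rw [le_div_iff₀ (by positivity)]
          linarith
        rw [h5, neg_div]
        linarith
      have h5 : E' τ * Real.exp (ar * m * (τ⁻¹) ^ 2 + b * τ⁻¹) +
        E τ * (Real.exp (ar * m * (τ⁻¹) ^ 2 + b * τ⁻¹) *
          (ar * m * (2 * τ⁻¹ * (-(τ ^ 2)⁻¹)) + b * (-(τ ^ 2)⁻¹))) =
          (E' τ + E τ * (ar * m * (2 * τ⁻¹ * (-(τ ^ 2)⁻¹)) + b * (-(τ ^ 2)⁻¹))) *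
          Real.exp (ar * m * (τ⁻¹) ^ 2 + b * τ⁻¹) := by ring
      rw [h5]
      exact mul_nonpos_of_nonpos_of_nonneg h4 h3.le
  -- the choice of `θ`
  obtain ⟨θ, hθ0, hθ1, hθ2⟩ : ∃ θ : ℝ, 0 < θ ∧ ((d : ℝ) + 2) ^ (d + 2) * (2 * θ) ^ d < 1 ∧
      m / ((d : ℝ) + 2) < 2 * θ := by
    have h1 : ((d : ℝ) + 2) ^ (d + 2) * (m / ((d : ℝ) + 2)) ^ d < 1 := by
      have : ((d : ℝ) + 2) ^ (d + 2) * (m / ((d : ℝ) + 2)) ^ d = ((d : ℝ) + 2) ^ 2 * m ^ d := by
        rw [div_pow, pow_add]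
        field_simp
      rw [this]
      exact hm2
    have h2 : Continuous (fun t : ℝ => ((d : ℝ) + 2) ^ (d + 2) * t ^ d) := by fun_prop
    have h3 : ∀ᶠ t in 𝓝 (m / ((d : ℝ) + 2)), ((d : ℝ) + 2) ^ (d + 2) * t ^ d < 1 :=
      h2.continuousAt.eventually (gt_mem_nhds h1)
    obtain ⟨δ, hδ, h4⟩ := Metric.eventually_nhds_iff.mp h3
    refine ⟨(m / ((d : ℝ) + 2) + δ / 2) / 2, by positivity, ?_, by linarith⟩
    have h5 : 2 * ((m / ((d : ℝ) + 2) + δ / 2) / 2) = m / ((d : ℝ) + 2) + δ / 2 := by ring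
    rw [h5]
    refine h4 ?_
    rw [Real.dist_eq, show m / ((d : ℝ) + 2) + δ / 2 - m / ((d : ℝ) + 2) = δ / 2 by ring,
      abs_of_pos (by positivity)]
    linarith
  have hdpos : (0 : ℝ) < d := by exact_mod_cast hd1
  have hcmp : ar * m / 2 < d * θ := by
    have h1 : ar * m = d * (m / ((d : ℝ) + 2)) := by rw [har]; ring
    rw [h1]
    have := mul_lt_mul_of_pos_left hθ2 hdpos
    linarith
  -- the limit
  have hlim : Tendsto G (𝓝[>] 0) (𝓝 0) := by
    have h1 : ∀ s, Tendsto (fun τ : ℝ => u s τ *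
        ((Real.exp (ar * m / 2 * (τ⁻¹) ^ 2 + b / 2 * τ⁻¹) : ℝ) : ℂ)) (𝓝[>] 0) (𝓝 0) := by
      intro s
      have h2 : Tendsto (fun τ : ℝ => ∑ j : Fin (d + 1), B j s * (((τ : ℂ) ^ (j : ℕ) * z j (τ ^ d)) *
          ((Real.exp (ar * m / 2 * (τ⁻¹) ^ 2 + b / 2 * τ⁻¹) : ℝ) : ℂ))) (𝓝[>] 0)
          (𝓝 (∑ j : Fin (d + 1), B j s * 0)) :=
        tendsto_finsetSum _ fun j _ =>
          (SF_tendsto (hSF θ hθ0 hθ1 j) hcmp (b := b / 2) j).const_mul (B j s)
      have h3 : (∑ j : Fin (d + 1), B j s * (0 : ℂ)) = 0 := by simp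
      rw [h3] at h2
      refine h2.congr fun τ => ?_
      rw [hu]
      simp only [wf]
      rw [Finset.sum_mul]
      refine Finset.sum_congr rfl fun j _ => ?_
      ring
    have h2 : Tendsto (fun τ : ℝ => ∑ s, ‖u s τ *
        ((Real.exp (ar * m / 2 * (τ⁻¹) ^ 2 + b / 2 * τ⁻¹) : ℝ) : ℂ)‖ ^ 2) (𝓝[>] 0)
        (𝓝 (∑ s : Fin (d + 1), ‖(0 : ℂ)‖ ^ 2)) :=
      tendsto_finsetSum _ fun s _ => ((h1 s).norm).pow 2
    have h3 : (∑ s : Fin (d + 1), ‖(0 : ℂ)‖ ^ 2) = 0 := by simp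
    rw [h3] at h2
    refine h2.congr fun τ => ?_
    rw [hG, hE]
    simp only
    rw [Finset.sum_mul]
    refine Finset.sum_congr rfl fun s _ => ?_
    rw [norm_mul, norm_real, Real.norm_of_nonneg (Real.exp_pos _).le, mul_pow, ← Real.exp_nat_mul]
    congr 2
    push_cast
    ring
  -- conclusion
  have hEz : ∀ τ ∈ Set.Ioo 0 τ₁, E τ = 0 := by
    intro τ hτ
    have h1 : G τ ≤ 0 := by
      refine ge_of_tendsto hlim ?_
      filter_upwards [Ioo_mem_nhdsGT hτ.1] with t ht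
      exact hanti ⟨ht.1, ht.2.trans hτ.2⟩ hτ ht.2.le
    have h2 := Real.exp_pos (ar * m * (τ⁻¹) ^ 2 + b * τ⁻¹)
    by_contra hne
    have h3 : 0 < E τ := lt_of_le_of_ne (hE0 τ) (Ne.symm hne)
    have := mul_pos h3 h2
    rw [hG] at h1
    linarith
  refine ⟨τ₁ ^ d, by positivity, fun ξ hξ => ?_⟩
  have hd0 : d ≠ 0 := by omega
  set τ : ℝ := ξ ^ ((d : ℝ)⁻¹) with hτdef
  have hτ0 : 0 < τ := Real.rpow_pos_of_pos hξ.1 _
  have hτd : τ ^ d = ξ := Real.rpow_inv_natCast_pow hξ.1.le hd0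
  have hτ : τ ∈ Set.Ioo 0 τ₁ := by
    refine ⟨hτ0, ?_⟩
    by_contra hcon
    push Not at hcon
    have := pow_le_pow_left₀ hτ₁0.le hcon d
    rw [hτd] at this
    linarith [hξ.2]
  have h1 := hEz τ hτ
  have h2 : ∀ s, u s τ = 0 := by
    intro s
    have h3 : ‖u s τ‖ ^ 2 ≤ E τ :=
      Finset.single_le_sum (f := fun s => ‖u s τ‖ ^ 2) (fun t _ => by positivity) (Finset.mem_univ s)
    rw [h1] at h3
    have h4 : ‖u s τ‖ = 0 := by
      have := norm_nonneg (u s τ)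
      nlinarith
    exact norm_eq_zero.mp h4
  have h3 := hw 0 τ
  simp only [h2, mul_zero, Finset.sum_const_zero] at h3
  unfold wf at h3
  rw [hτd] at h3
  simpa using h3

end

end Pool.Agent.H65.ST
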