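import Mathlib
import Pool.Agent.H65.STSys
import Pool.Agent.H65.ST1
import Pool.Agent.H65.ST2
import Pool.Agent.H65.ST10

/-!
Flatness of `ψ` at `0`.
-/

namespace Pool.Agent.H65.ST

open Polynomial Complex Filter Topology

noncomputable section

/-- `f` is `ξ^{-n}` times a function smooth up to `0`. -/
def Mer (n : ℕ) (f : ℝ → ℂ) : Prop :=
  ∃ (δ : ℝ) (g : ℝ → ℂ), 0 < δ ∧ ContDiffOn ℝ (⊤ : ℕ∞) g (Set.Ioo (-δ) δ) ∧
    ∀ ξ ∈ Set.Ioo 0 δ, (ξ : ℂ) ^ n * f ξ = g ξ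

lemma Mer.add {n : ℕ} {f₁ f₂ : ℝ → ℂ} (h₁ : Mer n f₁) (h₂ : Mer n f₂) :
    Mer n (fun ξ => f₁ ξ + f₂ ξ) := by
  obtain ⟨δ₁, g₁, hδ₁, hg₁, he₁⟩ := h₁
  obtain ⟨δ₂, g₂, hδ₂, hg₂, he₂⟩ := h₂
  have hl := min_le_left δ₁ δ₂
  have hr := min_le_right δ₁ δ₂
  refine ⟨min δ₁ δ₂, fun ξ => g₁ ξ + g₂ ξ, lt_min hδ₁ hδ₂, ?_, ?_⟩
  · exact (hg₁.mono (Set.Ioo_subset_Ioo (by linarith) hl)).add
      (hg₂.mono (Set.Ioo_subset_Ioo (by linarith) hr))
  · intro ξ hξ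
    rw [mul_add, he₁ ξ ⟨hξ.1, hξ.2.trans_le hl⟩, he₂ ξ ⟨hξ.1, hξ.2.trans_le hr⟩]

lemma Mer.const_mul {n : ℕ} {f : ℝ → ℂ} (h : Mer n f) (c : ℂ) : Mer n (fun ξ => c * f ξ) := by
  obtain ⟨δ, g, hδ, hg, he⟩ := h
  refine ⟨δ, fun ξ => c * g ξ, hδ, contDiffOn_const.mul hg, fun ξ hξ => ?_⟩
  beta_reduce
  rw [← he ξ hξ]
  ring

lemma Mer.zero (n : ℕ) : Mer n (fun _ => 0) :=
  ⟨1, fun _ => 0, one_pos, contDiffOn_const, fun ξ _ => by simp⟩

lemma Mer.sum {n : ℕ} {ι : Type*} (s : Finset ι) {f : ι → ℝ → ℂ} (h : ∀ i ∈ s, Mer n (f i)) :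
    Mer n (fun ξ => ∑ i ∈ s, f i ξ) := by
  classical
  induction s using Finset.induction_on with
  | empty => simpa using Mer.zero n
  | insert a s ha ih =>
    have h1 := h a (Finset.mem_insert_self a s)
    have h2 := ih fun i hi => h i (Finset.mem_insert_of_mem hi)
    simp only [Finset.sum_insert ha]
    exact h1.add h2

lemma Mer.congr {n : ℕ} {f₁ f₂ : ℝ → ℂ} (h : Mer n f₁) {e : ℝ} (he : 0 < e)
    (heq : ∀ ξ ∈ Set.Ioo 0 e, f₁ ξ = f₂ ξ) : Mer n f₂ := by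
  obtain ⟨δ, g, hδ, hg, hfg⟩ := h
  have hl := min_le_left δ e
  have hr := min_le_right δ e
  refine ⟨min δ e, g, lt_min hδ he, hg.mono (Set.Ioo_subset_Ioo (by linarith) hl), fun ξ hξ => ?_⟩
  rw [← heq ξ ⟨hξ.1, hξ.2.trans_le hr⟩, hfg ξ ⟨hξ.1, hξ.2.trans_le hl⟩]

lemma contDiffOn_ofReal (s : Set ℝ) : ContDiffOn ℝ (⊤ : ℕ∞) (fun ξ : ℝ => (ξ : ℂ)) s :=
  ofRealCLM.contDiff.contDiffOn

lemma Mer.mono {n m : ℕ} {f : ℝ → ℂ} (h : Mer n f) (hnm : n ≤ m) : Mer m f := by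
  obtain ⟨δ, g, hδ, hg, hfg⟩ := h
  obtain ⟨k, rfl⟩ := Nat.exists_eq_add_of_le hnm
  refine ⟨δ, fun ξ => (ξ : ℂ) ^ k * g ξ, hδ, ((contDiffOn_ofReal _).pow k).mul hg, fun ξ hξ => ?_⟩
  beta_reduce
  rw [← hfg ξ hξ, pow_add]
  ring

lemma Mer.deriv {n : ℕ} {f f' : ℝ → ℂ} (h : Mer n f) {e : ℝ} (he : 0 < e)
    (hf : ∀ ξ ∈ Set.Ioo 0 e, HasDerivAt f (f' ξ) ξ) : Mer (n + 1) f' := by
  obtain ⟨δ, g, hδ, hg, hfg⟩ := h
  have hl := min_le_left δ e
  have hr := min_le_right δ e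
  have hg' : ContDiffOn ℝ (⊤ : ℕ∞) (_root_.deriv g) (Set.Ioo (-δ) δ) :=
    hg.deriv_of_isOpen isOpen_Ioo (by simp)
  refine ⟨min δ e, fun ξ => (ξ : ℂ) * _root_.deriv g ξ - (n : ℂ) * g ξ, lt_min hδ he, ?_, ?_⟩
  · have hsub : Set.Ioo (-(min δ e)) (min δ e) ⊆ Set.Ioo (-δ) δ :=
      Set.Ioo_subset_Ioo (by linarith) hl
    exact ((contDiffOn_ofReal _).mul (hg'.mono hsub)).sub (contDiffOn_const.mul (hg.mono hsub))
  · intro ξ hξ
    have hξ0 := hξ.1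
    have hξδ : ξ < δ := hξ.2.trans_le hl
    have hξe : ξ < e := hξ.2.trans_le hr
    have h1 : HasDerivAt (fun ξ : ℝ => (ξ : ℂ) ^ n * f ξ)
        ((n : ℂ) * (ξ : ℂ) ^ (n - 1) * f ξ + (ξ : ℂ) ^ n * f' ξ) ξ := by
      have h2 : HasDerivAt (fun ξ : ℝ => (ξ : ℂ) ^ n) ((n : ℂ) * (ξ : ℂ) ^ (n - 1)) ξ := by
        have := (hasDerivAt_pow n (ξ : ℂ)).comp_ofReal
        simpa using this
      exact h2.mul (hf ξ ⟨hξ0, hξe⟩)
    have h3 : (fun ξ : ℝ => (ξ : ℂ) ^ n * f ξ) =ᶠ[𝓝 ξ] g := by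
      filter_upwards [isOpen_Ioo.mem_nhds (show ξ ∈ Set.Ioo 0 δ from ⟨hξ0, hξδ⟩)] with x hx
      exact hfg x hx
    have h4 := h3.deriv_eq
    rw [h1.deriv] at h4
    beta_reduce
    rw [← h4, ← hfg ξ ⟨hξ0, hξδ⟩]
    rcases Nat.eq_zero_or_pos n with rfl | hn
    · simp
    · obtain ⟨k, rfl⟩ : ∃ k, n = k + 1 := ⟨n - 1, by omega⟩
      simp only [Nat.add_sub_cancel]
      ring

lemma Mer.of_quot {q : ℂ[X]} (hq : q ≠ 0) {G f : ℝ → ℂ} (hG : ContDiff ℝ (⊤ : ℕ∞) G) {e : ℝ}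
    (he : 0 < e) (h : ∀ ξ ∈ Set.Ioo 0 e, q.eval (ξ : ℂ) * f ξ = G ξ) : ∃ n, Mer n f := by
  obtain ⟨q', hq', hnd⟩ := exists_eq_pow_rootMultiplicity_mul_and_not_dvd q hq (0 : ℂ)
  have h0 : q'.eval (0 : ℂ) ≠ 0 := fun h => hnd (dvd_iff_isRoot.mpr h)
  have h1 : Continuous (fun ξ : ℝ => q'.eval (ξ : ℂ)) := q'.continuous.comp continuous_ofReal
  have h2 : ∀ᶠ ξ : ℝ in 𝓝 0, q'.eval (ξ : ℂ) ≠ 0 := h1.continuousAt.eventually_ne (by simpa using h0)
  obtain ⟨δ, hδ, h3⟩ := Metric.eventually_nhds_iff.mp h2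
  have hl := min_le_left δ e
  have hr := min_le_right δ e
  have hsm : ContDiff ℝ (⊤ : ℕ∞) (fun ξ : ℝ => q'.eval (ξ : ℂ)) := by
    have h5 := contDiff_act (C q') (f := fun _ => (1 : ℂ)) contDiff_const
    have h6 : act (C q') (fun _ => (1 : ℂ)) = fun ξ : ℝ => q'.eval (ξ : ℂ) := by
      ext ξ
      have := act_monomial 0 q' (fun _ => (1 : ℂ)) ξ
      simp only [monomial_zero_left] at this
      rw [this]
      simp
    rwa [h6] at h5
  refine ⟨rootMultiplicity (0 : ℂ) q, min δ e, fun ξ => G ξ * (q'.eval (ξ : ℂ))⁻¹, lt_min hδ he, ?_, ?_⟩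
  · refine hG.contDiffOn.mul (hsm.contDiffOn.inv fun ξ hξ => ?_)
    refine h3 ?_
    rw [Real.dist_eq, sub_zero, abs_lt]
    constructor <;> linarith [hξ.1, hξ.2]
  · intro ξ hξ
    have h4 : q'.eval (ξ : ℂ) ≠ 0 := h3 (by
      rw [Real.dist_eq, sub_zero, abs_lt]
      constructor <;> linarith [hξ.1, hξ.2])
    have h5 := h ξ ⟨hξ.1, hξ.2.trans_le hr⟩
    have h6 : q.eval (ξ : ℂ) = (ξ : ℂ) ^ rootMultiplicity (0 : ℂ) q * q'.eval (ξ : ℂ) := by
      conv_lhs => rw [hq']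
      simp
    beta_reduce
    rw [← h5, h6]
    field_simp

/-- `‖f(ξ)‖ ≤ C ξ^{-n}` near `0+` -/
def Bd (n : ℕ) (f : ℝ → ℂ) : Prop :=
  ∃ δ C : ℝ, 0 < δ ∧ δ ≤ 1 ∧ 0 ≤ C ∧ ∀ ξ ∈ Set.Ioo 0 δ, ξ ^ n * ‖f ξ‖ ≤ C

lemma Mer.bd {n : ℕ} {f : ℝ → ℂ} (h : Mer n f) : Bd n f := by
  obtain ⟨δ, g, hδ, hg, hfg⟩ := h
  have h1 : ContinuousAt g 0 :=
    (hg.continuousOn).continuousAt (isOpen_Ioo.mem_nhds ⟨by linarith, hδ⟩)
  have h2 : ∀ᶠ ξ in 𝓝 0, ‖g ξ‖ < ‖g 0‖ + 1 :=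
    h1.norm.eventually (gt_mem_nhds (by linarith))
  obtain ⟨η, hη, h3⟩ := Metric.eventually_nhds_iff.mp h2
  refine ⟨min (min δ η) 1, ‖g 0‖ + 1, lt_min (lt_min hδ hη) one_pos, min_le_right _ _, by positivity, ?_⟩
  intro ξ hξ
  have h4 : ξ < δ := hξ.2.trans_le ((min_le_left _ _).trans (min_le_left _ _))
  have h5 : ξ < η := hξ.2.trans_le ((min_le_left _ _).trans (min_le_right _ _))
  have h6 := h3 (y := ξ) (by
    rw [Real.dist_eq, sub_zero, abs_lt]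
    constructor <;> linarith [hξ.1])
  rw [← hfg ξ ⟨hξ.1, h4⟩, norm_mul, norm_pow, norm_real, Real.norm_of_nonneg hξ.1.le] at h6
  exact h6.le

lemma Bd.mono {n m : ℕ} {f : ℝ → ℂ} (h : Bd n f) (hnm : n ≤ m) : Bd m f := by
  obtain ⟨δ, C, hδ, hδ1, hC, hb⟩ := h
  refine ⟨δ, C, hδ, hδ1, hC, fun ξ hξ => ?_⟩
  have h1 : ξ ^ m ≤ ξ ^ n := pow_le_pow_of_le_one hξ.1.le (hξ.2.le.trans hδ1) hnm
  exact (mul_le_mul_of_nonneg_right h1 (norm_nonneg _)).trans (hb ξ hξ)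

lemma Bd.add {n : ℕ} {f₁ f₂ : ℝ → ℂ} (h₁ : Bd n f₁) (h₂ : Bd n f₂) :
    Bd n (fun ξ => f₁ ξ + f₂ ξ) := by
  obtain ⟨δ₁, C₁, hδ₁, hδ₁', hC₁, hb₁⟩ := h₁
  obtain ⟨δ₂, C₂, hδ₂, hδ₂', hC₂, hb₂⟩ := h₂
  have hl := min_le_left δ₁ δ₂
  have hr := min_le_right δ₁ δ₂
  refine ⟨min δ₁ δ₂, C₁ + C₂, lt_min hδ₁ hδ₂, hl.trans hδ₁', by positivity, fun ξ hξ => ?_⟩
  have e1 := hb₁ ξ ⟨hξ.1, hξ.2.trans_le hl⟩
  have e2 := hb₂ ξ ⟨hξ.1, hξ.2.trans_le hr⟩
  have e3 := mul_le_mul_of_nonneg_left (norm_add_le (f₁ ξ) (f₂ ξ)) (pow_nonneg hξ.1.le n)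
  linarith

lemma Bd.const_mul {n : ℕ} {f : ℝ → ℂ} (h : Bd n f) (c : ℂ) : Bd n (fun ξ => c * f ξ) := by
  obtain ⟨δ, C, hδ, hδ1, hC, hb⟩ := h
  refine ⟨δ, ‖c‖ * C, hδ, hδ1, by positivity, fun ξ hξ => ?_⟩
  rw [norm_mul]
  have := mul_le_mul_of_nonneg_left (hb ξ hξ) (norm_nonneg c)
  linarith

lemma Bd.zero (n : ℕ) : Bd n (fun _ => 0) :=
  ⟨1, 0, one_pos, le_refl _, le_refl _, fun ξ _ => by simp⟩

lemma Bd.sum {n : ℕ} {ι : Type*} (s : Finset ι) {f : ι → ℝ → ℂ} (h : ∀ i ∈ s, Bd n (f i)) :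
    Bd n (fun ξ => ∑ i ∈ s, f i ξ) := by
  classical
  induction s using Finset.induction_on with
  | empty => simpa using Bd.zero n
  | insert a s ha ih =>
    have h1 := h a (Finset.mem_insert_self a s)
    have h2 := ih fun i hi => h i (Finset.mem_insert_of_mem hi)
    simp only [Finset.sum_insert ha]
    exact h1.add h2

lemma Bd.congr {n : ℕ} {f₁ f₂ : ℝ → ℂ} (h : Bd n f₁) {e : ℝ} (he : 0 < e)
    (heq : ∀ ξ ∈ Set.Ioo 0 e, f₁ ξ = f₂ ξ) : Bd n f₂ := by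
  obtain ⟨δ, C, hδ, hδ1, hC, hb⟩ := h
  have hl := min_le_left δ e
  have hr := min_le_right δ e
  refine ⟨min δ e, C, lt_min hδ he, hl.trans hδ1, hC, fun ξ hξ => ?_⟩
  rw [← heq ξ ⟨hξ.1, hξ.2.trans_le hr⟩]
  exact hb ξ ⟨hξ.1, hξ.2.trans_le hl⟩

lemma Bd.xi_mul {n : ℕ} {f : ℝ → ℂ} (h : Bd n f) : Bd (n - 1) (fun ξ => (ξ : ℂ) * f ξ) := by
  obtain ⟨δ, C, hδ, hδ1, hC, hb⟩ := h
  refine ⟨δ, C, hδ, hδ1, hC, fun ξ hξ => ?_⟩
  rw [norm_mul, norm_real, Real.norm_of_nonneg hξ.1.le]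
  rcases Nat.eq_zero_or_pos n with rfl | hn
  · have h1 := hb ξ hξ
    simp only [pow_zero, one_mul, zero_tsub] at h1 ⊢
    have h2 : ξ ≤ 1 := hξ.2.le.trans hδ1
    calc ξ * ‖f ξ‖ ≤ 1 * ‖f ξ‖ := mul_le_mul_of_nonneg_right h2 (norm_nonneg _)
      _ ≤ C := by rw [one_mul]; exact h1
  · obtain ⟨k, rfl⟩ : ∃ k, n = k + 1 := ⟨n - 1, by omega⟩
    simp only [Nat.add_sub_cancel]
    have h1 := hb ξ hξ
    rw [pow_succ] at h1
    linarith

/-- the functional -/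
def Zf (z : ℕ → ℝ → ℂ) (g : ℂ[X]) (ξ : ℝ) : ℂ := g.sum fun j a => a * z j ξ

lemma Zf_add (z : ℕ → ℝ → ℂ) (g₁ g₂ : ℂ[X]) (ξ : ℝ) : Zf z (g₁ + g₂) ξ = Zf z g₁ ξ + Zf z g₂ ξ := by
  unfold Zf
  rw [Polynomial.sum_add_index]
  · intro i; simp
  · intro i a b; simp [add_mul]

lemma Zf_monomial (z : ℕ → ℝ → ℂ) (j : ℕ) (a : ℂ) (ξ : ℝ) : Zf z (monomial j a) ξ = a * z j ξ := by
  unfold Zf
  rw [Polynomial.sum_monomial_index]
  simp

lemma Zf_zero (z : ℕ → ℝ → ℂ) (ξ : ℝ) : Zf z 0 ξ = 0 := by unfold Zf; simp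

lemma Zf_sum (z : ℕ → ℝ → ℂ) {ι : Type*} (s : Finset ι) (g : ι → ℂ[X]) (ξ : ℝ) :
    Zf z (∑ i ∈ s, g i) ξ = ∑ i ∈ s, Zf z (g i) ξ := by
  classical
  induction s using Finset.induction_on with
  | empty => simp [Zf_zero]
  | insert a s ha ih => rw [Finset.sum_insert ha, Finset.sum_insert ha, Zf_add, ih]

lemma hasDerivAt_Zf {h : ℝ[X]} {z : ℕ → ℝ → ℂ} {U : Set ℝ} (hs : Sys h z U) (g : ℂ[X]) {ξ : ℝ}
    (hξ : ξ ∈ U) : HasDerivAt (Zf z g) (Zf z (C I * toC h * g) ξ) ξ := by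
  induction g using Polynomial.induction_on' with
  | add p q hp hq =>
    have h1 : Zf z (p + q) = fun ξ => Zf z p ξ + Zf z q ξ := by ext t; exact Zf_add z p q t
    rw [h1, mul_add, Zf_add]
    exact hp.add hq
  | monomial j a =>
    have h1 : Zf z (monomial j a) = fun ξ => a * z j ξ := by ext t; exact Zf_monomial z j a t
    rw [h1]
    refine ((hs.der ξ hξ j).const_mul a).congr_deriv ?_
    have h2 : toC h = ∑ l ∈ Finset.range (h.natDegree + 1), monomial l (h.coeff l : ℂ) := by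
      unfold toC
      conv_lhs => rw [h.as_sum_range]
      rw [Polynomial.map_sum]
      refine Finset.sum_congr rfl fun l _ => ?_
      rw [map_monomial]
      rfl
    rw [h2]
    simp only [Finset.mul_sum, Finset.sum_mul]
    rw [Zf_sum]
    refine Finset.sum_congr rfl fun l _ => ?_
    rw [C_mul_monomial, monomial_mul_monomial, Zf_monomial, add_comm l j]
    ring

/-- **Flatness.** -/
theorem flat_at_zero {h : ℝ[X]} (hm : h.Monic) {d : ℕ} (hd : h.natDegree = d + 2)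
    {z : ℕ → ℝ → ℂ} {ψ : ℝ → ℂ} {e : ℝ} (he : 0 < e) (hψ : ContDiff ℝ (⊤ : ℕ∞) ψ) (h0 : ψ 0 = 0)
    (hs : Sys h z (Set.Ioo 0 e)) (hz0 : ∀ ξ ∈ Set.Ioo 0 e, z 0 ξ = ψ ξ)
    (hq : ∀ j, ∃ (q : ℂ[X]) (A : ℂ[X][X]), q ≠ 0 ∧ ∀ ξ ∈ Set.Ioo 0 e,
      q.eval (ξ : ℂ) * z j ξ = act A ψ ξ) : ∀ k, iteratedDeriv k ψ 0 = 0 := by
  -- meromorphy
  have hmer0 : ∀ j, ∃ n, Mer n (z j) := by
    intro j
    obtain ⟨q, A, hq0, hqA⟩ := hq j
    exact Mer.of_quot hq0 (contDiff_act A hψ) he hqA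
  choose ν hν using hmer0
  set N : ℕ := ∑ j ∈ Finset.range (d + 2), ν j with hN
  have hmer : ∀ j, Mer (N + j / (d + 2)) (z j) := by
    intro j
    induction j using Nat.strong_induction_on with
    | _ j ih =>
      rcases lt_or_ge j (d + 2) with hj | hj
      · refine (hν j).mono ?_
        have := Finset.single_le_sum (f := ν) (fun i _ => Nat.zero_le _) (Finset.mem_range.mpr hj)
        rw [Nat.div_eq_of_lt hj]
        omega
      · obtain ⟨i, rfl⟩ : ∃ i, j = i + (d + 2) := ⟨j - (d + 2), by omega⟩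
        have h1 : (i + (d + 2)) / (d + 2) = i / (d + 2) + 1 := Nat.add_div_right i (by omega)
        have h2 := (ih i (by omega)).deriv he (fun ξ hξ => hs.der ξ hξ i)
        have h3 : Mer (N + (i + (d + 2)) / (d + 2)) (fun ξ => ∑ l ∈ Finset.range (d + 2),
            (h.coeff l : ℂ) * z (i + l) ξ) := by
          refine Mer.sum _ fun l hl => Mer.const_mul (Mer.mono (ih (i + l) ?_) ?_) _
          · have := Finset.mem_range.mp hl; omega
          · have := Finset.mem_range.mp hl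
            exact Nat.add_le_add_left (Nat.div_le_div_right (by omega)) N
        have h4 : Mer (N + (i + (d + 2)) / (d + 2)) (fun ξ => I * ∑ l ∈ Finset.range (h.natDegree + 1),
            (h.coeff l : ℂ) * z (i + l) ξ) := by
          rw [h1, ← add_assoc]; exact h2
        refine ((h4.const_mul (-I)).add (h3.const_mul (-1))).congr he fun ξ hξ => ?_
        rw [hd, Finset.sum_range_succ]
        have h5 : h.coeff (d + 2) = 1 := by
          have := hm.coeff_natDegree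
          rwa [hd] at this
        rw [h5]
        push_cast
        linear_combination (-(∑ l ∈ Finset.range (d + 2), (h.coeff l : ℂ) * z (i + l) ξ) -
          z (i + (d + 2)) ξ) * I_mul_I
  -- boundedness
  have hψb : Bd 0 (z 0) := by
    have h1 : Mer 0 ψ := ⟨1, ψ, one_pos, hψ.contDiffOn, fun ξ _ => by simp⟩
    exact h1.bd.congr he fun ξ hξ => (hz0 ξ hξ).symm
  have hbd : ∀ t j : ℕ, Bd (N + (j + t * d) / (d + 2) - t) (z j) := by
    intro t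
    induction t with
    | zero =>
      intro j
      simpa using (hmer j).bd
    | succ t iht =>
      intro j
      induction j using Nat.strong_induction_on with
      | _ j ih =>
        rcases Nat.eq_zero_or_pos j with rfl | hj
        · exact hψb.mono (Nat.zero_le _)
        · obtain ⟨i, rfl⟩ : ∃ i, j = i + 1 := ⟨j - 1, by omega⟩
          have h1 : Bd (N + (i + 1 + (t + 1) * d) / (d + 2) - (t + 1)) (z (i - 1)) := by
            refine (ih (i - 1) (by omega)).mono ?_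
            have : (i - 1 + (t + 1) * d) / (d + 2) ≤ (i + 1 + (t + 1) * d) / (d + 2) :=
              Nat.div_le_div_right (by omega)
            omega
          have h2 : Bd (N + (i + 1 + (t + 1) * d) / (d + 2) - (t + 1)) (fun ξ : ℝ => (ξ : ℂ) *
              ∑ l ∈ Finset.range (d + 2), ((((l : ℝ) + 1) * h.coeff (l + 1) : ℝ) : ℂ) * z (i + l) ξ) := by
            have h3 : Bd (N + (i + 1 + (t + 1) * d) / (d + 2) - t) (fun ξ : ℝ =>
              ∑ l ∈ Finset.range (d + 2), ((((l : ℝ) + 1) * h.coeff (l + 1) : ℝ) : ℂ) * z (i + l) ξ) := by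
              refine Bd.sum _ fun l hl => Bd.const_mul ((iht (i + l)).mono ?_) _
              have hl' := Finset.mem_range.mp hl
              have : (i + l + t * d) / (d + 2) ≤ (i + 1 + (t + 1) * d) / (d + 2) := by
                refine Nat.div_le_div_right ?_
                have : (t + 1) * d = t * d + d := by ring
                omega
              omega
            refine h3.xi_mul.mono ?_
            omega
          refine ((h1.const_mul (i : ℂ)).add (h2.const_mul I)).congr he fun ξ hξ => ?_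
          have := hs.ibp ξ hξ i
          rw [hd] at this
          rw [this]
          ring
  have hbd0 : ∀ j, Bd 0 (z j) := by
    intro j
    refine (hbd ((d + 2) * (N + j)) j).mono (le_of_eq ?_)
    have h1 : (j + (d + 2) * (N + j) * d) / (d + 2) ≤ j + (N + j) * d := by
      rw [show j + (d + 2) * (N + j) * d = j + (d + 2) * ((N + j) * d) by ring,
        Nat.add_mul_div_left _ _ (by omega)]
      have := Nat.div_le_self j (d + 2)
      omega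
    have h2 : (d + 2) * (N + j) = (N + j) * d + 2 * (N + j) := by ring
    omega
  -- limits
  have hlim : ∀ j, Tendsto (z j) (𝓝[>] 0) (𝓝 0) := by
    intro j
    induction j using Nat.strong_induction_on with
    | _ j ih =>
      rcases Nat.eq_zero_or_pos j with rfl | hj
      · have h1 : Tendsto ψ (𝓝[>] 0) (𝓝 0) := by
          have := (hψ.continuous.tendsto 0).mono_left (nhdsWithin_le_nhds (s := Set.Ioi (0 : ℝ)))
          rwa [h0] at this
        refine h1.congr' ?_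
        filter_upwards [Ioo_mem_nhdsGT he] with ξ hξ
        exact (hz0 ξ hξ).symm
      · obtain ⟨i, rfl⟩ : ∃ i, j = i + 1 := ⟨j - 1, by omega⟩
        have h1 := (ih (i - 1) (by omega)).const_mul (i : ℂ)
        have h2 : Tendsto (fun ξ : ℝ => (ξ : ℂ) * ∑ l ∈ Finset.range (d + 2),
            ((((l : ℝ) + 1) * h.coeff (l + 1) : ℝ) : ℂ) * z (i + l) ξ) (𝓝[>] 0) (𝓝 0) := by
          obtain ⟨δ, C, hδ, hδ1, hC, hb⟩ := Bd.sum (n := 0) (Finset.range (d + 2))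
            (f := fun l ξ => ((((l : ℝ) + 1) * h.coeff (l + 1) : ℝ) : ℂ) * z (i + l) ξ)
            (fun l _ => (hbd0 (i + l)).const_mul _)
          have h3 : Tendsto (fun ξ : ℝ => C * ξ) (𝓝[>] 0) (𝓝 0) := by
            have h4 : Continuous (fun ξ : ℝ => C * ξ) := by fun_prop
            have h5 := (h4.tendsto 0).mono_left (nhdsWithin_le_nhds (s := Set.Ioi (0 : ℝ)))
            simpa using h5
          refine squeeze_zero_norm' ?_ h3
          filter_upwards [Ioo_mem_nhdsGT hδ] with ξ hξ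
          have h6 := hb ξ hξ
          rw [pow_zero, one_mul] at h6
          rw [norm_mul, norm_real, Real.norm_of_nonneg hξ.1.le, mul_comm]
          exact mul_le_mul_of_nonneg_right h6 hξ.1.le
        have h3 := h1.add (h2.const_mul I)
        simp only [mul_zero, add_zero] at h3
        refine h3.congr' ?_
        filter_upwards [Ioo_mem_nhdsGT he] with ξ hξ
        have := hs.ibp ξ hξ i
        rw [hd] at this
        rw [this]
        ring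
  have hlimZ : ∀ g : ℂ[X], Tendsto (Zf z g) (𝓝[>] 0) (𝓝 0) := by
    intro g
    induction g using Polynomial.induction_on' with
    | add p q hp hq =>
      have h1 : Zf z (p + q) = fun ξ => Zf z p ξ + Zf z q ξ := by ext t; exact Zf_add z p q t
      rw [h1]
      have := hp.add hq
      simpa using this
    | monomial j a =>
      have h1 : Zf z (monomial j a) = fun ξ => a * z j ξ := by ext t; exact Zf_monomial z j a t
      rw [h1]
      have := (hlim j).const_mul a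
      simpa using this
  -- derivatives
  have hder : ∀ k : ℕ, ∀ ξ ∈ Set.Ioo 0 e, iteratedDeriv k ψ ξ = Zf z ((C I * toC h) ^ k) ξ := by
    intro k
    induction k with
    | zero =>
      intro ξ hξ
      have h1 := Zf_monomial z 0 1 ξ
      simp only [monomial_zero_left, map_one, one_mul] at h1
      rw [iteratedDeriv_zero, pow_zero, h1, hz0 ξ hξ]
    | succ k ih =>
      intro ξ hξ
      have h1 : iteratedDeriv k ψ =ᶠ[𝓝 ξ] Zf z ((C I * toC h) ^ k) := by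
        filter_upwards [isOpen_Ioo.mem_nhds hξ] with x hx
        exact ih x hx
      rw [iteratedDeriv_succ, h1.deriv_eq, (hasDerivAt_Zf hs _ hξ).deriv, pow_succ']
  intro k
  have h1 : Tendsto (iteratedDeriv k ψ) (𝓝[>] 0) (𝓝 (iteratedDeriv k ψ 0)) :=
    ((contDiff_iteratedDeriv hψ k).continuous.tendsto 0).mono_left nhdsWithin_le_nhds
  have h2 : Tendsto (iteratedDeriv k ψ) (𝓝[>] 0) (𝓝 0) := by
    refine (hlimZ ((C I * toC h) ^ k)).congr' ?_
    filter_upwards [Ioo_mem_nhdsGT he] with ξ hξ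
    exact (hder k ξ hξ).symm
  exact tendsto_nhds_unique h1 h2

end

end Pool.Agent.H65.ST
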