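import Mathlib
import Pool.Agent.H65.ST13
import Pool.Agent.H65.ST14
import Pool.Agent.H65.ST16
import Pool.Agent.H65.ST17

namespace Pool.Agent.H65.ST

open MeasureTheory ProbabilityTheory Polynomial Complex Filter Topology

noncomputable section

/-- the general theorem -/
theorem characterises_of_cyclic {h : ℝ[X]} (hm : h.Monic) {d : ℕ} (hd : h.natDegree = d + 2)
    (hd1 : 1 ≤ d)
    (h5 : ∀ j, ∃ (q : ℂ[X]) (A : ℂ[X][X]), q ≠ 0 ∧ ∀ ξ : ℝ,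
      q.eval (ξ : ℂ) * Phi gam h (X ^ j) ξ = act A (Phi gam h 1) ξ)
    {S : PolyOp} (hS : S.IsStein (gam.map fun x => h.eval x))
    (hmin : S.deg = minDeg (gam.map fun x => h.eval x)) :
    S.Characterises (gam.map fun x => h.eval x) := by
  have hnd : 0 < h.natDegree := by omega
  refine characterises_of_zero hnd ?_ hS hmin
  intro ν hν hνm hT
  have : IsProbabilityMeasure (gam.map fun x => h.eval x) :=
    Measure.isProbabilityMeasure_map h.continuous.measurable.aemeasurable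
  have hμ : AllMom (gam.map fun x => h.eval x) := allMom_gauss.map h
  set ψ := cf ν - cf (gam.map fun x => h.eval x) with hψdef
  have hψ : ContDiff ℝ (⊤ : ℕ∞) ψ := (contDiff_cf hνm).sub (contDiff_cf hμ)
  have h0 : ψ 0 = 0 := by rw [hψdef, Pi.sub_apply, cf_zero, cf_zero, sub_self]
  obtain ⟨Q, z, hQ, hs, hz0, hq⟩ := exists_sys (ψ := ψ) hm (sys_Phi h hnd)
    (by rw [pow_zero]; exact contDiff_Phi allMom_gauss h 1) hψ hnd (by rw [pow_zero]; exact hT)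
    (by rw [pow_zero]; exact h5)
  obtain ⟨δ, hδ, hδ1, hgap⟩ := exists_gap hQ 0
  rw [zero_add] at hgap
  have hs' : Sys h z (Set.Ioo 0 δ) :=
    ⟨fun ξ hξ => hs.ibp ξ (hgap ξ hξ), fun ξ hξ => hs.der ξ (hgap ξ hξ)⟩
  have hq' : ∀ j, ∃ (q : ℂ[X]) (A : ℂ[X][X]), q ≠ 0 ∧ ∀ ξ ∈ Set.Ioo 0 δ,
      q.eval (ξ : ℂ) * z j ξ = act A ψ ξ := by
    intro j
    obtain ⟨q, A, hqA⟩ := hq j
    refine ⟨q, A, ?_, fun ξ hξ => (hqA ξ (hgap ξ hξ)).2⟩
    rintro rfl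
    have := (hqA (δ / 2) (hgap (δ / 2) ⟨by linarith, by linarith⟩)).1
    simp at this
  have hflat := flat_at_zero hm hd hδ hψ h0 hs' (fun ξ hξ => hz0 ξ (hgap ξ hξ)) hq'
  have hSF : ∀ θ : ℝ, 0 < θ → ((d : ℝ) + 2) ^ (d + 2) * (2 * θ) ^ d < 1 → ∀ j, SF d θ (z j) := by
    intro θ hθ hθ2 j
    obtain ⟨q, A, hq0, hqA⟩ := hq' j
    exact superflat_quot hd1 (psi_superflat hm hd hνm hflat hθ hθ2) hq0 A hδ hqA
  obtain ⟨e', he', hz⟩ := zero_near_zero hm hd hd1 hδ hs' hSF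
  refine zero_on_pos hm hd hd1 hψ hQ hs hz0 hq (ε := min δ e') (lt_min hδ he') fun ξ hξ => ?_
  rw [← hz0 ξ (hgap ξ ⟨hξ.1, hξ.2.trans_le (min_le_left _ _)⟩)]
  exact hz ξ ⟨hξ.1, hξ.2.trans_le (min_le_right _ _)⟩

end

end Pool.Agent.H65.ST
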