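import Mathlib
import Pool.Agent.H65.ST6
import Pool.Agent.H65.ST8
import Pool.Agent.H65.ST14

/-!
Existence of polynomial Stein operators for `h(X)`.
-/

namespace Pool.Agent.H65.ST

open MeasureTheory ProbabilityTheory Polynomial Complex Filter Topology

noncomputable section

/-- `f` is in the module generated by `F_0, …, F_{n-1}` over `ℂ[ξ, 1/ξ]` -/
def InM (n : ℕ) (F : ℕ → ℝ → ℂ) (f : ℝ → ℂ) : Prop :=
  ∃ (e : ℕ) (c : Fin n → ℂ[X]), ∀ ξ : ℝ, (ξ : ℂ) ^ e * f ξ = ∑ i, (c i).eval (ξ : ℂ) * F i ξ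

variable {n : ℕ} {F : ℕ → ℝ → ℂ}

lemma InM.raise {f : ℝ → ℂ} (h : InM n F f) : ∃ e₀ : ℕ, ∀ e, e₀ ≤ e → ∃ c : Fin n → ℂ[X],
    ∀ ξ : ℝ, (ξ : ℂ) ^ e * f ξ = ∑ i, (c i).eval (ξ : ℂ) * F i ξ := by
  obtain ⟨e₀, c, hc⟩ := h
  refine ⟨e₀, fun e he => ⟨fun i => X ^ (e - e₀) * c i, fun ξ => ?_⟩⟩
  have h1 : (ξ : ℂ) ^ e = (ξ : ℂ) ^ (e - e₀) * (ξ : ℂ) ^ e₀ := by
    rw [← pow_add]; congr 1; omega
  rw [h1, mul_assoc, hc, Finset.mul_sum]
  refine Finset.sum_congr rfl fun i _ => ?_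
  simp only [eval_mul, eval_pow, eval_X]
  ring

lemma InM.add {f g : ℝ → ℂ} (hf : InM n F f) (hg : InM n F g) : InM n F (fun ξ => f ξ + g ξ) := by
  obtain ⟨e₁, h₁⟩ := hf.raise
  obtain ⟨e₂, h₂⟩ := hg.raise
  obtain ⟨c₁, h₁⟩ := h₁ (max e₁ e₂) (le_max_left _ _)
  obtain ⟨c₂, h₂⟩ := h₂ (max e₁ e₂) (le_max_right _ _)
  refine ⟨max e₁ e₂, fun i => c₁ i + c₂ i, fun ξ => ?_⟩
  rw [mul_add, h₁, h₂, ← Finset.sum_add_distrib]
  refine Finset.sum_congr rfl fun i _ => ?_
  rw [eval_add]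
  ring

lemma InM.poly_mul {f : ℝ → ℂ} (hf : InM n F f) (a : ℂ[X]) :
    InM n F (fun ξ => a.eval (ξ : ℂ) * f ξ) := by
  obtain ⟨e, c, h⟩ := hf
  refine ⟨e, fun i => a * c i, fun ξ => ?_⟩
  calc (ξ : ℂ) ^ e * (a.eval (ξ : ℂ) * f ξ) = a.eval (ξ : ℂ) * ((ξ : ℂ) ^ e * f ξ) := by ring
    _ = _ := by
      rw [h, Finset.mul_sum]
      refine Finset.sum_congr rfl fun i _ => ?_
      rw [eval_mul]
      ring

lemma InM.const_mul {f : ℝ → ℂ} (hf : InM n F f) (a : ℂ) : InM n F (fun ξ => a * f ξ) := by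
  have := hf.poly_mul (C a)
  simpa using this

lemma InM.zero : InM n F (fun _ => 0) := ⟨0, 0, fun ξ => by simp⟩

lemma InM.sum {ι : Type*} (s : Finset ι) {f : ι → ℝ → ℂ} (h : ∀ i ∈ s, InM n F (f i)) :
    InM n F (fun ξ => ∑ i ∈ s, f i ξ) := by
  classical
  induction s using Finset.induction_on with
  | empty => simpa using (InM.zero (n := n) (F := F))
  | insert a s ha ih =>
    have h1 := h a (Finset.mem_insert_self a s)
    have h2 := ih fun i hi => h i (Finset.mem_insert_of_mem hi)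
    simp only [Finset.sum_insert ha]
    exact h1.add h2

lemma InM.of_xi_mul {f g : ℝ → ℂ} (hg : InM n F g) (h : ∀ ξ : ℝ, (ξ : ℂ) * f ξ = g ξ) : InM n F f := by
  obtain ⟨e, c, hc⟩ := hg
  refine ⟨e + 1, c, fun ξ => ?_⟩
  rw [← hc, ← h]
  ring

lemma InM.congr {f g : ℝ → ℂ} (hf : InM n F f) (h : ∀ ξ, f ξ = g ξ) : InM n F g := by
  have : f = g := funext h
  rwa [← this]

lemma InM.gen {i : ℕ} (hi : i < n) : InM n F (F i) := by
  refine ⟨0, fun j => if (j : ℕ) = i then 1 else 0, fun ξ => ?_⟩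
  rw [Finset.sum_eq_single (⟨i, hi⟩ : Fin n)]
  · simp
  · intro j _ hj
    have : (j : ℕ) ≠ i := fun h => hj (Fin.ext h)
    simp [this]
  · intro h
    exact absurd (Finset.mem_univ _) h

lemma inM_F {h : ℝ[X]} (hm : h.Monic) {d : ℕ} (hd : h.natDegree = d + 2) (hd1 : 1 ≤ d)
    (hs : Sys h F Set.univ) (j : ℕ) : InM (d + 1) F (F j) := by
  induction j using Nat.strong_induction_on with
  | _ j ih =>
    rcases lt_or_ge j (d + 1) with hj | hj
    · exact InM.gen hj
    · obtain ⟨i, rfl⟩ : ∃ i, j = i + (d + 1) := ⟨j - (d + 1), by omega⟩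
      have h1 := ih (i + 1) (by omega)
      have h2 := ih (i - 1) (by omega)
      have h3 : InM (d + 1) F (fun ξ => ∑ l ∈ Finset.range (d + 1),
          ((((l : ℝ) + 1) * h.coeff (l + 1) : ℝ) : ℂ) * F (i + l) ξ) :=
        InM.sum _ fun l hl => (ih (i + l) (by have := Finset.mem_range.mp hl; omega)).const_mul _
      have hp : (0 : ℝ) < (d : ℝ) + 2 := by positivity
      have hpC : ((d : ℂ) + 2) ≠ 0 := by
        have : ((d : ℂ) + 2) = (((d : ℝ) + 2 : ℝ) : ℂ) := by push_cast; rfl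
        rw [this]
        exact_mod_cast hp.ne'
      have h4 := (((h1.add (h2.const_mul (-(i : ℂ)))).add
        (((h3.poly_mul X).const_mul (-I)))).const_mul (-I / ((d : ℂ) + 2)))
      refine h4.of_xi_mul fun ξ => ?_
      have h5 := hs.ibp ξ (Set.mem_univ ξ) i
      rw [hd, Finset.sum_range_succ] at h5
      have hlead : h.coeff (d + 1 + 1) = 1 := by
        have := hm.coeff_natDegree
        rwa [hd] at this
      rw [hlead] at h5
      rw [h5, eval_X]
      push_cast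
      field_simp
      ring_nf
      rw [I_sq]
      ring

lemma exists_relation {h : ℝ[X]} (hm : h.Monic) {d : ℕ} (hd : h.natDegree = d + 2) (hd1 : 1 ≤ d) :
    ∃ A : ℂ[X][X], A ≠ 0 ∧ ∀ ξ, act A (Phi gam h 1) ξ = 0 := by
  have hnd : 0 < h.natDegree := by omega
  have hs := sys_Phi h hnd
  have hpoly : ∀ g : ℂ[X], InM (d + 1) (fun j => Phi gam h (X ^ j)) (Phi gam h g) := by
    intro g
    induction g using Polynomial.induction_on' with
    | add p q hp hq => exact (hp.add hq).congr fun ξ => (Phi_add allMom_gauss h p q ξ).symm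
    | monomial j a =>
      refine ((inM_F hm hd hd1 hs j).const_mul a).congr fun ξ => ?_
      rw [← C_mul_X_pow_eq_monomial, Phi_C_mul]
  have hk : ∀ k : Fin (d + 2), ∃ e₀ : ℕ, ∀ e, e₀ ≤ e → ∃ c : Fin (d + 1) → ℂ[X],
      ∀ ξ : ℝ, (ξ : ℂ) ^ e * iteratedDeriv k (Phi gam h 1) ξ =
        ∑ i, (c i).eval (ξ : ℂ) * Phi gam h (X ^ (i : ℕ)) ξ := by
    intro k
    rw [iteratedDeriv_Phi allMom_gauss]
    exact ((hpoly (toC h ^ (k : ℕ) * 1)).const_mul (I ^ (k : ℕ))).raise
  choose e₀ he₀ using hk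
  set E := ∑ k, e₀ k with hE
  have hle : ∀ k, e₀ k ≤ E := fun k => Finset.single_le_sum (fun i _ => Nat.zero_le _) (Finset.mem_univ k)
  choose c hc using fun k => he₀ k E (hle k)
  have hdep : ¬ LinearIndependent ℂ[X] c := by
    intro hli
    have := hli.fintype_card_le_finrank
    simp at this
  rw [Fintype.not_linearIndependent_iff] at hdep
  obtain ⟨g, hg, k₀, hk₀⟩ := hdep
  have hX : (X ^ E : ℂ[X]) ≠ 0 := pow_ne_zero _ X_ne_zero
  refine ⟨∑ k : Fin (d + 2), monomial (k : ℕ) (X ^ E * g k), ?_, ?_⟩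
  · intro h0
    have h1 := congrArg (fun A : ℂ[X][X] => A.coeff (k₀ : ℕ)) h0
    simp only [finsetSum_coeff, coeff_monomial, coeff_zero] at h1
    rw [Finset.sum_eq_single k₀] at h1
    · simp only [if_true] at h1
      exact mul_ne_zero hX hk₀ h1
    · intro k _ hk
      have : (k : ℕ) ≠ k₀ := fun h => hk (Fin.ext h)
      simp [this]
    · intro h
      exact absurd (Finset.mem_univ _) h
  · intro ξ
    have hact : act (∑ k : Fin (d + 2), monomial (k : ℕ) (X ^ E * g k)) (Phi gam h 1) ξ =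
        ∑ k : Fin (d + 2), act (monomial (k : ℕ) (X ^ E * g k)) (Phi gam h 1) ξ := by
      have : ∀ s : Finset (Fin (d + 2)), act (∑ k ∈ s, monomial (k : ℕ) (X ^ E * g k)) (Phi gam h 1) ξ =
        ∑ k ∈ s, act (monomial (k : ℕ) (X ^ E * g k)) (Phi gam h 1) ξ := by
        intro s
        classical
        induction s using Finset.induction_on with
        | empty => simp [act_zero]
        | insert a s ha ih => rw [Finset.sum_insert ha, Finset.sum_insert ha, act_add, ih]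
      exact this _
    rw [hact]
    have h1 : ∀ k : Fin (d + 2), act (monomial (k : ℕ) (X ^ E * g k)) (Phi gam h 1) ξ =
        ∑ i, (g k * c k i).eval (ξ : ℂ) * Phi gam h (X ^ (i : ℕ)) ξ := by
      intro k
      rw [act_monomial, eval_mul, eval_pow, eval_X]
      calc (ξ : ℂ) ^ E * (g k).eval (ξ : ℂ) * iteratedDeriv k (Phi gam h 1) ξ
          = (g k).eval (ξ : ℂ) * ((ξ : ℂ) ^ E * iteratedDeriv k (Phi gam h 1) ξ) := by ring
        _ = _ := by
          rw [hc k ξ, Finset.mul_sum]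
          refine Finset.sum_congr rfl fun i _ => ?_
          rw [eval_mul]
          ring
    simp only [h1]
    rw [Finset.sum_comm]
    refine Finset.sum_eq_zero fun i _ => ?_
    rw [← Finset.sum_mul, ← eval_finsetSum]
    have h2 := congrFun hg i
    simp only [Finset.sum_apply, Pi.smul_apply, smul_eq_mul, Pi.zero_apply] at h2
    rw [h2]
    simp

/-- existence of Stein operators -/
theorem exists_stein_poly {h : ℝ[X]} (hd : 0 < h.natDegree)
    (hA : ∃ A : ℂ[X][X], A ≠ 0 ∧ ∀ ξ, act A (Phi gam h 1) ξ = 0) :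
    ∃ S : PolyOp, S.IsStein (gam.map fun x => h.eval x) := by
  obtain ⟨A, hA0, hAφ⟩ := hA
  obtain ⟨a, b, hab⟩ := exists_lt_eval hd
  have : IsProbabilityMeasure (gam.map fun x => h.eval x) :=
    Measure.isProbabilityMeasure_map h.continuous.measurable.aemeasurable
  obtain ⟨S, hS, -⟩ := exists_stein (allMom_gauss.map h) (support_convex h.continuous)
    (support_uniqueDiffOn h.continuous hab) hA0 (by rw [cf_map]; exact hAφ)
  exact ⟨S, hS⟩

lemma relation_one : ∃ A : ℂ[X][X], A ≠ 0 ∧ ∀ ξ, act A (Phi gam (hp 1) 1) ξ = 0 := by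
  rw [hp_one]
  refine ⟨monomial 1 1 + monomial 0 X, ?_, ?_⟩
  · intro h0
    have h1 := congrArg (fun A : ℂ[X][X] => A.coeff 1) h0
    simp at h1
  · intro ξ
    rw [act_add, act_monomial, act_monomial, iteratedDeriv_one', iteratedDeriv_zero]
    have hs := sys_Phi X (by simp)
    have h1 := hs.ibp ξ (Set.mem_univ ξ) 0
    have h2 := (hs.der ξ (Set.mem_univ ξ) 0).deriv
    simp only [natDegree_X, Finset.sum_range_succ, Finset.sum_range_zero, coeff_X, pow_zero, zero_add,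
      pow_one] at h1 h2
    rw [h2, h1]
    simp
    linear_combination (ξ * Phi gam X 1 ξ) * I_mul_I

lemma relation_two : ∃ A : ℂ[X][X], A ≠ 0 ∧ ∀ ξ, act A (Phi gam (hp 2) 1) ξ = 0 := by
  rw [hp_two]
  have hnd : (X ^ 2 - 1 : ℝ[X]).natDegree = 2 := by
    have := hp_natDegree 2
    rwa [hp_two] at this
  refine ⟨monomial 1 (1 - C (2 * I) * X) + monomial 0 (C 2 * X), ?_, ?_⟩
  · intro h0
    have h1 := congrArg (fun A : ℂ[X][X] => (A.coeff 1).eval 0) h0
    simp at h1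
  · intro ξ
    rw [act_add, act_monomial, act_monomial, iteratedDeriv_one', iteratedDeriv_zero]
    have hs := sys_Phi (X ^ 2 - 1) (by rw [hnd]; norm_num)
    have h1 := hs.ibp ξ (Set.mem_univ ξ) 1
    have h2 := (hs.der ξ (Set.mem_univ ξ) 0).deriv
    rw [hnd] at h1 h2
    simp only [Finset.sum_range_succ, Finset.sum_range_zero, coeff_sub, coeff_X_pow, coeff_one] at h1 h2
    norm_num at h1 h2
    rw [h2]
    simp only [eval_sub, eval_one, eval_mul, eval_C, eval_X]
    linear_combination I * h1 + (2 * ξ * Phi gam (X ^ 2 - 1) 1 ξ) * I_mul_I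

theorem exists_stein_lawH {p : ℕ} (hp1 : 1 ≤ p) : ∃ S : PolyOp, S.IsStein (lawH p) := by
  rw [lawH_eq]
  refine exists_stein_poly (by rw [hp_natDegree]; omega) ?_
  rcases lt_or_ge p 3 with h3 | h3
  · interval_cases p
    · exact relation_one
    · exact relation_two
  · exact exists_relation (hp_monic p) (d := p - 2) (by rw [hp_natDegree]; omega) (by omega)

end

end Pool.Agent.H65.ST
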