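import Mathlib

/-!
Exponential generating series of the type A and type B recursions, and their differential
equations.
-/

namespace Pool.Agent.H65.TB

open PowerSeries

noncomputable section

/-- exponential generating series of a real sequence -/
def egf (f : ℕ → ℝ) : PowerSeries ℝ := PowerSeries.mk (fun n => f n / (n.factorial : ℝ))

lemma coeff_egf (f : ℕ → ℝ) (n : ℕ) : coeff n (egf f) = f n / (n.factorial : ℝ) := by
  simp [egf]

lemma coeff_egf_mul (f g : ℕ → ℝ) (n : ℕ) :
    coeff n (egf f * egf g) =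
      (∑ k ∈ Finset.range (n + 1), (n.choose k : ℝ) * f k * g (n - k)) / (n.factorial : ℝ) := by
  rw [PowerSeries.coeff_mul, Finset.Nat.sum_antidiagonal_eq_sum_range_succ_mk, Finset.sum_div]
  refine Finset.sum_congr rfl fun k hk => ?_
  have hk' : k ≤ n := by simpa [Nat.lt_succ_iff] using hk
  simp only [coeff_egf]
  have h1 : ((n.choose k : ℕ) : ℝ) = (n.factorial : ℝ) / ((k.factorial : ℝ) * ((n - k).factorial : ℝ)) :=
    Nat.cast_choose ℝ hk'
  have h2 : (n.factorial : ℝ) ≠ 0 := by positivity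
  have h3 : (k.factorial : ℝ) ≠ 0 := by positivity
  have h4 : ((n - k).factorial : ℝ) ≠ 0 := by positivity
  rw [h1]
  field_simp

lemma derivative_egf (f : ℕ → ℝ) :
    PowerSeries.derivative ℝ (egf f) = egf (fun n => f (n + 1)) := by
  ext n
  rw [PowerSeries.coeff_derivative, coeff_egf, coeff_egf, Nat.factorial_succ]
  have h2 : (n.factorial : ℝ) ≠ 0 := by positivity
  have h3 : ((n : ℝ) + 1) ≠ 0 := by positivity
  push_cast
  field_simp

lemma coeff_X_mul_egf (f : ℕ → ℝ) (n : ℕ) :
    coeff n (X * egf f) = ((n : ℝ) * f (n - 1)) / (n.factorial : ℝ) := by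
  cases n with
  | zero => simp
  | succ n =>
    rw [PowerSeries.coeff_succ_X_mul, coeff_egf, Nat.factorial_succ]
    have h2 : (n.factorial : ℝ) ≠ 0 := by positivity
    have h3 : ((n : ℝ) + 1) ≠ 0 := by positivity
    push_cast
    field_simp

/-- the two recursions, evaluated at a real number `x` -/
structure Rec (x : ℝ) (A B : ℕ → ℝ) : Prop where
  hA0 : A 0 = 1
  hA1 : A 1 = 1
  hA : ∀ n, 2 ≤ n → A n = A (n - 1) +
    x * ∑ k ∈ Finset.Icc 1 (n - 2), ((n - 1).choose (k - 1) : ℝ) * A (n - k) * A k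
  hB0 : B 0 = 1
  hB : ∀ n, B (n + 1) = B n + x * ∑ i ∈ Finset.range n, (n.choose i : ℝ) * B (n - i) * B i +
    x * ∑ m ∈ Finset.Icc 1 (n - 1), (n.choose (m - 1) : ℝ) * 2 ^ (n + 1 - m) * A (n + 1 - m) * B m

variable {x : ℝ} {A B : ℕ → ℝ}

/-- full convolution form of the type A recursion -/
lemma Rec.convA (h : Rec x A B) (n : ℕ) :
    (1 + x) * A (n + 1) + x * n * A n -
      x * ∑ k ∈ Finset.range (n + 1), (n.choose k : ℝ) * A (k + 1) * A (n - k) = A n := by
  rcases n with _ | n
  · simp [h.hA0, h.hA1]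
  · have h1 := h.hA (n + 2) (by omega)
    simp only [show n + 2 - 1 = n + 1 by omega, show n + 2 - 2 = n by omega] at h1
    have h2 : ∑ k ∈ Finset.Icc 1 n, ((n + 1).choose (k - 1) : ℝ) * A (n + 2 - k) * A k =
        ∑ k ∈ Finset.range n, ((n + 1).choose k : ℝ) * A (k + 1) * A (n + 1 - k) := by
      rw [← Finset.Ico_add_one_right_eq_Icc, Finset.sum_Ico_eq_sum_range]
      simp only [Nat.add_sub_cancel]
      refine Finset.sum_congr rfl fun k hk => ?_
      have hk' : k < n := by simpa using hk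
      rw [show 1 + k - 1 = k by omega, show n + 2 - (1 + k) = n + 1 - k by omega, add_comm 1 k]
      ring
    rw [h2] at h1
    rw [Finset.sum_range_succ, Finset.sum_range_succ]
    have h3 : ((n + 1).choose n : ℝ) = n + 1 := by
      rw [Nat.choose_succ_self_right]; push_cast; ring
    rw [h3, Nat.choose_self, show n + 1 - n = 1 by omega, Nat.sub_self, h.hA0, h.hA1]
    rw [show n + 1 + 1 = n + 2 by ring] at *
    rw [h1]
    push_cast
    ring

/-- full convolution form of the type B recursion -/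
lemma Rec.convB (h : Rec x A B) (n : ℕ) :
    (1 + x) * B (n + 1) + 2 * x * n * B n -
      x * ∑ k ∈ Finset.range (n + 1), (n.choose k : ℝ) * B (k + 1) * (2 ^ (n - k) * A (n - k)) =
    (1 - x) * B n + x * ∑ k ∈ Finset.range (n + 1), (n.choose k : ℝ) * B k * B (n - k) := by
  have h1 := h.hB n
  have hs : ∑ k ∈ Finset.range (n + 1), (n.choose k : ℝ) * B k * B (n - k) =
      ∑ i ∈ Finset.range n, (n.choose i : ℝ) * B (n - i) * B i + B n := by
    rw [Finset.sum_range_succ, Nat.choose_self, Nat.sub_self, h.hB0]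
    congr 1
    · refine Finset.sum_congr rfl fun k _ => by ring
    · push_cast; ring
  rw [hs]
  rcases n with _ | n
  · simp [h.hB0, h.hA0] at h1 ⊢
    rw [h1]; ring
  · have h2 : ∑ m ∈ Finset.Icc 1 n, ((n + 1).choose (m - 1) : ℝ) * 2 ^ (n + 1 + 1 - m) *
          A (n + 1 + 1 - m) * B m =
        ∑ k ∈ Finset.range n, ((n + 1).choose k : ℝ) * B (k + 1) *
          (2 ^ (n + 1 - k) * A (n + 1 - k)) := by
      rw [← Finset.Ico_add_one_right_eq_Icc, Finset.sum_Ico_eq_sum_range]
      simp only [Nat.add_sub_cancel]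
      refine Finset.sum_congr rfl fun k hk => ?_
      have hk' : k < n := by simpa using hk
      rw [show 1 + k - 1 = k by omega, show n + 1 + 1 - (1 + k) = n + 1 - k by omega, add_comm 1 k]
      ring
    simp only [show n + 1 - 1 = n by omega] at h1
    rw [h2] at h1
    rw [Finset.sum_range_succ (fun k => ((n + 1).choose k : ℝ) * B (k + 1) *
      (2 ^ (n + 1 - k) * A (n + 1 - k))), Finset.sum_range_succ (fun k => ((n + 1).choose k : ℝ) *
      B (k + 1) * (2 ^ (n + 1 - k) * A (n + 1 - k)))]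
    have h3 : ((n + 1).choose n : ℝ) = n + 1 := by
      rw [Nat.choose_succ_self_right]; push_cast; ring
    rw [h3, Nat.choose_self, show n + 1 - n = 1 by omega, Nat.sub_self, h.hA0, h.hA1]
    rw [h1]
    push_cast
    ring

/-- the series `w` -/
def wS (A : ℕ → ℝ) : PowerSeries ℝ := egf (fun n => 2 ^ n * A n)

/-- the denominator series -/
def dS (x : ℝ) (A : ℕ → ℝ) : PowerSeries ℝ := 1 - C x * (wS A - 1 - 2 * X)

lemma two_eq_C : (2 : PowerSeries ℝ) = C (2 : ℝ) := (map_ofNat C 2).symm

lemma Rec.ode_w (h : Rec x A B) :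
    PowerSeries.derivative ℝ (wS A) * dS x A = 2 * wS A := by
  have e : PowerSeries.derivative ℝ (wS A) * dS x A =
      C (1 + x) * PowerSeries.derivative ℝ (wS A) +
        C (2 * x) * (X * PowerSeries.derivative ℝ (wS A)) -
        C x * (PowerSeries.derivative ℝ (wS A) * wS A) := by
    rw [dS]; simp only [map_add, map_mul, map_one, two_eq_C]; ring
  obtain ⟨y, hy⟩ : ∃ y, y = 1 + x := ⟨_, rfl⟩
  rw [e, two_eq_C, wS, derivative_egf, ← hy]
  ext n
  simp only [map_sub, map_add, PowerSeries.coeff_C_mul, coeff_X_mul_egf, coeff_egf_mul, coeff_egf]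
  rw [hy]
  have h1 := h.convA n
  have h2 : (n.factorial : ℝ) ≠ 0 := by positivity
  have h3 : ∑ k ∈ Finset.range (n + 1), (n.choose k : ℝ) * (2 ^ (k + 1) * A (k + 1)) *
      (2 ^ (n - k) * A (n - k)) = 2 ^ (n + 1) *
      ∑ k ∈ Finset.range (n + 1), (n.choose k : ℝ) * A (k + 1) * A (n - k) := by
    rw [Finset.mul_sum]
    refine Finset.sum_congr rfl fun k hk => ?_
    have hk' : k ≤ n := by simpa [Nat.lt_succ_iff] using hk
    have : (2 : ℝ) ^ (n + 1) = 2 ^ (k + 1) * 2 ^ (n - k) := by
      rw [← pow_add]; congr 1; omega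
    rw [this]; ring
  rw [h3]
  have h4 : (n : ℝ) * (2 ^ (n - 1 + 1) * A (n - 1 + 1)) = n * (2 ^ n * A n) := by
    rcases n with _ | n
    · simp
    · simp
  rw [h4]
  field_simp
  have : (2 : ℝ) ^ (n + 1) = 2 * 2 ^ n := by ring
  rw [this]
  linear_combination (2 * 2 ^ n) * h1

lemma Rec.ode_b (h : Rec x A B) :
    PowerSeries.derivative ℝ (egf B) * dS x A = egf B * (C (1 - x) + C x * egf B) := by
  have e : PowerSeries.derivative ℝ (egf B) * dS x A =
      C (1 + x) * PowerSeries.derivative ℝ (egf B) +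
        C (2 * x) * (X * PowerSeries.derivative ℝ (egf B)) -
        C x * (PowerSeries.derivative ℝ (egf B) * wS A) := by
    rw [dS]; simp only [map_add, map_mul, map_one, two_eq_C]; ring
  have e2 : egf B * (C (1 - x) + C x * egf B) = C (1 - x) * egf B + C x * (egf B * egf B) := by ring
  obtain ⟨y, hy⟩ : ∃ y, y = 1 + x := ⟨_, rfl⟩
  obtain ⟨z, hz⟩ : ∃ z, z = 1 - x := ⟨_, rfl⟩
  rw [e, e2, wS, derivative_egf, ← hy, ← hz]
  ext n
  simp only [map_sub, map_add, PowerSeries.coeff_C_mul, coeff_X_mul_egf, coeff_egf_mul, coeff_egf]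
  rw [hy, hz]
  have h1 := h.convB n
  have h2 : (n.factorial : ℝ) ≠ 0 := by positivity
  have h4 : (n : ℝ) * (B (n - 1 + 1)) = n * (B n) := by
    rcases n with _ | n
    · simp
    · simp
  rw [h4]
  generalize ∑ k ∈ Finset.range (n + 1), (n.choose k : ℝ) * B (k + 1) *
    (2 ^ (n - k) * A (n - k)) = S1 at h1 ⊢
  generalize ∑ k ∈ Finset.range (n + 1), (n.choose k : ℝ) * B k * B (n - k) = S2 at h1 ⊢
  field_simp
  linear_combination h1

lemma unique_zero {Z D : PowerSeries ℝ} {c : ℝ} (h : PowerSeries.derivative ℝ Z * D = C c * Z)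
    (hD : constantCoeff D = 1) (hZ : constantCoeff Z = 0) : Z = 0 := by
  have key : ∀ n, coeff n Z = 0 := by
    intro n
    induction n using Nat.strong_induction_on with
    | _ n ih =>
      rcases n with _ | n
      · simpa using hZ
      · have h1 := congrArg (coeff n) h
        rw [PowerSeries.coeff_C_mul, ih n (by omega), mul_zero, PowerSeries.coeff_mul,
          Finset.Nat.sum_antidiagonal_eq_sum_range_succ_mk, Finset.sum_range_succ] at h1
        have h2 : ∑ k ∈ Finset.range n, coeff k (PowerSeries.derivative ℝ Z) * coeff (n - k) D = 0 := by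
          refine Finset.sum_eq_zero fun k hk => ?_
          have hk' : k < n := by simpa using hk
          rw [PowerSeries.coeff_derivative, ih (k + 1) (by omega)]; simp
        rw [h2, zero_add, Nat.sub_self, PowerSeries.coeff_zero_eq_constantCoeff_apply, hD, mul_one,
          PowerSeries.coeff_derivative] at h1
        have h3 : ((n : ℝ) + 1) ≠ 0 := by positivity
        exact (mul_eq_zero.mp h1).resolve_right h3
  ext n
  simpa using key n

/-- the series `v` -/
def vS (x : ℝ) (B : ℕ → ℝ) : PowerSeries ℝ := C x + C (1 - x) * (egf B)⁻¹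

lemma Rec.const_b (h : Rec x A B) : constantCoeff (egf B) = 1 := by
  rw [← PowerSeries.coeff_zero_eq_constantCoeff_apply, coeff_egf, h.hB0]; simp

lemma Rec.const_w (h : Rec x A B) : constantCoeff (wS A) = 1 := by
  rw [← PowerSeries.coeff_zero_eq_constantCoeff_apply, wS, coeff_egf, h.hA0]; simp

lemma Rec.const_v (h : Rec x A B) : constantCoeff (vS x B) = 1 := by
  rw [vS, map_add, map_mul, PowerSeries.constantCoeff_inv, h.const_b]; simp

lemma Rec.const_d (h : Rec x A B) : constantCoeff (dS x A) = 1 := by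
  rw [dS]; simp [h.const_w]

lemma Rec.b_mul_inv (h : Rec x A B) : egf B * (egf B)⁻¹ = 1 :=
  PowerSeries.mul_inv_cancel _ (by rw [h.const_b]; exact one_ne_zero)

lemma Rec.v_mul_b (h : Rec x A B) : vS x B * egf B = C x * egf B + C (1 - x) := by
  rw [vS]; linear_combination C (1 - x) * h.b_mul_inv

lemma Rec.ode_v (h : Rec x A B) :
    PowerSeries.derivative ℝ (vS x B) * dS x A = - C (1 - x) * vS x B := by
  have h1 : PowerSeries.derivative ℝ (vS x B) =
      C (1 - x) * (-(egf B)⁻¹ ^ 2 * PowerSeries.derivative ℝ (egf B)) := by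
    rw [vS]
    simp [PowerSeries.derivative_inv']
  rw [h1]
  have h2 := h.ode_b
  have h3 := h.b_mul_inv
  rw [vS]
  linear_combination (- C (1 - x) * (egf B)⁻¹ ^ 2) * h2 +
    (- C (1 - x) * (egf B)⁻¹ * (C (1 - x) + C x * egf B) - C (1 - x) * C x) * h3

lemma deriv_aux (y z : ℝ) (D W V : PowerSeries ℝ) :
    PowerSeries.derivative ℝ (C y * D - W * (V ^ 2 - C z)) =
      C y * PowerSeries.derivative ℝ D -
        (PowerSeries.derivative ℝ W * (V ^ 2 - C z) +
          W * (2 * V * PowerSeries.derivative ℝ V)) := by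
  rw [map_sub, Derivation.leibniz, Derivation.leibniz, map_sub, PowerSeries.derivative_C,
    PowerSeries.derivative_C, PowerSeries.derivative_pow]
  simp only [smul_eq_mul]
  push_cast
  ring

lemma Rec.rel_d (h : Rec x A B) :
    C (1 - x) * dS x A = wS A * (vS x B ^ 2 - C x) := by
  have hv := h.ode_v
  have hw := h.ode_w
  have hd : PowerSeries.derivative ℝ (dS x A) =
      - C x * (PowerSeries.derivative ℝ (wS A) - 2) := by
    rw [dS]
    have : PowerSeries.derivative ℝ ((2 : PowerSeries ℝ) * X) = 2 := by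
      rw [two_eq_C, Derivation.leibniz]; simp
    rw [map_sub, Derivation.leibniz, map_sub, map_sub, this]
    simp
  have hZ : C (1 - x) * dS x A - wS A * (vS x B ^ 2 - C x) = 0 := by
    refine unique_zero (D := dS x A) (c := 2 * x) ?_ h.const_d ?_
    · rw [deriv_aux, hd]
      simp only [map_sub, map_mul, map_one, ← two_eq_C] at hv ⊢
      linear_combination (- C x * (1 - C x) - (vS x B ^ 2 - C x)) * hw -
        (2 * wS A * vS x B) * hv
    · simp [h.const_d, h.const_w, h.const_v]
  linear_combination hZ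

end

end Pool.Agent.H65.TB
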