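import Mathlib
import Pool.Agent.H65.TBSeries

/-!
The auxiliary polynomials `polP s k` and the link with the Taylor coefficients.
-/

namespace Pool.Agent.H65.TB

open Polynomial

noncomputable section

/-- the polynomials governing the derivatives of the type B series -/
def polP (s : ℝ) : ℕ → ℝ[X]
  | 0 => 1
  | k + 1 => (C s + X) * (C s + X ^ 2) *
      (C (1 + s + 2 * ((k : ℝ) + 1)) * polP s k + C (1 + s) * X * derivative (polP s k)) -
      C ((1 + s) * ((k : ℝ) + 2)) * X * (C s + X ^ 2) * polP s k -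
      C (2 * (1 + s) * (2 * (k : ℝ) + 1)) * X ^ 2 * (C s + X) * polP s k

/-- the abstract inductive step -/
lemma step_identity {R : Type*} [CommRing R] (Y Y' W W' V V' Δ a β S c p p' κ : R) (k : ℕ)
    (hw : W' * Δ = 2 * W) (hv : V' * Δ = - S * V) (hrel : S * Δ = W * β)
    (hD : Y' * W ^ (k + 1) * a ^ (k + 2) * β ^ (2 * k + 1) +
      Y * ((κ + 1) * W ^ k * W' * a ^ (k + 2) * β ^ (2 * k + 1) +
        (κ + 2) * W ^ (k + 1) * a ^ (k + 1) * V' * β ^ (2 * k + 1) +
        (2 * κ + 1) * W ^ (k + 1) * a ^ (k + 2) * β ^ (2 * k) * (2 * V * V')) =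
      c * (V' * p + V * (p' * V')))
    (hIH : Y * W ^ (k + 1) * a ^ (k + 2) * β ^ (2 * k + 1) = c * V * p) :
    Y' * W ^ (k + 2) * a ^ (k + 3) * β ^ (2 * k + 3) =
      -(c * S) * V * (a * β * ((S + 2 * (κ + 1)) * p + S * V * p') - S * (κ + 2) * V * β * p -
        2 * S * (2 * κ + 1) * V ^ 2 * a * p) := by
  linear_combination (-(Y' * W ^ (k + 1) * a ^ (k + 3) * β ^ (2 * k + 2))) * hrel +
    (S * Δ * a * β) * hD +
    (S * a * β * (c * (p + V * p') - (κ + 2) * Y * W ^ (k + 1) * a ^ (k + 1) * β ^ (2 * k + 1) -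
      2 * (2 * κ + 1) * V * Y * W ^ (k + 1) * a ^ (k + 2) * β ^ (2 * k))) * hv +
    (-(S * a * β * (κ + 1) * Y * W ^ k * a ^ (k + 2) * β ^ (2 * k + 1))) * hw +
    (S * S * V * β * (κ + 2) + 2 * (2 * κ + 1) * S * S * V ^ 2 * a -
      2 * (κ + 1) * S * a * β) * hIH

lemma deriv_pow_succ (g : PowerSeries ℝ) (k : ℕ) :
    PowerSeries.derivative ℝ (g ^ (k + 1)) =
      ((k : PowerSeries ℝ) + 1) * g ^ k * PowerSeries.derivative ℝ g := by
  rw [PowerSeries.derivative_pow]; push_cast; rfl

lemma deriv_lhs (Y W V : PowerSeries ℝ) (s : ℝ) (k : ℕ) :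
    PowerSeries.derivative ℝ (Y * W ^ (k + 1) * (PowerSeries.C s + V) ^ (k + 2) *
        (PowerSeries.C s + V ^ 2) ^ (2 * k + 1)) =
      PowerSeries.derivative ℝ Y * W ^ (k + 1) * (PowerSeries.C s + V) ^ (k + 2) *
        (PowerSeries.C s + V ^ 2) ^ (2 * k + 1) +
      Y * (((k : PowerSeries ℝ) + 1) * W ^ k * PowerSeries.derivative ℝ W *
          (PowerSeries.C s + V) ^ (k + 2) * (PowerSeries.C s + V ^ 2) ^ (2 * k + 1) +
        ((k : PowerSeries ℝ) + 2) * W ^ (k + 1) * (PowerSeries.C s + V) ^ (k + 1) *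
          PowerSeries.derivative ℝ V * (PowerSeries.C s + V ^ 2) ^ (2 * k + 1) +
        (2 * (k : PowerSeries ℝ) + 1) * W ^ (k + 1) * (PowerSeries.C s + V) ^ (k + 2) *
          (PowerSeries.C s + V ^ 2) ^ (2 * k) * (2 * V * PowerSeries.derivative ℝ V)) := by
  have h1 : PowerSeries.derivative ℝ (PowerSeries.C s + V) = PowerSeries.derivative ℝ V := by
    rw [map_add, PowerSeries.derivative_C, zero_add]
  have h2 : PowerSeries.derivative ℝ (PowerSeries.C s + V ^ 2) =
      2 * V * PowerSeries.derivative ℝ V := by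
    rw [map_add, PowerSeries.derivative_C, zero_add, deriv_pow_succ]
    push_cast
    ring
  rw [Derivation.leibniz, Derivation.leibniz, Derivation.leibniz, deriv_pow_succ W k,
    deriv_pow_succ _ (k + 1), deriv_pow_succ _ (2 * k), h1, h2]
  simp only [smul_eq_mul]
  push_cast
  ring

lemma deriv_rhs (V : PowerSeries ℝ) (c : ℝ) (p : ℝ[X]) :
    PowerSeries.derivative ℝ (PowerSeries.C c * V * aeval V p) =
      PowerSeries.C c * (PowerSeries.derivative ℝ V * aeval V p +
        V * (aeval V (derivative p) * PowerSeries.derivative ℝ V)) := by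
  have h3 : PowerSeries.derivative ℝ (aeval V p) =
      aeval V (derivative p) * PowerSeries.derivative ℝ V := by
    rw [Derivation.comp_aeval_eq (a := V) (PowerSeries.derivative ℝ) p, smul_eq_mul]
  rw [Derivation.leibniz, Derivation.leibniz, h3, PowerSeries.derivative_C]
  simp only [smul_eq_mul]
  ring

lemma aeval_polP_succ (s : ℝ) (V : PowerSeries ℝ) (k : ℕ) : aeval V (polP s (k + 1)) =
        (PowerSeries.C s + V) * (PowerSeries.C s + V ^ 2) *
          ((PowerSeries.C (1 + s) + 2 * ((k : PowerSeries ℝ) + 1)) * aeval V (polP s k) +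
            PowerSeries.C (1 + s) * V * aeval V (derivative (polP s k))) -
          PowerSeries.C (1 + s) * ((k : PowerSeries ℝ) + 2) * V * (PowerSeries.C s + V ^ 2) *
            aeval V (polP s k) -
          2 * PowerSeries.C (1 + s) * (2 * (k : PowerSeries ℝ) + 1) * V ^ 2 *
            (PowerSeries.C s + V) * aeval V (polP s k) := by
  rw [polP]
  have hC : ∀ r : ℝ, algebraMap ℝ (PowerSeries ℝ) r = PowerSeries.C r := fun r => rfl
  simp only [map_sub, map_mul, map_add, aeval_C, aeval_X, map_pow, hC, map_natCast, map_one,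
    map_ofNat]

variable {s : ℝ} {A B : ℕ → ℝ}

/-- key identity: the derivatives of the type B series -/
lemma Rec.key (h : Rec (-s) A B) (k : ℕ) :
    ((PowerSeries.derivative ℝ)^[k + 1] (egf B)) * (wS A) ^ (k + 1) *
        (PowerSeries.C s + vS (-s) B) ^ (k + 2) *
        (PowerSeries.C s + vS (-s) B ^ 2) ^ (2 * k + 1) =
      PowerSeries.C ((-1) ^ k * (1 + s) ^ (k + 3)) * vS (-s) B *
        aeval (vS (-s) B) (polP s k) := by
  have hw := h.ode_w
  have hv := h.ode_v
  have hrel := h.rel_d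
  have hb := h.ode_b
  have hvb := h.v_mul_b
  simp only [sub_neg_eq_add] at hv hrel hb hvb
  have hrel' : PowerSeries.C (1 + s) * dS (-s) A = wS A * (PowerSeries.C s + vS (-s) B ^ 2) := by
    rw [hrel]; simp only [map_neg]; ring
  induction k with
  | zero =>
    have hc : (PowerSeries.C s + PowerSeries.C (-s) : PowerSeries ℝ) = 0 := by simp
    have hab : (PowerSeries.C s + vS (-s) B) * egf B = PowerSeries.C (1 + s) := by
      linear_combination (exp := 1) hvb + (egf B) * hc
    have hb' : PowerSeries.derivative ℝ (egf B) * dS (-s) A = egf B * (vS (-s) B * egf B) := by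
      rw [hb]; linear_combination (- egf B) * hvb
    simp only [zero_add, Function.iterate_one, polP, pow_one, map_one, mul_one, mul_zero, pow_zero,
      one_mul]
    have e3 : (PowerSeries.C ((1 + s) ^ 3) : PowerSeries ℝ) = PowerSeries.C (1 + s) ^ 3 := by
      simp only [map_pow]
    rw [e3]
    linear_combination
      (-(PowerSeries.derivative ℝ (egf B)) * (PowerSeries.C s + vS (-s) B) ^ 2) * hrel' +
      (PowerSeries.C (1 + s) * (PowerSeries.C s + vS (-s) B) ^ 2) * hb' +
      (PowerSeries.C (1 + s) * vS (-s) B * ((PowerSeries.C s + vS (-s) B) * egf B +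
        PowerSeries.C (1 + s))) * hab
  | succ k ih =>
    have hD := congrArg (PowerSeries.derivative ℝ) ih
    rw [deriv_lhs, deriv_rhs] at hD
    rw [Function.iterate_succ_apply' (PowerSeries.derivative ℝ) (k + 1), aeval_polP_succ]
    have e1 : (PowerSeries.C ((-1) ^ (k + 1) * (1 + s) ^ (k + 1 + 3)) : PowerSeries ℝ) =
        -(PowerSeries.C ((-1) ^ k * (1 + s) ^ (k + 3)) * PowerSeries.C (1 + s)) := by
      rw [← map_mul, ← map_neg]; congr 1; ring
    rw [e1, show k + 1 + 1 = k + 2 by ring, show k + 1 + 2 = k + 3 by ring,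
      show 2 * (k + 1) + 1 = 2 * k + 3 by ring]
    exact step_identity _ _ _ _ _ _ _ _ _ _ _ _ _ _ k hw hv hrel' hD ih

/-- the value at `1` of the auxiliary polynomials -/
lemma Rec.eval_one (h : Rec (-s) A B) (hs : 0 < s) (k : ℕ) :
    (polP s k).eval 1 = (-1) ^ k * (1 + s) ^ (2 * k) * B (k + 1) := by
  have hk := congrArg PowerSeries.constantCoeff (h.key k)
  have hv1 := h.const_v
  have h1 : PowerSeries.constantCoeff (aeval (vS (-s) B) (polP s k)) = (polP s k).eval 1 := by
    have : (PowerSeries.constantCoeff (R := ℝ)) (aeval (vS (-s) B) (polP s k)) =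
        eval₂ (RingHom.id ℝ) (PowerSeries.constantCoeff (vS (-s) B)) (polP s k) := by
      rw [aeval_def, hom_eval₂]
      congr 1
    rw [this, hv1, eval₂_id]
  simp only [map_mul, map_pow, map_add, PowerSeries.constantCoeff_C, hv1, h.const_w, h1,
    PowerSeries.constantCoeff_iterate_derivative] at hk
  rw [coeff_egf, mul_div_cancel₀ _ (by positivity)] at hk
  have hS : (1 + s : ℝ) ≠ 0 := by positivity
  have h2 : (-1 : ℝ) ^ k * (-1) ^ k = 1 := by rw [← mul_pow]; norm_num
  have h3 : (s + 1) ^ (k + 2) * (s + 1 ^ 2) ^ (2 * k + 1) = (1 + s) ^ (k + 3) * (1 + s) ^ (2 * k) := by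
    ring
  have h4 : (1 + s) ^ (k + 3) * ((polP s k).eval 1 - (-1) ^ k * (1 + s) ^ (2 * k) * B (k + 1)) = 0 := by
    linear_combination (-(-1) ^ k) * hk + (-(1 + s) ^ (k + 3) * eval 1 (polP s k)) * h2 +
      ((-1) ^ k * B (k + 1)) * h3
  rcases mul_eq_zero.mp h4 with h5 | h5
  · exact absurd h5 (pow_ne_zero _ hS)
  · linarith

end

end Pool.Agent.H65.TB
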