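import Mathlib
import Pool.Agent.H65.TBPoly

/-!
The companion polynomials `polQ` and the identity relating them to `polP`; signs of coefficients.
-/

namespace Pool.Agent.H65.TB

open Polynomial

noncomputable section

/-- the companion polynomials (numerators of the derivatives of `t * b`) -/
def polQ (s : ℝ) : ℕ → ℝ[X]
  | 0 => -(C (2 * s) + C (s - 1) * X)
  | k + 1 => (C s + X ^ 2) *
      (C (1 + s) * X * derivative (polQ s k) + C (2 * (k : ℝ)) * polQ s k) -
      C (2 * (1 + s) * (2 * (k : ℝ) + 1)) * X ^ 2 * polQ s k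

/-- numerator of the logarithmic derivative type expression -/
def polPsi (s : ℝ) (k : ℕ) : ℝ[X] :=
  (C s + X ^ 2) * ((C (s - 1) * (C s - X) - C ((1 + s) * ((k : ℝ) + 2)) * X) * polP s k +
      C (1 + s) * (C s - X) * X * derivative (polP s k)) -
    C (2 * (1 + s) * (2 * (k : ℝ) + 1)) * X ^ 2 * (C s - X) * polP s k

/-- the abstract inductive step for the identity between `polPsi` and `polQ` -/
lemma stepQ {R : Type*} [CommRing R] (s x κ P P' P1 P1' Q1 Q1' : R) (k : ℕ)
    (h1 : (1 + s) * x * ((s - x) * P1 - 2 * (κ + 2) * s * (s + x ^ 2) ^ 2 * P) +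
      (s + x) ^ (k + 2) * Q1 = 0)
    (h1' : (1 + s) * ((s - x) * P1 - 2 * (κ + 2) * s * (s + x ^ 2) ^ 2 * P) +
      (1 + s) * x * (-P1 + (s - x) * P1' - 2 * (κ + 2) * s *
        (4 * x * (s + x ^ 2) * P + (s + x ^ 2) ^ 2 * P')) +
      (κ + 2) * (s + x) ^ (k + 1) * Q1 + (s + x) ^ (k + 2) * Q1' = 0)
    (hR : P1 = (s + x) * (s + x ^ 2) * ((1 + s + 2 * (κ + 1)) * P + (1 + s) * x * P') -
      (1 + s) * (κ + 2) * x * (s + x ^ 2) * P - 2 * (1 + s) * (2 * κ + 1) * x ^ 2 * (s + x) * P) :
    (s + x) * ((1 + s) * x * ((s + x ^ 2) * (((s - 1) * (s - x) - (1 + s) * (κ + 1 + 2) * x) * P1 +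
        (1 + s) * (s - x) * x * P1') - 2 * (1 + s) * (2 * (κ + 1) + 1) * x ^ 2 * (s - x) * P1) +
      (s + x) ^ (k + 2) * ((s + x ^ 2) * ((1 + s) * x * Q1' + 2 * (κ + 1) * Q1) -
        2 * (1 + s) * (2 * (κ + 1) + 1) * x ^ 2 * Q1)) = 0 := by
  linear_combination ((s + x) * (s + x ^ 2) * (1 + s) * x) * h1' +
    ((s + x) * (2 * (κ + 1) * (s + x ^ 2) - 2 * (1 + s) * (2 * (κ + 1) + 1) * x ^ 2) -
      (s + x ^ 2) * (1 + s) * x * (κ + 2)) * h1 -
    (2 * (κ + 2) * s * (s + x ^ 2) ^ 2 * (1 + s) * x) * hR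

lemma polP_succ' (s : ℝ) (k : ℕ) : polP s (k + 1) =
    (C s + X) * (C s + X ^ 2) *
      ((1 + C s + 2 * ((k : ℝ[X]) + 1)) * polP s k + (1 + C s) * X * derivative (polP s k)) -
      (1 + C s) * ((k : ℝ[X]) + 2) * X * (C s + X ^ 2) * polP s k -
      2 * (1 + C s) * (2 * (k : ℝ[X]) + 1) * X ^ 2 * (C s + X) * polP s k := by
  rw [polP]
  simp only [map_add, map_mul, map_one, map_ofNat, map_natCast]

lemma polQ_succ' (s : ℝ) (k : ℕ) : polQ s (k + 1) =
    (C s + X ^ 2) * ((1 + C s) * X * derivative (polQ s k) + 2 * (k : ℝ[X]) * polQ s k) -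
      2 * (1 + C s) * (2 * (k : ℝ[X]) + 1) * X ^ 2 * polQ s k := by
  rw [polQ]
  simp only [map_add, map_mul, map_one, map_ofNat, map_natCast]

lemma polPsi_eq (s : ℝ) (k : ℕ) : polPsi s k =
    (C s + X ^ 2) * (((C s - 1) * (C s - X) - (1 + C s) * ((k : ℝ[X]) + 2) * X) * polP s k +
      (1 + C s) * (C s - X) * X * derivative (polP s k)) -
    2 * (1 + C s) * (2 * (k : ℝ[X]) + 1) * X ^ 2 * (C s - X) * polP s k := by
  rw [polPsi]
  simp only [map_sub, map_add, map_mul, map_one, map_ofNat, map_natCast]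

/-- first form, multiplied by `s + X` -/
lemma alpha_mul_polPsi (s : ℝ) (k : ℕ) : (C s + X) * polPsi s k =
    (C s - X) * polP s (k + 1) -
      2 * ((k : ℝ[X]) + 2) * C s * (C s + X ^ 2) ^ 2 * polP s k := by
  rw [polPsi_eq, polP_succ']
  ring

lemma alpha_ne_zero (s : ℝ) : (C s + X : ℝ[X]) ≠ 0 := by
  intro h
  have := congrArg (fun p => coeff p 1) h
  simp at this

lemma polQ_zero' (s : ℝ) : polQ s 0 = -(2 * C s + (C s - 1) * X) := by
  rw [polQ]
  simp only [map_sub, map_mul, map_one, map_ofNat]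

/-- the identity between `polPsi` and `polQ` -/
lemma psi_identity (s : ℝ) (k : ℕ) :
    (1 + C s) * X * polPsi s k = - (C s + X) ^ (k + 1) * polQ s (k + 1) := by
  induction k with
  | zero =>
    have hd : derivative (-(2 * C s + (C s - 1) * X : ℝ[X])) = -(C s - 1) := by
      simp
    rw [polPsi_eq, polQ_succ', polQ_zero', hd]
    simp only [polP, derivative_one, Nat.cast_zero]
    ring
  | succ k ih =>
    have h1 : (1 + C s) * X * ((C s - X) * polP s (k + 1) -
        2 * ((k : ℝ[X]) + 2) * C s * (C s + X ^ 2) ^ 2 * polP s k) +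
        (C s + X) ^ (k + 2) * polQ s (k + 1) = 0 := by
      rw [← alpha_mul_polPsi]
      linear_combination (C s + X) * ih
    have h1' := congrArg derivative h1
    simp only [derivative_sub, derivative_mul, derivative_C, derivative_X,
      derivative_one, derivative_pow, derivative_natCast, derivative_ofNat,
      derivative_zero, Nat.cast_ofNat, Nat.cast_add, map_add, map_natCast, map_ofNat,
      show k + 2 - 1 = k + 1 by omega] at h1'
    have h2 := stepQ (C s) X (k : ℝ[X]) (polP s k) (derivative (polP s k)) (polP s (k + 1))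
      (derivative (polP s (k + 1))) (polQ s (k + 1)) (derivative (polQ s (k + 1))) k h1
      (by linear_combination h1') (polP_succ' s k)
    have h3 : (C s + X) * ((1 + C s) * X * polPsi s (k + 1) +
        (C s + X) ^ (k + 1 + 1) * polQ s (k + 1 + 1)) = 0 := by
      rw [polPsi_eq, polQ_succ']
      push_cast
      linear_combination h2
    rcases mul_eq_zero.mp h3 with h4 | h4
    · exact absurd h4 (alpha_ne_zero s)
    · linear_combination h4

lemma coeff_X_mul_derivative (p : ℝ[X]) (j : ℕ) :
    (X * derivative p).coeff j = (j : ℝ) * p.coeff j := by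
  cases j with
  | zero => simp
  | succ j => rw [coeff_X_mul, coeff_derivative]; push_cast; ring

lemma coeff_polQ_succ (s : ℝ) (k j : ℕ) : (polQ s (k + 1)).coeff (j + 2) =
    s * ((1 + s) * ((j : ℝ) + 2) + 2 * k) * (polQ s k).coeff (j + 2) -
      ((1 + s) * (4 * (k : ℝ) + 2 - j) - 2 * k) * (polQ s k).coeff j := by
  have e : polQ s (k + 1) = C (s * (1 + s)) * (X * derivative (polQ s k)) +
      C (s * (2 * k)) * polQ s k +
      X ^ 2 * (C (1 + s) * (X * derivative (polQ s k)) + C (2 * (k : ℝ)) * polQ s k) -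
      X ^ 2 * (C (2 * (1 + s) * (2 * (k : ℝ) + 1)) * polQ s k) := by
    rw [polQ]; simp only [map_mul, map_add]; ring
  rw [e]
  simp only [coeff_add, coeff_sub, coeff_C_mul, coeff_X_mul_derivative, coeff_X_pow_mul]
  push_cast
  ring

lemma coeff_polQ_succ_small (s : ℝ) (k j : ℕ) (hj : j < 2) : (polQ s (k + 1)).coeff j =
    s * ((1 + s) * (j : ℝ) + 2 * k) * (polQ s k).coeff j := by
  have e : polQ s (k + 1) = C (s * (1 + s)) * (X * derivative (polQ s k)) +
      C (s * (2 * k)) * polQ s k +
      X ^ 2 * (C (1 + s) * (X * derivative (polQ s k)) + C (2 * (k : ℝ)) * polQ s k) -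
      X ^ 2 * (C (2 * (1 + s) * (2 * (k : ℝ) + 1)) * polQ s k) := by
    rw [polQ]; simp only [map_mul, map_add]; ring
  rw [e]
  simp only [coeff_add, coeff_sub, coeff_C_mul, coeff_X_mul_derivative, coeff_X_pow_mul',
    if_neg (not_le.mpr hj)]
  ring

lemma coeff_polQ_zero_zero (s : ℝ) : (polQ s 0).coeff 0 = - (2 * s) := by
  simp [polQ]

lemma coeff_polQ_zero_one (s : ℝ) : (polQ s 0).coeff 1 = - (s - 1) := by
  simp [polQ]

lemma coeff_polQ_zero_big (s : ℝ) (j : ℕ) (hj : 2 ≤ j) : (polQ s 0).coeff j = 0 := by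
  have h1 : j ≠ 0 := by omega
  have h2 : j ≠ 1 := by omega
  simp only [polQ, coeff_neg, coeff_add, coeff_C, h1, if_false, coeff_C_mul, coeff_X, Ne.symm h2,
    zero_add, mul_zero, neg_zero]

/-- degree bound, in coefficient form -/
lemma coeff_polQ_big (s : ℝ) (k j : ℕ) (hj : 2 * k + 2 ≤ j) : (polQ s k).coeff j = 0 := by
  induction k generalizing j with
  | zero => exact coeff_polQ_zero_big s j (by omega)
  | succ k ih =>
    obtain ⟨i, rfl⟩ : ∃ i, j = i + 2 := ⟨j - 2, by omega⟩
    rw [coeff_polQ_succ, ih (i + 2) (by omega), ih i (by omega)]; ring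

lemma natDegree_polQ_le (s : ℝ) (k : ℕ) : (polQ s k).natDegree ≤ 2 * k + 1 := by
  rw [natDegree_le_iff_coeff_eq_zero]
  intro j hj
  exact coeff_polQ_big s k j (by omega)

/-- sign pattern of the even coefficients -/
lemma sign_even {s : ℝ} (hs : 0 < s) (k i : ℕ) : (-1) ^ i * (polQ s k).coeff (2 * i) ≤ 0 := by
  induction k generalizing i with
  | zero =>
    rcases i with _ | i
    · simp only [pow_zero, one_mul, mul_zero, coeff_polQ_zero_zero]; linarith
    · rw [coeff_polQ_zero_big s _ (by omega)]; simp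
  | succ k ih =>
    rcases i with _ | i
    · rw [coeff_polQ_succ_small s k _ (by norm_num)]
      have := ih 0
      simp only [pow_zero, one_mul, mul_zero, Nat.cast_zero, zero_add] at this ⊢
      have h2 : 0 ≤ s * (2 * (k : ℝ)) := by positivity
      nlinarith
    · rw [show 2 * (i + 1) = 2 * i + 2 by ring, coeff_polQ_succ]
      by_cases hi : i ≤ k
      · have h1 := ih (i + 1)
        have h2 := ih i
        rw [show 2 * (i + 1) = 2 * i + 2 by ring] at h1
        have hik : (i : ℝ) ≤ k := by exact_mod_cast hi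
        have hi0 : (0 : ℝ) ≤ i := by positivity
        have hk0 : (0 : ℝ) ≤ k := by positivity
        have c1 : 0 ≤ s * ((1 + s) * (((2 * i : ℕ) : ℝ) + 2) + 2 * k) := by positivity
        have c2 : 0 ≤ (1 + s) * (4 * (k : ℝ) + 2 - ((2 * i : ℕ) : ℝ)) - 2 * k := by
          push_cast; nlinarith
        have e : (-1 : ℝ) ^ (i + 1) * (s * ((1 + s) * (((2 * i : ℕ) : ℝ) + 2) + 2 * k) *
            (polQ s k).coeff (2 * i + 2) - ((1 + s) * (4 * (k : ℝ) + 2 - ((2 * i : ℕ) : ℝ)) - 2 * k) *
            (polQ s k).coeff (2 * i)) =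
            s * ((1 + s) * (((2 * i : ℕ) : ℝ) + 2) + 2 * k) * ((-1) ^ (i + 1) * (polQ s k).coeff (2 * i + 2)) +
            ((1 + s) * (4 * (k : ℝ) + 2 - ((2 * i : ℕ) : ℝ)) - 2 * k) *
              ((-1) ^ i * (polQ s k).coeff (2 * i)) := by
          rw [pow_succ]; ring
        rw [e]
        nlinarith [mul_nonneg c1 (neg_nonneg.mpr h1), mul_nonneg c2 (neg_nonneg.mpr h2)]
      · rw [coeff_polQ_big s k _ (by omega), coeff_polQ_big s k _ (by omega)]; simp

/-- sign pattern of the odd coefficients -/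
lemma sign_odd {s : ℝ} (hs : 0 < s) (k i : ℕ) :
    ∃ o : ℝ, (polQ s k).coeff (2 * i + 1) = (s - 1) * o ∧ (-1) ^ i * o ≤ 0 := by
  induction k generalizing i with
  | zero =>
    rcases i with _ | i
    · refine ⟨-1, ?_, by norm_num⟩
      rw [show 2 * 0 + 1 = 1 by norm_num, coeff_polQ_zero_one]; ring
    · refine ⟨0, ?_, by norm_num⟩
      rw [coeff_polQ_zero_big s _ (by omega)]; simp
  | succ k ih =>
    rcases i with _ | i
    · rw [coeff_polQ_succ_small s k _ (by norm_num)]
      obtain ⟨o, h1, h2⟩ := ih 0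
      refine ⟨s * ((1 + s) * ((2 * 0 + 1 : ℕ) : ℝ) + 2 * k) * o, ?_, ?_⟩
      · rw [h1]; ring
      · have h3 : 0 ≤ s * ((1 + s) * ((2 * 0 + 1 : ℕ) : ℝ) + 2 * k) := by positivity
        simp only [pow_zero, one_mul] at h2 ⊢
        nlinarith
    · rw [show 2 * (i + 1) + 1 = 2 * i + 1 + 2 by ring, coeff_polQ_succ]
      by_cases hi : i ≤ k
      · obtain ⟨o1, h1, h1'⟩ := ih (i + 1)
        obtain ⟨o2, h2, h2'⟩ := ih i
        rw [show 2 * (i + 1) + 1 = 2 * i + 1 + 2 by ring] at h1
        have hik : (i : ℝ) ≤ k := by exact_mod_cast hi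
        have hi0 : (0 : ℝ) ≤ i := by positivity
        have hk0 : (0 : ℝ) ≤ k := by positivity
        have c1 : 0 ≤ s * ((1 + s) * (((2 * i + 1 : ℕ) : ℝ) + 2) + 2 * k) := by positivity
        have c2 : 0 ≤ (1 + s) * (4 * (k : ℝ) + 2 - ((2 * i + 1 : ℕ) : ℝ)) - 2 * k := by
          push_cast; nlinarith
        refine ⟨s * ((1 + s) * (((2 * i + 1 : ℕ) : ℝ) + 2) + 2 * k) * o1 -
          ((1 + s) * (4 * (k : ℝ) + 2 - ((2 * i + 1 : ℕ) : ℝ)) - 2 * k) * o2, ?_, ?_⟩
        · rw [h1, h2]; ring
        · have e : (-1 : ℝ) ^ (i + 1) * (s * ((1 + s) * (((2 * i + 1 : ℕ) : ℝ) + 2) + 2 * k) * o1 -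
              ((1 + s) * (4 * (k : ℝ) + 2 - ((2 * i + 1 : ℕ) : ℝ)) - 2 * k) * o2) =
              s * ((1 + s) * (((2 * i + 1 : ℕ) : ℝ) + 2) + 2 * k) * ((-1) ^ (i + 1) * o1) +
              ((1 + s) * (4 * (k : ℝ) + 2 - ((2 * i + 1 : ℕ) : ℝ)) - 2 * k) * ((-1) ^ i * o2) := by
            rw [pow_succ]; ring
          rw [e]
          nlinarith [mul_nonneg c1 (neg_nonneg.mpr h1'), mul_nonneg c2 (neg_nonneg.mpr h2')]
      · refine ⟨0, ?_, by simp⟩
        rw [coeff_polQ_big s k _ (by omega), coeff_polQ_big s k _ (by omega)]; simp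

lemma coeff_zero_polQ_succ (s : ℝ) (k : ℕ) : (polQ s (k + 1)).coeff 0 = 0 := by
  induction k with
  | zero => rw [coeff_polQ_succ_small s 0 _ (by norm_num)]; simp
  | succ k ih => rw [coeff_polQ_succ_small s (k + 1) _ (by norm_num), ih]; simp

lemma coeff_two_polQ_succ {s : ℝ} (hs : 0 < s) (k : ℕ) : 0 < (polQ s (k + 1)).coeff 2 := by
  induction k with
  | zero =>
    rw [show (2 : ℕ) = 0 + 2 by norm_num, coeff_polQ_succ, coeff_polQ_zero_zero,
      coeff_polQ_zero_big s _ (by omega)]
    push_cast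
    nlinarith
  | succ k ih =>
    rw [show (2 : ℕ) = 0 + 2 by norm_num, coeff_polQ_succ, coeff_zero_polQ_succ]
    have : 0 < s * ((1 + s) * (((0 : ℕ) : ℝ) + 2) + 2 * ((k + 1 : ℕ) : ℝ)) := by positivity
    have := mul_pos this ih
    simp only [zero_add] at this ⊢
    linarith

lemma polQ_succ_ne_zero {s : ℝ} (hs : 0 < s) (k : ℕ) : polQ s (k + 1) ≠ 0 := by
  intro h
  have := coeff_two_polQ_succ hs k
  rw [h] at this
  simp at this

/-- A bound for the number of sign variations from a monotone block structure. -/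
lemma signVariations_le_of_blocks (τ : ℕ → ℕ) (hτ : Monotone τ) :
    ∀ (N : ℕ) (P : ℝ[X]), P.natDegree ≤ N → (∀ j, 0 ≤ (-1) ^ (τ j) * P.coeff j) →
      P.signVariations ≤ τ N := by
  intro N
  induction N using Nat.strong_induction_on with
  | _ N ih =>
    intro P hP hc
    by_cases h0 : P = 0
    · simp [h0]
    by_cases hE : P.eraseLead = 0
    · have := signVariations_le_eraseLead_succ (P := P)
      have h1 := signVariations_eq_eraseLead_add_ite h0
      rw [hE] at h1
      have h2 : SignType.sign P.leadingCoeff ≠ - SignType.sign (0 : ℝ[X]).leadingCoeff := by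
        simp [h0]
      rw [if_neg h2, signVariations_zero] at h1
      omega
    · have h1 := signVariations_eq_eraseLead_add_ite h0
      have hlt : P.eraseLead.natDegree < P.natDegree := by
        have hsup : 2 ≤ P.support.card := by
          have := eraseLead_support_card_lt h0
          have h3 : 0 < P.eraseLead.support.card := by
            rw [Finset.card_pos]
            exact (support_nonempty).mpr hE
          omega
        exact eraseLead_natDegree_lt hsup
      have hce : ∀ j, 0 ≤ (-1) ^ (τ j) * P.eraseLead.coeff j := by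
        intro j
        rw [eraseLead_coeff]
        split_ifs with hj
        · simp
        · exact hc j
      have h2 := ih P.eraseLead.natDegree (by omega) P.eraseLead le_rfl hce
      have hmono : τ P.eraseLead.natDegree ≤ τ P.natDegree := hτ hlt.le
      have hmono2 : τ P.natDegree ≤ τ N := hτ hP
      by_cases hs : SignType.sign P.leadingCoeff = - SignType.sign P.eraseLead.leadingCoeff
      · rw [if_pos hs] at h1
        have hne : τ P.eraseLead.natDegree ≠ τ P.natDegree := by
          intro heq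
          have ha := hc P.natDegree
          have hb := hce P.eraseLead.natDegree
          rw [← heq] at ha
          have hla : P.coeff P.natDegree ≠ 0 := leadingCoeff_ne_zero.mpr h0
          have hlb : P.eraseLead.coeff P.eraseLead.natDegree ≠ 0 := leadingCoeff_ne_zero.mpr hE
          rcases neg_one_pow_eq_or ℝ (τ P.eraseLead.natDegree) with hp | hp
          · rw [hp, one_mul] at ha hb
            have ha' : 0 < P.leadingCoeff := lt_of_le_of_ne ha (Ne.symm hla)
            have hb' : 0 < P.eraseLead.leadingCoeff := lt_of_le_of_ne hb (Ne.symm hlb)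
            rw [sign_pos ha', sign_pos hb'] at hs
            exact absurd hs (by decide)
          · rw [hp] at ha hb
            have ha' : P.leadingCoeff < 0 := lt_of_le_of_ne (by linarith [show P.coeff P.natDegree = P.leadingCoeff from rfl]) hla
            have hb' : P.eraseLead.leadingCoeff < 0 := lt_of_le_of_ne (by linarith [show P.eraseLead.coeff P.eraseLead.natDegree = P.eraseLead.leadingCoeff from rfl]) hlb
            rw [sign_neg ha', sign_neg hb'] at hs
            exact absurd hs (by decide)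
        omega
      · rw [if_neg hs] at h1
        omega

/-- Descartes bound for `polQ` -/
lemma signVariations_polQ_le {s : ℝ} (hs : 0 < s) (k : ℕ) :
    (polQ s (k + 1)).signVariations ≤ k + 1 := by
  rcases le_total 1 s with h1 | h1
  · have h := signVariations_le_of_blocks (fun j => j / 2)
      (fun a b hab => Nat.div_le_div_right hab) (2 * (k + 1) + 1) (-(polQ s (k + 1)))
      (by rw [natDegree_neg]; exact natDegree_polQ_le s (k + 1)) ?_
    · rw [signVariations_neg] at h
      have : (2 * (k + 1) + 1) / 2 = k + 1 := by omega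
      simpa [this] using h
    · intro j
      rcases Nat.even_or_odd' j with ⟨i, rfl | rfl⟩
      · have h2 := sign_even hs (k + 1) i
        simp only [show 2 * i / 2 = i by omega, coeff_neg]
        linarith
      · obtain ⟨o, h2, h3⟩ := sign_odd hs (k + 1) i
        simp only [show (2 * i + 1) / 2 = i by omega, coeff_neg, h2]
        nlinarith
  · have h := signVariations_le_of_blocks (fun j => (j - 1) / 2)
      (fun a b hab => Nat.div_le_div_right (by omega)) (2 * (k + 1) + 1) (polQ s (k + 1))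
      (natDegree_polQ_le s (k + 1)) ?_
    · have : (2 * (k + 1) + 1 - 1) / 2 = k + 1 := by omega
      simpa [this] using h
    · intro j
      rcases Nat.even_or_odd' j with ⟨i, rfl | rfl⟩
      · rcases i with _ | i
        · rw [mul_zero, coeff_zero_polQ_succ]; simp
        · have h2 := sign_even hs (k + 1) (i + 1)
          simp only [show (2 * (i + 1) - 1) / 2 = i by omega]
          rw [pow_succ] at h2
          linarith
      · obtain ⟨o, h2, h3⟩ := sign_odd hs (k + 1) i
        simp only [show (2 * i + 1 - 1) / 2 = i by omega, h2]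
        nlinarith

/-- the positive roots of a real polynomial, as a finite set -/
def posRoots (p : ℝ[X]) : Finset ℝ := p.roots.toFinset.filter (0 < ·)

lemma card_posRoots_le (p : ℝ[X]) : (posRoots p).card ≤ p.signVariations := by
  refine le_trans ?_ (roots_countP_pos_le_signVariations p)
  rw [posRoots, Multiset.countP_eq_card_filter, ← Multiset.toFinset_filter]
  exact Multiset.toFinset_card_le _

lemma card_posRoots_polQ_le {s : ℝ} (hs : 0 < s) (k : ℕ) :
    (posRoots (polQ s (k + 1))).card ≤ k + 1 :=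
  (card_posRoots_le _).trans (signVariations_polQ_le hs k)

end

end Pool.Agent.H65.TB
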