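import Mathlib
import Pool.Agent.H65.TBQ

/-!
The two weighted functions whose derivatives are governed by `polP s (k+1)` and `polPsi s k`.
-/

namespace Pool.Agent.H65.TB

open Polynomial

noncomputable section

/-- `H`, whose derivative has the sign of `polP s (k+1)` -/
def Hf (s : ℝ) (k : ℕ) (v : ℝ) : ℝ :=
  v ^ (2 * ((k : ℝ) + 1) / (1 + s) + 1) *
    ((polP s k).eval v / ((s + v) ^ (k + 2) * (s + v ^ 2) ^ (2 * k + 1)))

/-- `G`, used for the upper bound on the number of zeros -/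
def Gf (s : ℝ) (k : ℕ) (v : ℝ) : ℝ :=
  v ^ ((s - 1) / (1 + s)) * ((s - v) ^ (k + 2) * (polP s k).eval v / (s + v ^ 2) ^ (2 * k + 1))

lemma pow_deriv1 (s v : ℝ) (k : ℕ) : HasDerivAt (fun v : ℝ => (s + v) ^ (k + 2))
      (((k : ℝ) + 2) * (s + v) ^ (k + 1)) v := by
  have h := ((hasDerivAt_id' v).const_add s).fun_pow (k + 2)
  refine h.congr_deriv ?_
  rw [show k + 2 - 1 = k + 1 by omega]
  push_cast; ring

lemma pow_deriv1' (s v : ℝ) (k : ℕ) : HasDerivAt (fun v : ℝ => (s - v) ^ (k + 2))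
      (-(((k : ℝ) + 2) * (s - v) ^ (k + 1))) v := by
  have h := ((hasDerivAt_id' v).const_sub s).fun_pow (k + 2)
  refine h.congr_deriv ?_
  rw [show k + 2 - 1 = k + 1 by omega]
  push_cast; ring

lemma pow_deriv2 (s v : ℝ) (k : ℕ) : HasDerivAt (fun v : ℝ => (s + v ^ 2) ^ (2 * k + 1))
      ((2 * (k : ℝ) + 1) * (s + v ^ 2) ^ (2 * k) * (2 * v)) v := by
  have h := ((hasDerivAt_pow 2 v).const_add s).fun_pow (2 * k + 1)
  refine h.congr_deriv ?_
  rw [show 2 * k + 1 - 1 = 2 * k by omega]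
  push_cast; ring

lemma hasDerivAt_Hf {s : ℝ} (hs : 0 < s) (k : ℕ) {v : ℝ} (hv : 0 < v) :
    HasDerivAt (Hf s k) (v ^ (2 * ((k : ℝ) + 1) / (1 + s)) / ((1 + s) * (s + v) ^ (k + 3) *
      (s + v ^ 2) ^ (2 * k + 2)) * (polP s (k + 1)).eval v) v := by
  have hS : (1 + s) ≠ 0 := by positivity
  have ha : s + v ≠ 0 := by positivity
  have hb : s + v ^ 2 ≠ 0 := by positivity
  have h1 : HasDerivAt (fun v : ℝ => v ^ (2 * ((k : ℝ) + 1) / (1 + s) + 1))
      ((2 * ((k : ℝ) + 1) / (1 + s) + 1) * v ^ (2 * ((k : ℝ) + 1) / (1 + s))) v := by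
    have := Real.hasDerivAt_rpow_const (x := v) (p := 2 * ((k : ℝ) + 1) / (1 + s) + 1)
      (Or.inl hv.ne')
    simpa using this
  have h2 : HasDerivAt (fun v => (polP s k).eval v) ((derivative (polP s k)).eval v) v :=
    (polP s k).hasDerivAt v
  have h5 := h1.fun_mul (h2.fun_div ((pow_deriv1 s v k).fun_mul (pow_deriv2 s v k))
    (by positivity))
  have e : v ^ (2 * ((k : ℝ) + 1) / (1 + s) + 1) = v ^ (2 * ((k : ℝ) + 1) / (1 + s)) * v :=
    Real.rpow_add_one hv.ne' _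
  refine h5.congr_deriv ?_
  rw [e]
  generalize v ^ (2 * ((k : ℝ) + 1) / (1 + s)) = r
  rw [polP]
  simp only [eval_sub, eval_mul, eval_add, eval_C, eval_X, eval_pow]
  generalize eval v (derivative (polP s k)) = p'
  generalize eval v (polP s k) = p
  have hak : (s + v) ^ k ≠ 0 := pow_ne_zero _ ha
  have hbk : (s + v ^ 2) ^ k ≠ 0 := pow_ne_zero _ hb
  field_simp
  ring

lemma hasDerivAt_Gf {s : ℝ} (hs : 0 < s) (k : ℕ) {v : ℝ} (hv : 0 < v) :
    HasDerivAt (Gf s k) (v ^ ((s - 1) / (1 + s)) * (s - v) ^ (k + 1) / (v * (1 + s) *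
      (s + v ^ 2) ^ (2 * k + 2)) * (polPsi s k).eval v) v := by
  have hS : (1 + s) ≠ 0 := by positivity
  have hb : s + v ^ 2 ≠ 0 := by positivity
  have h1 : HasDerivAt (fun v : ℝ => v ^ ((s - 1) / (1 + s)))
      (((s - 1) / (1 + s)) * (v ^ ((s - 1) / (1 + s)) / v)) v := by
    have := Real.hasDerivAt_rpow_const (x := v) (p := (s - 1) / (1 + s)) (Or.inl hv.ne')
    rwa [Real.rpow_sub_one hv.ne'] at this
  have h2 : HasDerivAt (fun v => (polP s k).eval v) ((derivative (polP s k)).eval v) v :=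
    (polP s k).hasDerivAt v
  have h5 := h1.fun_mul (((pow_deriv1' s v k).fun_mul h2).fun_div (pow_deriv2 s v k)
    (by positivity))
  refine h5.congr_deriv ?_
  generalize v ^ ((s - 1) / (1 + s)) = r
  rw [polPsi]
  simp only [eval_sub, eval_mul, eval_add, eval_C, eval_X, eval_pow]
  generalize eval v (derivative (polP s k)) = p'
  generalize eval v (polP s k) = p
  have hbk : (s + v ^ 2) ^ k ≠ 0 := pow_ne_zero _ hb
  field_simp
  ring

lemma Hf_sign {s : ℝ} (hs : 0 < s) (k : ℕ) {v : ℝ} (hv : 0 < v) {σ : ℝ}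
    (h : 0 < σ * (polP s k).eval v) : 0 < σ * Hf s k v := by
  have h1 : 0 < v ^ (2 * ((k : ℝ) + 1) / (1 + s) + 1) := Real.rpow_pos_of_pos hv _
  have h2 : 0 < (s + v) ^ (k + 2) * (s + v ^ 2) ^ (2 * k + 1) := by positivity
  have e : σ * Hf s k v = v ^ (2 * ((k : ℝ) + 1) / (1 + s) + 1) *
      (σ * (polP s k).eval v / ((s + v) ^ (k + 2) * (s + v ^ 2) ^ (2 * k + 1))) := by
    rw [Hf]; ring
  rw [e]
  positivity

lemma Hf_zero {s : ℝ} (k : ℕ) {v : ℝ} (h : (polP s k).eval v = 0) : Hf s k v = 0 := by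
  simp [Hf, h]

/-- mean value theorem for `H`, in sign form -/
lemma mvt_H {s : ℝ} (hs : 0 < s) (k : ℕ) {a b σ : ℝ} (ha : 0 < a) (hab : a < b)
    (h : 0 < σ * (Hf s k b - Hf s k a)) :
    ∃ ξ, a < ξ ∧ ξ < b ∧ 0 < σ * (polP s (k + 1)).eval ξ := by
  obtain ⟨ξ, ⟨h1, h2⟩, h3⟩ := exists_hasDerivAt_eq_slope (Hf s k)
    (fun v => v ^ (2 * ((k : ℝ) + 1) / (1 + s)) / ((1 + s) * (s + v) ^ (k + 3) *
      (s + v ^ 2) ^ (2 * k + 2)) * (polP s (k + 1)).eval v) hab
    (fun v hv => (hasDerivAt_Hf hs k (lt_of_lt_of_le ha hv.1)).continuousAt.continuousWithinAt)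
    (fun v hv => hasDerivAt_Hf hs k (ha.trans hv.1))
  refine ⟨ξ, h1, h2, ?_⟩
  have hξ : 0 < ξ := ha.trans h1
  have h4 : 0 < ξ ^ (2 * ((k : ℝ) + 1) / (1 + s)) / ((1 + s) * (s + ξ) ^ (k + 3) *
      (s + ξ ^ 2) ^ (2 * k + 2)) := by
    have : 0 < ξ ^ (2 * ((k : ℝ) + 1) / (1 + s)) := Real.rpow_pos_of_pos hξ _
    positivity
  have h5 : 0 < σ * ((Hf s k b - Hf s k a) / (b - a)) := by
    rw [← mul_div_assoc]
    exact div_pos h (by linarith)
  rw [← h3] at h5
  have h6 : 0 < (ξ ^ (2 * ((k : ℝ) + 1) / (1 + s)) / ((1 + s) * (s + ξ) ^ (k + 3) *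
      (s + ξ ^ 2) ^ (2 * k + 2))) * (σ * (polP s (k + 1)).eval ξ) := by
    have e : (ξ ^ (2 * ((k : ℝ) + 1) / (1 + s)) / ((1 + s) * (s + ξ) ^ (k + 3) *
      (s + ξ ^ 2) ^ (2 * k + 2))) * (σ * (polP s (k + 1)).eval ξ) =
      σ * (ξ ^ (2 * ((k : ℝ) + 1) / (1 + s)) / ((1 + s) * (s + ξ) ^ (k + 3) *
      (s + ξ ^ 2) ^ (2 * k + 2)) * (polP s (k + 1)).eval ξ) := by ring
    rw [e]; exact h5
  exact pos_of_mul_pos_right h6 h4.le

/-- Rolle for `G`: between two positive zeros of `G` there is a root of `polQ s (k+1)` -/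
lemma rolle_G {s : ℝ} (hs : 0 < s) (k : ℕ) {a b : ℝ} (ha : 0 < a) (hab : a < b)
    (hns : ∀ v, a < v → v < b → v ≠ s) (hGa : Gf s k a = 0) (hGb : Gf s k b = 0) :
    ∃ ξ, a < ξ ∧ ξ < b ∧ (polQ s (k + 1)).eval ξ = 0 := by
  obtain ⟨ξ, ⟨h1, h2⟩, h3⟩ := exists_hasDerivAt_eq_zero hab
    (fun v hv => (hasDerivAt_Gf hs k (lt_of_lt_of_le ha hv.1)).continuousAt.continuousWithinAt)
    (hGa.trans hGb.symm) (fun v hv => hasDerivAt_Gf hs k (ha.trans hv.1))
  refine ⟨ξ, h1, h2, ?_⟩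
  have hξ : 0 < ξ := ha.trans h1
  have hne : s - ξ ≠ 0 := sub_ne_zero.mpr (hns ξ h1 h2).symm
  have h4 : ξ ^ ((s - 1) / (1 + s)) * (s - ξ) ^ (k + 1) / (ξ * (1 + s) *
      (s + ξ ^ 2) ^ (2 * k + 2)) ≠ 0 := by
    have h5 : ξ ^ ((s - 1) / (1 + s)) ≠ 0 := (Real.rpow_pos_of_pos hξ _).ne'
    have h6 : ξ * (1 + s) * (s + ξ ^ 2) ^ (2 * k + 2) ≠ 0 := by positivity
    exact div_ne_zero (mul_ne_zero h5 (pow_ne_zero _ hne)) h6
  have h5 : (polPsi s k).eval ξ = 0 := (mul_eq_zero.mp h3).resolve_left h4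
  have h6 := congrArg (eval ξ) (psi_identity s k)
  simp only [eval_mul, eval_add, eval_neg, eval_pow, eval_C, eval_X, eval_one, h5, mul_zero] at h6
  have h7 : (s + ξ) ^ (k + 1) ≠ 0 := by positivity
  have h8 : (s + ξ) ^ (k + 1) * (polQ s (k + 1)).eval ξ = 0 := by linarith
  exact (mul_eq_zero.mp h8).resolve_left h7

lemma Gf_zero {s : ℝ} (k : ℕ) {v : ℝ} (h : (polP s k).eval v = 0) : Gf s k v = 0 := by
  simp [Gf, h]

lemma Gf_zero' {s : ℝ} (k : ℕ) : Gf s k s = 0 := by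
  simp [Gf]

lemma mem_posRoots {p : ℝ[X]} (hp : p ≠ 0) {v : ℝ} : v ∈ posRoots p ↔ p.eval v = 0 ∧ 0 < v := by
  simp [posRoots, hp, IsRoot]

lemma eval_zero_polP_pos {s : ℝ} (hs : 0 < s) (k : ℕ) : 0 < (polP s k).eval 0 := by
  induction k with
  | zero => simp [polP]
  | succ k ih =>
    rw [polP]
    simp only [eval_sub, eval_mul, eval_add, eval_C, eval_X, eval_pow]
    have : 0 < (s + 0) * (s + 0 ^ 2) * ((1 + s + 2 * ((k : ℝ) + 1)) * (polP s k).eval 0) := by
      positivity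
    simpa using this

lemma polP_ne_zero {s : ℝ} (hs : 0 < s) (k : ℕ) : polP s k ≠ 0 := by
  intro h
  have := eval_zero_polP_pos hs k
  rw [h] at this
  simp at this

/-- if `P_k(s) = 0` then `Q_{k+1}(s) = 0` -/
lemma polQ_at_s {s : ℝ} (hs : 0 < s) (k : ℕ) (h : (polP s k).eval s = 0) :
    (polQ s (k + 1)).eval s = 0 := by
  have h6 := congrArg (eval s) (psi_identity s k)
  have h5 : (polPsi s k).eval s = 0 := by
    rw [polPsi]
    simp [h]
  simp only [eval_mul, eval_add, eval_neg, eval_pow, eval_C, eval_X, eval_one, h5, mul_zero] at h6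
  have h7 : (s + s) ^ (k + 1) ≠ 0 := by positivity
  have h8 : (s + s) ^ (k + 1) * (polQ s (k + 1)).eval s = 0 := by linarith
  exact (mul_eq_zero.mp h8).resolve_left h7

/-- the number of positive roots of `P_k` is at most that of `Q_{k+1}` -/
lemma card_posRoots_polP_le {s : ℝ} (hs : 0 < s) (k : ℕ) :
    (posRoots (polP s k)).card ≤ k + 1 := by
  refine le_trans ?_ (card_posRoots_polQ_le hs k)
  have hP := polP_ne_zero hs k
  have hQ := polQ_succ_ne_zero hs k
  set U : Finset ℝ := insert s (posRoots (polP s k)) with hU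
  have hpos : ∀ x ∈ U, 0 < x := by
    intro x hx
    rw [hU, Finset.mem_insert] at hx
    rcases hx with rfl | hx
    · exact hs
    · exact ((mem_posRoots hP).mp hx).2
  have hG : ∀ x ∈ U, Gf s k x = 0 := by
    intro x hx
    rw [hU, Finset.mem_insert] at hx
    rcases hx with rfl | hx
    · exact Gf_zero' k
    · exact Gf_zero k ((mem_posRoots hP).mp hx).1
  have hinter : U.card ≤ (posRoots (polQ s (k + 1)) \ U).card + 1 := by
    refine Finset.card_le_sdiff_of_interleaved fun x hx y hy hxy hno => ?_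
    obtain ⟨ξ, h1, h2, h3⟩ := rolle_G hs k (hpos x hx) hxy (fun v h1 h2 h3 => by
      refine hno s ?_ ?_
      · rw [hU]; exact Finset.mem_insert_self _ _
      · rw [← h3]; exact ⟨h1, h2⟩) (hG x hx) (hG y hy)
    exact ⟨ξ, (mem_posRoots hQ).mpr ⟨h3, (hpos x hx).trans h1⟩, h1, h2⟩
  by_cases hs' : s ∈ posRoots (polP s k)
  · have hUe : U = posRoots (polP s k) := by rw [hU, Finset.insert_eq_of_mem hs']
    have hsQ : s ∈ posRoots (polQ s (k + 1)) :=
      (mem_posRoots hQ).mpr ⟨polQ_at_s hs k ((mem_posRoots hP).mp hs').1, hs⟩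
    have hlt : (posRoots (polQ s (k + 1)) \ U).card < (posRoots (polQ s (k + 1))).card := by
      refine Finset.card_lt_card ⟨Finset.sdiff_subset, fun hsub => ?_⟩
      have := hsub hsQ
      rw [Finset.mem_sdiff, hUe] at this
      exact this.2 hs'
    rw [hUe] at hinter hlt
    omega
  · have hUc : U.card = (posRoots (polP s k)).card + 1 := by
      rw [hU, Finset.card_insert_of_notMem hs']
    have hle : (posRoots (polQ s (k + 1)) \ U).card ≤ (posRoots (polQ s (k + 1))).card :=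
      Finset.card_le_card Finset.sdiff_subset
    omega

/-- alternating values produce many positive roots -/
lemma roots_of_alternating {p : ℝ[X]} (hp : p ≠ 0) (u : ℕ → ℝ) (h0 : 0 < u 0) (m : ℕ)
    (hmono : ∀ i < m, u i < u (i + 1)) (halt : ∀ i < m, p.eval (u i) * p.eval (u (i + 1)) < 0) :
    m ≤ ((posRoots p).filter (· < u m)).card := by
  have hpos : ∀ i ≤ m, 0 < u i := by
    intro i
    induction i with
    | zero => intro _; exact h0
    | succ i ih => intro hi; exact (ih (by omega)).trans (hmono i (by omega))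
  induction m with
  | zero => simp
  | succ m ih =>
    have h1 := ih (fun i hi => hmono i (by omega)) (fun i hi => halt i (by omega))
      (fun i hi => hpos i (by omega))
    have hlt := hmono m (by omega)
    obtain ⟨r, hr1, hr2, hr3⟩ : ∃ r, u m < r ∧ r < u (m + 1) ∧ p.eval r = 0 := by
      have hcont : ContinuousOn (fun x => p.eval x) (Set.Icc (u m) (u (m + 1))) :=
        p.continuous.continuousOn
      have hprod := halt m (by omega)
      rcases mul_neg_iff.mp hprod with ⟨ha, hb⟩ | ⟨ha, hb⟩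
      · obtain ⟨r, hr, hr0⟩ := intermediate_value_Ioo' hlt.le hcont ⟨hb, ha⟩
        exact ⟨r, hr.1, hr.2, hr0⟩
      · obtain ⟨r, hr, hr0⟩ := intermediate_value_Ioo hlt.le hcont ⟨ha, hb⟩
        exact ⟨r, hr.1, hr.2, hr0⟩
    have hrpos : 0 < r := (hpos m (by omega)).trans hr1
    have hsub : insert r ((posRoots p).filter (· < u m)) ⊆ (posRoots p).filter (· < u (m + 1)) := by
      intro x hx
      rw [Finset.mem_insert] at hx
      rcases hx with rfl | hx
      · exact Finset.mem_filter.mpr ⟨(mem_posRoots hp).mpr ⟨hr3, hrpos⟩, hr2⟩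
      · rw [Finset.mem_filter] at hx ⊢
        exact ⟨hx.1, hx.2.trans hlt⟩
    have hnot : r ∉ (posRoots p).filter (· < u m) := by
      rw [Finset.mem_filter]; intro h; exact absurd h.2 (not_lt.mpr hr1.le)
    have := Finset.card_le_card hsub
    rw [Finset.card_insert_of_notMem hnot] at this
    omega

end

end Pool.Agent.H65.TB
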