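import Mathlib

/-!
A sequence of monic polynomials `f n` of degree `n` with `f n (0) > 0` and the Sturm property on the
negative axis has only real, simple, negative zeros, and they interlace.
-/

namespace Pool.Agent.H65.TB

open Polynomial Finset

noncomputable section

/-- product of `n` linear factors -/
def linProd (z : ℕ → ℝ) (n : ℕ) : ℝ[X] := ∏ i ∈ range n, (X - C (z i))

lemma linProd_monic (z : ℕ → ℝ) (n : ℕ) : (linProd z n).Monic :=
  monic_prod_of_monic _ _ fun _ _ => monic_X_sub_C _

lemma linProd_natDegree (z : ℕ → ℝ) (n : ℕ) : (linProd z n).natDegree = n := by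
  unfold linProd
  rw [natDegree_prod_of_monic _ _ fun i _ => monic_X_sub_C _]
  simp

lemma linProd_eval (z : ℕ → ℝ) (n : ℕ) (x : ℝ) :
    (linProd z n).eval x = ∏ i ∈ range n, (x - z i) := by
  unfold linProd
  rw [eval_prod]
  simp

/-- the sign of a product of linear factors -/
lemma linProd_sign {z : ℕ → ℝ} {n j : ℕ} (hj : j ≤ n) {x : ℝ}
    (h1 : ∀ i < j, x < z i) (h2 : ∀ i, j ≤ i → i < n → z i < x) :
    0 < (-1) ^ j * (linProd z n).eval x := by
  rw [linProd_eval]
  obtain ⟨m, rfl⟩ := Nat.exists_eq_add_of_le hj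
  rw [Finset.prod_range_add, ← mul_assoc]
  apply mul_pos
  · have : (-1 : ℝ) ^ j * ∏ i ∈ range j, (x - z i) = ∏ i ∈ range j, (z i - x) := by
      rw [← Finset.card_range j, ← Finset.prod_const, Finset.card_range, ← Finset.prod_mul_distrib]
      refine Finset.prod_congr rfl fun i _ => by ring
    rw [this]
    exact Finset.prod_pos fun i hi => by
      have := h1 i (Finset.mem_range.mp hi); linarith
  · exact Finset.prod_pos fun i hi => by
      have := h2 (j + i) (by omega) (by have := Finset.mem_range.mp hi; omega); linarith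

/-- a monic polynomial of degree `n` with `n` distinct zeros is the product of the linear factors -/
lemma eq_linProd {f : ℝ[X]} {n : ℕ} (hf : f.Monic) (hd : f.natDegree = n) {z : ℕ → ℝ}
    (hz : ∀ i < n, f.eval (z i) = 0) (hinj : Set.InjOn z (Set.Iio n)) :
    f = linProd z n := by
  classical
  set s : Finset ℝ := (range n).image z with hs
  have hcard : s.card = n := by
    rw [hs, Finset.card_image_of_injOn, Finset.card_range]
    intro a ha b hb h
    exact hinj (by simpa using ha) (by simpa using hb) h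
  refine Polynomial.eq_of_degree_sub_lt_of_eval_finset_eq s ?_ ?_
  · rw [hcard]
    have h1 : f.degree = n := by rw [degree_eq_natDegree hf.ne_zero, hd]
    have h2 : (linProd z n).degree = n := by
      rw [degree_eq_natDegree (linProd_monic z n).ne_zero, linProd_natDegree]
    calc (f - linProd z n).degree < f.degree :=
          degree_sub_lt_left (by rw [h1, h2]) hf.ne_zero (by rw [hf, (linProd_monic z n)])
      _ = n := h1
  · intro x hx
    obtain ⟨i, hi, rfl⟩ := Finset.mem_image.mp hx
    have hi' : i < n := Finset.mem_range.mp hi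
    rw [hz i hi', linProd_eval]
    exact (Finset.prod_eq_zero hi (by ring)).symm

/-- the hypotheses on the sequence -/
structure SturmSeq (f : ℕ → ℝ[X]) : Prop where
  monic : ∀ n, (f n).Monic
  natDegree : ∀ n, (f n).natDegree = n
  pos : ∀ n, 0 < (f n).eval 0
  sturm : ∀ n x, x < 0 → (f (n + 1)).eval x = 0 → (f n).eval x * (f (n + 2)).eval x < 0

/-- at `-∞` -/
lemma exists_neg_sign {f : ℝ[X]} {n : ℕ} (hf : f.Monic) (hd : f.natDegree = n) (M : ℝ) :
    ∃ x < M, 0 < (-1) ^ n * f.eval x := by
  have h1 : Filter.Tendsto (fun x : ℝ => (f.comp (-X)).eval x * (-1) ^ n) Filter.atTop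
      Filter.atTop ∨ n = 0 := by
    rcases Nat.eq_zero_or_pos n with h0 | h0
    · exact Or.inr h0
    · left
      have e : (fun x : ℝ => (f.comp (-X)).eval x * (-1) ^ n) =
          fun x : ℝ => (f.comp (-X) * C ((-1) ^ n)).eval x := by
        ext x; simp
      rw [e]
      have hdeg : (f.comp (-X)).natDegree = n := by
        rw [natDegree_comp, hd]; simp
      have hlc : (f.comp (-X)).leadingCoeff = (-1) ^ n := by
        rw [leadingCoeff_comp (by simp), hf.leadingCoeff, hd]; simp
      have hne : ((-1 : ℝ) ^ n) ≠ 0 := by positivity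
      refine Polynomial.tendsto_atTop_of_leadingCoeff_nonneg _ ?_ ?_
      · rw [degree_mul_C hne, degree_eq_natDegree (by
          intro h; rw [h] at hlc; simp at hlc; exact hne hlc.symm), hdeg]
        exact_mod_cast h0
      · rw [leadingCoeff_mul, leadingCoeff_C, hlc, ← mul_pow]; simp
  rcases h1 with h1 | h1
  · obtain ⟨x, hx1, hx2⟩ := ((h1.eventually_gt_atTop 0).and
      (Filter.eventually_gt_atTop (-M))).exists
    refine ⟨-x, by linarith, ?_⟩
    have : (f.comp (-X)).eval x = f.eval (-x) := by simp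
    rw [this] at hx1
    linarith
  · subst h1
    have : f = 1 := by
      exact (Monic.natDegree_eq_zero hf).mp hd
    refine ⟨M - 1, by linarith, by simp [this]⟩

/-- the interlacing system of zeros -/
def Good (f : ℕ → ℝ[X]) (n : ℕ) (z : ℕ → ℝ) : Prop :=
  (∀ i < n, z i < 0) ∧ (∀ i j, i < j → j < n → z j < z i) ∧ (∀ i < n, (f n).eval (z i) = 0)

lemma Good.eq {f : ℕ → ℝ[X]} (hf : SturmSeq f) {n : ℕ} {z : ℕ → ℝ} (h : Good f n z) :
    f n = linProd z n := by
  refine eq_linProd (hf.monic n) (hf.natDegree n) h.2.2 ?_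
  intro a ha b hb hab
  rcases lt_trichotomy a b with h1 | h1 | h1
  · have := h.2.1 a b h1 hb; linarith
  · exact h1
  · have := h.2.1 b a h1 ha; linarith

/-- one step of the induction -/
lemma Good.step {f : ℕ → ℝ[X]} (hf : SturmSeq f) {n : ℕ} {y z : ℕ → ℝ} (hy : Good f n y)
    (hz : Good f (n + 1) z) (hint : ∀ i < n, z (i + 1) < y i ∧ y i < z i) :
    ∃ w, Good f (n + 2) w ∧ ∀ i < n + 1, w (i + 1) < z i ∧ z i < w i := by
  -- the sign of `f n` at `z i`
  have s1 : ∀ i < n + 1, 0 < (-1) ^ i * (f n).eval (z i) := by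
    intro i hi
    rw [hy.eq hf]
    refine linProd_sign (by omega) ?_ ?_
    · intro j hj
      have h1 := (hint j (by omega)).1
      rcases Nat.lt_or_ge (j + 1) i with h2 | h2
      · have := hz.2.1 (j + 1) i h2 hi
        linarith
      · have : j + 1 = i := by omega
        rw [← this]; exact h1
    · intro j hj hjn
      have h1 := (hint j hjn).2
      rcases Nat.lt_or_ge i j with h2 | h2
      · have := hz.2.1 i j h2 (by omega)
        linarith
      · have : i = j := by omega
        rw [this]; exact h1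
  have s2 : ∀ i < n + 1, 0 < (-1) ^ (i + 1) * (f (n + 2)).eval (z i) := by
    intro i hi
    have h1 := hf.sturm n (z i) (hz.1 i hi) (hz.2.2 i hi)
    have h2 := s1 i hi
    have e : ((-1 : ℝ) ^ i) * (-1) ^ i = 1 := by rw [← mul_pow]; simp
    have h3 : (f n).eval (z i) * (f (n + 2)).eval (z i) =
      ((-1) ^ i * (f n).eval (z i)) * ((-1) ^ i * (f (n + 2)).eval (z i)) := by
      calc _ = ((-1 : ℝ) ^ i * (-1) ^ i) * ((f n).eval (z i) * (f (n + 2)).eval (z i)) := by
            rw [e, one_mul]
        _ = _ := by ring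
    rw [h3] at h1
    have h4 : (-1) ^ i * (f (n + 2)).eval (z i) < 0 := by
      by_contra hc
      have := mul_nonneg h2.le (not_lt.mp hc)
      linarith
    rw [pow_succ]; linarith
  obtain ⟨M, hM1, hM2⟩ := exists_neg_sign (hf.monic (n + 2)) (hf.natDegree (n + 2)) (z n)
  -- the points
  set p : ℕ → ℝ := fun j => if j = 0 then 0 else if j = n + 2 then M else z (j - 1) with hp
  have hp0 : p 0 = 0 := by simp [hp]
  have hps : ∀ i < n + 1, p (i + 1) = z i := by
    intro i hi
    simp only [hp]
    rw [if_neg (by omega), if_neg (by omega)]; simp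
  have hpl : p (n + 2) = M := by simp [hp]
  have hsign : ∀ j < n + 3, 0 < (-1) ^ j * (f (n + 2)).eval (p j) := by
    intro j hj
    rcases Nat.eq_zero_or_pos j with h0 | h0
    · subst h0; rw [hp0]; simpa using hf.pos (n + 2)
    · obtain ⟨i, rfl⟩ : ∃ i, j = i + 1 := ⟨j - 1, by omega⟩
      rcases Nat.lt_or_ge i (n + 1) with h1 | h1
      · rw [hps i h1]; exact s2 i h1
      · have : i + 1 = n + 2 := by omega
        rw [this, hpl]; exact hM2
  have hdec : ∀ j < n + 2, p (j + 1) < p j := by
    intro j hj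
    rcases Nat.eq_zero_or_pos j with h0 | h0
    · subst h0; rw [hp0, hps 0 (by omega)]; exact hz.1 0 (by omega)
    · obtain ⟨i, rfl⟩ : ∃ i, j = i + 1 := ⟨j - 1, by omega⟩
      rw [hps i (by omega)]
      rcases Nat.lt_or_ge (i + 1) (n + 1) with h1 | h1
      · rw [hps (i + 1) h1]; exact hz.2.1 i (i + 1) (by omega) h1
      · have h2 : i = n := by omega
        subst h2
        rw [show i + 1 + 1 = i + 2 by ring, hpl]; exact hM1
  have hroot : ∀ j, ∃ w : ℝ, j < n + 2 → (p (j + 1) < w ∧ w < p j ∧ (f (n + 2)).eval w = 0) := by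
    intro j
    by_cases hj : j < n + 2
    · have h1 := hsign j (by omega)
      have h2 := hsign (j + 1) (by omega)
      have hcont : ContinuousOn (fun x => (-1 : ℝ) ^ j * (f (n + 2)).eval x)
          (Set.Icc (p (j + 1)) (p j)) := by fun_prop
      have h3 : (0 : ℝ) ∈ Set.Ioo ((-1 : ℝ) ^ j * (f (n + 2)).eval (p (j + 1)))
          ((-1 : ℝ) ^ j * (f (n + 2)).eval (p j)) := by
        refine ⟨?_, h1⟩
        rw [pow_succ] at h2; linarith
      obtain ⟨w, hw, hw0⟩ := intermediate_value_Ioo (hdec j hj).le hcont h3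
      refine ⟨w, fun _ => ⟨hw.1, hw.2, ?_⟩⟩
      have : (-1 : ℝ) ^ j ≠ 0 := by positivity
      simpa [this] using hw0
    · exact ⟨0, fun h => absurd h hj⟩
  choose w hw using hroot
  have hmono : ∀ i j, i ≤ j → j < n + 3 → p j ≤ p i := by
    intro i j hij
    induction j, hij using Nat.le_induction with
    | base => intro _; exact le_rfl
    | succ j hij ih =>
      intro hj
      have := hdec j (by omega)
      have := ih (by omega)
      linarith
  refine ⟨w, ⟨?_, ?_, ?_⟩, ?_⟩
  · intro i hi
    have h1 := (hw i hi).2.1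
    have h2 := hmono 0 i (by omega) (by omega)
    rw [hp0] at h2; linarith
  · intro i j hij hj
    have h1 := (hw i (by omega)).1
    have h2 := (hw j hj).2.1
    have h3 := hmono (i + 1) j (by omega) (by omega)
    linarith
  · intro i hi
    exact (hw i hi).2.2
  · intro i hi
    rw [← hps i hi]
    exact ⟨(hw (i + 1) (by omega)).2.1, (hw i (by omega)).1⟩

/-- the initial step -/
lemma good_one {f : ℕ → ℝ[X]} (hf : SturmSeq f) : ∃ z, Good f 1 z := by
  have hm := hf.monic 1
  have hd := hf.natDegree 1
  have hp := hf.pos 1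
  have e : f 1 = X + C ((f 1).coeff 0) := by
    ext n
    rcases n with _ | _ | n
    · simp
    · have : (f 1).coeff 1 = 1 := by
        have := hm.coeff_natDegree; rwa [hd] at this
      simp [this]
    · rw [coeff_eq_zero_of_natDegree_lt (by omega)]
      simp [coeff_X]
  have h0 : 0 < (f 1).coeff 0 := by rw [coeff_zero_eq_eval_zero]; exact hp
  refine ⟨fun _ => -(f 1).coeff 0, ?_, ?_, ?_⟩
  · intro i _; simpa using h0
  · intro i j hij hj; omega
  · intro i _
    conv_lhs => rw [e]
    simp

lemma exists_good {f : ℕ → ℝ[X]} (hf : SturmSeq f) (n : ℕ) :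
    ∃ y z, Good f n y ∧ Good f (n + 1) z ∧ ∀ i < n, z (i + 1) < y i ∧ y i < z i := by
  induction n with
  | zero =>
    obtain ⟨z, hz⟩ := good_one hf
    exact ⟨fun _ => 0, z, ⟨by simp, by simp, by simp⟩, hz, by simp⟩
  | succ n ih =>
    obtain ⟨y, z, hy, hz, hint⟩ := ih
    obtain ⟨w, hw, hint'⟩ := hy.step hf hz hint
    exact ⟨z, w, hz, hw, hint'⟩

/-- two systems of zeros agree -/
lemma Good.unique {f : ℕ → ℝ[X]} (hf : SturmSeq f) {n : ℕ} {y z : ℕ → ℝ}
    (hy : Good f n y) (hz : Good f n z) : ∀ i < n, y i = z i := by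
  -- every `z j` is some `y i`, and conversely; strictly decreasing enumerations agree
  have key : ∀ {u v : ℕ → ℝ}, Good f n u → Good f n v → ∀ j < n, ∃ i < n, v j = u i := by
    intro u v hu hv j hj
    have h1 := hv.2.2 j hj
    rw [hu.eq hf, linProd_eval, Finset.prod_eq_zero_iff] at h1
    obtain ⟨i, hi, h2⟩ := h1
    exact ⟨i, Finset.mem_range.mp hi, by linarith⟩
  intro i
  induction i using Nat.strong_induction_on with
  | _ i ih =>
    intro hi
    obtain ⟨a, ha, hya⟩ := key hy hz i hi
    obtain ⟨b, hb, hzb⟩ := key hz hy i hi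
    rcases lt_trichotomy (y i) (z i) with h | h | h
    · -- z i > y i, z i = y a with a < i, so z a = y a = z i
      have hai : a < i := by
        by_contra hc
        rcases Nat.eq_or_lt_of_le (not_lt.mp hc) with h1 | h1
        · rw [← h1] at hya; linarith
        · have := hy.2.1 i a h1 ha; linarith
      have := ih a hai ha
      have h2 := hz.2.1 a i hai hi
      linarith
    · exact h
    · have hbi : b < i := by
        by_contra hc
        rcases Nat.eq_or_lt_of_le (not_lt.mp hc) with h1 | h1
        · rw [← h1] at hzb; linarith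
        · have := hz.2.1 i b h1 hb; linarith
      have := ih b hbi hb
      have h2 := hy.2.1 b i hbi hi
      linarith

/-- **Main statement on Sturm sequences**: real, simple, negative, interlacing zeros. -/
theorem SturmSeq.roots {f : ℕ → ℝ[X]} (hf : SturmSeq f) :
    ∃ r : ℕ → ℕ → ℝ, (∀ n, f n = ∏ i ∈ range n, (X - C (r n i))) ∧
      (∀ n, ∀ i < n, r n i < 0) ∧
      (∀ n, ∀ i < n, r (n + 1) (i + 1) < r n i ∧ r n i < r (n + 1) i) := by
  have h : ∀ n, ∃ y, Good f n y := fun n => by
    obtain ⟨y, _, hy, _⟩ := exists_good hf n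
    exact ⟨y, hy⟩
  choose r hr using h
  refine ⟨r, fun n => (hr n).eq hf, fun n => (hr n).1, fun n i hi => ?_⟩
  obtain ⟨y, z, hy, hz, hint⟩ := exists_good hf n
  rw [hr n |>.unique hf hy i hi, (hr (n + 1)).unique hf hz i (by omega),
    (hr (n + 1)).unique hf hz (i + 1) (by omega)]
  exact hint i hi

end

end Pool.Agent.H65.TB
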