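import Mathlib
import Pool.Agent.H65.TBRolle

/-!
Exact zero counting and the Sturm property at `v = 1`.
-/

namespace Pool.Agent.H65.TB

open Polynomial

noncomputable section

lemma coeff_polP_succ (s : ℝ) (k j : ℕ) : (polP s (k + 1)).coeff (j + 3) =
    s ^ 2 * ((1 + s) * ((j : ℝ) + 3) + (1 + s) + 2 * k + 2) * (polP s k).coeff (j + 3) +
    (s * ((1 + s) * ((j : ℝ) + 2) + (1 + s) + 2 * k + 2) - s * ((1 + s) * ((k : ℝ) + 2))) *
      (polP s k).coeff (j + 2) +
    (s * ((1 + s) * ((j : ℝ) + 1) + (1 + s) + 2 * k + 2) - s * (2 * (1 + s) * (2 * (k : ℝ) + 1))) *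
      (polP s k).coeff (j + 1) +
    (((1 + s) * (j : ℝ) + (1 + s) + 2 * k + 2) - (1 + s) * ((k : ℝ) + 2) -
      2 * (1 + s) * (2 * (k : ℝ) + 1)) * (polP s k).coeff j := by
  have e : polP s (k + 1) = C (s ^ 2) * (C (1 + s) * (X * derivative (polP s k)) +
        C (1 + s + 2 * k + 2) * polP s k) +
      X ^ 1 * (C s * (C (1 + s) * (X * derivative (polP s k)) + C (1 + s + 2 * k + 2) * polP s k) -
        C (s * ((1 + s) * ((k : ℝ) + 2))) * polP s k) +
      X ^ 2 * (C s * (C (1 + s) * (X * derivative (polP s k)) + C (1 + s + 2 * k + 2) * polP s k) -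
        C (s * (2 * (1 + s) * (2 * (k : ℝ) + 1))) * polP s k) +
      X ^ 3 * ((C (1 + s) * (X * derivative (polP s k)) + C (1 + s + 2 * k + 2) * polP s k) -
        C ((1 + s) * ((k : ℝ) + 2)) * polP s k - C (2 * (1 + s) * (2 * (k : ℝ) + 1)) * polP s k) := by
    rw [polP]; simp only [map_mul, map_add, map_pow, map_one, map_ofNat, map_natCast]; ring
  rw [e]
  have h1 : ∀ q : ℝ[X], (X ^ 1 * q).coeff (j + 3) = q.coeff (j + 2) := fun q => by
    rw [show j + 3 = (j + 2) + 1 by ring, coeff_X_pow_mul]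
  have h2 : ∀ q : ℝ[X], (X ^ 2 * q).coeff (j + 3) = q.coeff (j + 1) := fun q => by
    rw [show j + 3 = (j + 1) + 2 by ring, coeff_X_pow_mul]
  have h3 : ∀ q : ℝ[X], (X ^ 3 * q).coeff (j + 3) = q.coeff j := fun q => by
    rw [coeff_X_pow_mul]
  simp only [coeff_add, h1, h2, h3]
  simp only [coeff_add, coeff_sub, coeff_C_mul, coeff_X_mul_derivative]
  push_cast
  ring

lemma coeff_polP_big (s : ℝ) (k j : ℕ) (hj : 3 * k < j) : (polP s k).coeff j = 0 := by
  induction k generalizing j with
  | zero =>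
    rw [polP, coeff_one]
    exact if_neg (by omega)
  | succ k ih =>
    obtain ⟨i, rfl⟩ : ∃ i, j = i + 3 := ⟨j - 3, by omega⟩
    rw [coeff_polP_succ, ih (i + 3) (by omega), ih (i + 2) (by omega), ih (i + 1) (by omega),
      ih i (by omega)]
    ring

lemma coeff_polP_top {s : ℝ} (hs : 0 < s) (k : ℕ) : 0 < (-1) ^ k * (polP s k).coeff (3 * k) := by
  induction k with
  | zero => simp [polP]
  | succ k ih =>
    rw [show 3 * (k + 1) = 3 * k + 3 by ring, coeff_polP_succ,
      coeff_polP_big s k (3 * k + 3) (by omega), coeff_polP_big s k (3 * k + 2) (by omega),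
      coeff_polP_big s k (3 * k + 1) (by omega)]
    have hk : (0 : ℝ) ≤ k := by positivity
    have e : (-1 : ℝ) ^ (k + 1) * (s ^ 2 * ((1 + s) * (((3 * k : ℕ) : ℝ) + 3) + (1 + s) + 2 * k + 2) * 0 +
        (s * ((1 + s) * (((3 * k : ℕ) : ℝ) + 2) + (1 + s) + 2 * k + 2) - s * ((1 + s) * ((k : ℝ) + 2))) * 0 +
        (s * ((1 + s) * (((3 * k : ℕ) : ℝ) + 1) + (1 + s) + 2 * k + 2) -
          s * (2 * (1 + s) * (2 * (k : ℝ) + 1))) * 0 +
        (((1 + s) * ((3 * k : ℕ) : ℝ) + (1 + s) + 2 * k + 2) - (1 + s) * ((k : ℝ) + 2) -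
          2 * (1 + s) * (2 * (k : ℝ) + 1)) * (polP s k).coeff (3 * k)) =
        (2 * k * s + 1 + 3 * s) * ((-1) ^ k * (polP s k).coeff (3 * k)) := by
      push_cast; rw [pow_succ]; ring
    rw [e]
    positivity

lemma exists_gt_eval_pos (q : ℝ[X]) (h : 0 < q.leadingCoeff) (M : ℝ) :
    ∃ v, M < v ∧ 0 < q.eval v := by
  by_cases hd : q.natDegree = 0
  · refine ⟨M + 1, by linarith, ?_⟩
    rw [eq_C_of_natDegree_eq_zero hd] at h ⊢
    simpa using h
  · have ht : Filter.Tendsto (fun x => q.eval x) Filter.atTop Filter.atTop :=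
      q.tendsto_atTop_of_leadingCoeff_nonneg
        (natDegree_pos_iff_degree_pos.mp (Nat.pos_of_ne_zero hd)) h.le
    have h1 := (ht.eventually_gt_atTop 0).and (Filter.eventually_gt_atTop M)
    obtain ⟨v, hv1, hv2⟩ := h1.exists
    exact ⟨v, hv2, hv1⟩

lemma exists_large {s : ℝ} (hs : 0 < s) (k : ℕ) (M : ℝ) :
    ∃ v, M < v ∧ 0 < (-1) ^ k * (polP s k).eval v := by
  have hc := coeff_polP_top hs k
  have hco : (C ((-1 : ℝ) ^ k) * polP s k).coeff (3 * k) = (-1) ^ k * (polP s k).coeff (3 * k) :=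
    coeff_C_mul _
  have hdeg : (C ((-1 : ℝ) ^ k) * polP s k).natDegree = 3 * k := by
    refine le_antisymm ?_ (le_natDegree_of_ne_zero (by rw [hco]; exact hc.ne'))
    rw [natDegree_le_iff_coeff_eq_zero]
    intro j hj
    rw [coeff_C_mul, coeff_polP_big s k j hj, mul_zero]
  obtain ⟨v, h1, h2⟩ := exists_gt_eval_pos (C ((-1 : ℝ) ^ k) * polP s k)
    (by rw [leadingCoeff, hdeg, hco]; exact hc) M
  refine ⟨v, h1, ?_⟩
  simpa using h2

lemma exists_small {s : ℝ} (hs : 0 < s) (k : ℕ) {δ : ℝ} (hδ : 0 < δ) :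
    ∃ v, 0 < v ∧ v < δ ∧ 0 < (polP s k).eval v := by
  have h0 := eval_zero_polP_pos hs k
  have hc : ContinuousAt (fun x => (polP s k).eval x) 0 := (polP s k).continuous.continuousAt
  have h1 : ∀ᶠ v in nhds (0 : ℝ), 0 < (polP s k).eval v := hc.eventually (lt_mem_nhds h0)
  obtain ⟨ε, hε, h2⟩ := Metric.eventually_nhds_iff.mp h1
  refine ⟨min (ε / 2) (δ / 2), by positivity, ?_, ?_⟩
  · exact lt_of_le_of_lt (min_le_right _ _) (by linarith)
  · apply h2
    have h3 : 0 < min (ε / 2) (δ / 2) := by positivity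
    rw [Real.dist_eq, sub_zero, abs_of_pos h3]
    exact lt_of_le_of_lt (min_le_left _ _) (by linarith)

/-- `a` sign changes of `P_k` on `(0,1]`, starting from the sign near `0` -/
def AltL (s : ℝ) (k a : ℕ) : Prop :=
  ∃ v : ℕ → ℝ, 0 < v 0 ∧ (∀ i < a, v i < v (i + 1)) ∧ v a ≤ 1 ∧
    ∀ i ≤ a, 0 < (-1) ^ i * (polP s k).eval (v i)

/-- `b` sign changes of `P_k` on `[1,∞)`, starting from the sign near `∞` -/
def AltR (s : ℝ) (k b : ℕ) : Prop :=
  ∃ w : ℕ → ℝ, 1 ≤ w b ∧ (∀ i < b, w (i + 1) < w i) ∧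
    ∀ i ≤ b, 0 < (-1) ^ (k + i) * (polP s k).eval (w i)

lemma neg_one_sq_pow (n : ℕ) : ((-1 : ℝ) ^ n) * (-1) ^ n = 1 := by
  rw [← mul_pow]; norm_num

/-- two values with opposite sign witnesses have negative product -/
lemma prod_neg_of_signs {x y : ℝ} {m n : ℕ} (hx : 0 < (-1) ^ m * x) (hy : 0 < (-1) ^ n * y)
    (hmn : Odd (m + n)) : x * y < 0 := by
  have h1 : 0 < ((-1) ^ m * x) * ((-1) ^ n * y) := mul_pos hx hy
  have h2 : ((-1 : ℝ) ^ m * x) * ((-1) ^ n * y) = (-1) ^ (m + n) * (x * y) := by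
    rw [pow_add]; ring
  rw [h2, hmn.neg_one_pow] at h1
  linarith

lemma prod_pos_of_signs {x y : ℝ} {m n : ℕ} (hx : 0 < (-1) ^ m * x) (hy : 0 < (-1) ^ n * y)
    (hmn : Even (m + n)) : 0 < x * y := by
  have h1 : 0 < ((-1) ^ m * x) * ((-1) ^ n * y) := mul_pos hx hy
  have h2 : ((-1 : ℝ) ^ m * x) * ((-1) ^ n * y) = (-1) ^ (m + n) * (x * y) := by
    rw [pow_add]; ring
  rw [h2, hmn.neg_one_pow] at h1
  linarith

/-- the key constraint -/
lemma constraint {s : ℝ} (hs : 0 < s) {k a b : ℕ} (hL : AltL s k a) (hR : AltR s k b) :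
    a + b ≤ k := by
  obtain ⟨v, hv0, hvm, hv1, hvs⟩ := hL
  obtain ⟨w, hw1, hwm, hws⟩ := hR
  have hP := polP_ne_zero hs k
  have hcard := card_posRoots_polP_le hs k
  rcases Nat.even_or_odd (a + b + k) with hpar | hpar
  · -- same sign at the junction : drop `w b`
    have hroots := roots_of_alternating hP (fun i => if i ≤ a then v i else w (a + b - i))
      (by simpa using hv0) (a + b) ?_ ?_
    · have h1 : a + b ≤ (posRoots (polP s k)).card :=
        hroots.trans (Finset.card_le_card (Finset.filter_subset _ _))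
      have h2 : a + b ≠ k + 1 := by
        intro h
        rw [h] at hpar
        obtain ⟨c, hc⟩ := hpar
        omega
      omega
    · intro i hi
      by_cases h1 : i + 1 ≤ a
      · simp only [h1, if_true, show i ≤ a by omega]
        exact hvm i (by omega)
      · by_cases h2 : i ≤ a
        · have hia : i = a := by omega
          subst hia
          simp only [le_refl, if_true, h1, if_false]
          have hb : 0 < b := by omega
          rw [show i + b - (i + 1) = b - 1 by omega]
          have := hwm (b - 1) (by omega)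
          rw [show b - 1 + 1 = b by omega] at this
          linarith
        · simp only [h1, h2, if_false]
          have := hwm (a + b - (i + 1)) (by omega)
          rwa [show a + b - (i + 1) + 1 = a + b - i by omega] at this
    · intro i hi
      by_cases h1 : i + 1 ≤ a
      · simp only [h1, if_true, show i ≤ a by omega]
        exact prod_neg_of_signs (hvs i (by omega)) (hvs (i + 1) h1) ⟨i, by ring⟩
      · by_cases h2 : i ≤ a
        · have hia : i = a := by omega
          subst hia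
          simp only [le_refl, if_true, h1, if_false]
          rw [show i + b - (i + 1) = b - 1 by omega]
          refine prod_neg_of_signs (hvs i le_rfl) (hws (b - 1) (by omega)) ?_
          obtain ⟨c, hc⟩ := hpar
          exact ⟨c - 1, by omega⟩
        · simp only [h1, h2, if_false]
          refine prod_neg_of_signs (hws (a + b - i) (by omega)) (hws (a + b - (i + 1)) (by omega)) ?_
          exact ⟨k + (a + b - (i + 1)), by omega⟩
  · -- opposite signs at the junction
    have hlt : v a < w b := by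
      rcases lt_or_eq_of_le (hv1.trans hw1) with h | h
      · exact h
      · exfalso
        have h1 := hvs a le_rfl
        have h2 := hws b le_rfl
        rw [← h] at h2
        have := prod_neg_of_signs h1 h2 (by obtain ⟨c, hc⟩ := hpar; exact ⟨c, by omega⟩)
        nlinarith [mul_self_nonneg ((polP s k).eval (v a))]
    have hroots := roots_of_alternating hP (fun i => if i ≤ a then v i else w (a + b + 1 - i))
      (by simpa using hv0) (a + b + 1) ?_ ?_
    · have h1 : a + b + 1 ≤ (posRoots (polP s k)).card :=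
        hroots.trans (Finset.card_le_card (Finset.filter_subset _ _))
      omega
    · intro i hi
      by_cases h1 : i + 1 ≤ a
      · simp only [h1, if_true, show i ≤ a by omega]
        exact hvm i (by omega)
      · by_cases h2 : i ≤ a
        · have hia : i = a := by omega
          subst hia
          simp only [le_refl, if_true, h1, if_false]
          rw [show i + b + 1 - (i + 1) = b by omega]
          exact hlt
        · simp only [h1, h2, if_false]
          have := hwm (a + b + 1 - (i + 1)) (by omega)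
          rwa [show a + b + 1 - (i + 1) + 1 = a + b + 1 - i by omega] at this
    · intro i hi
      by_cases h1 : i + 1 ≤ a
      · simp only [h1, if_true, show i ≤ a by omega]
        exact prod_neg_of_signs (hvs i (by omega)) (hvs (i + 1) h1) ⟨i, by ring⟩
      · by_cases h2 : i ≤ a
        · have hia : i = a := by omega
          subst hia
          simp only [le_refl, if_true, h1, if_false]
          rw [show i + b + 1 - (i + 1) = b by omega]
          refine prod_neg_of_signs (hvs i le_rfl) (hws b le_rfl) ?_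
          obtain ⟨c, hc⟩ := hpar
          exact ⟨c, by omega⟩
        · simp only [h1, h2, if_false]
          refine prod_neg_of_signs (hws (a + b + 1 - i) (by omega))
            (hws (a + b + 1 - (i + 1)) (by omega)) ?_
          exact ⟨k + (a + b + 1 - (i + 1)), by omega⟩

/-- propagation on the left -/
lemma propL {s : ℝ} (hs : 0 < s) {k a : ℕ} {v : ℕ → ℝ} (hv0 : 0 < v 0)
    (hvm : ∀ i < a, v i < v (i + 1)) (hvs : ∀ i ≤ a, 0 < (-1) ^ i * (polP s k).eval (v i)) :
    ∃ u : ℕ → ℝ, 0 < u 0 ∧ (∀ i < a, u i < u (i + 1)) ∧ u a < v a ∧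
      ∀ i ≤ a, 0 < (-1) ^ i * (polP s (k + 1)).eval (u i) := by
  have hpos : ∀ i ≤ a, 0 < v i := by
    intro i
    induction i with
    | zero => intro _; exact hv0
    | succ i ih => intro hi; exact (ih (by omega)).trans (hvm i (by omega))
  have hξ : ∀ i, ∃ ξ, i < a → v i < ξ ∧ ξ < v (i + 1) ∧
      0 < (-1) ^ (i + 1) * (polP s (k + 1)).eval ξ := by
    intro i
    by_cases hi : i < a
    · have h1 := Hf_sign hs k (hpos i hi.le) (hvs i hi.le)
      have h2 := Hf_sign hs k (hpos (i + 1) hi) (hvs (i + 1) hi)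
      obtain ⟨ξ, h3, h4, h5⟩ := mvt_H hs k (hpos i hi.le) (hvm i hi) (σ := (-1) ^ (i + 1))
        (by rw [mul_sub]; rw [pow_succ] at h2 ⊢; linarith)
      exact ⟨ξ, fun _ => ⟨h3, h4, h5⟩⟩
    · exact ⟨0, fun h => absurd h hi⟩
  choose ξ hξ using hξ
  obtain ⟨u0, hu0, hu0', hu0s⟩ := exists_small hs (k + 1) hv0
  refine ⟨fun i => Nat.casesOn i u0 (fun i => ξ i), hu0, ?_, ?_, ?_⟩
  · intro i hi
    rcases i with _ | i
    · have := (hξ 0 hi).1
      change u0 < ξ 0
      linarith
    · have h1 := hξ i (by omega)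
      have h2 := hξ (i + 1) hi
      change ξ i < ξ (i + 1)
      linarith [h1.2.1, h2.1]
  · rcases a with _ | a
    · exact hu0'
    · exact (hξ a (by omega)).2.1
  · intro i hi
    rcases i with _ | i
    · simpa using hu0s
    · exact (hξ i (by omega)).2.2

/-- propagation on the right -/
lemma propR {s : ℝ} (hs : 0 < s) {k b : ℕ} {w : ℕ → ℝ} (hw1 : 0 < w b)
    (hwm : ∀ i < b, w (i + 1) < w i) (hws : ∀ i ≤ b, 0 < (-1) ^ (k + i) * (polP s k).eval (w i)) :
    ∃ u : ℕ → ℝ, (∀ i < b, u (i + 1) < u i) ∧ w b < u b ∧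
      ∀ i ≤ b, 0 < (-1) ^ (k + 1 + i) * (polP s (k + 1)).eval (u i) := by
  have hpos : ∀ j i, i + j = b → 0 < w i := by
    intro j
    induction j with
    | zero => intro i hi; rw [show i = b by omega]; exact hw1
    | succ j ih => intro i hi; exact (ih (i + 1) (by omega)).trans (hwm i (by omega))
  have hpos' : ∀ i ≤ b, 0 < w i := fun i hi => hpos (b - i) i (by omega)
  have hξ : ∀ i, ∃ ξ, i < b → w (i + 1) < ξ ∧ ξ < w i ∧
      0 < (-1) ^ (k + 1 + (i + 1)) * (polP s (k + 1)).eval ξ := by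
    intro i
    by_cases hi : i < b
    · have h1 := Hf_sign hs k (hpos' i hi.le) (hws i hi.le)
      have h2 := Hf_sign hs k (hpos' (i + 1) hi) (hws (i + 1) hi)
      have e1 : (-1 : ℝ) ^ (k + (i + 1)) = - (-1) ^ (k + i) := by
        rw [show k + (i + 1) = (k + i) + 1 by ring, pow_succ]; ring
      have e2 : (-1 : ℝ) ^ (k + 1 + (i + 1)) = (-1) ^ (k + i) := by
        rw [show k + 1 + (i + 1) = (k + i) + 2 by ring, pow_add]; norm_num
      rw [e1] at h2
      obtain ⟨ξ, h3, h4, h5⟩ := mvt_H hs k (hpos' (i + 1) hi) (hwm i hi) (σ := (-1) ^ (k + i))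
        (by rw [mul_sub]; linarith)
      exact ⟨ξ, fun _ => ⟨h3, h4, by rw [e2]; exact h5⟩⟩
    · exact ⟨0, fun h => absurd h hi⟩
  choose ξ hξ using hξ
  obtain ⟨u0, hu0, hu0s⟩ := exists_large hs (k + 1) (w 0)
  refine ⟨fun i => Nat.casesOn i u0 (fun i => ξ i), ?_, ?_, ?_⟩
  · intro i hi
    rcases i with _ | i
    · have := (hξ 0 hi).2.1
      change ξ 0 < u0
      linarith
    · have h1 := hξ i (by omega)
      have h2 := hξ (i + 1) hi
      change ξ (i + 1) < ξ i
      linarith [h1.1, h2.2.1]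
  · rcases b with _ | b
    · exact hu0
    · exact (hξ b (by omega)).1
  · intro i hi
    rcases i with _ | i
    · simpa using hu0s
    · exact (hξ i (by omega)).2.2

lemma appendL {s : ℝ} {k a : ℕ} {u : ℕ → ℝ} {z : ℝ} (hu0 : 0 < u 0)
    (hum : ∀ i < a, u i < u (i + 1)) (hz : u a < z) (hz1 : z ≤ 1)
    (hus : ∀ i ≤ a, 0 < (-1) ^ i * (polP s k).eval (u i))
    (hzs : 0 < (-1) ^ (a + 1) * (polP s k).eval z) : AltL s k (a + 1) := by
  refine ⟨fun i => if i ≤ a then u i else z, by simpa using hu0, ?_, by simpa using hz1, ?_⟩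
  · intro i hi
    by_cases h1 : i + 1 ≤ a
    · simp only [h1, if_true, show i ≤ a by omega]
      exact hum i (by omega)
    · have hia : i = a := by omega
      subst hia
      simp only [le_refl, if_true, h1, if_false]
      exact hz
  · intro i hi
    by_cases h1 : i ≤ a
    · simp only [h1, if_true]; exact hus i h1
    · have hia : i = a + 1 := by omega
      subst hia
      simp only [h1, if_false]; exact hzs

lemma appendR {s : ℝ} {k b : ℕ} {u : ℕ → ℝ} {z : ℝ}
    (hum : ∀ i < b, u (i + 1) < u i) (hz : z < u b) (hz1 : 1 ≤ z)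
    (hus : ∀ i ≤ b, 0 < (-1) ^ (k + i) * (polP s k).eval (u i))
    (hzs : 0 < (-1) ^ (k + (b + 1)) * (polP s k).eval z) : AltR s k (b + 1) := by
  refine ⟨fun i => if i ≤ b then u i else z, by simpa using hz1, ?_, ?_⟩
  · intro i hi
    by_cases h1 : i + 1 ≤ b
    · simp only [h1, if_true, show i ≤ b by omega]
      exact hum i (by omega)
    · have hia : i = b := by omega
      subst hia
      simp only [le_refl, if_true, h1, if_false]
      exact hz
  · intro i hi
    by_cases h1 : i ≤ b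
    · simp only [h1, if_true]; exact hus i h1
    · have hia : i = b + 1 := by omega
      subst hia
      simp only [h1, if_false]; exact hzs

lemma AltL.step {s : ℝ} (hs : 0 < s) {k a : ℕ} (h : AltL s k a) : AltL s (k + 1) a := by
  obtain ⟨v, hv0, hvm, hv1, hvs⟩ := h
  obtain ⟨u, hu0, hum, hua, hus⟩ := propL hs hv0 hvm hvs
  exact ⟨u, hu0, hum, by linarith, hus⟩

lemma AltR.step {s : ℝ} (hs : 0 < s) {k b : ℕ} (h : AltR s k b) : AltR s (k + 1) b := by
  obtain ⟨w, hw1, hwm, hws⟩ := h
  obtain ⟨u, hum, hub, hus⟩ := propR hs (by linarith) hwm hws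
  exact ⟨u, by linarith, hum, hus⟩

/-- if `P_k(1) = 0` the count on the left increases -/
lemma AltL.step_zero {s : ℝ} (hs : 0 < s) {k a : ℕ} (h : AltL s k a)
    (h0 : (polP s k).eval 1 = 0) : AltL s (k + 1) (a + 1) := by
  obtain ⟨v, hv0, hvm, hv1, hvs⟩ := h
  obtain ⟨u, hu0, hum, hua, hus⟩ := propL hs hv0 hvm hvs
  have hva : v a < 1 := by
    refine lt_of_le_of_ne hv1 fun he => ?_
    have := hvs a le_rfl
    rw [he, h0] at this
    simp at this
  have hpos : 0 < v a := by
    have : ∀ i ≤ a, 0 < v i := by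
      intro i
      induction i with
      | zero => intro _; exact hv0
      | succ i ih => intro hi; exact (ih (by omega)).trans (hvm i (by omega))
    exact this a le_rfl
  have h1 := Hf_sign hs k hpos (hvs a le_rfl)
  obtain ⟨ξ, h3, h4, h5⟩ := mvt_H hs k hpos hva (σ := (-1) ^ (a + 1))
    (by rw [Hf_zero k h0, pow_succ]; linarith)
  exact appendL hu0 hum (by linarith) h4.le hus h5

/-- if `P_k(1) = 0` the count on the right increases -/
lemma AltR.step_zero {s : ℝ} (hs : 0 < s) {k b : ℕ} (h : AltR s k b)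
    (h0 : (polP s k).eval 1 = 0) : AltR s (k + 1) (b + 1) := by
  obtain ⟨w, hw1, hwm, hws⟩ := h
  obtain ⟨u, hum, hub, hus⟩ := propR hs (by linarith) hwm hws
  have hwb : 1 < w b := by
    refine lt_of_le_of_ne hw1 fun he => ?_
    have := hws b le_rfl
    rw [← he, h0] at this
    simp at this
  have h1 := Hf_sign hs k (by linarith) (hws b le_rfl)
  obtain ⟨ξ, h3, h4, h5⟩ := mvt_H hs k one_pos hwb (σ := (-1) ^ (k + b))
    (by rw [Hf_zero k h0]; linarith)
  refine appendR hum (by linarith) h3.le hus ?_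
  have e2 : (-1 : ℝ) ^ (k + 1 + (b + 1)) = (-1) ^ (k + b) := by
    rw [show k + 1 + (b + 1) = (k + b) + 2 by ring, pow_add]; norm_num
  rw [e2]; exact h5

/-- sign of `P_k(1)` when the counts are full -/
lemma sign_at_one {s : ℝ} (hs : 0 < s) {k a b : ℕ} (hL : AltL s k a) (hR : AltR s k b)
    (hab : a + b = k) (h0 : (polP s k).eval 1 ≠ 0) : 0 < (-1) ^ a * (polP s k).eval 1 := by
  by_contra hcon
  have h1 : 0 < (-1) ^ (a + 1) * (polP s k).eval 1 := by
    have h2 : (-1 : ℝ) ^ a * (polP s k).eval 1 ≠ 0 := mul_ne_zero (by positivity) h0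
    have h3 : (-1 : ℝ) ^ a * (polP s k).eval 1 < 0 := lt_of_le_of_ne (not_lt.mp hcon) h2
    rw [pow_succ]; linarith
  obtain ⟨v, hv0, hvm, hv1, hvs⟩ := hL
  have hva : v a < 1 := by
    refine lt_of_le_of_ne hv1 fun he => ?_
    have := hvs a le_rfl
    rw [he] at this
    exact hcon this
  have := constraint hs (appendL hv0 hvm hva le_rfl hvs h1) hR
  omega

/-- both counts are exact at every level -/
lemma exactness {s : ℝ} (hs : 0 < s) (k : ℕ) : ∃ a b, AltL s k a ∧ AltR s k b ∧
    (((polP s k).eval 1 ≠ 0 ∧ a + b = k) ∨ ((polP s k).eval 1 = 0 ∧ a + b + 1 = k)) := by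
  induction k with
  | zero =>
    refine ⟨0, 0, ⟨fun _ => 1, by norm_num, by intro i hi; omega, le_rfl, ?_⟩,
      ⟨fun _ => 1, le_rfl, by intro i hi; omega, ?_⟩, Or.inl ⟨by simp [polP], rfl⟩⟩
    · intro i hi
      have : i = 0 := by omega
      subst this
      simp [polP]
    · intro i hi
      have : i = 0 := by omega
      subst this
      simp [polP]
  | succ k ih =>
    obtain ⟨a, b, hL, hR, (⟨h0, hab⟩ | ⟨h0, hab⟩)⟩ := ih
    · by_cases h1 : (polP s (k + 1)).eval 1 = 0
      · exact ⟨a, b, hL.step hs, hR.step hs, Or.inr ⟨h1, by omega⟩⟩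
      · by_cases h2 : 0 < (-1) ^ a * (polP s (k + 1)).eval 1
        · obtain ⟨w, hw1, hwm, hws⟩ := hR
          obtain ⟨u, hum, hub, hus⟩ := propR hs (by linarith) hwm hws
          refine ⟨a, b + 1, hL.step hs, appendR hum (by linarith) le_rfl hus ?_, Or.inl ⟨h1, by omega⟩⟩
          have e : (-1 : ℝ) ^ (k + 1 + (b + 1)) = (-1) ^ a := by
            rw [show k + 1 + (b + 1) = a + 2 * (b + 1) by omega, pow_add, pow_mul]; norm_num
          rw [e]; exact h2
        · have h3 : 0 < (-1) ^ (a + 1) * (polP s (k + 1)).eval 1 := by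
            have h4 : (-1 : ℝ) ^ a * (polP s (k + 1)).eval 1 ≠ 0 := mul_ne_zero (by positivity) h1
            have h5 : (-1 : ℝ) ^ a * (polP s (k + 1)).eval 1 < 0 :=
              lt_of_le_of_ne (not_lt.mp h2) h4
            rw [pow_succ]; linarith
          obtain ⟨v, hv0, hvm, hv1, hvs⟩ := hL
          obtain ⟨u, hu0, hum, hua, hus⟩ := propL hs hv0 hvm hvs
          exact ⟨a + 1, b, appendL hu0 hum (by linarith) le_rfl hus h3, hR.step hs,
            Or.inl ⟨h1, by omega⟩⟩
    · have hL' := hL.step_zero hs h0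
      have hR' := hR.step_zero hs h0
      refine ⟨a + 1, b + 1, hL', hR', Or.inl ⟨fun h1 => ?_, by omega⟩⟩
      have := constraint hs (hL'.step_zero hs h1) (hR'.step_zero hs h1)
      omega

/-- **Sturm property** of the values at `1` -/
theorem sturm {s : ℝ} (hs : 0 < s) (k : ℕ) (h : (polP s (k + 1)).eval 1 = 0) :
    (polP s k).eval 1 * (polP s (k + 2)).eval 1 < 0 := by
  obtain ⟨a, b, hL, hR, (⟨h0, hab⟩ | ⟨h0, hab⟩)⟩ := exactness hs k
  · have s1 := sign_at_one hs hL hR hab h0
    have hL2 := (hL.step hs).step_zero hs h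
    have hR2 := (hR.step hs).step_zero hs h
    have h2 : (polP s (k + 1 + 1)).eval 1 ≠ 0 := by
      intro h1
      have := constraint hs (hL2.step_zero hs h1) (hR2.step_zero hs h1)
      omega
    have s2 := sign_at_one hs hL2 hR2 (by omega) h2
    exact prod_neg_of_signs s1 s2 ⟨a, by ring⟩
  · exfalso
    have hL' := hL.step_zero hs h0
    have hR' := hR.step_zero hs h0
    have := constraint hs (hL'.step_zero hs h) (hR'.step_zero hs h)
    omega

end

end Pool.Agent.H65.TB
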